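import Mathlib

/-! The functional volume product along the Fokker-Planck flow: estimates for two intervals. -/

set_option autoImplicit false

noncomputable section

open MeasureTheory Real Set
open scoped ENNReal

namespace Pool.Agent.X165.FP

/-- the polar function -/
def polar (f : ℝ → ℝ) (y : ℝ) : ℝ := ⨅ x : {x : ℝ // 0 < f x}, Real.exp (-(x * y)) / f x

/-- the functional volume product -/
def volProd (f : ℝ → ℝ) : ℝ≥0∞ :=
  (∫⁻ x, ENNReal.ofReal (f x)) * ∫⁻ y, ENNReal.ofReal (polar f y)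

/-- the Gaussian kernel -/
def K (r v x y : ℝ) : ℝ := (√(2 * π * v))⁻¹ * Real.exp (-(x - r * y) ^ 2 / (2 * v))

/-- the small mass -/
def w : ℝ := Real.exp (-30)

/-- the left interval -/
def S1 : Set ℝ := Icc (-1) (-1 + w)

/-- the right interval -/
def S2 : Set ℝ := Icc (3 / 4) 1

lemma w_pos : 0 < w := Real.exp_pos _

lemma w_lt : w < 1 / 4 := by
  have h1 : Real.exp (-30) < Real.exp (-2) := Real.exp_lt_exp.2 (by norm_num)
  have h2 : Real.exp (-2) = (Real.exp 2)⁻¹ := Real.exp_neg 2
  have h3 : (4 : ℝ) < Real.exp 2 := by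
    have h4 : Real.exp 2 = Real.exp 1 * Real.exp 1 := by rw [← Real.exp_add]; norm_num
    have := Real.exp_one_gt_d9
    nlinarith
  unfold w
  rw [h2] at h1
  refine h1.trans ?_
  rw [inv_lt_comm₀ (by positivity) (by norm_num)]
  linarith

lemma disj : Disjoint S1 S2 := by
  rw [Set.disjoint_left]
  rintro x ⟨-, h1⟩ ⟨h2, -⟩
  have := w_lt
  linarith

lemma vol1 : volume S1 = ENNReal.ofReal w := by
  unfold S1; rw [Real.volume_Icc]; congr 1; ring

lemma vol2 : volume S2 = ENNReal.ofReal (1 / 4) := by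
  unfold S2; rw [Real.volume_Icc]; congr 1; norm_num

lemma ms1 : MeasurableSet S1 := measurableSet_Icc
lemma ms2 : MeasurableSet S2 := measurableSet_Icc

lemma volS : volume (S1 ∪ S2) = ENNReal.ofReal (w + 1 / 4) := by
  rw [measure_union disj ms2, vol1, vol2, ENNReal.ofReal_add w_pos.le (by norm_num)]

/-- the function -/
def f (x : ℝ) : ℝ := (S1 ∪ S2).indicator (fun _ => (1 : ℝ)) x

/-- the evolved function -/
def u (r v x : ℝ) : ℝ := ∫ y, f y * K r v x y

lemma cont_K (r v : ℝ) : Continuous fun p : ℝ × ℝ => K r v p.1 p.2 := by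
  unfold K; fun_prop

lemma cont_Ky (r v x : ℝ) : Continuous fun y => K r v x y := by
  unfold K; fun_prop

lemma u_eq (r v x : ℝ) : u r v x = ∫ y in S1 ∪ S2, K r v x y := by
  unfold u f
  rw [← integral_indicator (ms1.union ms2)]
  refine integral_congr_ae (Filter.Eventually.of_forall fun y => ?_)
  by_cases hy : y ∈ S1 ∪ S2
  · simp [hy]
  · simp [hy]

lemma int_on (r v x : ℝ) {S : Set ℝ} (hS : S ⊆ Icc (-1) 1) : IntegrableOn (fun y => K r v x y) S := by
  exact ((cont_Ky r v x).continuousOn.integrableOn_Icc (a := -1) (b := 1)).mono_set hS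

lemma sub1 : S1 ⊆ Icc (-1) 1 := by
  intro x hx
  have := w_lt
  exact ⟨hx.1, by have := hx.2; linarith⟩

lemma sub2 : S2 ⊆ Icc (-1) 1 := fun x hx => ⟨by have := hx.1; linarith, hx.2⟩

lemma u_split (r v x : ℝ) : u r v x = (∫ y in S1, K r v x y) + ∫ y in S2, K r v x y := by
  rw [u_eq, setIntegral_union disj ms2 (int_on r v x sub1) (int_on r v x sub2)]

variable {r v : ℝ}

lemma K_pos (hv : 0 < v) (x y : ℝ) : 0 < K r v x y := by
  unfold K
  have := Real.pi_pos
  positivity

lemma K_int (hv : 0 < v) (y : ℝ) : ∫⁻ x, ENNReal.ofReal (K r v x y) = 1 := by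
  have h := ProbabilityTheory.lintegral_gaussianPDFReal_eq_one (r * y) (v := v.toNNReal)
    (by rw [Ne, Real.toNNReal_eq_zero]; linarith)
  rw [← h]
  refine lintegral_congr fun x => ?_
  unfold K ProbabilityTheory.gaussianPDFReal
  rw [Real.coe_toNNReal v hv.le]

/-- the mass is preserved -/
lemma mass (hv : 0 < v) : ∫⁻ x, ENNReal.ofReal (u r v x) = ENNReal.ofReal (w + 1 / 4) := by
  have h1 : ∀ x, ENNReal.ofReal (u r v x) = ∫⁻ y in S1 ∪ S2, ENNReal.ofReal (K r v x y) := by
    intro x
    rw [u_eq, ofReal_integral_eq_lintegral_ofReal]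
    · exact int_on r v x (Set.union_subset sub1 sub2)
    · exact Filter.Eventually.of_forall fun y => (K_pos hv x y).le
  simp_rw [h1]
  rw [lintegral_lintegral_swap]
  · simp_rw [K_int hv]
    rw [lintegral_one, Measure.restrict_apply_univ, volS]
  · exact (cont_K r v).measurable.ennreal_ofReal.aemeasurable

/-- upper bound for the tilted evolved function -/
lemma tilt (hr : 0 < r) (hv : 0 < v) {y : ℝ} (hy : y ≤ 0) (x : ℝ) :
    u r v x * Real.exp (x * y) ≤ (√(2 * π * v))⁻¹ * Real.exp (v * y ^ 2 / 2) *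
      (w * Real.exp (-(r * y)) + 1 / 4 * Real.exp (3 / 4 * (r * y))) := by
  have hpi := Real.pi_pos
  have key : ∀ s, K r v x s * Real.exp (x * y) ≤
      (√(2 * π * v))⁻¹ * Real.exp (v * y ^ 2 / 2) * Real.exp (r * s * y) := by
    intro s
    have e1 : K r v x s * Real.exp (x * y) =
        (√(2 * π * v))⁻¹ * Real.exp (-(x - r * s) ^ 2 / (2 * v) + x * y) := by
      rw [Real.exp_add]; unfold K; ring
    have e2 : (√(2 * π * v))⁻¹ * Real.exp (v * y ^ 2 / 2) * Real.exp (r * s * y) =
        (√(2 * π * v))⁻¹ * Real.exp (v * y ^ 2 / 2 + r * s * y) := by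
      rw [Real.exp_add]; ring
    rw [e1, e2]
    refine mul_le_mul_of_nonneg_left (Real.exp_le_exp.2 ?_) (by positivity)
    have h1 : v * y ^ 2 / 2 + r * s * y - (-(x - r * s) ^ 2 / (2 * v) + x * y) =
        (x - r * s - v * y) ^ 2 / (2 * v) := by
      field_simp
      ring
    have h2 : 0 ≤ (x - r * s - v * y) ^ 2 / (2 * v) := by positivity
    linarith
  obtain ⟨c, hc⟩ : ∃ c, c = (√(2 * π * v))⁻¹ * Real.exp (v * y ^ 2 / 2) := ⟨_, rfl⟩
  have hc0 : 0 < c := by rw [hc]; positivity
  rw [← hc] at key ⊢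
  have b1 : ∫ s in S1, K r v x s * Real.exp (x * y) ≤ c * Real.exp (-(r * y)) * w := by
    have h := norm_setIntegral_le_of_norm_le_const (μ := volume) (s := S1)
      (f := fun s => K r v x s * Real.exp (x * y)) (C := c * Real.exp (-(r * y)))
      (by rw [vol1]; exact ENNReal.ofReal_lt_top) (fun s hs => by
        rw [Real.norm_eq_abs, abs_of_nonneg (mul_nonneg (K_pos hv x s).le (Real.exp_pos _).le)]
        refine (key s).trans (mul_le_mul_of_nonneg_left (Real.exp_le_exp.2 ?_) hc0.le)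
        nlinarith [hs.1, mul_nonneg hr.le (neg_nonneg.2 hy)])
    rw [measureReal_def, vol1, ENNReal.toReal_ofReal w_pos.le] at h
    exact (Real.le_norm_self _).trans h
  have b2 : ∫ s in S2, K r v x s * Real.exp (x * y) ≤ c * Real.exp (3 / 4 * (r * y)) * (1 / 4) := by
    have h := norm_setIntegral_le_of_norm_le_const (μ := volume) (s := S2)
      (f := fun s => K r v x s * Real.exp (x * y)) (C := c * Real.exp (3 / 4 * (r * y)))
      (by rw [vol2]; exact ENNReal.ofReal_lt_top) (fun s hs => by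
        rw [Real.norm_eq_abs, abs_of_nonneg (mul_nonneg (K_pos hv x s).le (Real.exp_pos _).le)]
        refine (key s).trans (mul_le_mul_of_nonneg_left (Real.exp_le_exp.2 ?_) hc0.le)
        nlinarith [hs.1, mul_nonneg hr.le (neg_nonneg.2 hy)])
    rw [measureReal_def, vol2, ENNReal.toReal_ofReal (by norm_num)] at h
    exact (Real.le_norm_self _).trans h
  rw [u_split, add_mul, ← integral_mul_const, ← integral_mul_const]
  calc _ ≤ c * Real.exp (-(r * y)) * w + c * Real.exp (3 / 4 * (r * y)) * (1 / 4) := add_le_add b1 b2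
    _ = _ := by ring

/-- lower bound for the evolved function -/
lemma low (hr : 0 < r) (hv : 0 < v) (x : ℝ) :
    (w + 1 / 4) * ((√(2 * π * v))⁻¹ * Real.exp (-(|x| + r) ^ 2 / (2 * v))) ≤ u r v x := by
  have hpi := Real.pi_pos
  rw [u_eq]
  have h1 : (w + 1 / 4) * ((√(2 * π * v))⁻¹ * Real.exp (-(|x| + r) ^ 2 / (2 * v))) =
      ∫ y in S1 ∪ S2, (√(2 * π * v))⁻¹ * Real.exp (-(|x| + r) ^ 2 / (2 * v)) := by
    rw [setIntegral_const, measureReal_def, volS, ENNReal.toReal_ofReal (by linarith [w_pos]),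
      smul_eq_mul]
  rw [h1]
  refine setIntegral_mono_on ?_ (int_on r v x (Set.union_subset sub1 sub2)) (ms1.union ms2)
    fun y hy => ?_
  · rw [integrableOn_const_iff]
    right
    rw [volS]
    exact ENNReal.ofReal_lt_top
  · have hy' := Set.union_subset sub1 sub2 hy
    unfold K
    refine mul_le_mul_of_nonneg_left (Real.exp_le_exp.2 ?_) (by positivity)
    rw [div_le_div_iff_of_pos_right (by positivity)]
    have h2 : |x - r * y| ≤ |x| + r := by
      refine (abs_sub _ _).trans ?_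
      have h3 : |r * y| ≤ r := by
        rw [abs_mul, abs_of_pos hr]
        have : |y| ≤ 1 := abs_le.2 ⟨by linarith [hy'.1], hy'.2⟩
        nlinarith [abs_nonneg y]
      linarith
    have h3 : (x - r * y) ^ 2 ≤ (|x| + r) ^ 2 := by
      rw [← sq_abs (x - r * y)]
      exact pow_le_pow_left₀ (abs_nonneg _) h2 2
    linarith

lemma u_pos (hr : 0 < r) (hv : 0 < v) (x : ℝ) : 0 < u r v x := by
  have hpi := Real.pi_pos
  have := w_pos
  exact lt_of_lt_of_le (by positivity) (low hr hv x)

end Pool.Agent.X165.FP
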