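import Mathlib
import Pool.Agent.X165.FP1

/-! The functional volume product along the Fokker-Planck flow: the two values. -/

set_option autoImplicit false

noncomputable section

open MeasureTheory Real Set
open scoped ENNReal

namespace Pool.Agent.X165.FP

lemma exp_neg_two : Real.exp (-2) < 1 / 4 := by
  rw [Real.exp_neg]
  have h3 : (4 : ℝ) < Real.exp 2 := by
    have h4 : Real.exp 2 = Real.exp 1 * Real.exp 1 := by rw [← Real.exp_add]; norm_num
    have := Real.exp_one_gt_d9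
    nlinarith
  rw [inv_lt_comm₀ (by positivity) (by norm_num)]
  linarith

/-- the early value is large -/
lemma early : ENNReal.ofReal 34 ≤ volProd (u (24 / 25) (49 / 625)) := by
  have hpi := Real.pi_pos
  have hv : (0 : ℝ) < 49 / 625 := by norm_num
  have hr : (0 : ℝ) < 24 / 25 := by norm_num
  obtain ⟨s, hs⟩ : ∃ s, s = √(2 * π * (49 / 625)) := ⟨_, rfl⟩
  have hs0 : 0 < s := by rw [hs]; positivity
  have hs1 : 7 / 10 ≤ s := by
    rw [hs]
    refine Real.le_sqrt_of_sq_le ?_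
    have := Real.pi_gt_d2
    norm_num
    linarith
  have hpol : ∀ y ∈ Icc (-12 : ℝ) (-7), 2 * s * Real.exp (299 / 100) ≤
      polar (u (24 / 25) (49 / 625)) y := by
    intro y hy
    unfold polar
    have : Nonempty {x : ℝ // 0 < u (24 / 25) (49 / 625) x} := ⟨⟨0, u_pos hr hv 0⟩⟩
    refine le_ciInf fun x => ?_
    have h1 := tilt hr hv (y := y) (by linarith [hy.2]) x
    have h2 : w * Real.exp (-(24 / 25 * y)) ≤ 1 / 4 * Real.exp (3 / 4 * (24 / 25 * y)) := by
      have e1 : w * Real.exp (-(24 / 25 * y)) =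
          Real.exp (-30 - 42 / 25 * y) * Real.exp (3 / 4 * (24 / 25 * y)) := by
        unfold w; rw [← Real.exp_add, ← Real.exp_add]; congr 1; ring
      rw [e1]
      refine mul_le_mul_of_nonneg_right ?_ (Real.exp_pos _).le
      refine le_trans (Real.exp_le_exp.2 ?_) exp_neg_two.le
      linarith [hy.1]
    have h3 : (49 / 625 : ℝ) * y ^ 2 / 2 + 3 / 4 * (24 / 25 * y) ≤ -(299 / 100) := by
      nlinarith [mul_nonneg (sub_nonneg.2 hy.1) (sub_nonneg.2 hy.2), hy.1, hy.2]
    rw [← hs] at h1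
    have h4 : u (24 / 25) (49 / 625) x * Real.exp (x * y) ≤
        s⁻¹ * (1 / 2) * Real.exp (-(299 / 100)) := by
      refine h1.trans ?_
      calc s⁻¹ * Real.exp (49 / 625 * y ^ 2 / 2) *
            (w * Real.exp (-(24 / 25 * y)) + 1 / 4 * Real.exp (3 / 4 * (24 / 25 * y)))
          ≤ s⁻¹ * Real.exp (49 / 625 * y ^ 2 / 2) *
            (1 / 4 * Real.exp (3 / 4 * (24 / 25 * y)) + 1 / 4 * Real.exp (3 / 4 * (24 / 25 * y))) := by
            refine mul_le_mul_of_nonneg_left ?_ (by positivity)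
            linarith
        _ = s⁻¹ * (1 / 2) * Real.exp (49 / 625 * y ^ 2 / 2 + 3 / 4 * (24 / 25 * y)) := by
            rw [Real.exp_add]; ring
        _ ≤ _ := mul_le_mul_of_nonneg_left (Real.exp_le_exp.2 h3) (by positivity)
    rw [le_div_iff₀ x.2]
    have h5 : 2 * s * Real.exp (299 / 100) * (u (24 / 25) (49 / 625) x * Real.exp (x * y)) ≤ 1 := by
      calc _ ≤ 2 * s * Real.exp (299 / 100) * (s⁻¹ * (1 / 2) * Real.exp (-(299 / 100))) :=
            mul_le_mul_of_nonneg_left h4 (by positivity)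
        _ = s * s⁻¹ * (Real.exp (299 / 100) * Real.exp (-(299 / 100))) := by ring
        _ = 1 := by rw [← Real.exp_add, mul_inv_cancel₀ hs0.ne']; norm_num
    have h6 : 2 * s * Real.exp (299 / 100) * u (24 / 25) (49 / 625) x =
        (2 * s * Real.exp (299 / 100) * (u (24 / 25) (49 / 625) x * Real.exp (x * y))) *
          Real.exp (-(x * y)) := by
      have : Real.exp ((x : ℝ) * y) * Real.exp (-((x : ℝ) * y)) = 1 := by
        rw [← Real.exp_add]; simp
      linear_combination (-(2 * s * Real.exp (299 / 100) * u (24 / 25) (49 / 625) x)) * this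
    rw [h6]
    exact mul_le_of_le_one_left (Real.exp_pos _).le h5
  have hint : ENNReal.ofReal (10 * s * Real.exp (299 / 100)) ≤
      ∫⁻ y, ENNReal.ofReal (polar (u (24 / 25) (49 / 625)) y) := by
    calc ENNReal.ofReal (10 * s * Real.exp (299 / 100))
        = ∫⁻ _ in Icc (-12 : ℝ) (-7), ENNReal.ofReal (2 * s * Real.exp (299 / 100)) := by
          rw [setLIntegral_const, Real.volume_Icc, ← ENNReal.ofReal_mul (by positivity)]
          congr 1
          ring
      _ ≤ ∫⁻ y in Icc (-12 : ℝ) (-7), ENNReal.ofReal (polar (u (24 / 25) (49 / 625)) y) :=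
          setLIntegral_mono' measurableSet_Icc fun y hy => ENNReal.ofReal_le_ofReal (hpol y hy)
      _ ≤ _ := setLIntegral_le_lintegral _ _
  unfold volProd
  rw [mass hv]
  refine le_trans ?_ (mul_le_mul_right hint _)
  rw [← ENNReal.ofReal_mul (by linarith [w_pos])]
  refine ENNReal.ofReal_le_ofReal ?_
  have h7 : (19.8 : ℝ) ≤ Real.exp (299 / 100) := by
    have h8 : Real.exp (299 / 100) = Real.exp 1 * Real.exp 1 * Real.exp 1 * Real.exp (-(1 / 100)) := by
      rw [← Real.exp_add, ← Real.exp_add, ← Real.exp_add]; norm_num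
    have h9 := Real.exp_one_gt_d9
    have h10 : (0.99 : ℝ) ≤ Real.exp (-(1 / 100)) := by
      have := Real.add_one_le_exp (-(1 / 100) : ℝ)
      norm_num at this ⊢
      linarith
    have h11 : (20.07 : ℝ) ≤ Real.exp 1 * Real.exp 1 * Real.exp 1 := by nlinarith
    rw [h8]
    nlinarith
  have h12 : (w + 1 / 4) * (10 * s * Real.exp (299 / 100)) ≥
      1 / 4 * (10 * (7 / 10) * 19.8) := by
    have := w_pos
    gcongr
    linarith
  refine le_trans ?_ h12
  norm_num

/-- the late value is small -/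
lemma late : volProd (u (1 / 2) (3 / 4)) ≤ ENNReal.ofReal 21 := by
  have hpi := Real.pi_pos
  have hv : (0 : ℝ) < 3 / 4 := by norm_num
  have hr : (0 : ℝ) < 1 / 2 := by norm_num
  obtain ⟨s, hs⟩ : ∃ s, s = √(2 * π * (3 / 4)) := ⟨_, rfl⟩
  have hs0 : 0 < s := by rw [hs]; positivity
  obtain ⟨m, hm⟩ : ∃ m, m = w + 1 / 4 := ⟨_, rfl⟩
  have hm0 : 0 < m := by rw [hm]; linarith [w_pos]
  have hpol : ∀ y, polar (u (1 / 2) (3 / 4)) y ≤ s / m * Real.exp (2 / 3) *
      Real.exp (-(1 / 4) * y ^ 2) := by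
    intro y
    unfold polar
    have hb : BddBelow (range fun x : {x : ℝ // 0 < u (1 / 2) (3 / 4) x} =>
        Real.exp (-(x * y)) / u (1 / 2) (3 / 4) x) := by
      refine ⟨0, ?_⟩
      rintro _ ⟨x, rfl⟩
      exact div_nonneg (Real.exp_pos _).le x.2.le
    refine (ciInf_le hb ⟨3 / 4 * y, u_pos hr hv _⟩).trans ?_
    show Real.exp (-(3 / 4 * y * y)) / u (1 / 2) (3 / 4) (3 / 4 * y) ≤ _
    have h1 := low hr hv (3 / 4 * y)
    rw [← hs, ← hm] at h1
    rw [div_le_iff₀ (u_pos hr hv _)]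
    have h2 : Real.exp (-(3 / 4 * y * y)) ≤ s / m * Real.exp (2 / 3) * Real.exp (-(1 / 4) * y ^ 2) *
        (m * (s⁻¹ * Real.exp (-(|3 / 4 * y| + 1 / 2) ^ 2 / (2 * (3 / 4))))) := by
      have e : s / m * Real.exp (2 / 3) * Real.exp (-(1 / 4) * y ^ 2) *
        (m * (s⁻¹ * Real.exp (-(|3 / 4 * y| + 1 / 2) ^ 2 / (2 * (3 / 4))))) =
        Real.exp (2 / 3 + -(1 / 4) * y ^ 2 + -(|3 / 4 * y| + 1 / 2) ^ 2 / (2 * (3 / 4))) := by
        rw [Real.exp_add, Real.exp_add]
        field_simp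
      rw [e]
      refine Real.exp_le_exp.2 ?_
      rw [abs_mul, abs_of_pos (by norm_num : (0 : ℝ) < 3 / 4)]
      have h3 : |y| ^ 2 = y ^ 2 := sq_abs y
      have h4 : (2 / 3 + -(1 / 4) * y ^ 2 + -(3 / 4 * |y| + 1 / 2) ^ 2 / (2 * (3 / 4))) -
          -(3 / 4 * y * y) = (|y| - 2) ^ 2 / 8 := by
        have h5 : y * y = |y| ^ 2 := by rw [h3]; ring
        rw [← h3, mul_assoc, h5]
        ring
      have h6 := sq_nonneg (|y| - 2)
      linarith
    refine h2.trans (mul_le_mul_of_nonneg_left h1 (by positivity))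
  have hint : ∫⁻ y, ENNReal.ofReal (polar (u (1 / 2) (3 / 4)) y) ≤
      ENNReal.ofReal (s / m * Real.exp (2 / 3) * √(π / (1 / 4))) := by
    calc ∫⁻ y, ENNReal.ofReal (polar (u (1 / 2) (3 / 4)) y)
        ≤ ∫⁻ y : ℝ, ENNReal.ofReal (s / m * Real.exp (2 / 3) * Real.exp (-(1 / 4) * y ^ 2)) :=
          lintegral_mono fun y => ENNReal.ofReal_le_ofReal (hpol y)
      _ = ENNReal.ofReal (∫ y : ℝ, s / m * Real.exp (2 / 3) * Real.exp (-(1 / 4) * y ^ 2)) := by
          rw [ofReal_integral_eq_lintegral_ofReal]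
          · exact (integrable_exp_neg_mul_sq (by norm_num)).const_mul _
          · exact Filter.Eventually.of_forall fun y => by positivity
      _ = _ := by rw [integral_const_mul, integral_gaussian]
  unfold volProd
  rw [mass hv, ← hm]
  refine (mul_le_mul_right hint _).trans ?_
  rw [← ENNReal.ofReal_mul hm0.le]
  refine ENNReal.ofReal_le_ofReal ?_
  have e1 : m * (s / m * Real.exp (2 / 3) * √(π / (1 / 4))) = s * √(π / (1 / 4)) * Real.exp (2 / 3) := by
    field_simp
  rw [e1, hs, ← Real.sqrt_mul (by positivity)]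
  have h5 : √(2 * π * (3 / 4) * (π / (1 / 4))) ≤ 7.7 := by
    refine Real.sqrt_le_iff.2 ⟨by norm_num, ?_⟩
    have h6 := Real.pi_lt_d4
    nlinarith
  have h7 : Real.exp (2 / 3) ≤ 2.7183 := by
    have h8 : Real.exp (2 / 3) ≤ Real.exp 1 := Real.exp_le_exp.2 (by norm_num)
    have h9 := Real.exp_one_lt_d9
    linarith
  calc √(2 * π * (3 / 4) * (π / (1 / 4))) * Real.exp (2 / 3) ≤ 7.7 * 2.7183 := by gcongr
    _ ≤ 21 := by norm_num

end Pool.Agent.X165.FP
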