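import Mathlib
import Pool.Agent.X165.FP2

/-! The Fokker-Planck equation for the evolved function, and the polar of the initial one. -/

set_option autoImplicit false

noncomputable section

open MeasureTheory Real Set Filter
open scoped ENNReal Topology

namespace Pool.Agent.X165.FP

/-- the Gaussian primitive -/
def G (z : ℝ) : ℝ := ∫ s in (0 : ℝ)..z, Real.exp (-s ^ 2 / 2)

lemma G_deriv (z : ℝ) : HasDerivAt G (Real.exp (-z ^ 2 / 2)) z := by
  have hc : Continuous fun s : ℝ => Real.exp (-s ^ 2 / 2) := by fun_prop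
  exact intervalIntegral.integral_hasDerivAt_right (hc.intervalIntegrable _ _)
    (hc.stronglyMeasurableAtFilter _ _) hc.continuousAt

/-- the solution with initial datum a multiple of a Heaviside function -/
def T (a t x : ℝ) : ℝ :=
  Real.exp t * (√(2 * π))⁻¹ * G ((x - Real.exp (-t) * a) / √(1 - Real.exp (-2 * t)))

lemma sig_pos {t : ℝ} (ht : 0 < t) : 0 < 1 - Real.exp (-2 * t) := by
  have : Real.exp (-2 * t) < 1 := by rw [Real.exp_lt_one_iff]; linarith
  linarith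

/-- the space derivative -/
def Tx (a t x : ℝ) : ℝ :=
  Real.exp t * (√(2 * π))⁻¹ * (Real.exp (-((x - Real.exp (-t) * a) / √(1 - Real.exp (-2 * t))) ^ 2 / 2) *
    (1 / √(1 - Real.exp (-2 * t))))

/-- the second space derivative -/
def Txx (a t x : ℝ) : ℝ :=
  -(Tx a t x * ((x - Real.exp (-t) * a) / (1 - Real.exp (-2 * t))))

lemma T_x (a t x : ℝ) : HasDerivAt (T a t) (Tx a t x) x := by
  have h1 : HasDerivAt (fun x => (x - Real.exp (-t) * a) / √(1 - Real.exp (-2 * t)))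
      (1 / √(1 - Real.exp (-2 * t))) x := ((hasDerivAt_id x).sub_const _).div_const _
  have h2 := (G_deriv ((x - Real.exp (-t) * a) / √(1 - Real.exp (-2 * t)))).comp x h1
  exact h2.const_mul _

lemma T_xx {t : ℝ} (ht : 0 < t) (a x : ℝ) : HasDerivAt (Tx a t) (Txx a t x) x := by
  have hs := sig_pos ht
  obtain ⟨σ, hσ⟩ : ∃ σ, σ = √(1 - Real.exp (-2 * t)) := ⟨_, rfl⟩
  have hσ2 : σ ^ 2 = 1 - Real.exp (-2 * t) := by rw [hσ]; exact Real.sq_sqrt hs.le
  have hσ0 : σ ≠ 0 := by rw [hσ]; exact (Real.sqrt_pos.2 hs).ne'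
  have h1 : HasDerivAt (fun x => (x - Real.exp (-t) * a) / σ) (1 / σ) x :=
    ((hasDerivAt_id x).sub_const _).div_const _
  have h2 : HasDerivAt (fun x => Real.exp (-((x - Real.exp (-t) * a) / σ) ^ 2 / 2))
      (Real.exp (-((x - Real.exp (-t) * a) / σ) ^ 2 / 2) *
        (-(2 * ((x - Real.exp (-t) * a) / σ) * (1 / σ)) / 2)) x := by
    have h3 := ((h1.pow 2).neg.div_const 2).exp
    refine h3.congr_deriv ?_
    simp
  have h4 := (h2.mul_const (1 / σ)).const_mul (Real.exp t * (√(2 * π))⁻¹)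
  have e : Tx a t = fun x => Real.exp t * (√(2 * π))⁻¹ *
      (Real.exp (-((x - Real.exp (-t) * a) / σ) ^ 2 / 2) * (1 / σ)) := by
    funext x; unfold Tx; rw [← hσ]
  rw [e]
  refine h4.congr_deriv ?_
  unfold Txx
  rw [← hσ2, e]
  field_simp

lemma T_t {t : ℝ} (ht : 0 < t) (a x : ℝ) :
    HasDerivAt (fun s => T a s x) (Txx a t x + (T a t x + x * Tx a t x)) t := by
  have hs := sig_pos ht
  obtain ⟨σ, hσ⟩ : ∃ σ, σ = √(1 - Real.exp (-2 * t)) := ⟨_, rfl⟩
  have hσ2 : σ ^ 2 = 1 - Real.exp (-2 * t) := by rw [hσ]; exact Real.sq_sqrt hs.le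
  have hσ0 : σ ≠ 0 := by rw [hσ]; exact (Real.sqrt_pos.2 hs).ne'
  obtain ⟨r, hr⟩ : ∃ r, r = Real.exp (-t) := ⟨_, rfl⟩
  have hr2 : Real.exp (-2 * t) = r ^ 2 := by
    rw [hr, ← Real.exp_nat_mul]; congr 1; push_cast; ring
  have h1 : HasDerivAt (fun s => Real.exp (-s)) (-r) t := by
    refine (hasDerivAt_neg t).exp.congr_deriv ?_
    rw [hr]; ring
  have h2 : HasDerivAt (fun s => 1 - Real.exp (-2 * s)) (2 * r ^ 2) t := by
    refine ((((hasDerivAt_id t).const_mul (-2)).exp).const_sub 1).congr_deriv ?_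
    simp only [id]
    rw [hr2]; ring
  have h3 : HasDerivAt (fun s => √(1 - Real.exp (-2 * s))) (2 * r ^ 2 / (2 * σ)) t := by
    rw [hσ]; exact h2.sqrt hs.ne'
  have h4 : HasDerivAt (fun s => (x - Real.exp (-s) * a) / √(1 - Real.exp (-2 * s)))
      ((r * a * σ - (x - r * a) * (2 * r ^ 2 / (2 * σ))) / σ ^ 2) t := by
    have h5 : HasDerivAt (fun s => x - Real.exp (-s) * a) (r * a) t := by
      refine ((h1.mul_const a).const_sub x).congr_deriv ?_
      ring
    have h6 := h5.div h3 (by rw [← hσ]; exact hσ0)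
    rw [← hσ, ← hr] at h6
    exact h6
  have h7 := (G_deriv ((x - Real.exp (-t) * a) / √(1 - Real.exp (-2 * t)))).comp t h4
  have h8 := ((Real.hasDerivAt_exp t).mul_const ((√(2 * π))⁻¹)).mul h7
  have e : (fun s => T a s x) = fun s => Real.exp s * (√(2 * π))⁻¹ *
      (G ∘ fun s => (x - Real.exp (-s) * a) / √(1 - Real.exp (-2 * s))) s := by
    funext s; rfl
  rw [e]
  refine h8.congr_deriv ?_
  unfold Txx T Tx
  rw [← hσ, ← hσ2, ← hr]
  simp only [Function.comp]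
  rw [← hσ, ← hr]
  have hrel : σ ^ 2 = 1 - r ^ 2 := by rw [hσ2, hr2]
  obtain ⟨g, hg⟩ : ∃ g, g = Real.exp (-((x - r * a) / σ) ^ 2 / 2) := ⟨_, rfl⟩
  rw [← hg]
  obtain ⟨gg, hgg⟩ : ∃ gg, gg = G ((x - r * a) / σ) := ⟨_, rfl⟩
  rw [← hgg]
  have key : -(1 / σ * ((x - r * a) / σ ^ 2)) + x * (1 / σ) =
      (r * a * σ - (x - r * a) * (2 * r ^ 2 / (2 * σ))) / σ ^ 2 := by
    field_simp
    rw [hrel]
    ring
  rw [← key]
  ring

end Pool.Agent.X165.FP
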