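import Mathlib
import Pool.Agent.X165.FP3

/-! The Fokker-Planck flow of the example; its polar function. -/

set_option autoImplicit false

noncomputable section

open MeasureTheory Real Set Filter
open scoped ENNReal Topology

namespace Pool.Agent.X165.FP

lemma K_integral {t : ℝ} (ht : 0 < t) {a b : ℝ} (hab : a ≤ b) (x : ℝ) :
    ∫ y in Icc a b, K (Real.exp (-t)) (1 - Real.exp (-2 * t)) x y = T a t x - T b t x := by
  have hs := sig_pos ht
  have hpi := Real.pi_pos
  obtain ⟨σ, hσ⟩ : ∃ σ, σ = √(1 - Real.exp (-2 * t)) := ⟨_, rfl⟩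
  have hσ2 : σ ^ 2 = 1 - Real.exp (-2 * t) := by rw [hσ]; exact Real.sq_sqrt hs.le
  have hσ0 : 0 < σ := by rw [hσ]; exact Real.sqrt_pos.2 hs
  obtain ⟨r, hr⟩ : ∃ r, r = Real.exp (-t) := ⟨_, rfl⟩
  have her : Real.exp t * r = 1 := by rw [hr, ← Real.exp_add]; simp
  have hder : ∀ y ∈ uIcc a b, HasDerivAt (fun y => -T y t x)
      (K (Real.exp (-t)) (1 - Real.exp (-2 * t)) x y) y := by
    intro y _
    have h1 : HasDerivAt (fun y => (x - r * y) / σ) (-r / σ) y := by
      refine ((((hasDerivAt_id y).const_mul r).const_sub x).div_const σ).congr_deriv ?_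
      ring
    have h2 := (G_deriv ((x - r * y) / σ)).comp y h1
    have h3 := (h2.const_mul (Real.exp t * (√(2 * π))⁻¹)).neg
    have e : (fun y => -T y t x) = fun y => -(Real.exp t * (√(2 * π))⁻¹ *
        (G ∘ fun y => (x - r * y) / σ) y) := by
      funext y; unfold T; rw [← hσ, ← hr]; rfl
    rw [e]
    refine h3.congr_deriv ?_
    unfold K
    rw [← hσ2, ← hr]
    have e2 : √(2 * π * σ ^ 2) = √(2 * π) * σ := by
      rw [Real.sqrt_mul (by positivity), Real.sqrt_sq hσ0.le]
    have e3 : -((x - r * y) / σ) ^ 2 / 2 = -(x - r * y) ^ 2 / (2 * σ ^ 2) := by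
      field_simp
    rw [e2, e3, mul_inv]
    have h4 : √(2 * π) ≠ 0 := by positivity
    obtain ⟨g, hg⟩ : ∃ g, g = Real.exp (-(x - r * y) ^ 2 / (2 * σ ^ 2)) := ⟨_, rfl⟩
    rw [← hg]
    have h5 : -(Real.exp t * (√(2 * π))⁻¹ * (g * (-r / σ))) =
        (Real.exp t * r) * ((√(2 * π))⁻¹ * σ⁻¹ * g) := by ring
    rw [h5, her, one_mul]
  rw [integral_Icc_eq_integral_Ioc, ← intervalIntegral.integral_of_le hab,
    intervalIntegral.integral_eq_sub_of_hasDerivAt hder
      ((cont_Ky _ _ x).intervalIntegrable _ _)]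
  ring

/-- the evolved function in closed form -/
lemma u_closed {t : ℝ} (ht : 0 < t) (x : ℝ) :
    u (Real.exp (-t)) (1 - Real.exp (-2 * t)) x =
      T (-1) t x - T (-1 + w) t x + (T (3 / 4) t x - T 1 t x) := by
  rw [u_split]
  unfold S1 S2
  rw [K_integral ht (by linarith [w_pos]), K_integral ht (by norm_num)]

lemma G_neg (z : ℝ) : G (-z) = -G z := by
  have h := intervalIntegral.integral_comp_neg (fun s : ℝ => Real.exp (-s ^ 2 / 2)) (a := 0) (b := z)
  simp only [neg_sq, neg_zero] at h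
  unfold G
  rw [h, intervalIntegral.integral_symm]

lemma G_atTop : Tendsto G atTop (𝓝 (√(2 * π) / 2)) := by
  have hint : IntegrableOn (fun s : ℝ => Real.exp (-s ^ 2 / 2)) (Ioi 0) := by
    have h := (integrable_exp_neg_mul_sq (by norm_num : (0 : ℝ) < 1 / 2)).integrableOn (s := Ioi 0)
    refine h.congr_fun (fun s _ => ?_) measurableSet_Ioi
    simp only
    congr 1
    ring
  have h := intervalIntegral_tendsto_integral_Ioi 0 hint tendsto_id
  have e : ∫ s in Ioi (0 : ℝ), Real.exp (-s ^ 2 / 2) = √(2 * π) / 2 := by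
    have h2 := integral_gaussian_Ioi (1 / 2)
    have h3 : ∫ s in Ioi (0 : ℝ), Real.exp (-s ^ 2 / 2) = ∫ s in Ioi (0 : ℝ), Real.exp (-(1 / 2) * s ^ 2) := by
      refine integral_congr_ae (Eventually.of_forall fun s => ?_)
      simp only
      congr 1
      ring
    rw [h3, h2]
    congr 2
    ring
  rw [e] at h
  exact h

lemma T_lim {a x : ℝ} (h : x ≠ a) :
    Tendsto (fun t => T a t x) (𝓝[>] 0) (𝓝 (if a < x then 1 / 2 else -(1 / 2))) := by
  have hpi := Real.pi_pos
  have h1 : Tendsto (fun t : ℝ => x - Real.exp (-t) * a) (𝓝[>] 0) (𝓝 (x - a)) := by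
    have hc : Continuous fun t : ℝ => x - Real.exp (-t) * a := by fun_prop
    have := hc.tendsto 0
    simp at this
    exact this.mono_left nhdsWithin_le_nhds
  have h2 : Tendsto (fun t : ℝ => (√(1 - Real.exp (-2 * t)))⁻¹) (𝓝[>] 0) atTop := by
    refine tendsto_inv_nhdsGT_zero.comp ?_
    refine tendsto_nhdsWithin_iff.2 ⟨?_, ?_⟩
    · have hc : Continuous fun t : ℝ => √(1 - Real.exp (-2 * t)) := by fun_prop
      have := hc.tendsto 0
      have e : √(1 - Real.exp (-2 * (0:ℝ))) = 0 := by simp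
      rw [e] at this
      exact this.mono_left nhdsWithin_le_nhds
    · filter_upwards [self_mem_nhdsWithin] with t ht
      exact Real.sqrt_pos.2 (sig_pos ht)
  have h3 : Tendsto (fun t : ℝ => Real.exp t * (√(2 * π))⁻¹) (𝓝[>] 0) (𝓝 ((√(2 * π))⁻¹)) := by
    have hc : Continuous fun t : ℝ => Real.exp t * (√(2 * π))⁻¹ := by fun_prop
    have := hc.tendsto 0
    rw [Real.exp_zero, one_mul] at this
    exact this.mono_left nhdsWithin_le_nhds
  have h4 : √(2 * π) ≠ 0 := by positivity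
  rcases lt_or_gt_of_ne h with hx | hx
  · rw [if_neg (by linarith)]
    have h5 : Tendsto (fun t : ℝ => -(x - Real.exp (-t) * a) * (√(1 - Real.exp (-2 * t)))⁻¹) (𝓝[>] 0)
        atTop := by
      refine Tendsto.pos_mul_atTop (C := -(x - a)) (by linarith) h1.neg h2
    have h6 := h3.mul ((G_atTop.comp h5).neg)
    have e : (√(2 * π))⁻¹ * -(√(2 * π) / 2) = -(1 / 2) := by field_simp
    rw [e] at h6
    refine h6.congr fun t => ?_
    unfold T
    simp only [Function.comp]
    rw [← G_neg, div_eq_mul_inv]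
    congr 2
    ring
  · rw [if_pos hx]
    have h5 : Tendsto (fun t : ℝ => (x - Real.exp (-t) * a) * (√(1 - Real.exp (-2 * t)))⁻¹) (𝓝[>] 0)
        atTop := by
      refine Tendsto.pos_mul_atTop (C := x - a) (by linarith) h1 h2
    have h6 := h3.mul (G_atTop.comp h5)
    have e : (√(2 * π))⁻¹ * (√(2 * π) / 2) = 1 / 2 := by field_simp
    rw [e] at h6
    refine h6.congr fun t => ?_
    unfold T
    simp only [Function.comp, div_eq_mul_inv]

lemma u_lim {x : ℝ} (h1 : x ≠ -1) (h2 : x ≠ -1 + w) (h3 : x ≠ 3 / 4) (h4 : x ≠ 1) :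
    Tendsto (fun t => u (Real.exp (-t)) (1 - Real.exp (-2 * t)) x) (𝓝[>] 0) (𝓝 (f x)) := by
  have h := ((T_lim h1).sub (T_lim h2)).add ((T_lim h3).sub (T_lim h4))
  have e : ((if -1 < x then 1 / 2 else -(1 / 2)) - (if -1 + w < x then 1 / 2 else -(1 / 2)) +
      ((if 3 / 4 < x then 1 / 2 else -(1 / 2)) - (if 1 < x then 1 / 2 else -(1 / 2))) : ℝ) = f x := by
    have hw := w_pos
    have hw2 := w_lt
    unfold f
    by_cases c1 : x < -1
    · have hn : x ∉ S1 ∪ S2 := by
        rintro (⟨h, -⟩ | ⟨h, -⟩) <;> linarith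
      rw [indicator_of_notMem hn, if_neg (by linarith), if_neg (by linarith), if_neg (by linarith),
        if_neg (by linarith)]
      norm_num
    by_cases c2 : x < -1 + w
    · have hn : x ∈ S1 ∪ S2 := Or.inl ⟨by linarith, c2.le⟩
      have c1' : -1 < x := lt_of_le_of_ne (not_lt.1 c1) (Ne.symm h1)
      rw [indicator_of_mem hn, if_pos c1', if_neg (by linarith), if_neg (by linarith),
        if_neg (by linarith)]
      norm_num
    have c2' : -1 + w < x := lt_of_le_of_ne (not_lt.1 c2) (Ne.symm h2)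
    by_cases c3 : x < 3 / 4
    · have hn : x ∉ S1 ∪ S2 := by
        rintro (⟨-, h⟩ | ⟨h, -⟩) <;> linarith
      rw [indicator_of_notMem hn, if_pos (by linarith), if_pos c2', if_neg (by linarith),
        if_neg (by linarith)]
      norm_num
    have c3' : 3 / 4 < x := lt_of_le_of_ne (not_lt.1 c3) (Ne.symm h3)
    by_cases c4 : x < 1
    · have hn : x ∈ S1 ∪ S2 := Or.inr ⟨c3'.le, c4.le⟩
      rw [indicator_of_mem hn, if_pos (by linarith), if_pos c2', if_pos c3', if_neg (by linarith)]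
      norm_num
    · have c4' : 1 < x := lt_of_le_of_ne (not_lt.1 c4) (Ne.symm h4)
      have hn : x ∉ S1 ∪ S2 := by
        rintro (⟨-, h⟩ | ⟨-, h⟩) <;> linarith
      rw [indicator_of_notMem hn, if_pos (by linarith), if_pos c2', if_pos c3', if_pos c4']
      norm_num
  rw [e] at h
  refine h.congr' ?_
  filter_upwards [self_mem_nhdsWithin] with t ht
  exact (u_closed ht x).symm

/-- the polar function of the initial function -/
lemma polar_f (y : ℝ) : polar f y = Real.exp (-|y|) := by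
  have hw := w_pos
  have hw2 := w_lt
  have hf : ∀ x, 0 < f x → x ∈ S1 ∪ S2 := by
    intro x hx
    by_contra hn
    unfold f at hx
    rw [indicator_of_notMem hn] at hx
    exact lt_irrefl _ hx
  have hf1 : ∀ x ∈ S1 ∪ S2, f x = 1 := fun x hx => by unfold f; rw [indicator_of_mem hx]
  have m1 : (1 : ℝ) ∈ S1 ∪ S2 := Or.inr ⟨by norm_num, le_rfl⟩
  have m2 : (-1 : ℝ) ∈ S1 ∪ S2 := Or.inl ⟨le_rfl, by linarith⟩
  have hb : BddBelow (range fun x : {x : ℝ // 0 < f x} => Real.exp (-(x * y)) / f x) := by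
    refine ⟨0, ?_⟩
    rintro _ ⟨x, rfl⟩
    exact div_nonneg (Real.exp_pos _).le x.2.le
  have : Nonempty {x : ℝ // 0 < f x} := ⟨⟨1, by rw [hf1 1 m1]; norm_num⟩⟩
  unfold polar
  refine le_antisymm ?_ (le_ciInf fun x => ?_)
  · rcases le_total 0 y with hy | hy
    · refine (ciInf_le hb ⟨1, by rw [hf1 1 m1]; norm_num⟩).trans (le_of_eq ?_)
      show Real.exp (-(1 * y)) / f 1 = _
      rw [hf1 1 m1, abs_of_nonneg hy, one_mul, div_one]
    · refine (ciInf_le hb ⟨-1, by rw [hf1 _ m2]; norm_num⟩).trans (le_of_eq ?_)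
      show Real.exp (-(-1 * y)) / f (-1) = _
      rw [hf1 _ m2, abs_of_nonpos hy, div_one]
      congr 1
      ring
  · have hx := hf x x.2
    rw [hf1 _ hx, div_one]
    refine Real.exp_le_exp.2 (neg_le_neg ?_)
    have hx1 := Set.union_subset sub1 sub2 hx
    have h1 : |(x : ℝ)| ≤ 1 := abs_le.2 hx1
    calc (x : ℝ) * y ≤ |(x : ℝ) * y| := le_abs_self _
      _ = |(x : ℝ)| * |y| := abs_mul _ _
      _ ≤ 1 * |y| := mul_le_mul_of_nonneg_right h1 (abs_nonneg _)
      _ = |y| := one_mul _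

lemma int_exp : Integrable fun y : ℝ => Real.exp (-|y|) := by
  refine (integrable_inv_one_add_sq.const_mul 2).mono' (by fun_prop) (Eventually.of_forall fun y => ?_)
  rw [Real.norm_eq_abs, abs_of_pos (Real.exp_pos _), Real.exp_neg, ← div_eq_mul_inv,
    le_div_iff₀ (by positivity), inv_mul_le_iff₀ (Real.exp_pos _)]
  have h := Real.quadratic_le_exp_of_nonneg (abs_nonneg y)
  have h2 : |y| ^ 2 = y ^ 2 := sq_abs y
  nlinarith [abs_nonneg y]

lemma int_yexp : Integrable fun y : ℝ => y * Real.exp (-|y|) := by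
  refine (integrable_inv_one_add_sq.const_mul 6).mono' (by fun_prop) (Eventually.of_forall fun y => ?_)
  rw [norm_mul, Real.norm_eq_abs, Real.norm_eq_abs, abs_of_pos (Real.exp_pos _), Real.exp_neg,
    ← div_eq_mul_inv, ← div_eq_mul_inv, div_le_div_iff₀ (Real.exp_pos _) (by positivity)]
  have h := Real.sum_le_exp_of_nonneg (abs_nonneg y) 4
  simp [Finset.sum_range_succ, Nat.factorial] at h
  have h2 : |y| ^ 2 = y ^ 2 := sq_abs y
  have h3 : 0 ≤ |y| ^ 3 := by positivity
  rw [← h2]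
  have h4 : |y| * (1 + |y| ^ 2) = |y| + |y| ^ 3 := by ring
  rw [h4]
  nlinarith [abs_nonneg y, sq_nonneg y]

lemma bary : ∫ y : ℝ, y * Real.exp (-|y|) = 0 := by
  have h := integral_neg_eq_self (fun y : ℝ => y * Real.exp (-|y|)) volume
  have h2 : ∫ y : ℝ, -y * Real.exp (-|-y|) = -∫ y : ℝ, y * Real.exp (-|y|) := by
    rw [← integral_neg]
    refine integral_congr_ae (Eventually.of_forall fun y => ?_)
    simp only [abs_neg]
    ring
  rw [h2] at h
  linarith

end Pool.Agent.X165.FP
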