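import Mathlib
import Pool.Agent.H985.Sep
import Pool.Agent.H73R3.Hull

set_option autoImplicit false

/-!
# From the separation of the faces of a body to coverings of its polar body

Converse of `Pool.Agent.H985.Sep.separate`: if `N` hyperplanes separate all faces of `K` strictly
from `o`, then the polar body of `K` with respect to `o` is covered by `N` translates of its
interior.
-/

namespace Pool.Agent.X165.SepCov

open scoped InnerProductSpace
open Metric Set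
open Pool.Agent.H985.Sep

variable {E : Type*} [NormedAddCommGroup E] [InnerProductSpace ℝ E]

/-- The hyperplanes `⟪h.1, x⟫ = h.2`, `h ∈ H`, separate every face of `K` strictly from `o`. -/
def Separates (H : Finset (E × ℝ)) (K : Set E) (o : E) : Prop :=
  (∀ h ∈ H, h.1 ≠ 0) ∧
  ∀ u x₀ : E, u ≠ 0 → x₀ ∈ K → (∀ y ∈ K, ⟪u, y⟫_ℝ ≤ ⟪u, x₀⟫_ℝ) →
    ∃ h ∈ H, ⟪h.1, o⟫_ℝ < h.2 ∧ ∀ x ∈ K, ⟪u, x⟫_ℝ = ⟪u, x₀⟫_ℝ → h.2 < ⟪h.1, x⟫_ℝ

omit [InnerProductSpace ℝ E] in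
theorem exists_bound {K : Set E} {o : E} (hKc : IsCompact K) :
    ∃ R > 0, ∀ y ∈ K, ‖y - o‖ ≤ R := by
  obtain ⟨R, hR⟩ := hKc.isBounded.subset_closedBall o
  refine ⟨max R 1, by positivity, fun y hy => ?_⟩
  have := hR hy
  rw [mem_closedBall, dist_eq_norm] at this
  exact this.trans (le_max_left _ _)

theorem mem_interior_polar {K : Set E} {o : E} (hKc : IsCompact K) {v : E} {c : ℝ} (hc : c < 1)
    (hv : ∀ x ∈ K, ⟪v, x - o⟫_ℝ ≤ c) : v ∈ interior (polar K o) := by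
  obtain ⟨R, hR0, hR⟩ := exists_bound (o := o) hKc
  rw [mem_interior]
  refine ⟨ball v ((1 - c) / R), ?_, isOpen_ball, mem_ball_self (by
    apply div_pos <;> linarith)⟩
  intro w hw y hy
  rw [mem_ball, dist_eq_norm] at hw
  have h1 : ⟪w, y - o⟫_ℝ = ⟪v, y - o⟫_ℝ + ⟪w - v, y - o⟫_ℝ := by
    rw [inner_sub_left]; ring
  have h2 : ⟪w - v, y - o⟫_ℝ ≤ (1 - c) / R * R :=
    (real_inner_le_norm _ _).trans (mul_le_mul hw.le (hR y hy) (norm_nonneg _)
      (by apply div_nonneg <;> linarith))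
  rw [div_mul_cancel₀ _ hR0.ne'] at h2
  rw [h1]
  linarith [hv y hy]

theorem local_step {K : Set E} {o : E} (hKc : IsCompact K) (ho : o ∈ interior K)
    [Nontrivial E] (H : Finset (E × ℝ)) (hH : Separates H K o) (v : E) (hv : v ∈ polar K o) :
    ∃ h ∈ H, ∃ δ > 0, ∃ ε₀ > 0, ∀ v' ∈ polar K o, dist v' v < δ →
      ∀ ε : ℝ, 0 < ε → ε ≤ ε₀ → v' - ε • h.1 ∈ interior (polar K o) := by
  have hoK : o ∈ K := interior_subset ho
  obtain ⟨R, hR0, hR⟩ := exists_bound (o := o) hKc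
  rcases eq_or_ne v 0 with rfl | hv0
  · -- `v = 0`: any hyperplane
    obtain ⟨u, hu⟩ := exists_ne (0 : E)
    obtain ⟨x₀, hx₀, hmax⟩ := hKc.exists_isMaxOn ⟨o, hoK⟩
      (f := fun x => ⟪u, x⟫_ℝ) (by fun_prop)
    obtain ⟨h, hh, -, -⟩ := hH.2 u x₀ hu hx₀ fun y hy => hmax hy
    have hn : 0 < ‖h.1‖ := norm_pos_iff.mpr (hH.1 h hh)
    refine ⟨h, hh, 1 / (4 * R), by positivity, 1 / (4 * R * ‖h.1‖), by positivity,
      fun v' hv' hd ε hε0 hε => ?_⟩
    refine mem_interior_polar hKc (c := 1 / 2) (by norm_num) fun x hx => ?_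
    rw [dist_zero_right] at hd
    have h1 : ‖v' - ε • h.1‖ ≤ 1 / (2 * R) := by
      calc ‖v' - ε • h.1‖ ≤ ‖v'‖ + ‖ε • h.1‖ := norm_sub_le _ _
        _ ≤ 1 / (4 * R) + 1 / (4 * R * ‖h.1‖) * ‖h.1‖ := by
            rw [norm_smul, Real.norm_of_nonneg hε0.le]
            gcongr
        _ = 1 / (2 * R) := by field_simp; ring
    calc ⟪v' - ε • h.1, x - o⟫_ℝ ≤ ‖v' - ε • h.1‖ * ‖x - o‖ := real_inner_le_norm _ _
      _ ≤ 1 / (2 * R) * R := by
          gcongr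
          exact hR x hx
      _ = 1 / 2 := by field_simp
  · obtain ⟨x₀, hx₀, hmax⟩ := hKc.exists_isMaxOn ⟨o, hoK⟩
      (f := fun x => ⟪v, x⟫_ℝ) (by fun_prop)
    obtain ⟨h, hh, hb, hface⟩ := hH.2 v x₀ hv0 hx₀ fun y hy => hmax hy
    set b : ℝ := h.2 - ⟪h.1, o⟫_ℝ with hbdef
    have hb0 : 0 < b := by rw [hbdef]; linarith
    have hn : 0 < ‖h.1‖ := norm_pos_iff.mpr (hH.1 h hh)
    have hK'c : IsCompact (K ∩ {x | ⟪h.1, x - o⟫_ℝ ≤ b / 2}) :=
      hKc.inter_right (isClosed_le (by fun_prop) continuous_const)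
    have hoK' : o ∈ K ∩ {x | ⟪h.1, x - o⟫_ℝ ≤ b / 2} := by
      refine ⟨hoK, ?_⟩
      show ⟪h.1, o - o⟫_ℝ ≤ b / 2
      rw [sub_self, inner_zero_right]
      positivity
    obtain ⟨x₁, hx₁, hmax1⟩ := hK'c.exists_isMaxOn ⟨o, hoK'⟩
      (f := fun x => ⟪v, x⟫_ℝ) (by fun_prop)
    have hlt : ⟪v, x₁⟫_ℝ < ⟪v, x₀⟫_ℝ := by
      refine lt_of_le_of_ne (hmax hx₁.1) fun he => ?_
      have h1 := hface x₁ hx₁.1 he
      have h2 : ⟪h.1, x₁ - o⟫_ℝ ≤ b / 2 := hx₁.2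
      rw [inner_sub_right] at h2
      rw [hbdef] at h2 hb0
      linarith
    set γ : ℝ := (⟪v, x₀⟫_ℝ - ⟪v, x₁⟫_ℝ) / 2 with hγ
    have hγ0 : 0 < γ := by rw [hγ]; linarith
    have hm1 : ⟪v, x₀ - o⟫_ℝ ≤ 1 := hv x₀ hx₀
    refine ⟨h, hh, γ / (2 * R), by positivity, γ / (2 * R * ‖h.1‖), by positivity,
      fun v' hv' hd ε hε0 hε => ?_⟩
    refine mem_interior_polar hKc (c := max (1 - γ) (1 - ε * b / 2)) ?_ fun x hx => ?_
    · rw [max_lt_iff]
      constructor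
      · linarith
      · have : 0 < ε * b / 2 := by positivity
        linarith
    · by_cases hxK : ⟪h.1, x - o⟫_ℝ ≤ b / 2
      · refine le_trans ?_ (le_max_left _ _)
        have h1 : ⟪v, x⟫_ℝ ≤ ⟪v, x₁⟫_ℝ := hmax1 ⟨hx, hxK⟩
        have e : ⟪v' - ε • h.1, x - o⟫_ℝ =
            ⟪v, x - o⟫_ℝ + ⟪v' - v, x - o⟫_ℝ - ε * ⟪h.1, x - o⟫_ℝ := by
          rw [inner_sub_left, inner_sub_left, real_inner_smul_left]; ring
        have h2 : ⟪v' - v, x - o⟫_ℝ ≤ γ / 2 := by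
          calc ⟪v' - v, x - o⟫_ℝ ≤ ‖v' - v‖ * ‖x - o‖ := real_inner_le_norm _ _
            _ ≤ γ / (2 * R) * R := by
                rw [dist_eq_norm] at hd
                gcongr
                exact hR x hx
            _ = γ / 2 := by field_simp
        have h3 : -(ε * ⟪h.1, x - o⟫_ℝ) ≤ γ / 2 := by
          have h4 : |⟪h.1, x - o⟫_ℝ| ≤ ‖h.1‖ * R :=
            (abs_real_inner_le_norm _ _).trans (by gcongr; exact hR x hx)
          calc -(ε * ⟪h.1, x - o⟫_ℝ) ≤ |ε * ⟪h.1, x - o⟫_ℝ| := neg_le_abs _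
            _ = ε * |⟪h.1, x - o⟫_ℝ| := by rw [abs_mul, abs_of_pos hε0]
            _ ≤ γ / (2 * R * ‖h.1‖) * (‖h.1‖ * R) := by gcongr
            _ = γ / 2 := by field_simp
        have h5 : ⟪v, x - o⟫_ℝ ≤ 1 - 2 * γ := by
          rw [inner_sub_right] at hm1 ⊢
          rw [hγ]
          linarith
        rw [e]
        linarith
      · refine le_trans ?_ (le_max_right _ _)
        push Not at hxK
        have h1 := hv' x hx
        have e : ⟪v' - ε • h.1, x - o⟫_ℝ = ⟪v', x - o⟫_ℝ - ε * ⟪h.1, x - o⟫_ℝ := by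
          rw [inner_sub_left, real_inner_smul_left]
        rw [e]
        have : ε * (b / 2) ≤ ε * ⟪h.1, x - o⟫_ℝ := by gcongr
        linarith

/-- If the hyperplanes in `H` separate all faces of `K` strictly from `o` then the polar body is
covered by as many translates of its interior. -/
theorem cover [FiniteDimensional ℝ E] {K : Set E} {o : E} (hKc : IsCompact K)
    (ho : o ∈ interior K) [Nontrivial E] (H : Finset (E × ℝ)) (hH : Separates H K o) :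
    ∃ T : Finset E, T.card ≤ H.card ∧
      polar K o ⊆ ⋃ t ∈ T, (fun x => t + x) '' interior (polar K o) := by
  classical
  have hP := isCompact_polar ho
  choose! h hh δ hδ ε₀ hε₀ key using local_step hKc ho H hH
  obtain ⟨s, hcov⟩ := hP.elim_nhds_subcover' (fun v hv => ball v (δ v))
    (fun v hv => ball_mem_nhds v (hδ v hv))
  -- a common `ε`
  obtain ⟨ε, hε0, hε⟩ : ∃ ε : ℝ, 0 < ε ∧ ∀ v ∈ s, ε ≤ ε₀ (v : E) := by
    refine ⟨if hne : s.Nonempty then s.inf' hne (fun v => ε₀ (v : E)) else 1, ?_, ?_⟩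
    · split_ifs with hne
      · rw [Finset.lt_inf'_iff]
        exact fun v _ => hε₀ v v.2
      · exact one_pos
    · intro v hv
      rw [dif_pos ⟨v, hv⟩]
      exact Finset.inf'_le _ hv
  refine ⟨H.image fun h => ε • h.1, Finset.card_image_le, fun v' hv' => ?_⟩
  obtain ⟨v, hvs, hvb⟩ := mem_iUnion₂.1 (hcov hv')
  rw [mem_iUnion₂]
  refine ⟨ε • (h (v : E)).1, Finset.mem_image_of_mem _ (hh v v.2), v' - ε • (h (v : E)).1,
    key v v.2 v' hv' hvb ε hε0 (hε v hvs), ?_⟩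
  simp

end Pool.Agent.X165.SepCov
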