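import Mathlib
import Pool.Agent.H800R2.Front

set_option autoImplicit false

open Set Filter Topology

namespace Pool.Agent.X165.PR

open scoped RealInnerProductSpace ContDiff
open Pool.Agent.H800R2

variable {n : ℕ}

/-- the height of `x` in the direction of `e` -/
noncomputable def hgt (e x : Euc n) : ℝ := ⟪e, x⟫

/-- `E x > 0` is the open solid ellipsoid -/
noncomputable def E (e x : Euc n) : ℝ := 1 - (‖x‖ ^ 2 + hgt e x ^ 2) / 2

/-- the squared distance to the axis `ℝ e` -/
noncomputable def rho (e x : Euc n) : ℝ := ‖x‖ ^ 2 - hgt e x ^ 2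

/-- `W x > 0` is what is left after the ridge is removed -/
noncomputable def W (e x : Euc n) : ℝ := hgt e x + (rho e x - 1) ^ 2

/-- the smoothing term -/
noncomputable def eta (y : ℝ) : ℝ := expNegInvGlue (-1 / 4 - y)

/-- the room -/
def Room (e : Euc n) : Set (Euc n) := {x | 0 < E e x ∧ 0 < W e x ∧ eta (hgt e x) < E e x * W e x}

/-- its defining function -/
noncomputable def F (e x : Euc n) : ℝ := eta (hgt e x) - E e x * W e x

theorem eta_nonneg (y : ℝ) : 0 ≤ eta y := expNegInvGlue.nonneg _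

theorem eta_zero {y : ℝ} (h : -1 / 4 ≤ y) : eta y = 0 :=
  expNegInvGlue.zero_of_nonpos (by linarith)

theorem eta_pos {y : ℝ} (h : y < -1 / 4) : 0 < eta y :=
  expNegInvGlue.pos_of_pos (by linarith)

theorem eta_anti : Antitone eta := fun a b h => expNegInvGlue.monotone (by linarith)

theorem eta_contDiff : ContDiff ℝ ∞ eta :=
  (expNegInvGlue.contDiff (n := ⊤)).comp (contDiff_const.sub contDiff_id)

theorem eta_diff (y : ℝ) : HasDerivAt eta (deriv eta y) y :=
  ((eta_contDiff.differentiable (by simp)) y).hasDerivAt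

theorem eta_deriv_nonpos (y : ℝ) : deriv eta y ≤ 0 := eta_anti.deriv_nonpos

theorem eta_deriv_zero {y : ℝ} (h : -1 / 4 < y) : deriv eta y = 0 := by
  have : eta =ᶠ[𝓝 y] fun _ => 0 := by
    filter_upwards [lt_mem_nhds h] with z hz
    exact eta_zero hz.le
  rw [this.deriv_eq]
  simp

theorem hgt_cont (e : Euc n) : Continuous (hgt e) := by
  unfold hgt; fun_prop

theorem E_cont (e : Euc n) : Continuous (E e) := by
  have := hgt_cont e
  unfold E; fun_prop

theorem rho_cont (e : Euc n) : Continuous (rho e) := by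
  have := hgt_cont e
  unfold rho; fun_prop

theorem W_cont (e : Euc n) : Continuous (W e) := by
  have := hgt_cont e
  have := rho_cont e
  unfold W; fun_prop

theorem hgt_contDiff (e : Euc n) : ContDiff ℝ ∞ (hgt e) :=
  contDiff_const.inner ℝ contDiff_id

theorem E_contDiff (e : Euc n) : ContDiff ℝ ∞ (E e) :=
  contDiff_const.sub (((contDiff_norm_sq ℝ).add ((hgt_contDiff e).pow 2)).div_const 2)

theorem rho_contDiff (e : Euc n) : ContDiff ℝ ∞ (rho e) :=
  (contDiff_norm_sq ℝ).sub ((hgt_contDiff e).pow 2)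

theorem W_contDiff (e : Euc n) : ContDiff ℝ ∞ (W e) :=
  (hgt_contDiff e).add (((rho_contDiff e).sub contDiff_const).pow 2)

theorem F_contDiff (e : Euc n) : ContDiff ℝ ∞ (F e) :=
  (eta_contDiff.comp (hgt_contDiff e)).sub ((E_contDiff e).mul (W_contDiff e))

/-- the derivative of `F` -/
theorem grad_F (e x u : Euc n) : ⟪gradient (F e) x, u⟫ =
    deriv eta (hgt e x) * hgt e u + W e x * (⟪x, u⟫ + hgt e x * hgt e u)
      - E e x * (hgt e u + 4 * (rho e x - 1) * (⟪x, u⟫ - hgt e x * hgt e u)) := by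
  have hy : HasFDerivAt (hgt e) (innerSL ℝ e) x := (innerSL ℝ e).hasFDerivAt
  have hN : HasFDerivAt (fun x : Euc n => ‖x‖ ^ 2) (2 • innerSL ℝ x) x :=
    (hasStrictFDerivAt_norm_sq x).hasFDerivAt
  have hE := ((hN.add (hy.pow 2)).mul_const (1 / 2 : ℝ)).const_sub 1
  have hr := hN.sub (hy.pow 2)
  have hW := hy.add ((hr.sub_const 1).pow 2)
  have he := (eta_diff (hgt e x)).comp_hasFDerivAt x hy
  have hF := he.sub (hE.mul hW)
  have hF2 := hF.congr_of_eventuallyEq (f₁ := F e) (Eventually.of_forall fun z => by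
    simp only [F, E, W, rho, Pi.sub_apply, Pi.add_apply, Pi.mul_apply, Function.comp]
    ring)
  have key : fderiv ℝ (F e) x u = deriv eta (hgt e x) * hgt e u
      + W e x * (⟪x, u⟫ + hgt e x * hgt e u)
      - E e x * (hgt e u + 4 * (rho e x - 1) * (⟪x, u⟫ - hgt e x * hgt e u)) := by
    rw [hF2.fderiv]
    simp [hgt, E, W, rho]
    ring
  rw [← key]
  unfold gradient
  rw [InnerProductSpace.toDual_symm_apply]

end Pool.Agent.X165.PR
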