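import Mathlib
import Pool.Agent.X165.PR1

set_option autoImplicit false

open Set Filter Topology

namespace Pool.Agent.X165.PR

open scoped RealInnerProductSpace ContDiff
open Pool.Agent.H800R2

variable {n : ℕ}

theorem hgt_add (e x u : Euc n) (s : ℝ) : hgt e (x + s • u) = hgt e x + s * hgt e u := by
  simp [hgt, inner_add_right, real_inner_smul_right]

theorem normsq_add (x u : Euc n) (s : ℝ) :
    ‖x + s • u‖ ^ 2 = ‖x‖ ^ 2 + 2 * s * ⟪x, u⟫ + s ^ 2 * ‖u‖ ^ 2 := by
  rw [norm_add_sq_real, real_inner_smul_right, norm_smul, mul_pow, Real.norm_eq_abs, sq_abs]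
  ring

theorem E_add (e x u : Euc n) (s : ℝ) : E e (x + s • u) =
    E e x - s * (⟪x, u⟫ + hgt e x * hgt e u) - s ^ 2 * (‖u‖ ^ 2 + hgt e u ^ 2) / 2 := by
  unfold E
  rw [normsq_add, hgt_add]
  ring

theorem rho_add (e x u : Euc n) (s : ℝ) : rho e (x + s • u) =
    rho e x + 2 * s * (⟪x, u⟫ - hgt e x * hgt e u) + s ^ 2 * (‖u‖ ^ 2 - hgt e u ^ 2) := by
  unfold rho
  rw [normsq_add, hgt_add]
  ring

theorem E_eq (e x : Euc n) : E e x = 1 - rho e x / 2 - hgt e x ^ 2 := by
  unfold E rho
  ring

theorem rho_nonneg {e : Euc n} (he : ‖e‖ = 1) (x : Euc n) : 0 ≤ rho e x := by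
  unfold rho hgt
  have h := abs_real_inner_le_norm e x
  rw [he, one_mul] at h
  have := sq_le_sq' (by linarith [abs_nonneg ⟪e, x⟫, neg_abs_le ⟪e, x⟫]) ((le_abs_self _).trans h)
  linarith

theorem isOpen_Room (e : Euc n) : IsOpen (Room e) := by
  have h1 := E_cont e
  have h2 := W_cont e
  have h3 := hgt_cont e
  have h4 : Continuous eta := eta_contDiff.continuous
  refine (isOpen_lt continuous_const h1).inter ((isOpen_lt continuous_const h2).inter ?_)
  exact isOpen_lt (h4.comp h3) (h1.mul h2)

theorem closure_Room {e x : Euc n} (hx : x ∈ closure (Room e)) :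
    0 ≤ E e x ∧ 0 ≤ W e x ∧ eta (hgt e x) ≤ E e x * W e x := by
  have h1 := E_cont e
  have h2 := W_cont e
  have h3 := hgt_cont e
  have h4 : Continuous eta := eta_contDiff.continuous
  have hc : IsClosed {x | 0 ≤ E e x ∧ 0 ≤ W e x ∧ eta (hgt e x) ≤ E e x * W e x} :=
    (isClosed_le continuous_const h1).inter ((isClosed_le continuous_const h2).inter
      (isClosed_le (h4.comp h3) (h1.mul h2)))
  have hs : Room e ⊆ {x | 0 ≤ E e x ∧ 0 ≤ W e x ∧ eta (hgt e x) ≤ E e x * W e x} :=
    fun z hz => ⟨hz.1.le, hz.2.1.le, hz.2.2.le⟩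
  exact closure_minimal hs hc hx

theorem frontier_Room {e x : Euc n} (hx : x ∈ frontier (Room e)) :
    0 ≤ E e x ∧ 0 ≤ W e x ∧ E e x * W e x = eta (hgt e x) := by
  rw [(isOpen_Room e).frontier_eq] at hx
  obtain ⟨a, b, c⟩ := closure_Room hx.1
  refine ⟨a, b, le_antisymm ?_ c⟩
  rcases a.eq_or_lt with ha | ha
  · rw [← ha, zero_mul]
    exact eta_nonneg _
  rcases b.eq_or_lt with hb | hb
  · rw [← hb, mul_zero]
    exact eta_nonneg _
  by_contra hcon
  push Not at hcon
  exact hx.2 ⟨ha, hb, hcon⟩

/-- no corners -/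
theorem no_corner {e x : Euc n} (h : E e x * W e x = eta (hgt e x)) (hE : E e x = 0)
    (hW : W e x = 0) : False := by
  rw [hE, zero_mul] at h
  have hy : -1 / 4 ≤ hgt e x := by
    by_contra hcon
    push Not at hcon
    exact (eta_pos hcon).ne h
  rw [E_eq] at hE
  unfold W at hW
  nlinarith [sq_nonneg (rho e x - 1), sq_nonneg (hgt e x)]

theorem grad_ne {e x : Euc n} (he : ‖e‖ = 1) (hE0 : 0 ≤ E e x) (hW0 : 0 ≤ W e x)
    (h : E e x * W e x = eta (hgt e x)) : gradient (F e) x ≠ 0 := by
  intro hg
  have hee : hgt e e = 1 := by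
    unfold hgt
    rw [real_inner_self_eq_norm_sq, he]; norm_num
  have hxe : ⟪x, e⟫ = hgt e x := real_inner_comm _ _
  rcases hE0.eq_or_lt with hE | hE
  · have hW : 0 < W e x := hW0.lt_of_ne fun hc => no_corner h hE.symm hc.symm
    have h1 := grad_F e x x
    rw [hg, inner_zero_left, ← hE] at h1
    have h2 : 0 ≤ deriv eta (hgt e x) * hgt e x := by
      rcases le_or_gt (hgt e x) 0 with hy | hy
      · exact mul_nonneg_of_nonpos_of_nonpos (eta_deriv_nonpos _) hy
      · rw [eta_deriv_zero (by linarith), zero_mul]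
    have h3 : ⟪x, x⟫ + hgt e x * hgt e x = 2 := by
      rw [real_inner_self_eq_norm_sq]
      unfold E at hE
      linarith
    rw [h3] at h1
    linarith
  · have h1 := grad_F e x e
    rw [hg, inner_zero_left, hee, hxe] at h1
    have h2 := eta_deriv_nonpos (hgt e x)
    have h3 : hgt e x * W e x ≤ 0 := by
      rcases hW0.eq_or_lt with hW | hW
      · rw [← hW, mul_zero]
      · have : hgt e x < -1 / 4 := by
          by_contra hcon
          push Not at hcon
          rw [eta_zero hcon] at h
          exact (mul_pos hE hW).ne' h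
        exact mul_nonpos_of_nonpos_of_nonneg (by linarith) hW.le
    nlinarith

theorem isDefFun_F {e x : Euc n} (he : ‖e‖ = 1) (hx : x ∈ frontier (Room e)) :
    IsDefFun (Room e) x (F e) := by
  obtain ⟨hE0, hW0, h⟩ := frontier_Room hx
  refine ⟨F_contDiff e, grad_ne he hE0 hW0 h, ?_⟩
  have key : ∀ᶠ y in 𝓝 x, 0 < E e y ∨ 0 < W e y := by
    rcases hE0.eq_or_lt with hE | hE
    · have hW : 0 < W e x := hW0.lt_of_ne fun hc => no_corner h hE.symm hc.symm
      filter_upwards [(W_cont e).continuousAt.eventually (lt_mem_nhds hW)] with y hy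
      exact Or.inr hy
    · filter_upwards [(E_cont e).continuousAt.eventually (lt_mem_nhds hE)] with y hy
      exact Or.inl hy
  filter_upwards [key] with y hy
  constructor
  · rintro ⟨_, _, h3⟩
    unfold F
    linarith
  · intro hF
    unfold F at hF
    have h4 := eta_nonneg (hgt e y)
    have h5 : 0 < E e y * W e y := by linarith
    rcases hy with hy | hy
    · exact ⟨hy, (pos_iff_pos_of_mul_pos h5).1 hy, by linarith⟩
    · exact ⟨(pos_iff_pos_of_mul_pos h5).2 hy, hy, by linarith⟩

theorem isBounded_Room (e : Euc n) : Bornology.IsBounded (Room e) := by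
  refine (Metric.isBounded_closedBall (x := (0 : Euc n)) (r := 2)).subset fun x hx => ?_
  have := hx.1
  unfold E at this
  rw [mem_closedBall_zero_iff]
  nlinarith [sq_nonneg (hgt e x), norm_nonneg x]

theorem upper_mem {e x : Euc n} (hE : 0 < E e x) (hy : 0 < hgt e x) : x ∈ Room e := by
  have hW : 0 < W e x := by unfold W; nlinarith [sq_nonneg (rho e x - 1)]
  refine ⟨hE, hW, ?_⟩
  rw [eta_zero (by linarith)]
  exact mul_pos hE hW

theorem isConnected_Room {e : Euc n} (he : ‖e‖ = 1) : IsConnected (Room e) := by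
  have hee : hgt e e = 1 := by
    unfold hgt
    rw [real_inner_self_eq_norm_sq, he]; norm_num
  have hxe : ∀ x, ⟪x, e⟫ = hgt e x := fun x => real_inner_comm _ _
  -- the base point
  have hbE : 0 < E e ((1 / 2 : ℝ) • e) := by
    have h := E_add e 0 e (1 / 2)
    simp only [zero_add] at h
    rw [h, hee, he]
    simp [E, hgt]
    norm_num
  have hby : 0 < hgt e ((1 / 2 : ℝ) • e) := by
    have h := hgt_add e 0 e (1 / 2)
    simp only [zero_add] at h
    rw [h, hee]
    simp [hgt]
  -- the upper half is convex
  have hup : ∀ x, 0 < E e x → 0 < hgt e x → JoinedIn (Room e) ((1 / 2 : ℝ) • e) x := by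
    intro x hx hy
    refine JoinedIn.of_segment_subset ?_
    rintro z ⟨a, b, ha, hb, hab, rfl⟩
    set c := (1 / 2 : ℝ) • e with hc
    have hz : a • c + b • x = c + b • (x - c) := by
      rw [show a = 1 - b by linarith]
      module
    rw [hz]
    have e1 := E_add e c (x - c) b
    have e2 := E_add e c (x - c) 1
    have e3 := hgt_add e c (x - c) b
    have e4 := hgt_add e c (x - c) 1
    rw [one_smul, add_sub_cancel] at e2 e4
    have hb1 : b ≤ 1 := by linarith
    refine upper_mem ?_ ?_
    · rw [e1]
      set Q := ‖x - c‖ ^ 2 + hgt e (x - c) ^ 2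
      have hQ : 0 ≤ Q := by positivity
      have h5 : E e c - b * (⟪c, x - c⟫ + hgt e c * hgt e (x - c)) - b ^ 2 * Q / 2
        = a * E e c + b * E e x + b * a * Q / 2 := by
        rw [e2, show a = 1 - b by linarith]
        ring
      rw [h5]
      rcases ha.eq_or_lt with ha0 | ha0
      · have : b = 1 := by linarith
        subst this
        rw [← ha0]
        simpa using hx
      · have := mul_pos ha0 hbE
        have := mul_nonneg hb hx.le
        have : 0 ≤ b * a * Q / 2 := by positivity
        linarith
    · rw [e3]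
      have h6 : hgt e c + b * hgt e (x - c) = a * hgt e c + b * hgt e x := by
        rw [e4, show a = 1 - b by linarith]
        ring
      rw [h6]
      rcases ha.eq_or_lt with ha0 | ha0
      · have : b = 1 := by linarith
        subst this
        rw [← ha0]
        simpa using hy
      · have := mul_pos ha0 hby
        have := mul_nonneg hb hy.le
        linarith
  have hpc : IsPathConnected (Room e) := by
    refine ⟨(1 / 2 : ℝ) • e, upper_mem hbE hby, fun {x} hx => ?_⟩
    rcases lt_or_ge 0 (hgt e x) with hy | hy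
    · exact hup x hx.1 hy
    · obtain ⟨h1, h2, h3⟩ := hx
      have hr := rho_nonneg he x
      have hE := h1
      rw [E_eq] at hE
      set δ := (1 - rho e x / 2) / 2 with hδ
      have hδ0 : 0 < δ := by nlinarith [sq_nonneg (hgt e x)]
      have hδ1 : δ ≤ 1 / 2 := by linarith
      have hrs : ∀ s : ℝ, rho e (x + s • e) = rho e x := by
        intro s
        rw [rho_add, hxe, hee, he]
        ring
      have hys : ∀ s : ℝ, hgt e (x + s • e) = hgt e x + s := by
        intro s
        rw [hgt_add, hee, mul_one]
      have hseg : ∀ s, 0 ≤ s → s ≤ δ - hgt e x → x + s • e ∈ Room e := by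
        intro s hs0 hs1
        have hWs : 0 < W e (x + s • e) := by
          unfold W at h2 ⊢
          rw [hrs, hys]
          linarith
        have hWs' : W e x ≤ W e (x + s • e) := by
          unfold W
          rw [hrs, hys]
          linarith
        rcases le_or_gt (hgt e x + s) 0 with h0 | h0
        · have hEs : E e x ≤ E e (x + s • e) := by
            rw [E_eq, E_eq, hrs, hys]
            nlinarith
          refine ⟨h1.trans_le hEs, hWs, ?_⟩
          rw [hys]
          have := eta_anti (show hgt e x ≤ hgt e x + s by linarith)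
          have := mul_le_mul hEs hWs' h2.le (h1.le.trans hEs)
          linarith
        · refine upper_mem ?_ ?_
          · rw [E_eq, hrs, hys]
            nlinarith
          · rw [hys]
            exact h0
      have hend : x + (δ - hgt e x) • e ∈ Room e := hseg _ (by linarith) le_rfl
      have hj1 : JoinedIn (Room e) ((1 / 2 : ℝ) • e) (x + (δ - hgt e x) • e) := by
        refine hup _ hend.1 ?_
        rw [hys]
        linarith
      have hj2 : JoinedIn (Room e) x (x + (δ - hgt e x) • e) := by
        refine JoinedIn.of_segment_subset ?_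
        rintro z ⟨a, b, ha, hb, hab, rfl⟩
        have hz : a • x + b • (x + (δ - hgt e x) • e) = x + (b * (δ - hgt e x)) • e := by
          rw [show a = 1 - b by linarith]
          module
        rw [hz]
        refine hseg _ (mul_nonneg hb (by linarith)) ?_
        exact mul_le_of_le_one_left (by linarith) (by linarith)
      exact hj1.trans hj2.symm
  exact hpc.isConnected

theorem isSmoothDomain_Room {e : Euc n} (he : ‖e‖ = 1) : IsSmoothDomain (Room e) where
  isOpen := isOpen_Room e
  isConnected := isConnected_Room he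
  isBounded := isBounded_Room e
  smooth := fun _ hx => ⟨F e, isDefFun_F he hx⟩

end Pool.Agent.X165.PR
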