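import Mathlib
import Pool.Agent.X165.PR2

set_option autoImplicit false

open Set Filter Topology

namespace Pool.Agent.X165.PR

open scoped RealInnerProductSpace ContDiff
open Pool.Agent.H800R2

variable {n : ℕ}

/-- the invariant of the reflections in the ellipsoid -/
noncomputable def J (e p v : Euc n) : ℝ := ‖hgt e v • p - hgt e p • v‖ ^ 2 - hgt e v ^ 2

/-- the states of a photon that was emitted in the lower pocket -/
def Inv (e p v : Euc n) : Prop :=
  (hgt e p ≤ 0 ∧ rho e p < 1) ∨ (0 < hgt e p ∧ E e p = 0 ∧ hgt e v < 0 ∧ J e p v < 0)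

theorem J_eq (e p v : Euc n) : J e p v = hgt e v ^ 2 * ‖p‖ ^ 2 -
    2 * hgt e v * hgt e p * ⟪p, v⟫ + hgt e p ^ 2 * ‖v‖ ^ 2 - hgt e v ^ 2 := by
  unfold J
  rw [norm_sub_sq_real, norm_smul, norm_smul, mul_pow, mul_pow, Real.norm_eq_abs,
    Real.norm_eq_abs, sq_abs, sq_abs, real_inner_smul_left, real_inner_smul_right]
  ring

/-- the crossing point -/
theorem J_cross {e p v : Euc n} (hv : hgt e v ≠ 0) :
    hgt e (p + (-hgt e p / hgt e v) • v) = 0 ∧
      J e p v = hgt e v ^ 2 * (rho e (p + (-hgt e p / hgt e v) • v) - 1) := by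
  constructor
  · rw [hgt_add]
    field_simp
    ring
  · rw [rho_add, J_eq]
    unfold rho
    field_simp
    ring

theorem J_reflect {e p v : Euc n} (hE : E e p = 0) (he : ‖e‖ = 1) {k : ℝ}
    (hk : k * ‖p + hgt e p • e‖ ^ 2 = 2 * ⟪v, p + hgt e p • e⟫) :
    J e p (v - k • (p + hgt e p • e)) = J e p v := by
  have hee : hgt e e = 1 := by
    unfold hgt
    rw [real_inner_self_eq_norm_sq, he]; norm_num
  have hxe : ∀ x, ⟪x, e⟫ = hgt e x := fun x => real_inner_comm _ _
  have h1 : v - k • (p + hgt e p • e) = v + (-k) • (p + hgt e p • e) := by module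
  have h2 : hgt e (p + hgt e p • e) = 2 * hgt e p := by
    rw [hgt_add, hee]; ring
  have h3 : ‖p + hgt e p • e‖ ^ 2 = ‖p‖ ^ 2 + 3 * hgt e p ^ 2 := by
    rw [normsq_add, hxe, he]; ring
  have h4 : ⟪v, p + hgt e p • e⟫ = ⟪p, v⟫ + hgt e p * hgt e v := by
    rw [inner_add_right, real_inner_smul_right, hxe, real_inner_comm]
  have h5 : ⟪p, p + hgt e p • e⟫ = ‖p‖ ^ 2 + hgt e p ^ 2 := by
    rw [inner_add_right, real_inner_smul_right, hxe, real_inner_self_eq_norm_sq]; ring
  rw [h3, h4] at hk
  rw [h1, J_eq, J_eq, hgt_add, normsq_add, h2, h3, h4, inner_add_right, real_inner_smul_right, h5]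
  have hE2 : ‖p‖ ^ 2 = 2 - hgt e p ^ 2 := by
    unfold E at hE; linarith
  rw [hE2] at hk ⊢
  set y := hgt e p
  set u := hgt e v
  set m := ⟪p, v⟫
  set N := ‖v‖ ^ 2
  have hk2 : k * (1 + y ^ 2) = m + y * u := by linarith
  have hm : m = k * (1 + y ^ 2) - y * u := by linarith
  rw [hm]
  ring

theorem W_ne {e x : Euc n} (h : 0 < W e x) (hy : hgt e x ≤ 0) : rho e x ≠ 1 := by
  intro hr
  unfold W at h
  rw [hr] at h
  linarith

/-- the light does not leave the pocket through the ridge -/
theorem pocket {e p v : Euc n} {T : ℝ} (hT : 0 < T) (hp : rho e p < 1)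
    (h : ∀ s ∈ Ioo 0 T, p + s • v ∈ Room e ∧ hgt e (p + s • v) ≤ 0) :
    rho e (p + T • v) ≤ 1 := by
  by_contra hcon
  push Not at hcon
  have hc : Continuous fun s : ℝ => rho e (p + s • v) := by
    have := rho_cont e
    fun_prop
  have h1 := intermediate_value_Ioo hT.le (hc.continuousOn (s := Icc 0 T))
  have h2 : (1 : ℝ) ∈ Ioo (rho e (p + (0 : ℝ) • v)) (rho e (p + T • v)) := by
    refine ⟨?_, hcon⟩
    simpa using hp
  obtain ⟨s, hs, hs2⟩ := h1 h2
  exact W_ne (h s hs).1.2.1 (h s hs).2 hs2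

theorem pocket_lt {e p v : Euc n} {T : ℝ} (hT : 0 < T) (hp : rho e p < 1)
    (h : ∀ s ∈ Ioo 0 T, p + s • v ∈ Room e ∧ hgt e (p + s • v) ≤ 0)
    (hW : 0 < W e (p + T • v)) (hy : hgt e (p + T • v) ≤ 0) :
    rho e (p + T • v) < 1 :=
  lt_of_le_of_ne (pocket hT hp h) (W_ne hW hy)

/-- light that leaves the pocket has `J < 0` -/
theorem J_of_exit {e p v : Euc n} {T : ℝ} (hT : 0 < T) (hy : hgt e p ≤ 0) (hp : rho e p < 1)
    (h : ∀ s ∈ Ioo 0 T, p + s • v ∈ Room e) (hq : 0 < hgt e (p + T • v)) :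
    0 < hgt e v ∧ J e p v < 0 := by
  rw [hgt_add] at hq
  have hv : 0 < hgt e v := by
    by_contra hcon
    push Not at hcon
    nlinarith
  refine ⟨hv, ?_⟩
  obtain ⟨h1, h2⟩ := J_cross (e := e) (p := p) hv.ne'
  set s0 := -hgt e p / hgt e v with hs0
  have hs00 : 0 ≤ s0 := div_nonneg (by linarith) hv.le
  have hs0v : s0 * hgt e v = -hgt e p := by rw [hs0]; field_simp
  have hs0T : s0 < T := by
    by_contra hcon
    push Not at hcon
    nlinarith
  have h3 : rho e (p + s0 • v) < 1 := by
    rcases hs00.eq_or_lt with h0 | h0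
    · rw [← h0]; simpa using hp
    · refine pocket_lt h0 hp (fun s hs => ⟨h s ⟨hs.1, hs.2.trans hs0T⟩, ?_⟩)
        (h s0 ⟨h0, hs0T⟩).2.1 h1.le
      rw [hgt_add]
      have : s * hgt e v ≤ s0 * hgt e v := mul_le_mul_of_nonneg_right hs.2.le hv.le
      linarith
  rw [h2]
  exact mul_neg_of_pos_of_neg (by positivity) (by linarith)

/-- light in state B reaches the pocket -/
theorem enter {e p v : Euc n} {T : ℝ} (hT : 0 < T) (hy : 0 < hgt e p) (hE : E e p = 0)
    (hv : hgt e v < 0) (hJ : J e p v < 0) (h : ∀ s ∈ Ioo 0 T, p + s • v ∈ Room e) :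
    (0 < hgt e (p + T • v) ∧ 0 < E e (p + T • v)) ∨
      (hgt e (p + T • v) ≤ 0 ∧ (0 ≤ W e (p + T • v) → rho e (p + T • v) < 1)) := by
  obtain ⟨h1, h2⟩ := J_cross (e := e) (p := p) hv.ne
  set s0 := -hgt e p / hgt e v with hs0
  have hs00 : 0 < s0 := div_pos_of_neg_of_neg (by linarith) hv
  have hs0v : s0 * hgt e v = -hgt e p := by
    rw [hs0]
    have := hv.ne
    field_simp
  have hc : rho e (p + s0 • v) < 1 := by
    rw [h2] at hJ
    have : 0 < hgt e v ^ 2 := sq_pos_of_neg hv
    by_contra hcon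
    push Not at hcon
    nlinarith
  have hEc : 0 < E e (p + s0 • v) := by
    rw [E_eq, h1]
    linarith
  rcases lt_or_ge T s0 with hlt | hge
  · left
    constructor
    · rw [hgt_add]
      have : s0 * hgt e v < T * hgt e v := mul_lt_mul_of_neg_right hlt hv
      linarith
    · have e1 := E_add e p v T
      have e2 := E_add e p v s0
      rw [hE] at e1 e2
      set A := ⟪p, v⟫ + hgt e p * hgt e v
      set Q := ‖v‖ ^ 2 + hgt e v ^ 2
      have hQ : 0 ≤ Q := by positivity
      have h5 : s0 * E e (p + T • v) = T * E e (p + s0 • v) + T * s0 * (s0 - T) * Q / 2 := by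
        rw [e1, e2]
        ring
      have h6 : 0 < s0 * E e (p + T • v) := by
        rw [h5]
        have := mul_pos hT hEc
        have : 0 ≤ T * s0 * (s0 - T) * Q / 2 := by
          have : 0 ≤ s0 - T := by linarith
          positivity
        linarith
      exact (pos_iff_pos_of_mul_pos h6).1 hs00
  · right
    have hyT : hgt e (p + T • v) ≤ 0 := by
      rw [hgt_add]
      have : T * hgt e v ≤ s0 * hgt e v := mul_le_mul_of_nonpos_right hge hv.le
      linarith
    refine ⟨hyT, fun hW => ?_⟩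
    rcases hge.eq_or_lt with heq | hlt
    · rw [← heq]; exact hc
    · have hyT' : hgt e (p + T • v) < 0 := by
        rw [hgt_add]
        have : T * hgt e v < s0 * hgt e v := mul_lt_mul_of_neg_right hlt hv
        linarith
      have hsplit : ∀ s : ℝ, p + s • v = (p + s0 • v) + (s - s0) • v := by
        intro s; module
      have h7 : rho e ((p + s0 • v) + (T - s0) • v) ≤ 1 := by
        refine pocket (by linarith) hc fun s hs => ?_
        have h8 : (p + s0 • v) + s • v = p + (s0 + s) • v := by module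
        rw [h8]
        refine ⟨h _ ⟨by linarith [hs.1], by linarith [hs.2]⟩, ?_⟩
        rw [hgt_add]
        have : (s0 + s) * hgt e v ≤ s0 * hgt e v :=
          mul_le_mul_of_nonpos_right (by linarith [hs.1]) hv.le
        linarith
      rw [← hsplit T] at h7
      refine lt_of_le_of_ne h7 fun hc2 => ?_
      unfold W at hW
      rw [hc2] at hW
      linarith

/-- the outward unit normal on the upper part of the boundary -/
theorem normal_up {e x ν : Euc n} (he : ‖e‖ = 1) (hx : x ∈ frontier (Room e))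
    (hy : 0 < hgt e x) (hν : IsOuterNormal (Room e) x ν) :
    E e x = 0 ∧ ν = ‖x + hgt e x • e‖⁻¹ • (x + hgt e x • e) := by
  obtain ⟨hE0, hW0, h⟩ := frontier_Room hx
  rw [eta_zero (by linarith)] at h
  have hW : 0 < W e x := by unfold W; nlinarith [sq_nonneg (rho e x - 1)]
  have hE : E e x = 0 := by
    rcases mul_eq_zero.1 h with h | h
    · exact h
    · exact absurd h hW.ne'
  refine ⟨hE, ?_⟩
  obtain ⟨G, hG, rfl⟩ := hν
  rw [hG.normal_unique (isDefFun_F he hx) (isOpen_Room e) hx]
  have hg : gradient (F e) x = W e x • (x + hgt e x • e) := by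
    refine ext_inner_right ℝ fun u => ?_
    rw [grad_F, hE, eta_deriv_zero (by linarith), real_inner_smul_left, inner_add_left,
      real_inner_smul_left]
    show _ = W e x * (⟪x, u⟫ + hgt e x * hgt e u)
    ring
  rw [hg, norm_smul, Real.norm_eq_abs, abs_of_pos hW, smul_smul, mul_inv]
  congr 1
  field_simp

/-- light does not hit the ridge from below -/
theorem normal_ridge {e x ν v : Euc n} (he : ‖e‖ = 1) (hx : x ∈ frontier (Room e))
    (hy : hgt e x = 0) (hr : rho e x = 1) (hν : IsOuterNormal (Room e) x ν)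
    (hv : 0 < ⟪v, ν⟫) : hgt e v < 0 := by
  obtain ⟨G, hG, rfl⟩ := hν
  rw [hG.normal_unique (isDefFun_F he hx) (isOpen_Room e) hx, real_inner_smul_right,
    real_inner_comm, grad_F, eta_deriv_zero (by rw [hy]; norm_num), hr, hy] at hv
  have hW : W e x = 0 := by unfold W; rw [hr, hy]; norm_num
  have hE : E e x = 1 / 2 := by rw [E_eq, hr, hy]; norm_num
  rw [hW, hE] at hv
  have h1 : 0 < ‖gradient (F e) x‖⁻¹ :=
    inv_pos.2 (norm_pos_iff.2 (isDefFun_F he hx).2.1)
  have h2 := (pos_iff_pos_of_mul_pos hv).1 h1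
  linarith

/-- the invariant -/
theorem inv_bounce {e p v ν : Euc n} {τ : ℝ} (he : ‖e‖ = 1) (hI : Inv e p v) (hτ : 0 < τ)
    (hin : ∀ s ∈ Ioo 0 τ, p + s • v ∈ Room e) (hb : p + τ • v ∈ frontier (Room e))
    (hν : IsOuterNormal (Room e) (p + τ • v) ν) (hv : 0 < ⟪v, ν⟫) :
    Inv e (p + τ • v) (v - (2 * ⟪v, ν⟫) • ν) := by
  obtain ⟨hE0, hW0, hEW⟩ := frontier_Room hb
  rcases hI with ⟨hy, hr⟩ | ⟨hy, hE, hvy, hJ⟩
  · rcases le_or_gt (hgt e (p + τ • v)) 0 with hq | hq
    · left
      refine ⟨hq, ?_⟩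
      have h1 : rho e (p + τ • v) ≤ 1 := by
        refine pocket hτ hr fun s hs => ⟨hin s hs, ?_⟩
        rw [hgt_add] at hq ⊢
        rcases le_or_gt (hgt e v) 0 with h | h
        · have := mul_nonpos_of_nonneg_of_nonpos hs.1.le h
          linarith
        · have := mul_le_mul_of_nonneg_right hs.2.le h.le
          linarith
      refine lt_of_le_of_ne h1 fun h2 => ?_
      have h3 : hgt e (p + τ • v) = 0 := by
        refine le_antisymm hq ?_
        unfold W at hW0
        rw [h2] at hW0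
        linarith
      have h4 := normal_ridge he hb h3 h2 hν hv
      rw [hgt_add] at h3
      nlinarith
    · right
      obtain ⟨hE, hN⟩ := normal_up he hb hq hν
      obtain ⟨hvy, hJ⟩ := J_of_exit hτ hy hr hin hq
      set q := p + τ • v with hqd
      set N := q + hgt e q • e with hNd
      have hN0 : ‖N‖ ≠ 0 := by
        intro h0
        rw [hN, norm_eq_zero.1 h0] at hv
        simp at hv
      have hJq : J e q v = J e p v := by
        rw [hqd]
        unfold J
        have : hgt e v • (p + τ • v) - hgt e (p + τ • v) • v = hgt e v • p - hgt e p • v := by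
          rw [hgt_add]; module
        rw [this]
      set k := 2 * ⟪v, N⟫ / ‖N‖ ^ 2 with hk
      have hv' : v - (2 * ⟪v, ν⟫) • ν = v - k • N := by
        rw [hN, real_inner_smul_right, smul_smul, hk]
        congr 2
        field_simp
      have hk2 : k * ‖N‖ ^ 2 = 2 * ⟪v, N⟫ := by rw [hk]; field_simp
      have hJ' : J e q (v - k • N) < 0 := by
        rw [J_reflect hE he hk2, hJq]
        exact hJ
      have hvN : 0 < ⟪v, N⟫ := by
        rw [hN, real_inner_smul_right] at hv
        exact (pos_iff_pos_of_mul_pos hv).1 (by positivity)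
      have hvN' : ⟪v - k • N, N⟫ < 0 := by
        rw [inner_sub_left, real_inner_smul_left, real_inner_self_eq_norm_sq, hk2]
        linarith
      rw [hv']
      refine ⟨hq, hE, ?_, hJ'⟩
      set w := v - k • N with hw
      -- the crossing point of the reflected ray
      have hw0 : hgt e w ≠ 0 := by
        intro h0
        rw [J_eq, h0] at hJ'
        have : 0 ≤ hgt e q ^ 2 * ‖w‖ ^ 2 := by positivity
        linarith
      obtain ⟨h1, h2⟩ := J_cross (e := e) (p := q) hw0
      set s0 := -hgt e q / hgt e w with hs0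
      have hc : rho e (q + s0 • w) < 1 := by
        rw [h2] at hJ'
        have : 0 < hgt e w ^ 2 := by positivity
        by_contra hcon
        push Not at hcon
        nlinarith
      have hEc : 0 < E e (q + s0 • w) := by
        rw [E_eq, h1]
        linarith
      by_contra hcon
      push Not at hcon
      have hwpos : 0 < hgt e w := lt_of_le_of_ne hcon (Ne.symm hw0)
      have hs0n : s0 < 0 := div_neg_of_neg_of_pos (by linarith) hwpos
      have hA : ⟪w, N⟫ = ⟪q, w⟫ + hgt e q * hgt e w := by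
        rw [hNd, inner_add_right, real_inner_smul_right, real_inner_comm]
        congr 2
        exact real_inner_comm _ _
      rw [E_add, hE, ← hA] at hEc
      have h3 : 0 ≤ s0 ^ 2 * (‖w‖ ^ 2 + hgt e w ^ 2) / 2 := by positivity
      nlinarith
  · rcases enter hτ hy hE hvy hJ hin with ⟨h1, h2⟩ | ⟨h1, h2⟩
    · exact absurd (normal_up he hb h1 hν).1 h2.ne'
    · exact Or.inl ⟨h1, h2 hW0⟩

theorem inv_fly {e p v : Euc n} {t : ℝ} (hI : Inv e p v) (ht : 0 ≤ t)
    (hin : ∀ s ∈ Ioc 0 t, p + s • v ∈ Room e) :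
    ¬ (hgt e (p + t • v) < 0 ∧ 1 < rho e (p + t • v)) := by
  rintro ⟨hq, hr1⟩
  rcases ht.eq_or_lt with h0 | h0
  · rw [← h0, zero_smul, add_zero] at hq hr1
    rcases hI with ⟨_, hr⟩ | ⟨hy, _⟩
    · linarith
    · linarith
  have hin' : ∀ s ∈ Ioo 0 t, p + s • v ∈ Room e := fun s hs => hin s ⟨hs.1, hs.2.le⟩
  have hW : 0 < W e (p + t • v) := (hin t ⟨h0, le_rfl⟩).2.1
  rcases hI with ⟨hy, hr⟩ | ⟨hy, hE, hvy, hJ⟩
  · have h1 : rho e (p + t • v) ≤ 1 := by
      refine pocket h0 hr fun s hs => ⟨hin' s hs, ?_⟩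
      rw [hgt_add] at hq ⊢
      rcases le_or_gt (hgt e v) 0 with h | h
      · have := mul_nonpos_of_nonneg_of_nonpos hs.1.le h
        linarith
      · have := mul_le_mul_of_nonneg_right hs.2.le h.le
        linarith
    linarith
  · rcases enter h0 hy hE hvy hJ hin' with ⟨h1, h2⟩ | ⟨h1, h2⟩
    · linarith
    · linarith [h2 hW.le]

/-- light emitted in the lower pocket never reaches the lower outer part -/
theorem photon_inv {e p v q : Euc n} {t : ℝ} (he : ‖e‖ = 1) (h : Photon (Room e) p v t q)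
    (hI : Inv e p v) : ¬ (hgt e q < 0 ∧ 1 < rho e q) := by
  induction h with
  | fly p v t ht hin => exact inv_fly hI ht hin
  | bounce p v ν q τ t hτ hin hb hν hv _ ih => exact ih (inv_bounce he hI hτ hin hb hν hv)

end Pool.Agent.X165.PR
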