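import Mathlib
import Pool.Agent.X165.PR3

set_option autoImplicit false

open Set Filter Topology

namespace Pool.Agent.X165.PS

open scoped RealInnerProductSpace ContDiff
open Pool.Agent.H800R2
open Pool.Agent.X165.PR (hgt rho hgt_add rho_add rho_nonneg hgt_cont rho_cont hgt_contDiff
  rho_contDiff normsq_add)

variable {n : ℕ}

/-- an odd smooth function with values in `[-1, 1]` that is `1` for `y ≥ 1/4` -/
noncomputable def sg (y : ℝ) : ℝ :=
  Real.smoothTransition (2 * y + 1 / 2) - Real.smoothTransition (-2 * y + 1 / 2)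

/-- an even smooth function that is `(|y| - 1/4)²` for `|y| ≥ 1/4` -/
noncomputable def th (y : ℝ) : ℝ := y ^ 2 + 1 / 16 - y * sg y / 2

theorem sg_neg (y : ℝ) : sg (-y) = -sg y := by
  unfold sg
  rw [show 2 * -y + 1 / 2 = -2 * y + 1 / 2 by ring, show -2 * -y + 1 / 2 = 2 * y + 1 / 2 by ring]
  ring

theorem sg_one {y : ℝ} (h : 1 / 4 ≤ y) : sg y = 1 := by
  unfold sg
  rw [Real.smoothTransition.one_of_one_le (by linarith),
    Real.smoothTransition.zero_of_nonpos (by linarith)]
  norm_num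

theorem sg_le (y : ℝ) : sg y ≤ 1 := by
  unfold sg
  linarith [Real.smoothTransition.le_one (2 * y + 1 / 2),
    Real.smoothTransition.nonneg (-2 * y + 1 / 2)]

theorem sg_ge (y : ℝ) : -1 ≤ sg y := by
  unfold sg
  linarith [Real.smoothTransition.le_one (-2 * y + 1 / 2),
    Real.smoothTransition.nonneg (2 * y + 1 / 2)]

theorem sg_contDiff : ContDiff ℝ ∞ sg :=
  ((Real.smoothTransition.contDiff (n := ⊤)).comp
      ((contDiff_const.mul contDiff_id).add contDiff_const)).sub
    ((Real.smoothTransition.contDiff (n := ⊤)).comp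
      ((contDiff_const.mul contDiff_id).add contDiff_const))

theorem th_contDiff : ContDiff ℝ ∞ th :=
  ((contDiff_id.pow 2).add contDiff_const).sub ((contDiff_id.mul sg_contDiff).div_const 2)

theorem th_neg (y : ℝ) : th (-y) = th y := by
  unfold th
  rw [sg_neg]
  ring

theorem th_eq {y : ℝ} (h : 1 / 4 ≤ y) : th y = (y - 1 / 4) ^ 2 := by
  unfold th
  rw [sg_one h]
  ring

theorem th_ge (y : ℝ) : (|y| - 1 / 4) ^ 2 ≤ th y := by
  unfold th
  have h1 := sg_le y
  have h2 := sg_ge y
  have h3 : |y| ^ 2 = y ^ 2 := sq_abs y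
  have h4 : y * sg y ≤ |y| := by
    rcases le_total 0 y with hy | hy
    · rw [abs_of_nonneg hy]; nlinarith
    · rw [abs_of_nonpos hy]; nlinarith
  nlinarith

theorem th_le {y : ℝ} (h : |y| ≤ 3 / 4) : th y ≤ 1 / 4 := by
  rcases le_or_gt |y| (1 / 4) with h0 | h0
  · unfold th
    have h1 := sg_le y
    have h2 := sg_ge y
    have h3 : |y| ^ 2 = y ^ 2 := sq_abs y
    have h4 : -|y| ≤ y * sg y := by
      rcases le_total 0 y with hy | hy
      · rw [abs_of_nonneg hy]; nlinarith
      · rw [abs_of_nonpos hy]; nlinarith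
    nlinarith [abs_nonneg y]
  · have h5 : th y = (|y| - 1 / 4) ^ 2 := by
      rcases le_total 0 y with hy | hy
      · rw [abs_of_nonneg hy] at h0 ⊢
        exact th_eq h0.le
      · rw [abs_of_nonpos hy] at h0 ⊢
        rw [← th_neg]
        exact th_eq h0.le
    rw [h5]
    nlinarith

theorem th_diff (y : ℝ) : HasDerivAt th (deriv th y) y :=
  ((th_contDiff.differentiable (by simp)) y).hasDerivAt

theorem th_deriv {y : ℝ} (h : 1 / 4 < y) : deriv th y = 2 * (y - 1 / 4) := by
  have h1 : th =ᶠ[𝓝 y] fun z => (z - 1 / 4) ^ 2 := by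
    filter_upwards [lt_mem_nhds h] with z hz
    exact th_eq hz.le
  rw [h1.deriv_eq]
  have := (((hasDerivAt_id y).sub_const (1 / 4)).pow 2).deriv
  simpa using this

theorem th_deriv_neg {y : ℝ} (h : y < -1 / 4) : deriv th y = 2 * (y + 1 / 4) := by
  have h1 : th =ᶠ[𝓝 y] fun z => (z + 1 / 4) ^ 2 := by
    filter_upwards [gt_mem_nhds h] with z hz
    rw [← th_neg, th_eq (by linarith)]
    ring
  rw [h1.deriv_eq]
  have := (((hasDerivAt_id y).add_const (1 / 4)).pow 2).deriv
  simpa using this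

/-- the profile of the obstacle -/
noncomputable def g (r : ℝ) : ℝ := (r - 1) ^ 2 * (4 * r + 1) / 24

theorem g_lt {r : ℝ} (h0 : 0 ≤ r) (h1 : r ≤ 1) : g r < 1 / 16 := by
  unfold g
  nlinarith [mul_nonneg h0 (sub_nonneg.2 h1), mul_nonneg h0 (sq_nonneg (r - 1)),
    sq_nonneg (r - 1 / 6), mul_nonneg h0 (sq_nonneg (r - 1 / 6)),
    mul_nonneg (sub_nonneg.2 h1) (sq_nonneg (r - 1 / 6))]

theorem g_gt {r : ℝ} (h : 37 / 25 ≤ r) : 1 / 16 < g r := by
  unfold g
  have h1 : (12 / 25 : ℝ) ^ 2 ≤ (r - 1) ^ 2 := by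
    apply pow_le_pow_left₀ <;> linarith
  nlinarith

theorem g_nonneg {r : ℝ} (h : 0 ≤ r) : 0 ≤ g r := by
  unfold g
  positivity

theorem g_one : g 1 = 0 := by unfold g; norm_num

/-- `E x > 0` is the inside of the outer wall -/
noncomputable def E (e x : Euc n) : ℝ := 1 - rho e x / 2 - th (hgt e x)

/-- `W x ≤ 0` is the obstacle -/
noncomputable def W (e x : Euc n) : ℝ := hgt e x ^ 2 - 1 / 16 + g (rho e x)

/-- the room -/
def Room (e : Euc n) : Set (Euc n) := {x | 0 < E e x ∧ 0 < W e x}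

/-- its defining function -/
noncomputable def F (e x : Euc n) : ℝ := -(E e x * W e x)

theorem E_cont (e : Euc n) : Continuous (E e) := by
  have := hgt_cont e
  have := rho_cont e
  have := th_contDiff.continuous
  unfold E; fun_prop

theorem W_cont (e : Euc n) : Continuous (W e) := by
  have := hgt_cont e
  have := rho_cont e
  unfold W g; fun_prop

theorem E_contDiff (e : Euc n) : ContDiff ℝ ∞ (E e) :=
  (contDiff_const.sub ((rho_contDiff e).div_const 2)).sub (th_contDiff.comp (hgt_contDiff e))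

theorem g_contDiff : ContDiff ℝ ∞ g :=
  (((contDiff_id.sub contDiff_const).pow 2).mul
    ((contDiff_const.mul contDiff_id).add contDiff_const)).div_const 24

theorem W_contDiff (e : Euc n) : ContDiff ℝ ∞ (W e) :=
  (((hgt_contDiff e).pow 2).sub contDiff_const).add (g_contDiff.comp (rho_contDiff e))

theorem F_contDiff (e : Euc n) : ContDiff ℝ ∞ (F e) :=
  ((E_contDiff e).mul (W_contDiff e)).neg

theorem g_diff (r : ℝ) : HasDerivAt g ((r - 1) * (6 * r - 1) / 12) r := by
  have h := ((((hasDerivAt_id r).sub_const 1).pow 2).mul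
    (((hasDerivAt_id r).const_mul 4).add_const 1)).div_const 24
  refine (h.congr_deriv ?_).congr_of_eventuallyEq (Eventually.of_forall fun z => ?_)
  · simp
    ring
  · simp [g]

/-- the derivative of `F` -/
theorem grad_F (e x u : Euc n) : ⟪gradient (F e) x, u⟫ =
    W e x * (⟪x, u⟫ - hgt e x * hgt e u + deriv th (hgt e x) * hgt e u)
      - E e x * (2 * hgt e x * hgt e u +
        (rho e x - 1) * (6 * rho e x - 1) / 6 * (⟪x, u⟫ - hgt e x * hgt e u)) := by
  have hy : HasFDerivAt (hgt e) (innerSL ℝ e) x := (innerSL ℝ e).hasFDerivAt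
  have hN : HasFDerivAt (fun x : Euc n => ‖x‖ ^ 2) (2 • innerSL ℝ x) x :=
    (hasStrictFDerivAt_norm_sq x).hasFDerivAt
  have hr : HasFDerivAt (rho e) _ x := (hN.sub (hy.pow 2)).congr_of_eventuallyEq
    (Eventually.of_forall fun z => rfl)
  have hE := ((hr.mul_const (1 / 2 : ℝ)).const_sub 1).sub
    ((th_diff (hgt e x)).comp_hasFDerivAt x hy)
  have hW := ((hy.pow 2).sub_const (1 / 16)).add ((g_diff (rho e x)).comp_hasFDerivAt x hr)
  have hF := (hE.mul hW).neg
  have hF2 := hF.congr_of_eventuallyEq (f₁ := F e) (Eventually.of_forall fun z => by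
    simp only [F, E, W, Pi.sub_apply, Pi.add_apply, Pi.mul_apply, Pi.neg_apply, Function.comp]
    ring)
  have key : fderiv ℝ (F e) x u =
    W e x * (⟪x, u⟫ - hgt e x * hgt e u + deriv th (hgt e x) * hgt e u)
      - E e x * (2 * hgt e x * hgt e u +
        (rho e x - 1) * (6 * rho e x - 1) / 6 * (⟪x, u⟫ - hgt e x * hgt e u)) := by
    rw [hF2.fderiv]
    simp [hgt, E, W]
    ring
  rw [← key]
  unfold gradient
  rw [InnerProductSpace.toDual_symm_apply]

end Pool.Agent.X165.PS
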