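import Mathlib
import Pool.Agent.X165.PS1

set_option autoImplicit false

open Set Filter Topology

namespace Pool.Agent.X165.PS

open scoped RealInnerProductSpace ContDiff
open Pool.Agent.H800R2
open Pool.Agent.X165.PR (hgt rho hgt_add rho_add rho_nonneg hgt_cont rho_cont hgt_contDiff
  rho_contDiff normsq_add)

variable {n : ℕ}

theorem hgt_neg (e x : Euc n) : hgt (-e) x = -hgt e x := by simp [hgt]

theorem rho_neg (e x : Euc n) : rho (-e) x = rho e x := by
  unfold rho
  rw [hgt_neg, neg_sq]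

theorem Room_neg (e : Euc n) : Room (-e) = Room e := by
  ext x
  simp [Room, E, W, hgt_neg, rho_neg, th_neg]

theorem isOpen_Room (e : Euc n) : IsOpen (Room e) :=
  (isOpen_lt continuous_const (E_cont e)).inter (isOpen_lt continuous_const (W_cont e))

theorem frontier_Room {e x : Euc n} (hx : x ∈ frontier (Room e)) :
    0 ≤ E e x ∧ 0 ≤ W e x ∧ (E e x = 0 ∨ W e x = 0) := by
  rw [(isOpen_Room e).frontier_eq] at hx
  have hc : IsClosed {x | 0 ≤ E e x ∧ 0 ≤ W e x} :=
    (isClosed_le continuous_const (E_cont e)).inter (isClosed_le continuous_const (W_cont e))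
  have hs : Room e ⊆ {x | 0 ≤ E e x ∧ 0 ≤ W e x} := fun z hz => ⟨hz.1.le, hz.2.le⟩
  have h := closure_minimal hs hc hx.1
  refine ⟨h.1, h.2, ?_⟩
  by_contra hcon
  push Not at hcon
  exact hx.2 ⟨h.1.lt_of_ne (Ne.symm hcon.1), h.2.lt_of_ne (Ne.symm hcon.2)⟩

/-- the obstacle does not touch the outer wall -/
theorem W_pos_of_E {e x : Euc n} (he : ‖e‖ = 1) (h : E e x = 0) : 0 < W e x := by
  unfold E at h
  have hr := rho_nonneg he x
  unfold W
  rcases le_or_gt |hgt e x| (1 / 4) with h0 | h0
  · have h1 := th_le (h0.trans (by norm_num) : |hgt e x| ≤ 3 / 4)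
    have h2 := g_gt (show 37 / 25 ≤ rho e x by linarith)
    have := sq_nonneg (hgt e x)
    linarith
  · have h2 := g_nonneg hr
    have h3 : |hgt e x| ^ 2 = hgt e x ^ 2 := sq_abs _
    nlinarith

theorem unit_facts {e : Euc n} (he : ‖e‖ = 1) : hgt e e = 1 ∧ ∀ x, ⟪x, e⟫ = hgt e x := by
  constructor
  · unfold hgt
    rw [real_inner_self_eq_norm_sq, he]; norm_num
  · exact fun x => real_inner_comm _ _

theorem grad_ne {e x : Euc n} (he : ‖e‖ = 1) (hE0 : 0 ≤ E e x)
    (h : E e x = 0 ∨ W e x = 0) : gradient (F e) x ≠ 0 := by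
  intro hg
  obtain ⟨hee, hxe⟩ := unit_facts he
  have h1 := grad_F e x e
  rw [hg, inner_zero_left, hee, hxe] at h1
  have h2 := grad_F e x (x - hgt e x • e)
  have hz : hgt e (x - hgt e x • e) = 0 := by
    have := hgt_add e x e (-hgt e x)
    rw [hee] at this
    rw [show x - hgt e x • e = x + (-hgt e x) • e by module, this]
    ring
  have hin : ⟪x, x - hgt e x • e⟫ = rho e x := by
    rw [inner_sub_right, real_inner_smul_right, hxe, real_inner_self_eq_norm_sq]
    unfold rho
    ring
  rw [hg, inner_zero_left, hz, hin] at h2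
  have hr := rho_nonneg he x
  rcases h with hE | hW
  · have hW := W_pos_of_E he hE
    rw [hE] at h1 h2
    have h3 : deriv th (hgt e x) = 0 := by
      have : W e x * deriv th (hgt e x) = 0 := by linarith
      exact (mul_eq_zero.1 this).resolve_left hW.ne'
    have h4 : rho e x = 0 := by
      have : W e x * rho e x = 0 := by linarith
      exact (mul_eq_zero.1 this).resolve_left hW.ne'
    unfold E at hE
    rw [h4] at hE
    have h5 : ¬ |hgt e x| ≤ 1 / 4 := by
      intro h6
      have := th_le (h6.trans (by norm_num) : |hgt e x| ≤ 3 / 4)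
      linarith
    rw [abs_le] at h5
    rcases lt_or_ge (1 / 4) (hgt e x) with h6 | h6
    · rw [th_deriv h6] at h3
      linarith
    · have h7 : hgt e x < -1 / 4 := by
        by_contra hcon
        push Not at hcon
        exact h5 ⟨by linarith, h6⟩
      rw [th_deriv_neg h7] at h3
      linarith
  · have hE : 0 < E e x := by
      refine hE0.lt_of_ne fun h => ?_
      exact (W_pos_of_E he h.symm).ne' hW
    rw [hW] at h1 h2
    have h3 : hgt e x = 0 := by
      have : E e x * hgt e x = 0 := by linarith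
      exact (mul_eq_zero.1 this).resolve_left hE.ne'
    unfold W at hW
    rw [h3] at hW
    have h4 : 1 < rho e x := by
      by_contra hcon
      push Not at hcon
      have := g_lt hr hcon
      linarith
    rw [h3] at h2
    have h5 : 0 < E e x * ((rho e x - 1) * (6 * rho e x - 1) / 6 * rho e x) := by
      have : 0 < rho e x - 1 := by linarith
      have : 0 < 6 * rho e x - 1 := by linarith
      positivity
    linarith

theorem isDefFun_F {e x : Euc n} (he : ‖e‖ = 1) (hx : x ∈ frontier (Room e)) :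
    IsDefFun (Room e) x (F e) := by
  obtain ⟨hE0, hW0, h⟩ := frontier_Room hx
  refine ⟨F_contDiff e, grad_ne he hE0 h, ?_⟩
  have key : ∀ᶠ y in 𝓝 x, 0 < E e y ∨ 0 < W e y := by
    rcases hE0.eq_or_lt with hE | hE
    · have hW : 0 < W e x := W_pos_of_E he hE.symm
      filter_upwards [(W_cont e).continuousAt.eventually (lt_mem_nhds hW)] with y hy
      exact Or.inr hy
    · filter_upwards [(E_cont e).continuousAt.eventually (lt_mem_nhds hE)] with y hy
      exact Or.inl hy
  filter_upwards [key] with y hy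
  unfold F
  rw [neg_lt_zero]
  constructor
  · rintro ⟨h1, h2⟩
    exact mul_pos h1 h2
  · intro h5
    rcases hy with hy | hy
    · exact ⟨hy, (pos_iff_pos_of_mul_pos h5).1 hy⟩
    · exact ⟨(pos_iff_pos_of_mul_pos h5).2 hy, hy⟩

theorem isBounded_Room {e : Euc n} (he : ‖e‖ = 1) : Bornology.IsBounded (Room e) := by
  refine (Metric.isBounded_closedBall (x := (0 : Euc n)) (r := 2)).subset fun x hx => ?_
  have h := hx.1
  unfold E at h
  rw [mem_closedBall_zero_iff]
  have h1 := th_ge (hgt e x)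
  have hr := rho_nonneg he x
  have h2 : (|hgt e x| - 1 / 4) ^ 2 < 1 := by nlinarith [sq_nonneg (|hgt e x| - 1 / 4)]
  have h3 : |hgt e x| < 5 / 4 := by
    by_contra hcon
    push Not at hcon
    nlinarith
  have h4 : |hgt e x| ^ 2 = hgt e x ^ 2 := sq_abs _
  have h5 : ‖x‖ ^ 2 = rho e x + hgt e x ^ 2 := by unfold rho; ring
  have h6 : ‖x‖ ^ 2 ≤ 2 ^ 2 := by
    rw [h5]
    nlinarith [abs_nonneg (hgt e x), sq_nonneg (|hgt e x| - 1 / 4)]
  exact le_of_sq_le_sq h6 (by norm_num)

/-- points above the obstacle -/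
theorem upper_mem {e x : Euc n} (he : ‖e‖ = 1) (hE : 0 < E e x) (hy : 1 / 4 < hgt e x) :
    x ∈ Room e := by
  refine ⟨hE, ?_⟩
  have := g_nonneg (rho_nonneg he x)
  unfold W
  nlinarith

/-- points far from the axis -/
theorem outer_mem {e x : Euc n} (hE : 0 < E e x) (hr : 37 / 25 ≤ rho e x) : x ∈ Room e := by
  refine ⟨hE, ?_⟩
  have := g_gt hr
  unfold W
  nlinarith [sq_nonneg (hgt e x)]

/-- the cap is convex -/
theorem joined_cap {e x : Euc n} (he : ‖e‖ = 1) (hx : 0 < E e x) (hy : 1 / 4 < hgt e x) :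
    JoinedIn (Room e) ((1 / 2 : ℝ) • e) x := by
  obtain ⟨hee, hxe⟩ := unit_facts he
  set c := (1 / 2 : ℝ) • e with hc
  have hyc : hgt e c = 1 / 2 := by
    have h := hgt_add e 0 e (1 / 2)
    simp only [zero_add] at h
    rw [hc, h, hee]
    simp [hgt]
  have hrc : rho e c = 0 := by
    unfold rho
    rw [hyc, hc, norm_smul, he]
    norm_num
  have hEc : 1 - rho e c / 2 - (hgt e c - 1 / 4) ^ 2 = 15 / 16 := by
    rw [hrc, hyc]
    norm_num
  have hEx : 0 < 1 - rho e x / 2 - (hgt e x - 1 / 4) ^ 2 := by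
    unfold E at hx
    rw [th_eq hy.le] at hx
    exact hx
  refine JoinedIn.of_segment_subset ?_
  rintro z ⟨a, b, ha, hb, hab, rfl⟩
  have hz : a • c + b • x = c + b • (x - c) := by
    rw [show a = 1 - b by linarith]
    module
  rw [hz]
  have e1 := rho_add e c (x - c) b
  have e2 := rho_add e c (x - c) 1
  have e3 := hgt_add e c (x - c) b
  have e4 := hgt_add e c (x - c) 1
  rw [one_smul, add_sub_cancel] at e2 e4
  set w := hgt e (x - c)
  set m := ⟪c, x - c⟫
  have hyz : hgt e (c + b • (x - c)) = a * hgt e c + b * hgt e x := by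
    rw [e3, e4, show a = 1 - b by linarith]
    ring
  have hyz' : 1 / 4 < hgt e (c + b • (x - c)) := by
    rw [hyz, hyc]
    rcases ha.eq_or_lt with ha0 | ha0
    · have : b = 1 := by linarith
      subst this
      rw [← ha0]
      linarith
    · nlinarith
  refine upper_mem he ?_ hyz'
  unfold E
  rw [th_eq hyz'.le]
  have h5 : 1 - rho e (c + b • (x - c)) / 2 - (hgt e (c + b • (x - c)) - 1 / 4) ^ 2
      = a * (1 - rho e c / 2 - (hgt e c - 1 / 4) ^ 2)
        + b * (1 - rho e x / 2 - (hgt e x - 1 / 4) ^ 2)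
        + a * b * (‖x - c‖ ^ 2 + w ^ 2) / 2 := by
    rw [e1, e2, e3, e4, show a = 1 - b by linarith]
    ring
  rw [h5, hEc]
  have h6 : 0 ≤ a * b * (‖x - c‖ ^ 2 + w ^ 2) / 2 := by positivity
  rcases ha.eq_or_lt with ha0 | ha0
  · have : b = 1 := by linarith
    subst this
    rw [← ha0] at h6 ⊢
    linarith
  · have := mul_nonneg hb hEx.le
    linarith

/-- vertical segments -/
theorem joined_vert {e x : Euc n} (he : ‖e‖ = 1) {T : ℝ} (hT : 0 ≤ T)
    (h : ∀ s, 0 ≤ s → s ≤ T → x + s • e ∈ Room e) : JoinedIn (Room e) x (x + T • e) := by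
  refine JoinedIn.of_segment_subset ?_
  rintro z ⟨a, b, ha, hb, hab, rfl⟩
  have hz : a • x + b • (x + T • e) = x + (b * T) • e := by
    rw [show a = 1 - b by linarith]
    module
  rw [hz]
  exact h _ (mul_nonneg hb hT) (mul_le_of_le_one_left hT (by linarith))

theorem joined_up {e x : Euc n} (he : ‖e‖ = 1) (hx : x ∈ Room e) (hy0 : 0 ≤ hgt e x)
    (hy : hgt e x ≤ 1 / 4) (hr : rho e x ≤ 37 / 25) :
    JoinedIn (Room e) ((1 / 2 : ℝ) • e) x := by
  obtain ⟨hee, hxe⟩ := unit_facts he
  have hrs : ∀ s : ℝ, rho e (x + s • e) = rho e x := by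
    intro s
    rw [rho_add, hxe, hee, he]
    ring
  have hys : ∀ s : ℝ, hgt e (x + s • e) = hgt e x + s := by
    intro s
    rw [hgt_add, hee, mul_one]
  have hseg : ∀ s, 0 ≤ s → s ≤ 1 / 2 - hgt e x → x + s • e ∈ Room e := by
    intro s hs0 hs1
    constructor
    · unfold E
      rw [hrs, hys]
      have : |hgt e x + s| ≤ 3 / 4 := by
        rw [abs_le]
        constructor <;> linarith
      have := th_le this
      linarith
    · have := hx.2
      unfold W at this ⊢
      rw [hrs, hys]
      nlinarith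
  have h1 := joined_vert he (by linarith) hseg
  have h2 := hseg (1 / 2 - hgt e x) (by linarith) le_rfl
  exact (joined_cap he h2.1 (by rw [hys]; linarith)).trans h1.symm

theorem joined_half {e x : Euc n} (he : ‖e‖ = 1) (hx : x ∈ Room e) (hy0 : 0 ≤ hgt e x) :
    JoinedIn (Room e) ((1 / 2 : ℝ) • e) x := by
  obtain ⟨hee, hxe⟩ := unit_facts he
  rcases lt_or_ge (1 / 4) (hgt e x) with hy | hy
  · exact joined_cap he hx.1 hy
  rcases le_or_gt (rho e x) (37 / 25) with hr | hr
  · exact joined_up he hx hy0 hy hr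
  set h := x - hgt e x • e with hh
  have hh0 : hgt e h = 0 := by
    have := hgt_add e x e (-hgt e x)
    rw [hee] at this
    rw [hh, show x - hgt e x • e = x + (-hgt e x) • e by module, this]
    ring
  have hxh : ⟪x, h⟫ = rho e x := by
    rw [hh, inner_sub_right, real_inner_smul_right, hxe, real_inner_self_eq_norm_sq]
    unfold rho
    ring
  have hhh : ‖h‖ ^ 2 = rho e x := by
    rw [← real_inner_self_eq_norm_sq]
    nth_rewrite 1 [hh]
    rw [inner_sub_left, real_inner_smul_left, hxh]
    have : ⟪e, h⟫ = 0 := hh0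
    rw [this]
    ring
  have hys : ∀ s : ℝ, hgt e (x + s • h) = hgt e x := by
    intro s
    rw [hgt_add, hh0]
    ring
  have hrs : ∀ s : ℝ, rho e (x + s • h) = (1 + s) ^ 2 * rho e x := by
    intro s
    rw [rho_add, hh0, hxh, hhh]
    ring
  set l := Real.sqrt (37 / 25 / rho e x) with hl
  have hr0 : 0 < rho e x := by linarith
  have hl2 : l ^ 2 * rho e x = 37 / 25 := by
    rw [hl, Real.sq_sqrt (by positivity)]
    field_simp
  have hl0 : 0 ≤ l := Real.sqrt_nonneg _
  have hl1 : l ≤ 1 := by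
    by_contra hcon
    push Not at hcon
    nlinarith
  have hseg : ∀ s, l - 1 ≤ s → s ≤ 0 → x + s • h ∈ Room e := by
    intro s hs0 hs1
    have h1 : l ^ 2 ≤ (1 + s) ^ 2 := by
      apply pow_le_pow_left₀ hl0; linarith
    have h2 : (1 + s) ^ 2 ≤ 1 := by nlinarith
    refine outer_mem ?_ ?_
    · have := hx.1
      unfold E at this ⊢
      rw [hrs, hys]
      nlinarith
    · rw [hrs]
      nlinarith
  have h1 : JoinedIn (Room e) x (x + (l - 1) • h) := by
    refine JoinedIn.of_segment_subset ?_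
    rintro z ⟨a, b, ha, hb, hab, rfl⟩
    have hz : a • x + b • (x + (l - 1) • h) = x + (b * (l - 1)) • h := by
      rw [show a = 1 - b by linarith]
      module
    rw [hz]
    refine hseg _ ?_ ?_
    · nlinarith
    · exact mul_nonpos_of_nonneg_of_nonpos hb (by linarith)
  have h2 : x + (l - 1) • h ∈ Room e := hseg _ le_rfl (by linarith)
  refine (joined_up he h2 ?_ ?_ ?_).trans h1.symm
  · rw [hys]; exact hy0
  · rw [hys]; exact hy
  · rw [hrs, show 1 + (l - 1) = l by ring, hl2]

theorem joined_tube {e f : Euc n} (he : ‖e‖ = 1) (hf : ‖f‖ = 1) (hef : ⟪e, f⟫ = 0) :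
    JoinedIn (Room e) ((1 / 2 : ℝ) • e) ((1 / 2 : ℝ) • (-e)) := by
  obtain ⟨hee, hxe⟩ := unit_facts he
  set x : Euc n := (-1 / 2 : ℝ) • e + (61 / 50 : ℝ) • f with hx
  have hyx : hgt e x = -1 / 2 := by
    rw [hx]
    simp [hgt, inner_add_right, real_inner_smul_right, hef, he]
  have hrx : rho e x = 3721 / 2500 := by
    unfold rho
    rw [hyx, hx, norm_add_sq_real, norm_smul, norm_smul, he, hf, real_inner_smul_left,
      real_inner_smul_right, hef]
    norm_num
  have hrs : ∀ s : ℝ, rho e (x + s • e) = rho e x := by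
    intro s
    rw [rho_add, hxe, hee, he]
    ring
  have hys : ∀ s : ℝ, hgt e (x + s • e) = hgt e x + s := by
    intro s
    rw [hgt_add, hee, mul_one]
  have hseg : ∀ s : ℝ, 0 ≤ s → s ≤ 1 → x + s • e ∈ Room e := by
    intro s hs0 hs1
    refine outer_mem ?_ ?_
    · unfold E
      rw [hrs, hys, hyx, hrx]
      have : |(-1 / 2 : ℝ) + s| ≤ 3 / 4 := by
        rw [abs_le]
        constructor <;> linarith
      have := th_le this
      linarith
    · rw [hrs, hrx]
      norm_num
  have h1 := joined_vert he (by norm_num : (0 : ℝ) ≤ 1) hseg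
  have h2 := hseg 1 (by norm_num) le_rfl
  have h0 : x ∈ Room e := by simpa using hseg 0 le_rfl (by norm_num)
  have h3 : JoinedIn (Room e) ((1 / 2 : ℝ) • e) (x + (1 : ℝ) • e) :=
    joined_cap he h2.1 (by rw [hys, hyx]; norm_num)
  have h4 : JoinedIn (Room (-e)) ((1 / 2 : ℝ) • (-e)) x := by
    refine joined_cap (by rw [norm_neg, he]) ?_ ?_
    · rw [← Room_neg] at h0
      exact h0.1
    · rw [hgt_neg, hyx]; norm_num
  rw [Room_neg] at h4
  exact (h3.trans h1.symm).trans h4.symm

theorem isConnected_Room {e f : Euc n} (he : ‖e‖ = 1) (hf : ‖f‖ = 1) (hef : ⟪e, f⟫ = 0) :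
    IsConnected (Room e) := by
  have ht := joined_tube he hf hef
  have hpc : IsPathConnected (Room e) := by
    refine ⟨(1 / 2 : ℝ) • e, ht.source_mem, fun {x} hx => ?_⟩
    rcases le_total 0 (hgt e x) with h | h
    · exact joined_half he hx h
    · have h2 : JoinedIn (Room (-e)) ((1 / 2 : ℝ) • (-e)) x := by
        refine joined_half (by rw [norm_neg, he]) ?_ ?_
        · rw [Room_neg]; exact hx
        · rw [hgt_neg]; linarith
      rw [Room_neg] at h2
      exact ht.trans h2
  exact hpc.isConnected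

theorem isSmoothDomain_Room {e f : Euc n} (he : ‖e‖ = 1) (hf : ‖f‖ = 1) (hef : ⟪e, f⟫ = 0) :
    IsSmoothDomain (Room e) where
  isOpen := isOpen_Room e
  isConnected := isConnected_Room he hf hef
  isBounded := isBounded_Room he
  smooth := fun _ hx => ⟨F e, isDefFun_F he hx⟩

end Pool.Agent.X165.PS
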