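import Mathlib
import Pool.Agent.X165.PS2

set_option autoImplicit false

open Set Filter Topology

namespace Pool.Agent.X165.PS

open scoped RealInnerProductSpace ContDiff
open Pool.Agent.H800R2
open Pool.Agent.X165.PR (hgt rho hgt_add rho_add rho_nonneg hgt_cont rho_cont hgt_contDiff
  rho_contDiff normsq_add J J_eq J_cross J_reflect)

variable {n : ℕ}

/-- `ph < 0` is where the photon is when it is not in the upper pocket -/
noncomputable def ph (e x : Euc n) : ℝ := min (hgt e x) (1 - rho e x)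

theorem ph_cont (e : Euc n) : Continuous (ph e) :=
  (hgt_cont e).min (continuous_const.sub (rho_cont e))

/-- below the top of the ridge `ph` does not vanish in the room -/
theorem ph_zero {e x : Euc n} (he : ‖e‖ = 1) (hW : 0 ≤ W e x) (hy : hgt e x ≤ 1 / 4)
    (h : ph e x = 0) : hgt e x = 1 / 4 ∧ rho e x = 1 := by
  have hr := rho_nonneg he x
  unfold ph at h
  unfold W at hW
  rcases min_choice (hgt e x) (1 - rho e x) with h1 | h1
  · have h2 : hgt e x = 0 := by rw [← h1, h]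
    have h3 : hgt e x ≤ 1 - rho e x := by rw [← h1]; exact min_le_right _ _
    have := g_lt hr (by linarith)
    rw [h2] at hW
    linarith
  · have h2 : 1 - rho e x = 0 := by rw [← h1, h]
    have h3 : 1 - rho e x ≤ hgt e x := by rw [← h1]; exact min_le_left _ _
    have h4 : rho e x = 1 := by linarith
    rw [h4, g_one] at hW
    refine ⟨?_, h4⟩
    nlinarith

theorem ph_ne {e x : Euc n} (he : ‖e‖ = 1) (hW : 0 < W e x) (hy : hgt e x ≤ 1 / 4) :
    ph e x ≠ 0 := by
  intro h
  obtain ⟨h1, h2⟩ := ph_zero he hW.le hy h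
  unfold W at hW
  rw [h1, h2, g_one] at hW
  norm_num at hW

/-- light outside of the upper pocket stays outside of it as long as it is below the ridge -/
theorem outside {e p v : Euc n} {T : ℝ} (he : ‖e‖ = 1) (hT : 0 < T) (hp : ph e p < 0)
    (h : ∀ s ∈ Ioo 0 T, p + s • v ∈ Room e ∧ hgt e (p + s • v) ≤ 1 / 4) :
    ph e (p + T • v) ≤ 0 := by
  by_contra hcon
  push Not at hcon
  have hc : Continuous fun s : ℝ => ph e (p + s • v) := by
    have := ph_cont e
    fun_prop
  have h1 := intermediate_value_Ioo hT.le (hc.continuousOn (s := Icc 0 T))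
  have h2 : (0 : ℝ) ∈ Ioo (ph e (p + (0 : ℝ) • v)) (ph e (p + T • v)) := by
    refine ⟨?_, hcon⟩
    simpa using hp
  obtain ⟨s, hs, hs2⟩ := h1 h2
  exact ph_ne he (h s hs).1.2 (h s hs).2 hs2

/-- the invariant for the upper cap -/
noncomputable def Ju (e p v : Euc n) : ℝ := J e (p - (1 / 4 : ℝ) • e) v

/-- the states of a photon that has not been in the upper pocket -/
def Out (e p v : Euc n) : Prop :=
  (hgt e p ≤ 1 / 4 ∧ ph e p < 0) ∨ (1 / 4 < hgt e p ∧ 0 < Ju e p v)

theorem shift_hgt {e : Euc n} (he : ‖e‖ = 1) (p : Euc n) :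
    hgt e (p - (1 / 4 : ℝ) • e) = hgt e p - 1 / 4 := by
  have := hgt_add e p e (-(1 / 4))
  rw [(unit_facts he).1] at this
  rw [show p - (1 / 4 : ℝ) • e = p + (-(1 / 4 : ℝ)) • e by module, this]
  ring

theorem shift_rho {e : Euc n} (he : ‖e‖ = 1) (p : Euc n) :
    rho e (p - (1 / 4 : ℝ) • e) = rho e p := by
  rw [show p - (1 / 4 : ℝ) • e = p + (-(1 / 4 : ℝ)) • e by module, rho_add,
    (unit_facts he).1, (unit_facts he).2, he]
  ring

/-- the point where the line crosses the level of the ridge -/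
theorem Ju_cross {e p v : Euc n} (he : ‖e‖ = 1) (hv : hgt e v ≠ 0) :
    hgt e (p + ((1 / 4 - hgt e p) / hgt e v) • v) = 1 / 4 ∧
      Ju e p v = hgt e v ^ 2 * (rho e (p + ((1 / 4 - hgt e p) / hgt e v) • v) - 1) := by
  constructor
  · rw [hgt_add]
    field_simp
    ring
  · obtain ⟨_, h2⟩ := J_cross (e := e) (p := p - (1 / 4 : ℝ) • e) hv
    unfold Ju
    rw [h2, shift_hgt he]
    congr 2
    rw [show p - (1 / 4 : ℝ) • e + (-(hgt e p - 1 / 4) / hgt e v) • v
      = (p + ((1 / 4 - hgt e p) / hgt e v) • v) - (1 / 4 : ℝ) • e by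
        rw [show -(hgt e p - 1 / 4) = 1 / 4 - hgt e p by ring]; module, shift_rho he]

theorem Ju_line {e p v : Euc n} (he : ‖e‖ = 1) (s : ℝ) : Ju e (p + s • v) v = Ju e p v := by
  unfold Ju J
  have : hgt e v • (p + s • v - (1 / 4 : ℝ) • e) - hgt e (p + s • v - (1 / 4 : ℝ) • e) • v
      = hgt e v • (p - (1 / 4 : ℝ) • e) - hgt e (p - (1 / 4 : ℝ) • e) • v := by
    rw [shift_hgt he, shift_hgt he, hgt_add]
    module
  rw [this]

/-- light outside of the upper pocket that goes into the cap has `Ju > 0` -/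
theorem Ju_of_exit {e p v : Euc n} {T : ℝ} (he : ‖e‖ = 1) (hT : 0 < T) (hy : hgt e p ≤ 1 / 4)
    (hp : ph e p < 0) (h : ∀ s ∈ Ioo 0 T, p + s • v ∈ Room e)
    (hq : 1 / 4 < hgt e (p + T • v)) : 0 < Ju e p v := by
  rw [hgt_add] at hq
  have hv : 0 < hgt e v := by
    by_contra hcon
    push Not at hcon
    nlinarith
  obtain ⟨h1, h2⟩ := Ju_cross (p := p) he hv.ne'
  set s0 := (1 / 4 - hgt e p) / hgt e v with hs0
  have hs00 : 0 ≤ s0 := div_nonneg (by linarith) hv.le
  have hs0v : s0 * hgt e v = 1 / 4 - hgt e p := by rw [hs0]; field_simp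
  have hs0T : s0 < T := by
    by_contra hcon
    push Not at hcon
    nlinarith
  have h3 : ph e (p + s0 • v) < 0 := by
    rcases hs00.eq_or_lt with h0 | h0
    · rw [← h0]; simpa using hp
    · refine lt_of_le_of_ne (outside he h0 hp fun s hs => ⟨h s ⟨hs.1, hs.2.trans hs0T⟩, ?_⟩)
        (ph_ne he (h s0 ⟨h0, hs0T⟩).2 h1.le)
      rw [hgt_add]
      have : s * hgt e v ≤ s0 * hgt e v := mul_le_mul_of_nonneg_right hs.2.le hv.le
      linarith
  have h4 : 1 < rho e (p + s0 • v) := by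
    unfold ph at h3
    rw [h1, min_lt_iff] at h3
    rcases h3 with h3 | h3
    · norm_num at h3
    · linarith
  rw [h2]
  have : 0 < rho e (p + s0 • v) - 1 := by linarith
  positivity

/-- light in the cap with `Ju > 0` does not go into the upper pocket -/
theorem out_enter {e p v : Euc n} {T : ℝ} (he : ‖e‖ = 1) (hT : 0 < T) (hy : 1 / 4 < hgt e p)
    (hJ : 0 < Ju e p v) (h : ∀ s ∈ Ioo 0 T, p + s • v ∈ Room e)
    (hq : hgt e (p + T • v) ≤ 1 / 4) (hW : 0 ≤ W e (p + T • v)) :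
    ph e (p + T • v) < 0 := by
  rw [hgt_add] at hq
  have hv : hgt e v < 0 := by
    by_contra hcon
    push Not at hcon
    nlinarith
  obtain ⟨h1, h2⟩ := Ju_cross (p := p) he hv.ne
  set s0 := (1 / 4 - hgt e p) / hgt e v with hs0
  have hs00 : 0 < s0 := div_pos_of_neg_of_neg (by linarith) hv
  have hs0v : s0 * hgt e v = 1 / 4 - hgt e p := by
    rw [hs0]
    have := hv.ne
    field_simp
  have hs0T : s0 ≤ T := by
    by_contra hcon
    push Not at hcon
    nlinarith
  have h4 : 1 < rho e (p + s0 • v) := by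
    rw [h2] at hJ
    have : 0 < hgt e v ^ 2 := sq_pos_of_neg hv
    have := (pos_iff_pos_of_mul_pos hJ).1 this
    linarith
  have h3 : ph e (p + s0 • v) < 0 := by
    unfold ph
    rw [min_lt_iff]
    right
    linarith
  rcases hs0T.eq_or_lt with heq | hlt
  · rw [← heq]; exact h3
  · have hyT' : hgt e (p + T • v) < 1 / 4 := by
      rw [hgt_add]
      have : T * hgt e v < s0 * hgt e v := mul_lt_mul_of_neg_right hlt hv
      linarith
    have hsplit : p + T • v = (p + s0 • v) + (T - s0) • v := by module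
    have h7 : ph e ((p + s0 • v) + (T - s0) • v) ≤ 0 := by
      refine outside he (by linarith) h3 fun s hs => ?_
      have h8 : (p + s0 • v) + s • v = p + (s0 + s) • v := by module
      rw [h8]
      refine ⟨h _ ⟨by linarith [hs.1], by linarith [hs.2]⟩, ?_⟩
      rw [hgt_add]
      have : (s0 + s) * hgt e v ≤ s0 * hgt e v :=
        mul_le_mul_of_nonpos_right (by linarith [hs.1]) hv.le
      linarith
    rw [← hsplit] at h7
    refine lt_of_le_of_ne h7 fun hc2 => ?_
    have := (ph_zero he hW hyT'.le hc2).1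
    linarith

/-- the outward unit normal on the upper part of the outer wall -/
theorem normal_up {e x ν : Euc n} (he : ‖e‖ = 1) (hx : x ∈ frontier (Room e))
    (hy : 1 / 4 < hgt e x) (hν : IsOuterNormal (Room e) x ν) :
    PR.E e (x - (1 / 4 : ℝ) • e) = 0 ∧ ν = ‖x - (1 / 4 : ℝ) • e + hgt e (x - (1 / 4 : ℝ) • e) • e‖⁻¹
      • (x - (1 / 4 : ℝ) • e + hgt e (x - (1 / 4 : ℝ) • e) • e) := by
  obtain ⟨hE0, hW0, h⟩ := frontier_Room hx
  have hr := rho_nonneg he x
  have hW : 0 < W e x := by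
    have := g_nonneg hr
    unfold W
    nlinarith
  have hE : E e x = 0 := h.resolve_right hW.ne'
  constructor
  · rw [PR.E_eq, shift_hgt he, shift_rho he]
    unfold E at hE
    rw [th_eq hy.le] at hE
    exact hE
  obtain ⟨G, hG, rfl⟩ := hν
  rw [hG.normal_unique (isDefFun_F he hx) (isOpen_Room e) hx]
  have hg : gradient (F e) x =
      W e x • (x - (1 / 4 : ℝ) • e + hgt e (x - (1 / 4 : ℝ) • e) • e) := by
    refine ext_inner_right ℝ fun u => ?_
    rw [grad_F, hE, th_deriv hy, real_inner_smul_left, inner_add_left, inner_sub_left,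
      real_inner_smul_left, real_inner_smul_left, shift_hgt he]
    show _ = W e x * (⟪x, u⟫ - 1 / 4 * hgt e u + (hgt e x - 1 / 4) * hgt e u)
    ring
  rw [hg, norm_smul, Real.norm_eq_abs, abs_of_pos hW, smul_smul, mul_inv]
  congr 1
  field_simp

/-- light does not hit the ridge from below -/
theorem normal_ridge {e x ν v : Euc n} (he : ‖e‖ = 1) (hx : x ∈ frontier (Room e))
    (hy : hgt e x = 1 / 4) (hr : rho e x = 1) (hν : IsOuterNormal (Room e) x ν)
    (hv : 0 < ⟪v, ν⟫) : hgt e v < 0 := by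
  obtain ⟨G, hG, rfl⟩ := hν
  rw [hG.normal_unique (isDefFun_F he hx) (isOpen_Room e) hx, real_inner_smul_right,
    real_inner_comm, grad_F, hr, hy] at hv
  have hW : W e x = 0 := by unfold W; rw [hr, hy, g_one]; norm_num
  have hE : E e x = 1 / 2 := by
    unfold E
    rw [hr, hy, th_eq le_rfl]
    norm_num
  rw [hW, hE] at hv
  have h1 : 0 < ‖gradient (F e) x‖⁻¹ :=
    inv_pos.2 (norm_pos_iff.2 (isDefFun_F he hx).2.1)
  have h2 := (pos_iff_pos_of_mul_pos hv).1 h1
  linarith

theorem below {e p v : Euc n} {T : ℝ} (hp : hgt e p ≤ 1 / 4) (hq : hgt e (p + T • v) ≤ 1 / 4)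
    {s : ℝ} (hs0 : 0 ≤ s) (hs : s ≤ T) : hgt e (p + s • v) ≤ 1 / 4 := by
  rw [hgt_add] at hq ⊢
  rcases le_or_gt (hgt e v) 0 with h | h
  · have := mul_nonpos_of_nonneg_of_nonpos hs0 h
    linarith
  · have := mul_le_mul_of_nonneg_right hs h.le
    linarith

/-- the invariant is kept by a reflection -/
theorem out_bounce {e p v ν : Euc n} {τ : ℝ} (he : ‖e‖ = 1) (hI : Out e p v) (hτ : 0 < τ)
    (hin : ∀ s ∈ Ioo 0 τ, p + s • v ∈ Room e) (hb : p + τ • v ∈ frontier (Room e))
    (hν : IsOuterNormal (Room e) (p + τ • v) ν) (hv : 0 < ⟪v, ν⟫) :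
    Out e (p + τ • v) (v - (2 * ⟪v, ν⟫) • ν) := by
  obtain ⟨hE0, hW0, hEW⟩ := frontier_Room hb
  rcases le_or_gt (hgt e (p + τ • v)) (1 / 4) with hq | hq
  · left
    refine ⟨hq, ?_⟩
    rcases hI with ⟨hy, hp⟩ | ⟨hy, hJ⟩
    · have h1 := outside he hτ hp fun s hs => ⟨hin s hs, below hy hq hs.1.le hs.2.le⟩
      refine lt_of_le_of_ne h1 fun h2 => ?_
      obtain ⟨h3, h4⟩ := ph_zero he hW0 hq h2
      have h5 := normal_ridge he hb h3 h4 hν hv
      rw [hgt_add] at h3
      nlinarith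
    · exact out_enter he hτ hy hJ hin hq hW0
  · right
    refine ⟨hq, ?_⟩
    have hJ : 0 < Ju e p v := by
      rcases hI with ⟨hy, hp⟩ | ⟨hy, hJ⟩
      · exact Ju_of_exit he hτ hy hp hin hq
      · exact hJ
    rw [← Ju_line he τ] at hJ
    obtain ⟨hE, hN⟩ := normal_up he hb hq hν
    set q := p + τ • v - (1 / 4 : ℝ) • e with hqd
    set N := q + hgt e q • e with hNd
    have hN0 : ‖N‖ ≠ 0 := by
      intro h0
      rw [hN, norm_eq_zero.1 h0] at hv
      simp at hv
    set k := 2 * ⟪v, N⟫ / ‖N‖ ^ 2 with hk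
    have hv' : v - (2 * ⟪v, ν⟫) • ν = v - k • N := by
      rw [hN, real_inner_smul_right, smul_smul, hk]
      congr 2
      field_simp
    have hk2 : k * ‖N‖ ^ 2 = 2 * ⟪v, N⟫ := by rw [hk]; field_simp
    rw [hv']
    unfold Ju at hJ ⊢
    rw [J_reflect hE he hk2]
    exact hJ

theorem out_fly {e p v : Euc n} {t : ℝ} (he : ‖e‖ = 1) (hI : Out e p v) (ht : 0 ≤ t)
    (hin : ∀ s ∈ Ioc 0 t, p + s • v ∈ Room e) :
    ¬ (0 < hgt e (p + t • v) ∧ hgt e (p + t • v) < 1 / 4 ∧ rho e (p + t • v) < 1) := by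
  rintro ⟨hq0, hq, hr1⟩
  have hpos : ph e (p + t • v) > 0 := lt_min hq0 (by linarith)
  rcases ht.eq_or_lt with h0 | h0
  · rw [← h0, zero_smul, add_zero] at hq hpos
    rcases hI with ⟨_, hp⟩ | ⟨hy, _⟩
    · linarith
    · linarith
  have hin' : ∀ s ∈ Ioo 0 t, p + s • v ∈ Room e := fun s hs => hin s ⟨hs.1, hs.2.le⟩
  have hW : 0 < W e (p + t • v) := (hin t ⟨h0, le_rfl⟩).2
  rcases hI with ⟨hy, hp⟩ | ⟨hy, hJ⟩
  · have h1 := outside he h0 hp fun s hs => ⟨hin' s hs, below hy hq.le hs.1.le hs.2.le⟩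
    linarith
  · have := out_enter he h0 hy hJ hin' hq.le hW.le
    linarith

/-- light that is not emitted in the upper pocket or in the upper cap never reaches the upper
pocket -/
theorem photon_out {e p v q : Euc n} {t : ℝ} (he : ‖e‖ = 1) (h : Photon (Room e) p v t q)
    (hI : Out e p v) : ¬ (0 < hgt e q ∧ hgt e q < 1 / 4 ∧ rho e q < 1) := by
  induction h with
  | fly p v t ht hin => exact out_fly he hI ht hin
  | bounce p v ν q τ t hτ hin hb hν hv _ ih => exact ih (out_bounce he hI hτ hin hb hν hv)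

/-- the upper pocket -/
def Pocket (e : Euc n) : Set (Euc n) :=
  Room e ∩ {x | 0 < hgt e x ∧ hgt e x < 1 / 4 ∧ rho e x < 1}

theorem isOpen_Pocket (e : Euc n) : IsOpen (Pocket e) :=
  (isOpen_Room e).inter ((isOpen_lt continuous_const (hgt_cont e)).inter
    ((isOpen_lt (hgt_cont e) continuous_const).inter (isOpen_lt (rho_cont e) continuous_const)))

theorem nonempty_Pocket {e : Euc n} (he : ‖e‖ = 1) : (Pocket e).Nonempty := by
  obtain ⟨hee, hxe⟩ := unit_facts he
  have hy : hgt e ((1 / 5 : ℝ) • e) = 1 / 5 := by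
    have h := hgt_add e 0 e (1 / 5)
    simp only [zero_add] at h
    rw [h, hee]
    simp [hgt]
  have hr : rho e ((1 / 5 : ℝ) • e) = 0 := by
    unfold rho
    rw [hy, norm_smul, he]
    norm_num
  refine ⟨(1 / 5 : ℝ) • e, ⟨?_, ?_⟩, ?_, ?_, ?_⟩
  · unfold E
    rw [hy, hr]
    have : |(1 / 5 : ℝ)| ≤ 3 / 4 := by
      rw [abs_le]
      constructor <;> norm_num
    have := th_le this
    linarith
  · unfold W g
    rw [hy, hr]
    norm_num
  · rw [hy]; norm_num
  · rw [hy]; norm_num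
  · rw [hr]; norm_num

/-- a point of the lower half does not light up the upper pocket -/
theorem dark {e P : Euc n} (he : ‖e‖ = 1) (hP : P ∈ Room e) (hy : hgt e P ≤ 0) (t : ℝ) :
    front (Room e) P t ∩ Pocket e = ∅ := by
  rw [eq_empty_iff_forall_notMem]
  rintro q ⟨⟨v, _, hq⟩, hqV⟩
  refine photon_out he hq (Or.inl ⟨by linarith, ?_⟩) hqV.2
  refine lt_of_le_of_ne (min_le_of_left_le hy) (ph_ne he hP.2 (by linarith))

end Pool.Agent.X165.PS
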