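import Mathlib

/-! Maclaurin's inequality with its equality case. -/

set_option autoImplicit false

open Finset

namespace Pool.Agent.X165.Mac

variable {ι : Type*} [DecidableEq ι]

/-- elementary symmetric function of the numbers `x i`, `i ∈ s` -/
noncomputable def E (x : ι → ℝ) (k : ℕ) (s : Finset ι) : ℝ := ∑ t ∈ powersetCard k s, ∏ i ∈ t, x i

lemma E_zero (x : ι → ℝ) (s : Finset ι) : E x 0 s = 1 := by simp [E]

lemma E_nonneg {x : ι → ℝ} (hx : ∀ i, 0 ≤ x i) (k : ℕ) (s : Finset ι) : 0 ≤ E x k s :=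
  sum_nonneg fun _ _ => prod_nonneg fun _ _ => hx _

lemma E_one (x : ι → ℝ) (s : Finset ι) : E x 1 s = ∑ i ∈ s, x i := by
  simp [E, powersetCard_one]

lemma E_insert (x : ι → ℝ) (k : ℕ) {s : Finset ι} {i : ι} (hi : i ∉ s) :
    E x (k + 1) (insert i s) = E x (k + 1) s + x i * E x k s := by
  unfold E
  rw [powersetCard_succ_insert hi, sum_union]
  · congr 1
    rw [sum_image, mul_sum]
    · refine sum_congr rfl fun t ht => ?_
      have hit : i ∉ t := fun h => hi ((mem_powersetCard.1 ht).1 h)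
      rw [prod_insert hit]
    · intro t ht u hu htu
      have h1 : i ∉ t := fun h => hi ((mem_powersetCard.1 ht).1 h)
      have h2 : i ∉ u := fun h => hi ((mem_powersetCard.1 hu).1 h)
      have := congrArg (fun z => z.erase i) htu
      simpa [erase_insert h1, erase_insert h2] using this
  · rw [disjoint_left]
    intro t ht htt
    obtain ⟨u, _, rfl⟩ := mem_image.1 htt
    exact hi ((mem_powersetCard.1 ht).1 (mem_insert_self _ _))

lemma E_erase (x : ι → ℝ) (k : ℕ) {s : Finset ι} {i : ι} (hi : i ∈ s) :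
    E x (k + 1) s = E x (k + 1) (s.erase i) + x i * E x k (s.erase i) := by
  conv_lhs => rw [← insert_erase hi]
  exact E_insert x k (notMem_erase i s)

lemma E_erase_ite (x : ι → ℝ) (k : ℕ) (s : Finset ι) (i : ι) :
    E x k (s.erase i) = ∑ u ∈ powersetCard k s, if i ∉ u then ∏ j ∈ u, x j else 0 := by
  unfold E
  rw [← sum_filter]
  congr 1
  ext u
  simp only [mem_powersetCard, mem_filter, subset_erase]
  tauto

/-- double counting -/
lemma count (x : ι → ℝ) (k : ℕ) (s : Finset ι) :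
    ∑ i ∈ s, x i * E x k (s.erase i) = (k + 1) * E x (k + 1) s := by
  have h1 : ∀ i ∈ s, x i * E x k (s.erase i) =
      ∑ u ∈ powersetCard (k + 1) s, if i ∈ u then ∏ j ∈ u, x j else 0 := by
    intro i hi
    have h := E_erase x k hi
    rw [E_erase_ite x (k + 1) s i] at h
    have h2 : x i * E x k (s.erase i) = E x (k + 1) s -
        ∑ u ∈ powersetCard (k + 1) s, (if i ∉ u then ∏ j ∈ u, x j else 0) := by linarith
    rw [h2]
    unfold E
    rw [← sum_sub_distrib]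
    refine sum_congr rfl fun u _ => ?_
    by_cases hu : i ∈ u <;> simp [hu]
  rw [sum_congr rfl h1, sum_comm]
  unfold E
  rw [mul_sum]
  refine sum_congr rfl fun u hu => ?_
  obtain ⟨hus, huc⟩ := mem_powersetCard.1 hu
  rw [← sum_filter, filter_mem_eq_inter, inter_eq_right.2 hus, sum_const, huc, nsmul_eq_mul]
  push_cast
  ring

/-- the difference of the weighted functions -/
lemma diff_pair (x : ι → ℝ) (k : ℕ) {s : Finset ι} {i j : ι} (hi : i ∈ s) (hj : j ∈ s) (hij : i ≠ j) :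
    x i * E x k (s.erase i) - x j * E x k (s.erase j) =
      (x i - x j) * E x k ((s.erase i).erase j) := by
  have hc : (s.erase j).erase i = (s.erase i).erase j := by
    ext u; simp only [mem_erase]; tauto
  cases k with
  | zero => simp [E_zero]
  | succ k =>
    rw [E_erase x k (mem_erase.2 ⟨hij.symm, hj⟩ : j ∈ s.erase i),
      E_erase x k (mem_erase.2 ⟨hij, hi⟩ : i ∈ s.erase j), hc]
    ring

lemma bilin (s : Finset ι) (x g : ι → ℝ) :
    ∑ i ∈ s, ∑ j ∈ s, (x i - x j) * (g i - g j) =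
      2 * (s.card * ∑ i ∈ s, x i * g i - (∑ i ∈ s, x i) * ∑ i ∈ s, g i) := by
  have e : ∀ i j, (x i - x j) * (g i - g j) =
      x i * g i + x j * g j - g i * x j - x i * g j := fun i j => by ring
  have e1 : ∑ i ∈ s, ∑ j ∈ s, g i * x j = (∑ i ∈ s, x i) * ∑ i ∈ s, g i := by
    rw [← sum_mul_sum, mul_comm]
  have e2 : ∑ i ∈ s, ∑ j ∈ s, x i * g j = (∑ i ∈ s, x i) * ∑ i ∈ s, g i := by
    rw [← sum_mul_sum]
  simp_rw [e, sum_sub_distrib, sum_add_distrib, sum_const, nsmul_eq_mul]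
  rw [e1, e2, ← mul_sum]
  ring

/-- the main step -/
lemma step {x : ι → ℝ} (hx : ∀ i, 0 ≤ x i) (k : ℕ) (s : Finset ι) :
    ((k : ℝ) + 1 + 1) * s.card * E x (k + 1 + 1) s ≤
      ((s.card : ℝ) - (k + 1)) * (∑ i ∈ s, x i) * E x (k + 1) s := by
  have c1 := count x (k + 1) s
  have c2 := count x k s
  have h3 : ∑ i ∈ s, x i * E x (k + 1) (s.erase i) =
      (∑ i ∈ s, x i) * E x (k + 1) s - ∑ i ∈ s, x i * (x i * E x k (s.erase i)) := by
    rw [sum_mul, ← sum_sub_distrib]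
    refine sum_congr rfl fun i hi => ?_
    rw [E_erase x k hi]
    ring
  have h4 : 0 ≤ ∑ i ∈ s, ∑ j ∈ s, (x i - x j) *
      (x i * E x k (s.erase i) - x j * E x k (s.erase j)) := by
    refine sum_nonneg fun i hi => sum_nonneg fun j hj => ?_
    by_cases hij : i = j
    · subst hij; simp
    · rw [diff_pair x k hi hj hij, ← mul_assoc]
      exact mul_nonneg (mul_self_nonneg _) (E_nonneg hx _ _)
  have h5 : ∑ i ∈ s, ∑ j ∈ s, (x i - x j) * (x i * E x k (s.erase i) - x j * E x k (s.erase j)) =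
      2 * (s.card * ∑ i ∈ s, x i * (x i * E x k (s.erase i)) -
        (∑ i ∈ s, x i) * ∑ i ∈ s, x i * E x k (s.erase i)) := by
    exact bilin s x (fun i => x i * E x k (s.erase i))
  rw [h5, c2] at h4
  rw [h3] at c1
  push_cast at c1
  nlinarith [c1, h4]

lemma E_two (x : ι → ℝ) (s : Finset ι) :
    2 * E x 2 s = (∑ i ∈ s, x i) ^ 2 - ∑ i ∈ s, x i ^ 2 := by
  have c1 := count x 1 s
  have h : ∑ i ∈ s, x i * E x 1 (s.erase i) = (∑ i ∈ s, x i) ^ 2 - ∑ i ∈ s, x i ^ 2 := by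
    rw [sq, sum_mul, ← sum_sub_distrib]
    refine sum_congr rfl fun i hi => ?_
    rw [E_one, sum_erase_eq_sub hi]
    ring
  rw [h] at c1
  push_cast at c1
  norm_num at c1
  linarith

lemma E_two_le (x : ι → ℝ) (s : Finset ι) (hs : 0 < s.card) :
    E x 2 s ≤ (s.card.choose 2 : ℝ) * ((∑ i ∈ s, x i) / s.card) ^ 2 ∧
      (E x 2 s = (s.card.choose 2 : ℝ) * ((∑ i ∈ s, x i) / s.card) ^ 2 →
        ∀ i ∈ s, x i = (∑ i ∈ s, x i) / s.card) := by
  have hN : (0 : ℝ) < s.card := by exact_mod_cast hs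
  have h2 := E_two x s
  obtain ⟨S, hS⟩ : ∃ S, S = ∑ i ∈ s, x i := ⟨_, rfl⟩
  obtain ⟨N, hNN⟩ : ∃ N : ℝ, N = s.card := ⟨_, rfl⟩
  have hc : (s.card.choose 2 : ℝ) = N * (N - 1) / 2 := by rw [Nat.cast_choose_two, hNN]
  have hv : ∑ i ∈ s, (x i - S / N) ^ 2 = ∑ i ∈ s, x i ^ 2 - S ^ 2 / N := by
    have e : ∀ i ∈ s, (x i - S / N) ^ 2 = x i ^ 2 - 2 * (S / N) * x i + (S / N) ^ 2 :=
      fun i _ => by ring
    rw [sum_congr rfl e, sum_add_distrib, sum_sub_distrib, ← mul_sum, ← hS, sum_const,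
      nsmul_eq_mul, ← hNN]
    have : N ≠ 0 := by rw [hNN]; exact hN.ne'
    field_simp
    ring
  have hv0 : 0 ≤ ∑ i ∈ s, (x i - S / N) ^ 2 := sum_nonneg fun _ _ => sq_nonneg _
  rw [hc, ← hS, ← hNN]
  rw [← hS] at h2
  have hN' : 0 < N := by rw [hNN]; exact hN
  have e1 : N * (N - 1) / 2 * (S / N) ^ 2 = (S ^ 2 - S ^ 2 / N) / 2 := by
    field_simp
  rw [e1]
  constructor
  · linarith
  · intro h i hi
    have h0 : ∑ i ∈ s, (x i - S / N) ^ 2 = 0 := by rw [hv]; linarith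
    rw [sum_eq_zero_iff_of_nonneg fun _ _ => sq_nonneg _] at h0
    have := h0 i hi
    have h3 : x i - S / N = 0 := by simpa using this
    linarith

lemma via_two {x : ι → ℝ} (hx : ∀ i, 0 ≤ x i) (s : Finset ι) (j : ℕ) (hj : j + 2 ≤ s.card) :
    E x (j + 2) s * (s.card.choose 2 : ℝ) ≤
      (s.card.choose (j + 2) : ℝ) * ((∑ i ∈ s, x i) / s.card) ^ j * E x 2 s := by
  have hN : (0 : ℝ) < s.card := by
    have : 0 < s.card := by omega
    exact_mod_cast this
  have hS : 0 ≤ ∑ i ∈ s, x i := sum_nonneg fun i _ => hx i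
  induction j with
  | zero => simp; linarith [mul_comm (E x 2 s) (s.card.choose 2 : ℝ)]
  | succ j ih =>
    have ih := ih (by omega)
    have h1 := step hx (j + 1) s
    have h2 : ((s.card.choose (j + 1 + 2) : ℕ) : ℝ) * (j + 3) =
        (s.card.choose (j + 2) : ℝ) * (s.card - (j + 2)) := by
      have h := Nat.choose_succ_right_eq s.card (j + 2)
      have h' : ((s.card.choose (j + 2 + 1) * (j + 2 + 1) : ℕ) : ℝ) =
          ((s.card.choose (j + 2) * (s.card - (j + 2)) : ℕ) : ℝ) := by exact_mod_cast h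
      rw [Nat.cast_mul, Nat.cast_mul, Nat.cast_sub (by omega)] at h'
      push_cast at h'
      have e : j + 1 + 2 = j + 2 + 1 := by ring
      rw [e]
      linear_combination h'
    have hK : (0 : ℝ) ≤ (s.card : ℝ) - (j + 2) := by
      have : ((j + 2 : ℕ) : ℝ) ≤ s.card := by exact_mod_cast (by omega : j + 2 ≤ s.card)
      push_cast at this
      linarith
    push_cast at h1
    -- E_{j+3} ≤ (N - (j+2)) / (j+3) * (S / N) * E_{j+2}
    have h3 : E x (j + 1 + 2) s * ((j : ℝ) + 3) ≤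
        ((s.card : ℝ) - (j + 2)) * ((∑ i ∈ s, x i) / s.card) * E x (j + 2) s := by
      have e : ((s.card : ℝ) - (j + 2)) * ((∑ i ∈ s, x i) / s.card) * E x (j + 2) s =
          (((s.card : ℝ) - (j + 2)) * (∑ i ∈ s, x i) * E x (j + 2) s) / s.card := by
        field_simp
      rw [e, le_div_iff₀ hN]
      have e2 : j + 1 + 2 = j + 1 + 1 + 1 := by ring
      rw [e2]
      calc E x (j + 1 + 1 + 1) s * ((j : ℝ) + 3) * s.card
          = ((j : ℝ) + 1 + 1 + 1) * s.card * E x (j + 1 + 1 + 1) s := by ring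
        _ ≤ ((s.card : ℝ) - (j + 1 + 1)) * (∑ i ∈ s, x i) * E x (j + 1 + 1) s := h1
        _ = _ := by ring_nf
    have hc2 : (0 : ℝ) ≤ s.card.choose 2 := Nat.cast_nonneg _
    have h4 : E x (j + 1 + 2) s * ((j : ℝ) + 3) * (s.card.choose 2 : ℝ) ≤
        ((s.card : ℝ) - (j + 2)) * ((∑ i ∈ s, x i) / s.card) *
          ((s.card.choose (j + 2) : ℝ) * ((∑ i ∈ s, x i) / s.card) ^ j * E x 2 s) := by
      calc E x (j + 1 + 2) s * ((j : ℝ) + 3) * (s.card.choose 2 : ℝ)
          ≤ ((s.card : ℝ) - (j + 2)) * ((∑ i ∈ s, x i) / s.card) * E x (j + 2) s *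
            (s.card.choose 2 : ℝ) := mul_le_mul_of_nonneg_right h3 hc2
        _ = ((s.card : ℝ) - (j + 2)) * ((∑ i ∈ s, x i) / s.card) *
            (E x (j + 2) s * (s.card.choose 2 : ℝ)) := by ring
        _ ≤ _ := mul_le_mul_of_nonneg_left ih (mul_nonneg hK (div_nonneg hS hN.le))
    have h5 : ((s.card : ℝ) - (j + 2)) * ((∑ i ∈ s, x i) / s.card) *
          ((s.card.choose (j + 2) : ℝ) * ((∑ i ∈ s, x i) / s.card) ^ j * E x 2 s) =
        ((s.card.choose (j + 1 + 2) : ℝ) * ((∑ i ∈ s, x i) / s.card) ^ (j + 1) * E x 2 s) *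
          ((j : ℝ) + 3) := by
      rw [pow_succ]
      linear_combination (-((∑ i ∈ s, x i) / s.card) ^ j * ((∑ i ∈ s, x i) / s.card) * E x 2 s) * h2
    rw [h5] at h4
    have h6 : (0 : ℝ) < (j : ℝ) + 3 := by positivity
    refine le_of_mul_le_mul_right ?_ h6
    calc _ = E x (j + 1 + 2) s * ((j : ℝ) + 3) * (s.card.choose 2 : ℝ) := by ring
      _ ≤ _ := h4

/-- **Maclaurin's inequality** with the equality case -/
theorem maclaurin {x : ι → ℝ} (hx : ∀ i, 0 ≤ x i) (s : Finset ι) (k : ℕ) (h2 : 2 ≤ k)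
    (hk : k ≤ s.card) :
    E x k s ≤ (s.card.choose k : ℝ) * ((∑ i ∈ s, x i) / s.card) ^ k ∧
      (0 < ∑ i ∈ s, x i → E x k s = (s.card.choose k : ℝ) * ((∑ i ∈ s, x i) / s.card) ^ k →
        ∀ i ∈ s, x i = (∑ i ∈ s, x i) / s.card) := by
  obtain ⟨j, rfl⟩ : ∃ j, k = j + 2 := ⟨k - 2, by omega⟩
  have hcard : 0 < s.card := by omega
  have hN : (0 : ℝ) < s.card := by exact_mod_cast hcard
  have hS : 0 ≤ ∑ i ∈ s, x i := sum_nonneg fun i _ => hx i
  obtain ⟨e1, e2⟩ := E_two_le x s hcard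
  have h := via_two hx s j hk
  have hC2 : (0 : ℝ) < s.card.choose 2 := by exact_mod_cast Nat.choose_pos (by omega)
  have hCk : (0 : ℝ) < s.card.choose (j + 2) := by exact_mod_cast Nat.choose_pos hk
  obtain ⟨m, hm⟩ : ∃ m, m = (∑ i ∈ s, x i) / s.card := ⟨_, rfl⟩
  have hm0 : 0 ≤ m := by rw [hm]; positivity
  rw [← hm] at h e1 e2 ⊢
  constructor
  · have h7 : (s.card.choose (j + 2) : ℝ) * m ^ j * E x 2 s ≤
        (s.card.choose (j + 2) : ℝ) * m ^ j * ((s.card.choose 2 : ℝ) * m ^ 2) :=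
      mul_le_mul_of_nonneg_left e1 (by positivity)
    have h8 := h.trans h7
    have h9 : (s.card.choose (j + 2) : ℝ) * m ^ j * ((s.card.choose 2 : ℝ) * m ^ 2) =
        (s.card.choose (j + 2) : ℝ) * m ^ (j + 2) * (s.card.choose 2 : ℝ) := by ring
    rw [h9] at h8
    exact le_of_mul_le_mul_right h8 hC2
  · intro hpos heq
    have hmp : 0 < m := by rw [hm]; exact div_pos hpos hN
    refine e2 (le_antisymm e1 ?_)
    rw [heq] at h
    have h10 : (s.card.choose (j + 2) : ℝ) * m ^ j * ((s.card.choose 2 : ℝ) * m ^ 2) ≤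
        (s.card.choose (j + 2) : ℝ) * m ^ j * E x 2 s := by
      calc _ = (s.card.choose (j + 2) : ℝ) * m ^ (j + 2) * (s.card.choose 2 : ℝ) := by ring
        _ ≤ _ := h
    exact le_of_mul_le_mul_left h10 (by positivity)

end Pool.Agent.X165.Mac
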