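import Mathlib
import Pool.Agent.Helper99.RadCB
import Pool.Agent.X165.Mac

/-! Sums of principal minors. -/

set_option autoImplicit false

open Finset Matrix

namespace Pool.Agent.X165.Mac

/-- the sum of the principal minors of order `k` -/
noncomputable def pm {n : ℕ} (k : ℕ) (M : Matrix (Fin n) (Fin n) ℝ) : ℝ :=
  ∑ Q ∈ powersetCard k (univ : Finset (Fin n)), (Matrix.of fun i j : {i // i ∈ Q} => M i j).det

lemma pm_eq {n : ℕ} (k : ℕ) (M : Matrix (Fin n) (Fin n) ℝ) :
    pm k M = ∑ Q : {Q : Finset (Fin n) // Q.card = k},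
      (M.submatrix (Q.1.orderEmbOfFin Q.2) (Q.1.orderEmbOfFin Q.2)).det := by
  unfold pm
  rw [Finset.sum_subtype (powersetCard k univ) (p := fun Q => Q.card = k)
    (fun Q => by simp [mem_powersetCard])]
  refine sum_congr rfl fun Q _ => ?_
  rw [← Matrix.det_submatrix_equiv_self (Q.1.orderIsoOfFin Q.2).toEquiv]
  congr 1

lemma pm_comm {d n : ℕ} (k : ℕ) (X : Matrix (Fin d) (Fin n) ℝ) (Y : Matrix (Fin n) (Fin d) ℝ) :
    pm k (Y * X) = pm k (X * Y) := by
  have key : ∀ (d n : ℕ) (X : Matrix (Fin d) (Fin n) ℝ) (Y : Matrix (Fin n) (Fin d) ℝ),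
      pm k (Y * X) = ∑ Q : {Q : Finset (Fin n) // Q.card = k}, ∑ R : {R : Finset (Fin d) // R.card = k},
        (Y.submatrix (Q.1.orderEmbOfFin Q.2) (R.1.orderEmbOfFin R.2)).det *
          (X.submatrix (R.1.orderEmbOfFin R.2) (Q.1.orderEmbOfFin Q.2)).det := by
    intro d n X Y
    rw [pm_eq]
    refine sum_congr rfl fun Q _ => ?_
    have h : (Y * X).submatrix (Q.1.orderEmbOfFin Q.2) (Q.1.orderEmbOfFin Q.2) =
        Y.submatrix (Q.1.orderEmbOfFin Q.2) id * X.submatrix id (Q.1.orderEmbOfFin Q.2) :=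
      Matrix.submatrix_mul _ _ _ _ _ Function.bijective_id
    rw [h, Pool.Agent.Helper99.Rad.cb]
    rfl
  rw [key, key, sum_comm]
  refine sum_congr rfl fun R _ => sum_congr rfl fun Q _ => mul_comm _ _

lemma pm_diagonal {n : ℕ} (k : ℕ) (x : Fin n → ℝ) : pm k (diagonal x) = E x k univ := by
  unfold pm E
  refine sum_congr rfl fun Q _ => ?_
  have h : (Matrix.of fun i j : {i // i ∈ Q} => (diagonal x) i j) =
      diagonal (fun i : {i // i ∈ Q} => x i) := by
    ext i j
    by_cases hij : i = j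
    · subst hij; simp
    · have : (i : Fin n) ≠ j := fun h => hij (Subtype.ext h)
      simp [diagonal_apply_ne _ hij, diagonal_apply_ne _ this]
  rw [h, det_diagonal]
  exact prod_coe_sort Q x

/-- for a positive semidefinite matrix of trace `S` -/
theorem pm_le {d : ℕ} {M : Matrix (Fin d) (Fin d) ℝ} (hM : M.PosSemidef) (k : ℕ) (h2 : 2 ≤ k)
    (hk : k ≤ d) :
    pm k M ≤ (d.choose k : ℝ) * (M.trace / d) ^ k ∧
      (0 < M.trace → pm k M = (d.choose k : ℝ) * (M.trace / d) ^ k →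
        M = (M.trace / d) • (1 : Matrix (Fin d) (Fin d) ℝ)) := by
  obtain ⟨U, hU⟩ : ∃ U, U = hM.1.eigenvectorUnitary := ⟨_, rfl⟩
  obtain ⟨x, hx⟩ : ∃ x, x = hM.1.eigenvalues := ⟨_, rfl⟩
  have hx0 : ∀ i, 0 ≤ x i := fun i => by rw [hx]; exact hM.eigenvalues_nonneg i
  have hsp : M = (U : Matrix (Fin d) (Fin d) ℝ) * diagonal x * star (U : Matrix (Fin d) (Fin d) ℝ) := by
    have h := hM.1.spectral_theorem
    rw [Unitary.conjStarAlgAut_apply] at h
    rw [hU, hx]
    simpa using h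
  have hUU : star (U : Matrix (Fin d) (Fin d) ℝ) * (U : Matrix (Fin d) (Fin d) ℝ) = 1 :=
    Unitary.coe_star_mul_self U
  have hUU' : (U : Matrix (Fin d) (Fin d) ℝ) * star (U : Matrix (Fin d) (Fin d) ℝ) = 1 :=
    Unitary.coe_mul_star_self U
  have hpm : pm k M = E x k univ := by
    rw [hsp, mul_assoc, pm_comm, mul_assoc, hUU, mul_one, pm_diagonal]
  have htr : ∑ i, x i = M.trace := by
    have h : M.trace = (diagonal x).trace := by
      conv_lhs => rw [hsp, mul_assoc, trace_mul_comm, mul_assoc, hUU, mul_one]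
    rw [h, trace_diagonal]
  obtain ⟨m1, m2⟩ := maclaurin hx0 (univ : Finset (Fin d)) k h2 (by simpa using hk)
  rw [card_univ, Fintype.card_fin, htr] at m1 m2
  rw [hpm]
  refine ⟨m1, fun hpos heq => ?_⟩
  have h := m2 hpos heq
  have hd : diagonal x = (M.trace / d) • (1 : Matrix (Fin d) (Fin d) ℝ) := by
    ext i j
    by_cases hij : i = j
    · subst hij; simp [h i (mem_univ i)]
    · simp [hij]
  conv_lhs => rw [hsp, hd]
  rw [Matrix.mul_smul, Matrix.smul_mul, mul_one, hUU']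

end Pool.Agent.X165.Mac
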