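import Mathlib
import Pool.Agent.X165.PM

/-! Rhombic dodecahedra of given mean width and largest intrinsic volumes. -/

set_option autoImplicit false

open Finset Matrix

namespace Pool.Agent.X165.RD

open Pool.Agent.X165.Mac

/-- Euclidean space -/
abbrev Eu (d : ℕ) := EuclideanSpace ℝ (Fin d)

/-- the `k`th intrinsic volume of the zonotope with generators `p` -/
noncomputable def Vk {d n : ℕ} (k : ℕ) (p : Fin n → Eu d) : ℝ :=
  ∑ Q ∈ powersetCard k (univ : Finset (Fin n)),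
    √(Matrix.of fun i j : {i // i ∈ Q} => inner ℝ (p i) (p j)).det

/-- the rescaled generators -/
noncomputable def sc {d n : ℕ} (p : Fin n → Eu d) (i : Fin n) : Eu d := (1 / √‖p i‖) • p i

/-- the matrix of the rescaled generators -/
noncomputable def mA {d n : ℕ} (p : Fin n → Eu d) : Matrix (Fin d) (Fin n) ℝ :=
  Matrix.of fun j i => sc p i j

variable {d n : ℕ}

lemma sc_smul (p : Fin n → Eu d) (i : Fin n) : √‖p i‖ • sc p i = p i := by
  unfold sc
  rcases eq_or_ne (p i) 0 with h | h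
  · simp [h]
  · have : √‖p i‖ ≠ 0 := by
      rw [Ne, Real.sqrt_eq_zero (norm_nonneg _)]
      simpa using h
    rw [smul_smul, mul_one_div_cancel this, one_smul]

lemma sc_norm (p : Fin n → Eu d) (i : Fin n) : ‖sc p i‖ ^ 2 = ‖p i‖ := by
  unfold sc
  rcases eq_or_ne (p i) 0 with h | h
  · simp [h]
  · have h0 : ‖p i‖ ≠ 0 := by simpa using h
    rw [norm_smul, mul_pow, norm_div, norm_one, Real.norm_eq_abs, abs_of_nonneg (Real.sqrt_nonneg _),
      div_pow, Real.sq_sqrt (norm_nonneg _)]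
    field_simp

lemma inner_sc (p : Fin n → Eu d) (i j : Fin n) :
    inner ℝ (sc p i) (sc p j) = ((mA p)ᵀ * mA p) i j := by
  simp [mA, Matrix.mul_apply, PiLp.inner_apply, mul_comm]

lemma inner_p (p : Fin n → Eu d) (i j : Fin n) :
    inner ℝ (p i) (p j) = √‖p i‖ * ((mA p)ᵀ * mA p) i j * √‖p j‖ := by
  conv_lhs => rw [← sc_smul p i, ← sc_smul p j]
  rw [inner_smul_left, inner_smul_right, inner_sc]
  simp
  ring

lemma det_p (p : Fin n → Eu d) (Q : Finset (Fin n)) :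
    (Matrix.of fun i j : {i // i ∈ Q} => inner ℝ (p i) (p j)).det =
      (∏ i ∈ Q, ‖p i‖) * (Matrix.of fun i j : {i // i ∈ Q} => ((mA p)ᵀ * mA p) i j).det := by
  have h : (Matrix.of fun i j : {i // i ∈ Q} => inner ℝ (p i) (p j)) =
      diagonal (fun i : {i // i ∈ Q} => √‖p i‖) *
        (Matrix.of fun i j : {i // i ∈ Q} => ((mA p)ᵀ * mA p) i j) *
          diagonal (fun i : {i // i ∈ Q} => √‖p i‖) := by
    ext i j
    rw [mul_diagonal, diagonal_mul]
    exact inner_p p i j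
  rw [h, det_mul, det_mul, det_diagonal]
  have h2 : ∏ i ∈ Q, ‖p i‖ = (∏ i : {i // i ∈ Q}, √‖p i‖) * ∏ i : {i // i ∈ Q}, √‖p i‖ := by
    rw [← prod_mul_distrib, ← prod_coe_sort Q]
    refine prod_congr rfl fun i _ => ?_
    rw [Real.mul_self_sqrt (norm_nonneg _)]
  rw [h2]
  ring

lemma det_nonneg (p : Fin n → Eu d) (Q : Finset (Fin n)) :
    0 ≤ (Matrix.of fun i j : {i // i ∈ Q} => ((mA p)ᵀ * mA p) i j).det := by
  have h : ((mA p)ᵀ * mA p).PosSemidef := by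
    have := Matrix.posSemidef_conjTranspose_mul_self (mA p)
    rwa [conjTranspose_eq_transpose_of_trivial] at this
  exact (h.submatrix (fun i : {i // i ∈ Q} => (i : Fin n))).det_nonneg

lemma trace_mA (p : Fin n → Eu d) : (mA p * (mA p)ᵀ).trace = ∑ i, ‖p i‖ := by
  rw [trace_mul_comm]
  unfold Matrix.trace
  refine sum_congr rfl fun i _ => ?_
  rw [diag_apply, ← inner_sc, real_inner_self_eq_norm_sq, sc_norm]

/-- the inequality of Cauchy and Schwarz -/
lemma sq_le (k : ℕ) (p : Fin n → Eu d) :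
    Vk k p ^ 2 ≤ E (fun i => ‖p i‖) k univ * pm k (mA p * (mA p)ᵀ) := by
  rw [← pm_comm]
  unfold Vk E pm
  have h : ∀ Q ∈ powersetCard k (univ : Finset (Fin n)),
      √(Matrix.of fun i j : {i // i ∈ Q} => inner ℝ (p i) (p j)).det =
        √(∏ i ∈ Q, ‖p i‖) * √(Matrix.of fun i j : {i // i ∈ Q} => ((mA p)ᵀ * mA p) i j).det := by
    intro Q _
    rw [det_p, Real.sqrt_mul (prod_nonneg fun _ _ => norm_nonneg _)]
  rw [sum_congr rfl h]
  refine (sum_mul_sq_le_sq_mul_sq _ _ _).trans (le_of_eq ?_)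
  congr 1
  · exact sum_congr rfl fun Q _ => Real.sq_sqrt (prod_nonneg fun _ _ => norm_nonneg _)
  · exact sum_congr rfl fun Q _ => Real.sq_sqrt (det_nonneg p Q)

/-- the upper bound for the square of the intrinsic volume -/
noncomputable def bd (d k : ℕ) (S : ℝ) : ℝ :=
  (((d + 1).choose k : ℝ) * (S / (d + 1)) ^ k) * ((d.choose k : ℝ) * (S / d) ^ k)

/-- the inequality, with the equality case in terms of the matrix `mA p` -/
theorem main_ineq {k : ℕ} (h2 : 2 ≤ k) (hk : k ≤ d) (p : Fin (d + 1) → Eu d) :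
    Vk k p ^ 2 ≤ bd d k (∑ i, ‖p i‖) ∧
      (0 < ∑ i, ‖p i‖ → Vk k p ^ 2 = bd d k (∑ i, ‖p i‖) →
        (∀ i, ‖p i‖ = (∑ i, ‖p i‖) / (d + 1)) ∧
          mA p * (mA p)ᵀ = ((∑ i, ‖p i‖) / d) • (1 : Matrix (Fin d) (Fin d) ℝ)) := by
  obtain ⟨S, hS⟩ : ∃ S, S = ∑ i, ‖p i‖ := ⟨_, rfl⟩
  have hS0 : 0 ≤ S := by rw [hS]; exact sum_nonneg fun _ _ => norm_nonneg _
  have h1 := sq_le k p
  obtain ⟨a1, a2⟩ := maclaurin (x := fun i => ‖p i‖) (fun i => norm_nonneg _)
    (univ : Finset (Fin (d + 1))) k h2 (by simp; omega)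
  have hps : (mA p * (mA p)ᵀ).PosSemidef := by
    have := Matrix.posSemidef_self_mul_conjTranspose (mA p)
    rwa [conjTranspose_eq_transpose_of_trivial] at this
  obtain ⟨b1, b2⟩ := pm_le hps k h2 hk
  rw [trace_mA] at b1 b2
  rw [card_univ, Fintype.card_fin] at a1 a2
  push_cast at a1 a2
  rw [← hS] at a1 a2 b1 b2 ⊢
  obtain ⟨X, hX⟩ : ∃ X, X = E (fun i => ‖p i‖) k univ := ⟨_, rfl⟩
  obtain ⟨Y, hY⟩ : ∃ Y, Y = pm k (mA p * (mA p)ᵀ) := ⟨_, rfl⟩
  obtain ⟨X₀, hX₀⟩ : ∃ X₀, X₀ = ((d + 1).choose k : ℝ) * (S / (d + 1)) ^ k := ⟨_, rfl⟩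
  obtain ⟨Y₀, hY₀⟩ : ∃ Y₀, Y₀ = (d.choose k : ℝ) * (S / d) ^ k := ⟨_, rfl⟩
  rw [← hX, ← hX₀] at a1 a2
  rw [← hY, ← hY₀] at b1 b2
  rw [← hX, ← hY] at h1
  have hXn : 0 ≤ X := by rw [hX]; exact E_nonneg (fun i => norm_nonneg _) _ _
  have hX₀n : 0 ≤ X₀ := hXn.trans a1
  have hYn : 0 ≤ Y := by
    rw [hY, ← pm_comm]
    exact sum_nonneg fun Q _ => det_nonneg p Q
  have hbd : bd d k S = X₀ * Y₀ := by rw [hX₀, hY₀]; rfl
  rw [hbd]
  refine ⟨h1.trans (mul_le_mul a1 b1 hYn hX₀n), fun hpos heq => ?_⟩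
  rw [heq] at h1
  have hd : (0 : ℝ) < d := by
    have : 0 < d := by omega
    exact_mod_cast this
  have hX₀p : 0 < X₀ := by
    rw [hX₀]
    have : (0 : ℝ) < (d + 1).choose k := by exact_mod_cast Nat.choose_pos (by omega)
    positivity
  have hY₀p : 0 < Y₀ := by
    rw [hY₀]
    have : (0 : ℝ) < d.choose k := by exact_mod_cast Nat.choose_pos hk
    positivity
  have hXe : X = X₀ := by
    refine le_antisymm a1 ?_
    by_contra hlt
    push Not at hlt
    have : X * Y < X₀ * Y₀ := by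
      calc X * Y ≤ X * Y₀ := mul_le_mul_of_nonneg_left b1 hXn
        _ < X₀ * Y₀ := mul_lt_mul_of_pos_right hlt hY₀p
    linarith
  have hYe : Y = Y₀ := by
    refine le_antisymm b1 ?_
    by_contra hlt
    push Not at hlt
    have : X * Y < X₀ * Y₀ := by
      calc X * Y ≤ X₀ * Y := mul_le_mul_of_nonneg_right a1 hYn
        _ < X₀ * Y₀ := mul_lt_mul_of_pos_left hlt hX₀p
    linarith
  exact ⟨fun i => a2 hpos hXe i (mem_univ i), b2 hpos hYe⟩

end Pool.Agent.X165.RD
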