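import Mathlib
import Pool.Agent.X165.RD

/-! Rhombic dodecahedra: the equality case and the regular ones. -/

set_option autoImplicit false

open Finset Matrix
open scoped Pointwise

namespace Pool.Agent.X165.RD

open Pool.Agent.X165.Mac

variable {d n : ℕ}

/-- the points form a regular simplex with centroid at the origin -/
def RegSimplex (q : Fin (d + 1) → Eu d) : Prop :=
  (∃ s : ℝ, 0 < s ∧ ∀ i j, i ≠ j → dist (q i) (q j) = s) ∧ ∑ i, q i = 0

/-- the Gram matrix of a regular simplex -/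
def RegGram (c : ℝ) (q : Fin (d + 1) → Eu d) : Prop :=
  ∀ i j, inner ℝ (q i) (q j) = c * ((if i = j then 1 else 0) - 1 / (d + 1))

lemma rank_one {S : ℝ} (hS : 0 < S) (hd : 0 < d) {A : Matrix (Fin d) (Fin (d + 1)) ℝ}
    (hA : A * Aᵀ = (S / d) • (1 : Matrix (Fin d) (Fin d) ℝ)) :
    ∃ w : Fin (d + 1) → ℝ, ∀ i j, (Aᵀ * A) i j = S / d * ((if i = j then 1 else 0) - w i * w j) := by
  have hdR : (0 : ℝ) < d := by exact_mod_cast hd
  have hker : LinearMap.ker (Matrix.toLin' A) ≠ ⊥ :=
    LinearMap.ker_ne_bot_of_finrank_lt (by simp)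
  obtain ⟨v, hv, hv0⟩ := Submodule.exists_mem_ne_zero_of_ne_bot hker
  have hAv : A.mulVec v = 0 := by simpa using hv
  have hvv : 0 < v ⬝ᵥ v := by
    have h0 : 0 ≤ v ⬝ᵥ v := sum_nonneg fun i _ => mul_self_nonneg _
    exact lt_of_le_of_ne h0 fun h => hv0 (dotProduct_self_eq_zero.1 h.symm)
  obtain ⟨r, hr⟩ : ∃ r, r = √(v ⬝ᵥ v) := ⟨_, rfl⟩
  have hr2 : r * r = v ⬝ᵥ v := by rw [hr]; exact Real.mul_self_sqrt hvv.le
  have hr0 : r ≠ 0 := by
    intro h; rw [h] at hr2; simp at hr2; exact hvv.ne hr2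
  obtain ⟨w, hw⟩ : ∃ w : Fin (d + 1) → ℝ, w = r⁻¹ • v := ⟨_, rfl⟩
  have hww : w ⬝ᵥ w = 1 := by
    rw [hw, smul_dotProduct, dotProduct_smul, smul_eq_mul, smul_eq_mul, ← hr2]
    field_simp
  have hAw : A.mulVec w = 0 := by rw [hw, mulVec_smul, hAv, smul_zero]
  obtain ⟨t, ht⟩ : ∃ t, t = √(d / S) := ⟨_, rfl⟩
  have ht2 : t * t = d / S := by rw [ht]; exact Real.mul_self_sqrt (by positivity)
  have h1 : fromRows (t • A) (replicateRow Unit w) * fromCols (t • Aᵀ) (replicateCol Unit w) = 1 := by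
    rw [fromRows_mul_fromCols, ← fromBlocks_one]
    congr 1
    · rw [Matrix.smul_mul, Matrix.mul_smul, smul_smul, hA, smul_smul, ht2]
      have : (d : ℝ) / S * (S / d) = 1 := by field_simp
      rw [this, one_smul]
    · rw [Matrix.smul_mul]
      ext i j
      simp [← Matrix.replicateCol_mulVec, hAw]
    · rw [Matrix.mul_smul]
      ext i j
      have h : ∑ x, A j x * w x = 0 := congrFun hAw j
      simp only [Matrix.smul_apply, Matrix.mul_apply, replicateRow_apply, transpose_apply, smul_eq_mul,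
        Matrix.zero_apply, mul_eq_zero]
      right
      rw [← h]
      exact sum_congr rfl fun x _ => mul_comm _ _
    · ext i j
      simp [Matrix.mul_apply]
      exact hww
  have e : Fin (d + 1) ≃ Fin d ⊕ Unit := (finSuccEquivLast).trans (Equiv.optionEquivSumPUnit _)
  have h2 := (fromCols_mul_fromRows_eq_one_comm e _ _ _ _).2 h1
  rw [fromCols_mul_fromRows] at h2
  refine ⟨w, fun i j => ?_⟩
  have h3 := congrFun (congrFun h2 i) j
  rw [Matrix.smul_mul, Matrix.mul_smul, smul_smul, ht2] at h3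
  simp only [Matrix.add_apply, Matrix.smul_apply, smul_eq_mul, Matrix.one_apply] at h3
  have h4 : (replicateCol Unit w * replicateRow Unit w) i j = w i * w j := by
    simp [Matrix.mul_apply]
  rw [h4] at h3
  have h5 : (Aᵀ * A) i j = S / d * (d / S * (Aᵀ * A) i j) := by field_simp
  rw [h5]
  congr 1
  linarith

/-- in the equality case the generators are the vertices of a regular simplex up to signs -/
lemma signs {S : ℝ} (hS : 0 < S) (hd : 0 < d) {p : Fin (d + 1) → Eu d}
    (h1 : ∀ i, ‖p i‖ = S / (d + 1))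
    (h2 : mA p * (mA p)ᵀ = (S / d) • (1 : Matrix (Fin d) (Fin d) ℝ)) :
    ∃ ε : Fin (d + 1) → ℝ, (∀ i, ε i = 1 ∨ ε i = -1) ∧
      RegGram (S ^ 2 / (d * (d + 1))) fun i => ε i • p i := by
  have hdR : (0 : ℝ) < d := by exact_mod_cast hd
  obtain ⟨w, hw⟩ := rank_one hS hd h2
  have hw2 : ∀ i, w i * w i = 1 / (d + 1) := by
    intro i
    have h := hw i i
    rw [← inner_sc, real_inner_self_eq_norm_sq, sc_norm, h1, if_pos rfl] at h
    have : S / (d + 1) = S / d * (d / (d + 1)) := by field_simp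
    rw [this] at h
    have h3 : (d : ℝ) / (d + 1) = 1 - w i * w i :=
      mul_left_cancel₀ (by positivity : S / d ≠ 0) h
    have h4 : (d : ℝ) / (d + 1) = 1 - 1 / (d + 1) := by field_simp; ring
    linarith
  obtain ⟨r, hr⟩ : ∃ r, r = √((d : ℝ) + 1) := ⟨_, rfl⟩
  have hr2 : r * r = d + 1 := by rw [hr]; exact Real.mul_self_sqrt (by positivity)
  have he : ∀ i, (r * w i) * (r * w i) = 1 := by
    intro i
    have : (r * w i) * (r * w i) = (r * r) * (w i * w i) := by ring
    rw [this, hr2, hw2]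
    field_simp
  refine ⟨fun i => r * w i, fun i => mul_self_eq_one_iff.1 (he i), fun i j => ?_⟩
  show inner ℝ ((r * w i) • p i) ((r * w j) • p j) = _
  rw [inner_smul_left, inner_smul_right, inner_p, hw, h1, h1]
  have hs : √(S / (d + 1)) * √(S / (d + 1)) = S / (d + 1) := Real.mul_self_sqrt (by positivity)
  simp only [conj_trivial]
  have h5 : r * w i * (r * w j * (√(S / (↑d + 1)) * (S / ↑d * ((if i = j then 1 else 0) - w i * w j)) *
      √(S / (↑d + 1)))) = (√(S / (↑d + 1)) * √(S / (↑d + 1))) * (S / d) *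
        ((r * w i) * (r * w j) * (if i = j then 1 else 0) - (r * r) * (w i * w i) * (w j * w j)) := by
    ring
  rw [h5, hs, hr2, hw2, hw2]
  have h6 : (r * w i) * (r * w j) * (if i = j then (1 : ℝ) else 0) = if i = j then 1 else 0 := by
    by_cases hij : i = j
    · subst hij; rw [if_pos rfl, mul_one, he]
    · rw [if_neg hij, mul_zero]
  rw [h6]
  field_simp

lemma regSimplex_of_gram {c : ℝ} (hc : 0 < c) {q : Fin (d + 1) → Eu d} (h : RegGram c q) :
    RegSimplex q := by
  refine ⟨⟨√(2 * c), by positivity, fun i j hij => ?_⟩, ?_⟩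
  · rw [dist_eq_norm, eq_comm, Real.sqrt_eq_iff_mul_self_eq_of_pos (by
      rw [norm_pos_iff, sub_ne_zero]
      intro he
      have h1 := h i i
      have h2 := h i j
      rw [← he, h1, if_pos rfl, if_neg hij] at h2
      have := mul_left_cancel₀ hc.ne' h2
      linarith)]
    rw [← real_inner_self_eq_norm_mul_norm, inner_sub_left, inner_sub_right, inner_sub_right,
      h i i, h i j, h j i, h j j, if_pos rfl, if_pos rfl, if_neg hij, if_neg (Ne.symm hij)]
    ring
  · have h' : ∀ i j, inner ℝ (q i) (q j) = c * ((if i = j then 1 else 0) - 1 / (d + 1)) := h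
    rw [← norm_eq_zero, ← sq_eq_zero_iff, ← real_inner_self_eq_norm_sq, sum_inner]
    simp_rw [inner_sum, h', ← mul_sum, sum_sub_distrib]
    simp
    right
    field_simp
    ring

lemma gram_of_regSimplex {q : Fin (d + 1) → Eu d} (h : RegSimplex q) :
    ∃ c : ℝ, 0 < c ∧ RegGram c q := by
  obtain ⟨⟨s, hs, hdist⟩, h0⟩ := h
  have hsq : ∀ i j, i ≠ j → inner ℝ (q i) (q j) = (‖q i‖ ^ 2 + ‖q j‖ ^ 2 - s ^ 2) / 2 := by
    intro i j hij
    have h1 := hdist i j hij
    have h2 := norm_sub_sq_real (q i) (q j)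
    rw [← dist_eq_norm, h1] at h2
    linarith
  obtain ⟨T, hT⟩ : ∃ T, T = ∑ j, ‖q j‖ ^ 2 := ⟨_, rfl⟩
  have hrow : ∀ i, ((d : ℝ) + 1) * ‖q i‖ ^ 2 = d * s ^ 2 - T := by
    intro i
    have h1 : ∑ j, inner ℝ (q i) (q j) = (0 : ℝ) := by rw [← inner_sum, h0, inner_zero_right]
    have h2 : ∀ j, inner ℝ (q i) (q j) =
        (‖q i‖ ^ 2 + ‖q j‖ ^ 2 - s ^ 2) / 2 + (if i = j then s ^ 2 / 2 else 0) := by
      intro j
      by_cases hij : i = j
      · subst hij; rw [if_pos rfl, real_inner_self_eq_norm_sq]; ring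
      · rw [if_neg hij, hsq i j hij, add_zero]
    simp_rw [h2, sum_add_distrib, sum_ite_eq, ← sum_div, sum_sub_distrib, sum_add_distrib] at h1
    simp only [sum_const, card_univ, Fintype.card_fin, nsmul_eq_mul, mem_univ, if_true] at h1
    push_cast at h1
    rw [← hT] at h1
    linarith
  have hd1 : (0 : ℝ) < (d : ℝ) + 1 := by positivity
  have hTT : T = d * s ^ 2 / 2 := by
    have h1 : ((d : ℝ) + 1) * T = ((d : ℝ) + 1) * (d * s ^ 2 - T) := by
      conv_lhs => rw [hT, mul_sum]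
      simp_rw [hrow]
      simp
      ring
    have h2 := mul_left_cancel₀ hd1.ne' h1
    linarith
  have hn : ∀ i, ‖q i‖ ^ 2 = d * s ^ 2 / (2 * (d + 1)) := by
    intro i
    have h1 := hrow i
    rw [hTT] at h1
    rw [eq_div_iff (by positivity)]
    linarith
  refine ⟨s ^ 2 / 2, by positivity, fun i j => ?_⟩
  by_cases hij : i = j
  · subst hij
    rw [if_pos rfl, real_inner_self_eq_norm_sq, hn]
    field_simp
    ring
  · rw [if_neg hij, hsq i j hij, hn, hn]
    field_simp
    ring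

end Pool.Agent.X165.RD
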