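import Mathlib
import Pool.Agent.X165.RD2

/-! Regular rhombic dodecahedra: values, existence, translates. -/

set_option autoImplicit false

open Finset Matrix
open scoped Pointwise

namespace Pool.Agent.X165.RD

open Pool.Agent.X165.Mac

variable {d n : ℕ}

lemma gram_norm {c : ℝ} {q : Fin (d + 1) → Eu d} (h : RegGram c q) (i : Fin (d + 1)) :
    ‖q i‖ ^ 2 = c * (d / (d + 1)) := by
  rw [← real_inner_self_eq_norm_sq, h i i, if_pos rfl]
  congr 1
  field_simp
  ring

lemma gram_det {c : ℝ} {q : Fin (d + 1) → Eu d} (h : RegGram c q) (Q : Finset (Fin (d + 1))) :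
    (Matrix.of fun i j : {i // i ∈ Q} => inner ℝ (q i) (q j)).det =
      c ^ Q.card * (1 - Q.card / (d + 1)) := by
  have h1 : (Matrix.of fun i j : {i // i ∈ Q} => inner ℝ (q i) (q j)) =
      c • (1 + replicateCol Unit (fun _ : {i // i ∈ Q} => (-1 / (d + 1) : ℝ)) *
        replicateRow Unit (fun _ : {i // i ∈ Q} => (1 : ℝ))) := by
    ext i j
    have e : ((i : Fin (d + 1)) = j) ↔ i = j := Subtype.coe_inj
    simp only [Matrix.of_apply, h (i : Fin (d + 1)) j, Matrix.smul_apply, Matrix.add_apply,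
      Matrix.one_apply, Matrix.mul_apply, replicateCol_apply, replicateRow_apply, smul_eq_mul, e,
      univ_unique, sum_const, card_singleton, one_smul]
    ring
  rw [h1, det_smul, det_one_add_replicateCol_mul_replicateRow]
  simp only [Fintype.card_coe, dotProduct, one_mul, sum_const, card_univ, nsmul_eq_mul]
  ring

lemma gram_Vk {c : ℝ} (hc : 0 < c) {q : Fin (d + 1) → Eu d} (h : RegGram c q) {k : ℕ} (hd : 0 < d)
    (hk : k ≤ d) : Vk k q ^ 2 = bd d k (∑ i, ‖q i‖) := by
  have hdR : (0 : ℝ) < d := by exact_mod_cast hd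
  have h1 : Vk k q = ((d + 1).choose k : ℝ) * √(c ^ k * (1 - k / (d + 1))) := by
    unfold Vk
    have h2 : ∀ Q ∈ powersetCard k (univ : Finset (Fin (d + 1))),
        √(Matrix.of fun i j : {i // i ∈ Q} => inner ℝ (q i) (q j)).det =
          √(c ^ k * (1 - k / (d + 1))) := by
      intro Q hQ
      rw [gram_det h, (mem_powersetCard.1 hQ).2]
    rw [sum_congr rfl h2, sum_const, card_powersetCard, card_univ, Fintype.card_fin, nsmul_eq_mul]
  have hkR : (k : ℝ) ≤ d := by exact_mod_cast hk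
  have h3 : (0 : ℝ) ≤ 1 - k / (d + 1) := by
    rw [sub_nonneg, div_le_one (by positivity)]
    linarith
  obtain ⟨r, hr⟩ : ∃ r, r = √(c * (d / (d + 1))) := ⟨_, rfl⟩
  have hr2 : r ^ 2 = c * (d / (d + 1)) := by rw [hr]; exact Real.sq_sqrt (by positivity)
  have h4 : ∀ i, ‖q i‖ = r := by
    intro i
    have := gram_norm h i
    rw [hr, ← this, Real.sqrt_sq (norm_nonneg _)]
  have h5 : ∑ i, ‖q i‖ = (d + 1) * r := by
    rw [sum_congr rfl fun i _ => h4 i]
    simp
  rw [h1, mul_pow, Real.sq_sqrt (by positivity), h5]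
  unfold bd
  have h6 : ((d : ℝ) + 1) * r / (d + 1) = r := by field_simp
  have h7 : ((d.choose k : ℕ) : ℝ) = ((d + 1).choose k : ℝ) * (1 - k / (d + 1)) := by
    have e := Nat.choose_mul_succ_eq d k
    have e' : ((d.choose k * (d + 1) : ℕ) : ℝ) = (((d + 1).choose k * (d + 1 - k) : ℕ) : ℝ) := by
      exact_mod_cast e
    rw [Nat.cast_mul, Nat.cast_mul, Nat.cast_sub (by omega)] at e'
    push_cast at e'
    field_simp
    linarith
  have h8 : r ^ k * (((d : ℝ) + 1) * r / d) ^ k = c ^ k := by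
    rw [← mul_pow]
    congr 1
    have : r * (((d : ℝ) + 1) * r / d) = r ^ 2 * ((d + 1) / d) := by ring
    rw [this, hr2]
    field_simp
  rw [h6, h7, ← h8]
  ring

lemma Vk_nonneg (k : ℕ) (p : Fin n → Eu d) : 0 ≤ Vk k p := sum_nonneg fun _ _ => Real.sqrt_nonneg _

lemma gram_span {c : ℝ} (hc : 0 < c) {q : Fin (d + 1) → Eu d} (h : RegGram c q) :
    Submodule.span ℝ (Set.range q) = ⊤ := by
  rcases Nat.eq_zero_or_pos d with hd0 | hd0
  · subst hd0
    exact Subsingleton.elim _ _
  have : Nonempty (Fin d) := ⟨⟨0, hd0⟩⟩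
  have hli : LinearIndependent ℝ fun i : Fin d => q i.castSucc := by
    rw [Fintype.linearIndependent_iff]
    intro g hg
    have h1 : ∀ j : Fin d, g j = (∑ i, g i) / (d + 1) := by
      intro j
      have e : inner ℝ (q j.castSucc) (∑ i : Fin d, g i • q i.castSucc) = (0 : ℝ) := by
        rw [hg, inner_zero_right]
      rw [inner_sum] at e
      have e2 : ∀ i : Fin d, inner ℝ (q j.castSucc) (g i • q i.castSucc) =
          c * ((if j = i then g i else 0) - g i / (d + 1)) := by
        intro i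
        rw [inner_smul_right, h j.castSucc i.castSucc]
        by_cases hij : j = i
        · subst hij; rw [if_pos rfl, if_pos rfl]; ring
        · rw [if_neg hij, if_neg (by simpa using hij)]; ring
      simp_rw [e2, ← mul_sum, sum_sub_distrib, sum_ite_eq, ← sum_div] at e
      simp only [mem_univ, if_true] at e
      have := (mul_eq_zero.1 e).resolve_left hc.ne'
      linarith
    obtain ⟨G, hG⟩ : ∃ G, G = ∑ i, g i := ⟨_, rfl⟩
    rw [← hG] at h1
    have h2 : G = d * (G / (d + 1)) := by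
      conv_lhs => rw [hG, sum_congr rfl fun i _ => h1 i]
      simp
    have h3 : G = 0 := by
      have h4 : G * (d + 1) = d * G := by
        conv_lhs => rw [h2]
        field_simp
      linarith
    intro j
    rw [h1 j, h3, zero_div]
  have h5 := hli.span_eq_top_of_card_eq_finrank (by simp)
  refine top_le_iff.1 (h5 ▸ Submodule.span_mono ?_)
  rintro _ ⟨i, rfl⟩
  exact ⟨i.castSucc, rfl⟩

lemma exists_gram (hd : 0 < d) : ∃ q : Fin (d + 1) → Eu d, RegGram 1 q := by
  have : Fact (Module.finrank ℝ (Eu (d + 1)) = d + 1) := ⟨by simp⟩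
  obtain ⟨v, hv⟩ : ∃ v : Eu (d + 1), v = WithLp.toLp 2 (fun _ => (1 : ℝ)) := ⟨_, rfl⟩
  have hv0 : v ≠ 0 := by
    intro h
    have := congrArg (fun z : Eu (d + 1) => z 0) h
    simp [hv] at this
  let b := OrthonormalBasis.fromOrthogonalSpanSingleton (𝕜 := ℝ) d hv0
  have hcard : inner ℝ v v = ((d : ℝ) + 1) := by
    rw [real_inner_self_eq_norm_sq, hv, EuclideanSpace.norm_sq_eq]
    simp
  have hev : ∀ i, inner ℝ v (EuclideanSpace.single i (1 : ℝ)) = (1 : ℝ) := by
    intro i
    simp [hv, EuclideanSpace.inner_single_right]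
  have hee : ∀ i j : Fin (d + 1), inner ℝ (EuclideanSpace.single i (1 : ℝ))
      (EuclideanSpace.single j (1 : ℝ)) = if i = j then (1 : ℝ) else 0 := by
    intro i j
    rw [EuclideanSpace.inner_single_left]
    by_cases hij : i = j
    · subst hij; simp
    · simp [hij]
  have hd1 : (d : ℝ) + 1 ≠ 0 := by positivity
  have hmem : ∀ i : Fin (d + 1), EuclideanSpace.single i (1 : ℝ) - (1 / ((d : ℝ) + 1)) • v ∈
      (Submodule.span ℝ {v})ᗮ := by
    intro i
    rw [Submodule.mem_orthogonal_singleton_iff_inner_right, inner_sub_right, inner_smul_right, hev,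
      hcard]
    field_simp
    ring
  refine ⟨fun i => b.repr ⟨_, hmem i⟩, fun i j => ?_⟩
  rw [b.repr.inner_map_map, Submodule.coe_inner]
  show inner ℝ (EuclideanSpace.single i (1 : ℝ) - (1 / ((d : ℝ) + 1)) • v)
    (EuclideanSpace.single j (1 : ℝ) - (1 / ((d : ℝ) + 1)) • v) = _
  rw [inner_sub_left, inner_sub_right, inner_sub_right, inner_smul_right, inner_smul_left,
    inner_smul_left, inner_smul_right, hee, hev, hcard, real_inner_comm, hev]
  simp only [conj_trivial]
  field_simp
  ring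

lemma gram_smul {c t : ℝ} {q : Fin (d + 1) → Eu d} (h : RegGram c q) :
    RegGram (t ^ 2 * c) fun i => t • q i := by
  intro i j
  show inner ℝ (t • q i) (t • q j) = _
  rw [inner_smul_left, inner_smul_right, h i j]
  simp only [conj_trivial]
  ring

/-- the zonotope with generators `p` -/
def Zon (p : Fin n → Eu d) : Set (Eu d) := ∑ i, segment ℝ (0 : Eu d) (p i)

lemma segment_neg (x : Eu d) : segment ℝ (0 : Eu d) x = {x} + segment ℝ (0 : Eu d) (-x) := by
  ext y
  simp only [Set.singleton_add, Set.mem_image, segment_eq_image]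
  constructor
  · rintro ⟨t, ⟨h0, h1⟩, rfl⟩
    refine ⟨_, ⟨1 - t, ⟨by linarith, by linarith⟩, rfl⟩, ?_⟩
    module
  · rintro ⟨_, ⟨t, ⟨h0, h1⟩, rfl⟩, rfl⟩
    refine ⟨1 - t, ⟨by linarith, by linarith⟩, ?_⟩
    module

lemma zon_signs (p : Fin n → Eu d) (ε : Fin n → ℝ) (hε : ∀ i, ε i = 1 ∨ ε i = -1) :
    ∃ v : Eu d, Zon p = {v} + Zon fun i => ε i • p i := by
  have h : ∀ i, ∃ c : Eu d, segment ℝ (0 : Eu d) (p i) = {c} + segment ℝ (0 : Eu d) (ε i • p i) := by
    intro i
    rcases hε i with h | h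
    · exact ⟨0, by rw [h, one_smul, Set.singleton_zero, zero_add]⟩
    · exact ⟨p i, by rw [h, neg_one_smul]; exact segment_neg _⟩
  choose c hc using h
  refine ⟨∑ i, c i, ?_⟩
  unfold Zon
  rw [sum_congr rfl fun i _ => hc i, sum_add_distrib]
  congr 1
  exact (map_sum (Set.singletonAddMonoidHom : Eu d →+ Set (Eu d)) c univ).symm

end Pool.Agent.X165.RD
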