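import Pool.Agent.X165.VN3

/-! The tile is a disc; the tiles have disjoint interiors; the neighbourhood with a hole. -/

set_option autoImplicit false

namespace X165.VN

theorem tri_up {c : ℤ × ℤ} {p : ℝ × ℝ} (a b : ℤ) (hc : c = (3 * a + 1, 3 * b + 1)) :
    p ∈ tri c ↔ (a : ℝ) ≤ p.1 ∧ (b : ℝ) ≤ p.2 ∧ p.1 + p.2 ≤ (a : ℝ) + b + 1 := by
  subst hc
  unfold tri
  simp only [Set.mem_setOf_eq]
  push_cast
  constructor
  · rintro ⟨H, -⟩
    obtain ⟨x, y, z⟩ := H (by omega)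
    refine ⟨?_, ?_, ?_⟩ <;> linarith
  · rintro ⟨x, y, z⟩
    refine ⟨fun _ => ⟨?_, ?_, ?_⟩, fun h' => by omega⟩ <;> linarith

theorem tri_dn {c : ℤ × ℤ} {p : ℝ × ℝ} (a b : ℤ) (hc : c = (3 * a + 2, 3 * b + 2)) :
    p ∈ tri c ↔ p.1 ≤ (a : ℝ) + 1 ∧ p.2 ≤ (b : ℝ) + 1 ∧ (a : ℝ) + b + 1 ≤ p.1 + p.2 := by
  subst hc
  unfold tri
  simp only [Set.mem_setOf_eq]
  push_cast
  constructor
  · rintro ⟨-, H⟩
    obtain ⟨x, y, z⟩ := H (by omega)
    refine ⟨?_, ?_, ?_⟩ <;> linarith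
  · rintro ⟨x, y, z⟩
    refine ⟨fun h' => by omega, fun _ => ⟨?_, ?_, ?_⟩⟩ <;> linarith

/-- gauge of the tile `(0, 0, 0)` with respect to the point `(1/2, 5/2)` -/
noncomputable def ga (v : ℝ × ℝ) : ℝ :=
  min (max (max (2 * v.1) (-2 * v.1)) (max (2 * v.2) (-(v.1 + v.2) / 2)))
    (max (max (2 * v.2) (-2 * v.2)) (max (-2 * v.1) ((v.1 + v.2) / 2)))

theorem ga_continuous : Continuous ga := by
  unfold ga
  fun_prop

theorem ga_smul (t : ℝ) (ht : 0 ≤ t) (v : ℝ × ℝ) : ga (t * v.1, t * v.2) = t * ga v := by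
  unfold ga
  simp only
  rw [mul_min_of_nonneg _ _ ht, mul_max_of_nonneg _ _ ht, mul_max_of_nonneg _ _ ht,
    mul_max_of_nonneg _ _ ht, mul_max_of_nonneg _ _ ht, mul_max_of_nonneg _ _ ht,
    mul_max_of_nonneg _ _ ht]
  ring_nf

theorem ga_pos (v : ℝ × ℝ) (hv : v ≠ 0) : 0 < ga v := by
  unfold ga
  have hne : v.1 ≠ 0 ∨ v.2 ≠ 0 := by
    by_contra h
    push Not at h
    exact hv (Prod.ext h.1 h.2)
  rw [lt_min_iff, lt_max_iff, lt_max_iff, lt_max_iff, lt_max_iff, lt_max_iff, lt_max_iff]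
  constructor
  · rcases lt_trichotomy v.1 0 with h | h | h
    · left; right; linarith
    · rcases lt_trichotomy v.2 0 with h' | h' | h'
      · right; right; linarith
      · rcases hne with h2 | h2
        · exact absurd h h2
        · exact absurd h' h2
      · right; left; linarith
    · left; left; linarith
  · rcases lt_trichotomy v.2 0 with h | h | h
    · left; right; linarith
    · rcases lt_trichotomy v.1 0 with h' | h' | h'
      · right; left; linarith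
      · rcases hne with h2 | h2
        · exact absurd h' h2
        · exact absurd h h2
      · right; right; linarith
    · left; left; linarith

theorem mem_TL0 (p : ℝ × ℝ) : p ∈ TL 0 0 0 ↔
    (0 ≤ p.1 ∧ p.1 ≤ 1 ∧ p.2 ≤ 3 ∧ 1 ≤ p.1 + p.2) ∨ (2 ≤ p.2 ∧ p.2 ≤ 3 ∧ 0 ≤ p.1 ∧ p.1 + p.2 ≤ 5) := by
  constructor
  · rintro ⟨k, hk⟩
    fin_cases k
    · have h := (tri_up 0 1 (by decide)).1 hk
      push_cast at h; obtain ⟨a, b, c⟩ := h
      left; refine ⟨?_, ?_, ?_, ?_⟩ <;> linarith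
    · have h := (tri_up 0 2 (by decide)).1 hk
      push_cast at h; obtain ⟨a, b, c⟩ := h
      left; refine ⟨?_, ?_, ?_, ?_⟩ <;> linarith
    · have h := (tri_dn 0 0 (by decide)).1 hk
      push_cast at h; obtain ⟨a, b, c⟩ := h
      left; refine ⟨?_, ?_, ?_, ?_⟩ <;> linarith
    · have h := (tri_dn 0 1 (by decide)).1 hk
      push_cast at h; obtain ⟨a, b, c⟩ := h
      left; refine ⟨?_, ?_, ?_, ?_⟩ <;> linarith
    · have h := (tri_dn 0 2 (by decide)).1 hk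
      push_cast at h; obtain ⟨a, b, c⟩ := h
      left; refine ⟨?_, ?_, ?_, ?_⟩ <;> linarith
    · have h := (tri_up 1 2 (by decide)).1 hk
      push_cast at h; obtain ⟨a, b, c⟩ := h
      right; refine ⟨?_, ?_, ?_, ?_⟩ <;> linarith
    · have h := (tri_dn 1 2 (by decide)).1 hk
      push_cast at h; obtain ⟨a, b, c⟩ := h
      right; refine ⟨?_, ?_, ?_, ?_⟩ <;> linarith
    · have h := (tri_up 2 2 (by decide)).1 hk
      push_cast at h; obtain ⟨a, b, c⟩ := h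
      right; refine ⟨?_, ?_, ?_, ?_⟩ <;> linarith
  · rintro (⟨h1, h2, h3, h4⟩ | ⟨h1, h2, h3, h4⟩)
    · by_cases c1 : p.2 ≤ 1
      · refine ⟨2, (tri_dn 0 0 (by decide)).2 ?_⟩
        push_cast; refine ⟨?_, ?_, ?_⟩ <;> linarith
      · push Not at c1
        by_cases c2 : p.1 + p.2 ≤ 2
        · refine ⟨0, (tri_up 0 1 (by decide)).2 ?_⟩
          push_cast; refine ⟨?_, ?_, ?_⟩ <;> linarith
        · push Not at c2
          by_cases c3 : p.2 ≤ 2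
          · refine ⟨3, (tri_dn 0 1 (by decide)).2 ?_⟩
            push_cast; refine ⟨?_, ?_, ?_⟩ <;> linarith
          · push Not at c3
            by_cases c4 : p.1 + p.2 ≤ 3
            · refine ⟨1, (tri_up 0 2 (by decide)).2 ?_⟩
              push_cast; refine ⟨?_, ?_, ?_⟩ <;> linarith
            · push Not at c4
              refine ⟨4, (tri_dn 0 2 (by decide)).2 ?_⟩
              push_cast; refine ⟨?_, ?_, ?_⟩ <;> linarith
    · by_cases c1 : p.1 + p.2 ≤ 3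
      · refine ⟨1, (tri_up 0 2 (by decide)).2 ?_⟩
        push_cast; refine ⟨?_, ?_, ?_⟩ <;> linarith
      · push Not at c1
        by_cases c2 : p.1 ≤ 1
        · refine ⟨4, (tri_dn 0 2 (by decide)).2 ?_⟩
          push_cast; refine ⟨?_, ?_, ?_⟩ <;> linarith
        · push Not at c2
          by_cases c3 : p.1 + p.2 ≤ 4
          · refine ⟨5, (tri_up 1 2 (by decide)).2 ?_⟩
            push_cast; refine ⟨?_, ?_, ?_⟩ <;> linarith
          · push Not at c3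
            by_cases c4 : p.1 ≤ 2
            · refine ⟨6, (tri_dn 1 2 (by decide)).2 ?_⟩
              push_cast; refine ⟨?_, ?_, ?_⟩ <;> linarith
            · push Not at c4
              refine ⟨7, (tri_up 2 2 (by decide)).2 ?_⟩
              push_cast; refine ⟨?_, ?_, ?_⟩ <;> linarith

theorem mem_TL0_ga (p : ℝ × ℝ) : p ∈ TL 0 0 0 ↔ ga (p - (1 / 2, 5 / 2)) ≤ 1 := by
  rw [mem_TL0]
  unfold ga
  simp only [Prod.fst_sub, Prod.snd_sub, min_le_iff, max_le_iff]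
  constructor
  · rintro (⟨h1, h2, h3, h4⟩ | ⟨h1, h2, h3, h4⟩)
    · left; refine ⟨⟨?_, ?_⟩, ?_, ?_⟩ <;> linarith
    · right; refine ⟨⟨?_, ?_⟩, ?_, ?_⟩ <;> linarith
  · rintro (⟨⟨h1, h2⟩, h3, h4⟩ | ⟨⟨h1, h2⟩, h3, h4⟩)
    · left; refine ⟨?_, ?_, ?_, ?_⟩ <;> linarith
    · right; refine ⟨?_, ?_, ?_, ?_⟩ <;> linarith

/-- the boundary of the tile `(0, 0, 0)` lies in three other tiles -/
theorem boundary (p : ℝ × ℝ) (hp : ga (p - (1 / 2, 5 / 2)) = 1) :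
    p ∈ TL 4 0 (-1) ∨ p ∈ TL 1 0 (-1) ∨ p ∈ TL 6 0 0 := by
  have hA5 : (p.1 ≤ 0 ∧ p.2 ≤ 2 ∧ 1 ≤ p.1 + p.2) → p ∈ TL 4 0 (-1) := fun h =>
    ⟨5, (tri_dn (-1) 1 (by decide)).2 (by push_cast; refine ⟨?_, ?_, ?_⟩ <;> linarith [h.1, h.2.1, h.2.2])⟩
  have hA7 : (p.1 ≤ 0 ∧ p.2 ≤ 3 ∧ 2 ≤ p.1 + p.2) → p ∈ TL 4 0 (-1) := fun h =>
    ⟨7, (tri_dn (-1) 2 (by decide)).2 (by push_cast; refine ⟨?_, ?_, ?_⟩ <;> linarith [h.1, h.2.1, h.2.2])⟩
  have hA3 : (0 ≤ p.1 ∧ 0 ≤ p.2 ∧ p.1 + p.2 ≤ 1) → p ∈ TL 4 0 (-1) := fun h =>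
    ⟨3, (tri_up 0 0 (by decide)).2 (by push_cast; refine ⟨?_, ?_, ?_⟩ <;> linarith [h.1, h.2.1, h.2.2])⟩
  have hD0 : (1 ≤ p.1 ∧ 0 ≤ p.2 ∧ p.1 + p.2 ≤ 2) → p ∈ TL 1 0 (-1) := fun h =>
    ⟨0, (tri_up 1 0 (by decide)).2 (by push_cast; refine ⟨?_, ?_, ?_⟩ <;> linarith [h.1, h.2.1, h.2.2])⟩
  have hD1 : (1 ≤ p.1 ∧ 1 ≤ p.2 ∧ p.1 + p.2 ≤ 3) → p ∈ TL 1 0 (-1) := fun h =>
    ⟨1, (tri_up 1 1 (by decide)).2 (by push_cast; refine ⟨?_, ?_, ?_⟩ <;> linarith [h.1, h.2.1, h.2.2])⟩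
  have hD4 : (p.1 ≤ 2 ∧ p.2 ≤ 2 ∧ 3 ≤ p.1 + p.2) → p ∈ TL 1 0 (-1) := fun h =>
    ⟨4, (tri_dn 1 1 (by decide)).2 (by push_cast; refine ⟨?_, ?_, ?_⟩ <;> linarith [h.1, h.2.1, h.2.2])⟩
  have hD6 : (p.1 ≤ 3 ∧ p.2 ≤ 2 ∧ 4 ≤ p.1 + p.2) → p ∈ TL 1 0 (-1) := fun h =>
    ⟨6, (tri_dn 2 1 (by decide)).2 (by push_cast; refine ⟨?_, ?_, ?_⟩ <;> linarith [h.1, h.2.1, h.2.2])⟩
  have hB2 : (0 ≤ p.1 ∧ 3 ≤ p.2 ∧ p.1 + p.2 ≤ 4) → p ∈ TL 6 0 0 := fun h =>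
    ⟨2, (tri_up 0 3 (by decide)).2 (by push_cast; refine ⟨?_, ?_, ?_⟩ <;> linarith [h.1, h.2.1, h.2.2])⟩
  have hB3 : (1 ≤ p.1 ∧ 3 ≤ p.2 ∧ p.1 + p.2 ≤ 5) → p ∈ TL 6 0 0 := fun h =>
    ⟨3, (tri_up 1 3 (by decide)).2 (by push_cast; refine ⟨?_, ?_, ?_⟩ <;> linarith [h.1, h.2.1, h.2.2])⟩
  have hB5 : (p.1 ≤ 3 ∧ p.2 ≤ 3 ∧ 5 ≤ p.1 + p.2) → p ∈ TL 6 0 0 := fun h =>
    ⟨5, (tri_dn 2 2 (by decide)).2 (by push_cast; refine ⟨?_, ?_, ?_⟩ <;> linarith [h.1, h.2.1, h.2.2])⟩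
  have h1 : ga (p - (1 / 2, 5 / 2)) ≤ 1 := hp.le
  have h2 : 1 ≤ ga (p - (1 / 2, 5 / 2)) := hp.ge
  rw [← mem_TL0_ga, mem_TL0] at h1
  unfold ga at h2
  simp only [Prod.fst_sub, Prod.snd_sub, le_min_iff, le_max_iff] at h2
  obtain ⟨g1, g2⟩ := h2
  -- `g1`: on or outside the boundary of the first part, `g2`: of the second part
  have g1' : 1 ≤ p.1 ∨ p.1 ≤ 0 ∨ 3 ≤ p.2 ∨ p.1 + p.2 ≤ 1 := by
    rcases g1 with (h | h) | (h | h)
    · left; linarith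
    · right; left; linarith
    · right; right; left; linarith
    · right; right; right; linarith
  have g2' : 3 ≤ p.2 ∨ p.2 ≤ 2 ∨ p.1 ≤ 0 ∨ 5 ≤ p.1 + p.2 := by
    rcases g2 with (h | h) | (h | h)
    · left; linarith
    · right; left; linarith
    · right; right; left; linarith
    · right; right; right; linarith
  -- the sides
  have top : 0 ≤ p.1 → 3 ≤ p.2 → p.1 + p.2 ≤ 5 → p ∈ TL 6 0 0 := by
    intro a b c
    by_cases d : p.1 ≤ 1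
    · by_cases e : p.1 + p.2 ≤ 4
      · exact hB2 ⟨a, b, e⟩
      · rcases h1 with ⟨q1, q2, q3, q4⟩ | ⟨q1, q2, q3, q4⟩
        · exact absurd (by linarith) e
        · exact absurd (by linarith) e
    · exact hB3 ⟨by linarith [not_le.1 d], b, c⟩
  have left : p.1 ≤ 0 → p.2 ≤ 3 → 1 ≤ p.1 + p.2 → p ∈ TL 4 0 (-1) := by
    intro a b c
    by_cases d : p.2 ≤ 2
    · exact hA5 ⟨a, d, c⟩
    · rcases h1 with ⟨q1, q2, q3, q4⟩ | ⟨q1, q2, q3, q4⟩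
      · exact hA7 ⟨a, b, by linarith [not_le.1 d]⟩
      · exact hA7 ⟨a, b, by linarith [not_le.1 d]⟩
  rcases h1 with ⟨q1, q2, q3, q4⟩ | ⟨q1, q2, q3, q4⟩
  · -- first part: x in [0,1], y ≤ 3, x + y ≥ 1
    rcases g1' with h | h | h | h
    · -- x = 1
      rcases g2' with k | k | k | k
      · right; right; exact top q1 k (by linarith)
      · right; left
        by_cases d : p.2 ≤ 1
        · exact hD0 ⟨h, by linarith, by linarith⟩
        · exact hD1 ⟨h, by linarith [not_le.1 d], by linarith⟩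
      · exfalso; linarith
      · exfalso; linarith
    · left; exact left h q3 q4
    · right; right; exact top q1 h (by linarith)
    · left; exact hA3 ⟨q1, by linarith, h⟩
  · -- second part: y in [2,3], x ≥ 0, x + y ≤ 5
    rcases g2' with h | h | h | h
    · right; right; exact top q3 h q4
    · -- y = 2
      rcases g1' with k | k | k | k
      · right; left
        by_cases d : p.1 ≤ 2
        · exact hD4 ⟨d, h, by linarith⟩
        · exact hD6 ⟨by linarith, h, by linarith [not_le.1 d]⟩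
      · left; exact left k q2 (by linarith)
      · exfalso; linarith
      · exfalso; linarith
    · left; exact left h q2 (by linarith)
    · right; right; exact hB5 ⟨by linarith, q2, h⟩

theorem TL_T (p : ℝ × ℝ) (hp : p ∈ TL 2 0 (-1)) : 2 ≤ p.1 ∧ p.2 ≤ 1 := by
  obtain ⟨k, hk⟩ := hp
  fin_cases k
  · have h := (tri_up 2 (-1) (by decide)).1 hk
    push_cast at h; obtain ⟨a, b, c⟩ := h
    constructor <;> linarith
  · have h := (tri_up 2 0 (by decide)).1 hk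
    push_cast at h; obtain ⟨a, b, c⟩ := h
    constructor <;> linarith
  · have h := (tri_dn 2 (-2) (by decide)).1 hk
    push_cast at h; obtain ⟨a, b, c⟩ := h
    constructor <;> linarith
  · have h := (tri_dn 2 (-1) (by decide)).1 hk
    push_cast at h; obtain ⟨a, b, c⟩ := h
    constructor <;> linarith
  · have h := (tri_dn 2 0 (by decide)).1 hk
    push_cast at h; obtain ⟨a, b, c⟩ := h
    constructor <;> linarith
  · have h := (tri_up 3 0 (by decide)).1 hk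
    push_cast at h; obtain ⟨a, b, c⟩ := h
    constructor <;> linarith
  · have h := (tri_dn 3 0 (by decide)).1 hk
    push_cast at h; obtain ⟨a, b, c⟩ := h
    constructor <;> linarith
  · have h := (tri_up 4 0 (by decide)).1 hk
    push_cast at h; obtain ⟨a, b, c⟩ := h
    constructor <;> linarith

/-- the hole does not meet the tile `T = (2, 0, -1)` -/
theorem hole_T : Disjoint (TL 0 0 0) (TL 2 0 (-1)) := by
  rw [Set.disjoint_left]
  intro p h0 h1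
  obtain ⟨a, b⟩ := TL_T p h1
  rcases (mem_TL0 p).1 h0 with ⟨q1, q2, q3, q4⟩ | ⟨q1, q2, q3, q4⟩ <;> linarith

theorem A_T : ((2, -1) : ℝ × ℝ) ∈ TL 4 0 (-1) ∧ ((2, -1) : ℝ × ℝ) ∈ TL 2 0 (-1) := by
  refine ⟨⟨2, (tri_up 1 (-1) (by decide)).2 ?_⟩, ⟨0, (tri_up 2 (-1) (by decide)).2 ?_⟩⟩
  · norm_num
  · norm_num

theorem D_T : ((2, -1) : ℝ × ℝ) ∈ TL 1 0 (-1) := by
  refine ⟨2, (tri_dn 1 (-1) (by decide)).2 ?_⟩
  norm_num

theorem B_T : ((4, 1) : ℝ × ℝ) ∈ TL 6 0 0 ∧ ((4, 1) : ℝ × ℝ) ∈ TL 2 0 (-1) := by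
  refine ⟨⟨7, (tri_dn 3 1 (by decide)).2 ?_⟩, ⟨7, (tri_up 4 0 (by decide)).2 ?_⟩⟩
  · norm_num
  · norm_num

/-- the centre of the hole lies in no other tile -/
theorem centre (i : Fin 10) (m n : ℤ) (h : ((1 / 2, 5 / 2) : ℝ × ℝ) ∈ TL i m n) :
    i = 0 ∧ m = 0 ∧ n = 0 := by
  obtain ⟨k, hk⟩ := h
  have hc := cl_valid i m n k
  have : cl i m n k = cl 0 0 0 1 ∨ cl i m n k = cl 0 0 0 4 := by
    rcases hc with ⟨a1, a2⟩ | ⟨a1, a2⟩
    · left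
      obtain ⟨X, hX⟩ : ∃ X : ℤ, (cl i m n k).1 = 3 * X + 1 := ⟨(cl i m n k).1 / 3, by omega⟩
      obtain ⟨Y, hY⟩ : ∃ Y : ℤ, (cl i m n k).2 = 3 * Y + 1 := ⟨(cl i m n k).2 / 3, by omega⟩
      have e : cl i m n k = (3 * X + 1, 3 * Y + 1) := Prod.ext hX hY
      obtain ⟨b1, b2, b3⟩ := (tri_up X Y e).1 hk
      simp only at b1 b2 b3
      have c1 : (X : ℝ) < 1 := by linarith
      have c2 : (Y : ℝ) < 3 := by linarith
      have c3 : (2 : ℝ) ≤ (X : ℝ) + Y := by linarith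
      have d1 : X < 1 := by exact_mod_cast c1
      have d2 : Y < 3 := by exact_mod_cast c2
      have d3 : 2 ≤ X + Y := by exact_mod_cast c3
      have e1 : X = 0 := by omega
      have e2 : Y = 2 := by omega
      rw [e, e1, e2]
      decide
    · right
      obtain ⟨X, hX⟩ : ∃ X : ℤ, (cl i m n k).1 = 3 * X + 2 := ⟨(cl i m n k).1 / 3, by omega⟩
      obtain ⟨Y, hY⟩ : ∃ Y : ℤ, (cl i m n k).2 = 3 * Y + 2 := ⟨(cl i m n k).2 / 3, by omega⟩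
      have e : cl i m n k = (3 * X + 2, 3 * Y + 2) := Prod.ext hX hY
      obtain ⟨b1, b2, b3⟩ := (tri_dn X Y e).1 hk
      simp only at b1 b2 b3
      have c1 : (-1 : ℝ) < X := by linarith
      have c2 : (1 : ℝ) < Y := by linarith
      have c3 : (X : ℝ) + Y ≤ 2 := by linarith
      have d1 : -1 < X := by exact_mod_cast c1
      have d2 : 1 < Y := by exact_mod_cast c2
      have d3 : X + Y ≤ 2 := by exact_mod_cast c3
      have e1 : X = 0 := by omega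
      have e2 : Y = 2 := by omega
      rw [e, e1, e2]
      decide
  rcases this with h | h
  · exact cl_unique h
  · exact cl_unique h

/-- the tiling -/
def TT : Set (Set E2) := {S | ∃ i m n, S = Ph '' TL i m n}

theorem mem_TT (i : Fin 10) (m n : ℤ) : Ph '' TL i m n ∈ TT := ⟨i, m, n, rfl⟩

theorem Ph_inj {p q : ℝ × ℝ} (h : Ph p = Ph q) : p = q := by
  rw [← Ps_Ph p, h, Ps_Ph]

theorem mem_Ph {p : ℝ × ℝ} {S : Set (ℝ × ℝ)} : Ph p ∈ Ph '' S ↔ p ∈ S :=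
  ⟨fun ⟨_, hq, h⟩ => Ph_inj h ▸ hq, fun h => ⟨p, h, rfl⟩⟩

theorem TT_cover : ⋃₀ TT = Set.univ := by
  rw [Set.eq_univ_iff_forall]
  intro z
  obtain ⟨i, m, n, h⟩ := TL_cover (Ps z)
  refine ⟨_, mem_TT i m n, Ps z, h, Ph_Ps z⟩

theorem TT_disjoint : TT.Pairwise (fun A B => Disjoint (interior A) (interior B)) := by
  rintro _ ⟨i, m, n, rfl⟩ _ ⟨i', m', n', rfl⟩ hne
  rw [Set.disjoint_iff_inter_eq_empty]
  by_contra hcon
  obtain ⟨z, hz⟩ := Set.nonempty_iff_ne_empty.2 hcon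
  have hU : IsOpen (Ph ⁻¹' (interior (Ph '' TL i m n) ∩ interior (Ph '' TL i' m' n'))) :=
    (isOpen_interior.inter isOpen_interior).preimage Ph_continuous
  obtain ⟨p, hp, h1, h2, h3⟩ := exists_generic _ hU ⟨Ps z, by
    rw [Set.mem_preimage, Ph_Ps]; exact hz⟩
  have m1 : p ∈ TL i m n := mem_Ph.1 (interior_subset hp.1)
  have m2 : p ∈ TL i' m' n' := mem_Ph.1 (interior_subset hp.2)
  obtain ⟨k, hk⟩ := m1
  obtain ⟨k', hk'⟩ := m2
  have := tri_unique h1 h2 h3 (cl_valid i m n k) (cl_valid i' m' n' k') hk hk'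
  obtain ⟨a, b, c⟩ := cl_unique this
  subst a b c
  exact hne rfl

/-- gauge on the Euclidean plane -/
noncomputable def gE (z : E2) : ℝ := ga (Ps z)

theorem gE_continuous : Continuous gE := ga_continuous.comp Ps_continuous

theorem gE_smul (t : ℝ) (ht : 0 ≤ t) (z : E2) : gE (t • z) = t * gE z := by
  unfold gE
  rw [Ps_smul, ga_smul t ht]

theorem gE_pos (z : E2) (hz : z ≠ 0) : 0 < gE z := by
  apply ga_pos
  intro h
  apply hz
  have h0 : Ph 0 = 0 := by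
    ext i; fin_cases i <;> simp [Ph]
  rw [← Ph_Ps z, h, h0]

theorem gE_sub (z : E2) : gE (z - Ph (1 / 2, 5 / 2)) = ga (Ps z - (1 / 2, 5 / 2)) := by
  unfold gE
  rw [Ps_sub, Ps_Ph]

theorem tile_disc : Nonempty (Ph '' TL 0 0 0 ≃ₜ Metric.closedBall (0 : E2) 1) := by
  apply star_ball_at gE gE_continuous gE_smul gE_pos (Ph (1 / 2, 5 / 2))
  intro z
  rw [gE_sub, ← mem_TL0_ga]
  conv_lhs => rw [← Ph_Ps z]
  exact mem_Ph

theorem hole : ¬ SimplyConnectedSpace (⋃₀ {T' ∈ TT | (T' ∩ (Ph '' TL 2 0 (-1))).Nonempty}) := by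
  apply not_simply_connected _ gE gE_continuous gE_pos gE_smul (Ph (1 / 2, 5 / 2))
  · rintro ⟨_, ⟨⟨i, m, n, rfl⟩, ⟨z, hz1, hz2⟩⟩, hc⟩
    obtain ⟨a, b, c⟩ := centre i m n (mem_Ph.1 hc)
    subst a b c
    obtain ⟨p, hp, rfl⟩ := hz1
    exact Set.disjoint_left.1 hole_T hp (mem_Ph.1 hz2)
  · intro z hz
    rw [gE_sub] at hz
    rcases boundary (Ps z) hz with h | h | h
    · exact ⟨_, ⟨mem_TT 4 0 (-1), ⟨Ph (2, -1), mem_Ph.2 A_T.1, mem_Ph.2 A_T.2⟩⟩, Ps z, h, Ph_Ps z⟩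
    · exact ⟨_, ⟨mem_TT 1 0 (-1), ⟨Ph (2, -1), mem_Ph.2 D_T, mem_Ph.2 A_T.2⟩⟩, Ps z, h, Ph_Ps z⟩
    · exact ⟨_, ⟨mem_TT 6 0 0, ⟨Ph (4, 1), mem_Ph.2 B_T.1, mem_Ph.2 B_T.2⟩⟩, Ps z, h, Ph_Ps z⟩

theorem main :
    ¬ (∀ (C : Set (EuclideanSpace ℝ (Fin 2))) (𝒯 : Set (Set (EuclideanSpace ℝ (Fin 2)))),
      Nonempty (C ≃ₜ Metric.closedBall (0 : EuclideanSpace ℝ (Fin 2)) 1) →
      (∀ T ∈ 𝒯, ∃ f : EuclideanSpace ℝ (Fin 2) ≃ᵢ EuclideanSpace ℝ (Fin 2), T = f '' C) →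
      ⋃₀ 𝒯 = Set.univ →
      𝒯.Pairwise (fun A B => Disjoint (interior A) (interior B)) →
      ∀ T ∈ 𝒯, SimplyConnectedSpace (⋃₀ {T' ∈ 𝒯 | (T' ∩ T).Nonempty})) := by
  intro H
  refine hole (H (Ph '' TL 0 0 0) TT tile_disc ?_ TT_cover TT_disjoint _ (mem_TT 2 0 (-1)))
  rintro _ ⟨i, m, n, rfl⟩
  exact ⟨mv i m n, tile_congr i m n⟩

end X165.VN
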