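import Mathlib

/-!
# Face lattices of polytopes via incidence relations
-/

namespace CY

open Set Order

/-- The (exposed) faces of `P`, ordered by inclusion; for a polytope these are all its faces,
including the empty face and `P` itself. -/
abbrev Faces {E : Type} [NormedAddCommGroup E] [NormedSpace ℝ E] (P : Set E) : Type :=
  {F : Set E // IsExposed ℝ P F}

section
variable {E : Type} [NormedAddCommGroup E] [NormedSpace ℝ E]
variable {ι K : Type} [Fintype ι] [Fintype K]

theorem mem_hull_range {V : ι → E} {x : E} :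
    x ∈ convexHull ℝ (range V) ↔
      ∃ w : ι → ℝ, (∀ i, 0 ≤ w i) ∧ ∑ i, w i = 1 ∧ ∑ i, w i • V i = x := by
  constructor
  · intro hx
    rw [convexHull_range_eq_exists_affineCombination] at hx
    obtain ⟨s, w, hw0, hw1, rfl⟩ := hx
    classical
    refine ⟨fun i => if i ∈ s then w i else 0, ?_, ?_, ?_⟩
    · intro i
      by_cases hi : i ∈ s
      · simp [hi, hw0 i hi]
      · simp [hi]
    · simp only [Finset.sum_ite_mem, Finset.univ_inter, hw1]
    · rw [Finset.affineCombination_eq_linear_combination _ _ _ hw1]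
      simp [ite_smul, Finset.sum_ite_mem]
  · rintro ⟨w, hw0, hw1, rfl⟩
    exact (convex_convexHull ℝ _).sum_mem (fun i _ => hw0 i) hw1
      (fun i _ => subset_convexHull ℝ _ ⟨i, rfl⟩)

variable (V : ι → E) (r : ι → K → Prop) (m : K → StrongDual ℝ E) (b : K → ℝ)

/-- the extent of a face -/
def ext (F : Set E) : Set ι := {i | V i ∈ F}

theorem exp_mono {F G : Set E} (hF : IsExposed ℝ (convexHull ℝ (range V)) F)
    (hG : IsExposed ℝ (convexHull ℝ (range V)) G) (h : ext V F ⊆ ext V G) : F ⊆ G := by
  intro x hx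
  have hFne : F.Nonempty := ⟨x, hx⟩
  obtain ⟨l, hl⟩ := hF hFne
  have hx' := hx
  rw [hl] at hx'
  obtain ⟨hxP, hxmax⟩ := hx'
  obtain ⟨w, hw0, hw1, hwx⟩ := mem_hull_range.1 hxP
  have hlx : l x = ∑ i, w i * l (V i) := by
    rw [← hwx]; simp
  have key : ∀ i, 0 < w i → V i ∈ F := by
    intro i hi
    rw [hl]
    refine ⟨subset_convexHull ℝ _ ⟨i, rfl⟩, fun y hy => (hxmax y hy).trans ?_⟩
    by_contra hlt
    push Not at hlt
    have h1 : ∑ j, w j * l (V j) < ∑ j, w j * l x := by
      refine Finset.sum_lt_sum (fun j _ => ?_) ⟨i, Finset.mem_univ _, ?_⟩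
      · exact mul_le_mul_of_nonneg_left (hxmax _ (subset_convexHull ℝ _ ⟨j, rfl⟩)) (hw0 j)
      · exact mul_lt_mul_of_pos_left hlt hi
    rw [← Finset.sum_mul, hw1, one_mul, ← hlx] at h1
    exact lt_irrefl _ h1
  have hGc : Convex ℝ G := hG.convex (convex_convexHull ℝ _)
  -- restrict to support
  classical
  have hs : ∑ i ∈ Finset.univ.filter (fun i => 0 < w i), w i = 1 := by
    rw [← hw1]
    refine Finset.sum_subset (Finset.filter_subset _ _) (fun i _ hi => ?_)
    simp only [Finset.mem_filter, Finset.mem_univ, true_and, not_lt] at hi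
    exact le_antisymm hi (hw0 i)
  have hsx : ∑ i ∈ Finset.univ.filter (fun i => 0 < w i), w i • V i = x := by
    rw [← hwx]
    refine Finset.sum_subset (Finset.filter_subset _ _) (fun i _ hi => ?_)
    simp only [Finset.mem_filter, Finset.mem_univ, true_and, not_lt] at hi
    rw [le_antisymm hi (hw0 i), zero_smul]
  rw [← hsx]
  refine hGc.sum_mem (fun i _ => hw0 i) hs (fun i hi => ?_)
  have := key i (Finset.mem_filter.1 hi).2
  exact h this

/-- **Face lattice from an incidence relation.** -/
theorem faces_iso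
    (ha : ∀ i k, 0 ≤ m k (V i) + b k)
    (hr : ∀ i k, r i k ↔ m k (V i) + b k = 0)
    (hb : ∀ (l : StrongDual ℝ E) (M : ℝ), (∀ i, l (V i) ≤ M) → ∀ i0, l (V i0) < M →
      ∃ k, ¬ r i0 k ∧ ∀ j, l (V j) = M → r j k) :
    Nonempty (Faces (convexHull ℝ (range V)) ≃o Concept ι K r) := by
  classical
  have hext : ∀ F : Set E, IsExposed ℝ (convexHull ℝ (range V)) F → IsExtent r (ext V F) := by
    intro F hF
    rw [isExtent_iff]
    refine Subset.antisymm ?_ (subset_lowerPolar_upperPolar r _)
    intro i0 hi0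
    by_contra hn
    rcases F.eq_empty_or_nonempty with hE | hne
    · obtain ⟨k, hk, _⟩ := hb 0 1 (fun i => by simp) i0 (by simp)
      apply hk
      apply hi0
      intro j hj
      have : V j ∈ F := hj
      rw [hE] at this
      exact this.elim
    · obtain ⟨l, hl⟩ := hF hne
      obtain ⟨x, hx⟩ := hne
      have hx' := hx
      rw [hl] at hx'
      obtain ⟨hxP, hxmax⟩ := hx'
      have h1 : ∀ i, l (V i) ≤ l x := fun i => hxmax _ (subset_convexHull ℝ _ ⟨i, rfl⟩)
      have h2 : ∀ i, V i ∈ F ↔ l (V i) = l x := by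
        intro i
        constructor
        · intro hi
          rw [hl] at hi
          exact le_antisymm (h1 i) (hi.2 x hxP)
        · intro hi
          rw [hl]
          exact ⟨subset_convexHull ℝ _ ⟨i, rfl⟩, fun y hy => by rw [hi]; exact hxmax y hy⟩
      have h3 : l (V i0) < l x := lt_of_le_of_ne (h1 i0) (fun h => hn ((h2 i0).2 h))
      obtain ⟨k, hk, hk'⟩ := hb l (l x) h1 i0 h3
      apply hk
      apply hi0
      intro j hj
      exact hk' j ((h2 j).1 hj)
  have hsurj : ∀ c : Concept ι K r, ∃ F : Set E, IsExposed ℝ (convexHull ℝ (range V)) F ∧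
      ext V F = c.extent := by
    intro c
    let F : Set E := {x | x ∈ convexHull ℝ (range V) ∧ ∀ k ∈ c.intent, m k x + b k = 0}
    have hnn : ∀ x ∈ convexHull ℝ (range V), ∀ k, 0 ≤ m k x + b k := by
      intro x hx k
      obtain ⟨w, hw0, hw1, hwx⟩ := mem_hull_range.1 hx
      have : m k x + b k = ∑ i, w i * (m k (V i) + b k) := by
        rw [← hwx]
        simp only [map_sum, map_smul, smul_eq_mul, mul_add, Finset.sum_add_distrib,
          ← Finset.sum_mul, hw1, one_mul]
      rw [this]
      exact Finset.sum_nonneg fun i _ => mul_nonneg (hw0 i) (ha i k)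
    refine ⟨F, ?_, ?_⟩
    · intro hne
      obtain ⟨x0, hx0P, hx0⟩ := hne
      refine ⟨-∑ k ∈ Finset.univ.filter (fun k => k ∈ c.intent), m k, ?_⟩
      have hval : ∀ x, (-∑ k ∈ Finset.univ.filter (fun k => k ∈ c.intent), m k :
          StrongDual ℝ E) x = (∑ k ∈ Finset.univ.filter (fun k => k ∈ c.intent), b k) -
          ∑ k ∈ Finset.univ.filter (fun k => k ∈ c.intent), (m k x + b k) := by
        intro x
        simp [Finset.sum_add_distrib, ContinuousLinearMap.sum_apply]
      ext x
      simp only [hval, mem_setOf_eq, F]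
      constructor
      · rintro ⟨hxP, hx⟩
        refine ⟨hxP, fun y hy => ?_⟩
        have e1 : ∑ k ∈ Finset.univ.filter (fun k => k ∈ c.intent), (m k x + b k) = 0 :=
          Finset.sum_eq_zero fun k hk => hx k (Finset.mem_filter.1 hk).2
        have e2 : 0 ≤ ∑ k ∈ Finset.univ.filter (fun k => k ∈ c.intent), (m k y + b k) :=
          Finset.sum_nonneg fun k _ => hnn y hy k
        linarith
      · rintro ⟨hxP, hx⟩
        refine ⟨hxP, ?_⟩
        have e0 : ∑ k ∈ Finset.univ.filter (fun k => k ∈ c.intent), (m k x0 + b k) = 0 :=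
          Finset.sum_eq_zero fun k hk => hx0 k (Finset.mem_filter.1 hk).2
        have e1 : ∑ k ∈ Finset.univ.filter (fun k => k ∈ c.intent), (m k x + b k) = 0 := by
          refine le_antisymm ?_ (Finset.sum_nonneg fun k _ => hnn x hxP k)
          have := hx x0 hx0P
          linarith
        intro k hk
        exact (Finset.sum_eq_zero_iff_of_nonneg fun k _ => hnn x hxP k).1 e1 k
          (Finset.mem_filter.2 ⟨Finset.mem_univ _, hk⟩)
    · ext i
      have h1 : i ∈ c.extent ↔ ∀ k ∈ c.intent, r i k := by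
        rw [← c.lowerPolar_intent]
        exact Iff.rfl
      rw [h1]
      simp only [ext, F, mem_setOf_eq]
      constructor
      · rintro ⟨_, h⟩ k hk
        exact (hr i k).2 (h k hk)
      · intro h
        exact ⟨subset_convexHull ℝ _ ⟨i, rfl⟩, fun k hk => (hr i k).1 (h k hk)⟩
  have hle : ∀ F G : Faces (convexHull ℝ (range V)),
      Concept.ofIsExtent r (ext V F.1) (hext F.1 F.2) ≤ Concept.ofIsExtent r (ext V G.1) (hext G.1 G.2) ↔ F ≤ G := by
    intro F G
    rw [← Concept.extent_subset_extent_iff]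
    constructor
    · intro h
      exact exp_mono V F.2 G.2 h
    · intro h i hi
      exact h hi
  exact ⟨{
    toEquiv := Equiv.ofBijective (fun F => Concept.ofIsExtent r (ext V F.1) (hext F.1 F.2))
      ⟨fun F G h => le_antisymm ((hle F G).1 h.le) ((hle G F).1 h.ge), fun c => by
        obtain ⟨F, hF, hFc⟩ := hsurj c
        exact ⟨⟨F, hF⟩, Concept.ext hFc⟩⟩
    map_rel_iff' := by
      intro F G
      exact hle F G }⟩

end

end CY
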