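import Mathlib

/-!
# The dual cone of the cone over the cyclic polytope `C_4(7)`
-/

namespace CY

open Polynomial

/-- edge polynomial of the edge `{i, i+1}` of the 7-cycle: nonnegative at all the nodes -/
noncomputable def ee (t : Fin 7 → ℝ) (i : Fin 7) : ℝ[X] :=
  if i = 6 then (C (t 6) - X) * (X - C (t 0)) else (X - C (t i)) * (X - C (t (i + 1)))

/-- first edge of the facet `a` -/
def fi : Fin 14 → Fin 7 := ![0, 0, 0, 0, 1, 1, 1, 1, 2, 2, 2, 3, 3, 4]

/-- second edge of the facet `a` -/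
def fj : Fin 14 → Fin 7 := ![2, 3, 4, 5, 3, 4, 5, 6, 4, 5, 6, 5, 6, 6]

/-- the facet quartic -/
noncomputable def hh (t : Fin 7 → ℝ) (a : Fin 14) : ℝ[X] := ee t (fi a) * ee t (fj a)

/-- the incidence relation: facet `a` of `C_4(7)` contains vertex `k` -/
def inc (a : Fin 14) (k : Fin 7) : Bool :=
  decide (k = fi a ∨ k = fi a + 1 ∨ k = fj a ∨ k = fj a + 1)

variable {t : Fin 7 → ℝ}

theorem ee_nonneg (ht : StrictMono t) (i k : Fin 7) : 0 ≤ (ee t i).eval (t k) := by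
  unfold ee
  split_ifs with h
  · simp only [eval_mul, eval_sub, eval_C, eval_X]
    have h1 : t k ≤ t 6 := ht.monotone (Fin.le_last k)
    have h2 : t 0 ≤ t k := ht.monotone (Fin.zero_le k)
    exact mul_nonneg (by linarith) (by linarith)
  · simp only [eval_mul, eval_sub, eval_C, eval_X]
    have key : ∀ i k : Fin 7, i ≠ 6 → (k ≤ i ∧ k ≤ i + 1) ∨ (i ≤ k ∧ i + 1 ≤ k) := by decide
    rcases key i k h with ⟨h1, h2⟩ | ⟨h1, h2⟩
    · have h1 := ht.monotone h1
      have h2 := ht.monotone h2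
      exact mul_nonneg_of_nonpos_of_nonpos (by linarith) (by linarith)
    · have h1 := ht.monotone h1
      have h2 := ht.monotone h2
      exact mul_nonneg (by linarith) (by linarith)

theorem ee_zero (ht : StrictMono t) (i k : Fin 7) :
    (ee t i).eval (t k) = 0 ↔ k = i ∨ k = i + 1 := by
  unfold ee
  split_ifs with h
  · subst h
    simp only [eval_mul, eval_sub, eval_C, eval_X, mul_eq_zero, sub_eq_zero]
    rw [ht.injective.eq_iff, ht.injective.eq_iff]
    constructor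
    · rintro (h | h)
      · left; exact h.symm
      · right; rw [h]; rfl
    · rintro (h | h)
      · left; exact h.symm
      · right; rw [h]; rfl
  · simp only [eval_mul, eval_sub, eval_C, eval_X, mul_eq_zero, sub_eq_zero]
    rw [ht.injective.eq_iff, ht.injective.eq_iff]

theorem ee_deg (i : Fin 7) : (ee t i).natDegree ≤ 2 := by
  unfold ee
  split_ifs <;> compute_degree

theorem hh_nonneg (ht : StrictMono t) (a : Fin 14) (k : Fin 7) : 0 ≤ (hh t a).eval (t k) := by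
  unfold hh
  rw [eval_mul]
  exact mul_nonneg (ee_nonneg ht _ _) (ee_nonneg ht _ _)

theorem hh_zero (ht : StrictMono t) (a : Fin 14) (k : Fin 7) :
    (hh t a).eval (t k) = 0 ↔ inc a k = true := by
  unfold hh inc
  rw [eval_mul, mul_eq_zero, ee_zero ht, ee_zero ht, decide_eq_true_iff]
  tauto

theorem hh_deg (a : Fin 14) : (hh t a).natDegree ≤ 4 := by
  unfold hh
  exact natDegree_mul_le_of_le (m := 2) (n := 2) (ee_deg _) (ee_deg _)

theorem comb : ∀ Z : Fin 7 → Bool, (∃ a, ∀ k, Z k = true → inc a k = true) ∨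
    (Z 0 = true ∧ Z 2 = true ∧ Z 4 = true) ∨ (Z 0 = true ∧ Z 2 = true ∧ Z 5 = true) ∨
    (Z 0 = true ∧ Z 3 = true ∧ Z 5 = true) ∨ (Z 1 = true ∧ Z 3 = true ∧ Z 5 = true) ∨
    (Z 1 = true ∧ Z 3 = true ∧ Z 6 = true) ∨ (Z 1 = true ∧ Z 4 = true ∧ Z 6 = true) ∨
    (Z 2 = true ∧ Z 4 = true ∧ Z 6 = true) := by
  decide +kernel

theorem tri {p : ℝ[X]} (hp : p.natDegree ≤ 4) {z1 z2 z3 w1 w2 w3 : ℝ}
    (h12 : z1 ≠ z2) (h13 : z1 ≠ z3) (h23 : z2 ≠ z3)
    (e1 : p.eval z1 = 0) (e2 : p.eval z2 = 0) (e3 : p.eval z3 = 0)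
    (n1 : 0 ≤ p.eval w1) (n2 : 0 ≤ p.eval w2) (n3 : 0 ≤ p.eval w3)
    (hw12 : w1 < w2) (hw23 : w2 < w3)
    (h : (0 < (w1 - z1) * (w1 - z2) * (w1 - z3) ∧ (w2 - z1) * (w2 - z2) * (w2 - z3) < 0 ∧
        0 < (w3 - z1) * (w3 - z2) * (w3 - z3)) ∨
      ((w1 - z1) * (w1 - z2) * (w1 - z3) < 0 ∧ 0 < (w2 - z1) * (w2 - z2) * (w2 - z3) ∧
        (w3 - z1) * (w3 - z2) * (w3 - z3) < 0)) : p = 0 := by
  obtain ⟨p1, rfl⟩ := dvd_iff_isRoot.2 e1
  by_cases hp1 : p1 = 0
  · simp [hp1]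
  have d1 : p1.natDegree ≤ 3 := by
    rw [natDegree_mul (X_sub_C_ne_zero _) hp1, natDegree_X_sub_C] at hp
    omega
  have e2' : p1.eval z2 = 0 := by
    rw [eval_mul, mul_eq_zero] at e2
    rcases e2 with h | h
    · simp only [eval_sub, eval_X, eval_C, sub_eq_zero] at h
      exact absurd h.symm h12
    · exact h
  have e3' : p1.eval z3 = 0 := by
    rw [eval_mul, mul_eq_zero] at e3
    rcases e3 with h | h
    · simp only [eval_sub, eval_X, eval_C, sub_eq_zero] at h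
      exact absurd h.symm h13
    · exact h
  obtain ⟨p2, rfl⟩ := dvd_iff_isRoot.2 e2'
  by_cases hp2 : p2 = 0
  · simp [hp2]
  have d2 : p2.natDegree ≤ 2 := by
    rw [natDegree_mul (X_sub_C_ne_zero _) hp2, natDegree_X_sub_C] at d1
    omega
  have e3'' : p2.eval z3 = 0 := by
    rw [eval_mul, mul_eq_zero] at e3'
    rcases e3' with h | h
    · simp only [eval_sub, eval_X, eval_C, sub_eq_zero] at h
      exact absurd h.symm h23
    · exact h
  obtain ⟨p3, rfl⟩ := dvd_iff_isRoot.2 e3''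
  by_cases hp3 : p3 = 0
  · simp [hp3]
  have d3 : p3.natDegree ≤ 1 := by
    rw [natDegree_mul (X_sub_C_ne_zero _) hp3, natDegree_X_sub_C] at d2
    omega
  obtain ⟨b, c, rfl⟩ := exists_eq_X_add_C_of_natDegree_le_one d3
  exfalso
  apply hp3
  simp only [eval_mul, eval_sub, eval_add, eval_X, eval_C] at n1 n2 n3
  have m1 : 0 ≤ ((w1 - z1) * (w1 - z2) * (w1 - z3)) * (b * w1 + c) := by linarith
  have m2 : 0 ≤ ((w2 - z1) * (w2 - z2) * (w2 - z3)) * (b * w2 + c) := by linarith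
  have m3 : 0 ≤ ((w3 - z1) * (w3 - z2) * (w3 - z3)) * (b * w3 + c) := by linarith
  have hz : b * w1 + c = 0 ∧ b * w3 + c = 0 := by
    rcases h with ⟨s1, s2, s3⟩ | ⟨s1, s2, s3⟩
    · have k1 : 0 ≤ b * w1 + c := nonneg_of_mul_nonneg_right m1 s1
      have k2 : b * w2 + c ≤ 0 := by
        by_contra hc
        push Not at hc
        nlinarith [mul_neg_of_neg_of_pos s2 hc]
      have k3 : 0 ≤ b * w3 + c := nonneg_of_mul_nonneg_right m3 s3
      constructor
      · nlinarith [mul_nonneg (sub_nonneg.2 hw23.le) k1, mul_nonneg (sub_nonneg.2 hw12.le) k3,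
          mul_nonneg (sub_nonneg.2 (hw12.trans hw23).le) (neg_nonneg.2 k2)]
      · nlinarith [mul_nonneg (sub_nonneg.2 hw23.le) k1, mul_nonneg (sub_nonneg.2 hw12.le) k3,
          mul_nonneg (sub_nonneg.2 (hw12.trans hw23).le) (neg_nonneg.2 k2)]
    · have k2 : 0 ≤ b * w2 + c := nonneg_of_mul_nonneg_right m2 s2
      have k1 : b * w1 + c ≤ 0 := by
        by_contra hc
        push Not at hc
        nlinarith [mul_neg_of_neg_of_pos s1 hc]
      have k3 : b * w3 + c ≤ 0 := by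
        by_contra hc
        push Not at hc
        nlinarith [mul_neg_of_neg_of_pos s3 hc]
      constructor
      · nlinarith [mul_nonneg (sub_nonneg.2 hw23.le) (neg_nonneg.2 k1),
          mul_nonneg (sub_nonneg.2 hw12.le) (neg_nonneg.2 k3),
          mul_nonneg (sub_nonneg.2 (hw12.trans hw23).le) k2]
      · nlinarith [mul_nonneg (sub_nonneg.2 hw23.le) (neg_nonneg.2 k1),
          mul_nonneg (sub_nonneg.2 hw12.le) (neg_nonneg.2 k3),
          mul_nonneg (sub_nonneg.2 (hw12.trans hw23).le) k2]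
  have hb : b = 0 := by
    have : b * (w3 - w1) = 0 := by linarith [hz.1, hz.2]
    rcases mul_eq_zero.1 this with h | h
    · exact h
    · linarith
  have hc : c = 0 := by
    have := hz.1
    rw [hb] at this
    linarith
  simp [hb, hc]

theorem triA {p : ℝ[X]} (hp : p.natDegree ≤ 4) {z1 z2 z3 w1 w2 w3 : ℝ}
    (e1 : p.eval z1 = 0) (e2 : p.eval z2 = 0) (e3 : p.eval z3 = 0)
    (n1 : 0 ≤ p.eval w1) (n2 : 0 ≤ p.eval w2) (n3 : 0 ≤ p.eval w3)
    (a1 : z1 < w1) (a2 : w1 < z2) (a3 : z2 < w2) (a4 : w2 < z3) (a5 : z3 < w3) : p = 0 := by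
  refine tri hp (z1 := z1) (z2 := z2) (z3 := z3) (w1 := w1) (w2 := w2) (w3 := w3)
    (ne_of_lt (by linarith)) (ne_of_lt (by linarith)) (ne_of_lt (by linarith)) e1 e2 e3 n1 n2 n3
    (by linarith) (by linarith) (Or.inl ⟨?_, ?_, ?_⟩)
  · exact mul_pos_of_neg_of_neg (mul_neg_of_pos_of_neg (by linarith) (by linarith)) (by linarith)
  · exact mul_neg_of_pos_of_neg (mul_pos (by linarith) (by linarith)) (by linarith)
  · exact mul_pos (mul_pos (by linarith) (by linarith)) (by linarith)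

theorem triB {p : ℝ[X]} (hp : p.natDegree ≤ 4) {z1 z2 z3 w1 w2 w3 : ℝ}
    (e1 : p.eval z1 = 0) (e2 : p.eval z2 = 0) (e3 : p.eval z3 = 0)
    (n1 : 0 ≤ p.eval w1) (n2 : 0 ≤ p.eval w2) (n3 : 0 ≤ p.eval w3)
    (a1 : w1 < z1) (a2 : z1 < w2) (a3 : w2 < z2) (a4 : z2 < w3) (a5 : w3 < z3) : p = 0 := by
  refine tri hp (z1 := z1) (z2 := z2) (z3 := z3) (w1 := w1) (w2 := w2) (w3 := w3)
    (ne_of_lt (by linarith)) (ne_of_lt (by linarith)) (ne_of_lt (by linarith)) e1 e2 e3 n1 n2 n3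
    (by linarith) (by linarith) (Or.inr ⟨?_, ?_, ?_⟩)
  · exact mul_neg_of_pos_of_neg (mul_pos_of_neg_of_neg (by linarith) (by linarith)) (by linarith)
  · exact mul_pos_of_neg_of_neg (mul_neg_of_pos_of_neg (by linarith) (by linarith)) (by linarith)
  · exact mul_neg_of_pos_of_neg (mul_pos (by linarith) (by linarith)) (by linarith)

end CY
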