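import Pool.Agent.X165.CY2

namespace CY

open Polynomial

variable {t : Fin 7 → ℝ}

theorem exists_facet (ht : StrictMono t) {p : ℝ[X]} (hp : p.natDegree ≤ 4)
    (hn : ∀ k, 0 ≤ p.eval (t k)) (h0 : p ≠ 0) :
    ∃ a, ∀ k, p.eval (t k) = 0 → inc a k = true := by
  classical
  have h01 : t 0 < t 1 := ht (by decide)
  have h12 : t 1 < t 2 := ht (by decide)
  have h23 : t 2 < t 3 := ht (by decide)
  have h34 : t 3 < t 4 := ht (by decide)
  have h45 : t 4 < t 5 := ht (by decide)
  have h56 : t 5 < t 6 := ht (by decide)
  rcases comb (fun k => decide (p.eval (t k) = 0)) with ⟨a, ha⟩ | h | h | h | h | h | h | h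
  · exact ⟨a, fun k hk => ha k (decide_eq_true hk)⟩
  all_goals
    exfalso
    apply h0
    obtain ⟨e1, e2, e3⟩ := h
    have e1 := of_decide_eq_true e1
    have e2 := of_decide_eq_true e2
    have e3 := of_decide_eq_true e3
  · exact triA hp e1 e2 e3 (hn 1) (hn 3) (hn 5) (by linarith) (by linarith) (by linarith)
      (by linarith) (by linarith)
  · exact triA hp e1 e2 e3 (hn 1) (hn 3) (hn 6) (by linarith) (by linarith) (by linarith)
      (by linarith) (by linarith)
  · exact triA hp e1 e2 e3 (hn 1) (hn 4) (hn 6) (by linarith) (by linarith) (by linarith)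
      (by linarith) (by linarith)
  · exact triA hp e1 e2 e3 (hn 2) (hn 4) (hn 6) (by linarith) (by linarith) (by linarith)
      (by linarith) (by linarith)
  · exact triB hp e1 e2 e3 (hn 0) (hn 2) (hn 4) (by linarith) (by linarith) (by linarith)
      (by linarith) (by linarith)
  · exact triB hp e1 e2 e3 (hn 0) (hn 2) (hn 5) (by linarith) (by linarith) (by linarith)
      (by linarith) (by linarith)
  · exact triB hp e1 e2 e3 (hn 0) (hn 3) (hn 5) (by linarith) (by linarith) (by linarith)
      (by linarith) (by linarith)

/-- every quartic which is nonnegative at the seven nodes is a nonnegative combination of the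
facet quartics -/
theorem gen_aux (ht : StrictMono t) : ∀ n : ℕ, ∀ p : ℝ[X], p.natDegree ≤ 4 →
    (∀ k, 0 ≤ p.eval (t k)) →
    (Finset.univ.filter (fun k => p.eval (t k) ≠ 0)).card ≤ n →
    ∃ c : Fin 14 → ℝ, (∀ a, 0 ≤ c a) ∧ p = ∑ a, C (c a) * hh t a := by
  intro n
  induction n with
  | zero =>
    intro p hp hn hc
    have hz : p = 0 := by
      by_contra h0
      obtain ⟨a, ha⟩ := exists_facet ht hp hn h0
      have hall : ∀ k, p.eval (t k) = 0 := by
        intro k
        by_contra hk
        have : k ∈ Finset.univ.filter (fun k => p.eval (t k) ≠ 0) := by simp [hk]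
        rw [Finset.card_eq_zero.1 (Nat.le_zero.1 hc)] at this
        exact absurd this (Finset.notMem_empty _)
      have h1 : ∀ k, inc a k = true := fun k => ha k (hall k)
      have key : ∀ a : Fin 14, ¬ ∀ k, inc a k = true := by decide
      exact key a h1
    exact ⟨fun _ => 0, fun _ => le_rfl, by simp [hz]⟩
  | succ n ih =>
    intro p hp hn hc
    by_cases h0 : p = 0
    · exact ⟨fun _ => 0, fun _ => le_rfl, by simp [h0]⟩
    obtain ⟨a, ha⟩ := exists_facet ht hp hn h0
    have hSne : (Finset.univ.filter (fun k => inc a k = false)).Nonempty := by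
      clear ha
      revert a
      decide
    obtain ⟨k0, hk0, hmin⟩ := Finset.exists_min_image
      (Finset.univ.filter (fun k => inc a k = false))
      (fun k => p.eval (t k) / (hh t a).eval (t k)) hSne
    have hk0' : inc a k0 = false := (Finset.mem_filter.1 hk0).2
    have hpos : ∀ k, inc a k = false → 0 < (hh t a).eval (t k) := by
      intro k hk
      refine lt_of_le_of_ne (hh_nonneg ht a k) (fun h => ?_)
      have := (hh_zero ht a k).1 h.symm
      rw [hk] at this
      exact absurd this (by decide)
    set c0 : ℝ := p.eval (t k0) / (hh t a).eval (t k0) with hc0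
    have hc0n : 0 ≤ c0 := div_nonneg (hn k0) (hpos k0 hk0').le
    have hpk0 : p.eval (t k0) ≠ 0 := by
      intro h
      have := ha k0 h
      rw [hk0'] at this
      exact absurd this (by decide)
    have hq : ∀ k, (p - C c0 * hh t a).eval (t k) =
        p.eval (t k) - c0 * (hh t a).eval (t k) := by
      intro k; simp
    obtain ⟨c, hc1, hc2⟩ := ih (p - C c0 * hh t a) (by
        refine (natDegree_sub_le_of_le hp ((natDegree_C_mul_le _ _).trans (hh_deg a))).trans ?_
        simp) (by
        intro k
        rw [hq]
        by_cases hk : inc a k = true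
        · rw [(hh_zero ht a k).2 hk, mul_zero, sub_zero]
          exact hn k
        · have hk' : inc a k = false := by simpa using hk
          have h1 := hmin k (Finset.mem_filter.2 ⟨Finset.mem_univ _, hk'⟩)
          have h2 := hpos k hk'
          have h3 : c0 ≤ p.eval (t k) / (hh t a).eval (t k) := h1
          rw [le_div_iff₀ h2] at h3
          linarith) (by
        have hsub : (Finset.univ.filter (fun k => (p - C c0 * hh t a).eval (t k) ≠ 0)) ⊂
            (Finset.univ.filter (fun k => p.eval (t k) ≠ 0)) := by
          rw [Finset.ssubset_iff_of_subset]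
          · refine ⟨k0, by simp [hpk0], ?_⟩
            simp only [Finset.mem_filter, Finset.mem_univ, true_and, not_not]
            rw [hq, hc0, div_mul_cancel₀ _ (hpos k0 hk0').ne', sub_self]
          · intro k hk
            simp only [Finset.mem_filter, Finset.mem_univ, true_and] at hk ⊢
            intro h
            apply hk
            rw [hq, h, (hh_zero ht a k).2 (ha k h)]
            ring
        have := Finset.card_lt_card hsub
        omega)
    refine ⟨fun b => c b + if b = a then c0 else 0, fun b => ?_, ?_⟩
    · have := hc1 b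
      dsimp only
      split_ifs <;> linarith
    · have h1 : p = (∑ b, C (c b) * hh t b) + C c0 * hh t a := by
        rw [← hc2]; ring
      rw [h1]
      simp only [C_add, add_mul, Finset.sum_add_distrib]
      congr 1
      rw [Finset.sum_eq_single a]
      · simp
      · intro b _ hb
        simp [hb]
      · intro h; exact absurd (Finset.mem_univ _) h

theorem gen (ht : StrictMono t) (p : ℝ[X]) (hp : p.natDegree ≤ 4)
    (hn : ∀ k, 0 ≤ p.eval (t k)) :
    ∃ c : Fin 14 → ℝ, (∀ a, 0 ≤ c a) ∧ p = ∑ a, C (c a) * hh t a :=
  gen_aux ht _ p hp hn le_rfl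

end CY
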