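import Pool.Agent.X165.CY1
import Pool.Agent.X165.CY3

namespace CY

open Polynomial Order Set

/-- four-dimensional Euclidean space -/
abbrev E4 : Type := EuclideanSpace ℝ (Fin 4)

/-- the moment curve in `ℝ⁴` -/
noncomputable def mc (s : ℝ) : E4 := !₂[s, s ^ 2, s ^ 3, s ^ 4]

/-- linear part of the affine functional attached to a quartic -/
noncomputable def mm (h : ℝ[X]) : StrongDual ℝ E4 :=
  ∑ i : Fin 4, h.coeff (i + 1) • (EuclideanSpace.proj i : StrongDual ℝ E4)

theorem mm_eval {h : ℝ[X]} (hh : h.natDegree ≤ 4) (s : ℝ) :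
    mm h (mc s) + h.coeff 0 = h.eval s := by
  rw [eval_eq_sum_range' (n := 5) (by omega)]
  simp [mm, mc, Fin.sum_univ_four, Finset.sum_range_succ]
  ring

theorem dual_eq (l : StrongDual ℝ E4) (x : E4) :
    l x = ∑ i, x i * l (EuclideanSpace.single i 1) := by
  have hx : x = ∑ i, x i • (EuclideanSpace.single i (1 : ℝ) : E4) := by
    ext j
    simp [Finset.sum_apply, Pi.single_apply]
  conv_lhs => rw [hx]
  simp

variable {t : Fin 7 → ℝ}

theorem cyc_iso (ht : StrictMono t) :
    Nonempty (Faces (convexHull ℝ (range fun k => mc (t k))) ≃o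
      Concept (Fin 7) (Fin 14) (fun k a => inc a k = true)) := by
  apply faces_iso (fun k => mc (t k)) _ (fun a => mm (hh t a)) (fun a => (hh t a).coeff 0)
  · intro k a
    rw [mm_eval (hh_deg a)]
    exact hh_nonneg ht a k
  · intro k a
    rw [mm_eval (hh_deg a)]
    exact (hh_zero ht a k).symm
  · intro l M hM k0 hk0
    let p : ℝ[X] := C M - (C (l (EuclideanSpace.single 0 1)) * X +
      C (l (EuclideanSpace.single 1 1)) * X ^ 2 + C (l (EuclideanSpace.single 2 1)) * X ^ 3 +
      C (l (EuclideanSpace.single 3 1)) * X ^ 4)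
    have hpd : p.natDegree ≤ 4 := by
      simp only [p]
      compute_degree
    have hpe : ∀ s, p.eval s = M - l (mc s) := by
      intro s
      rw [dual_eq l (mc s)]
      simp [p, mc, Fin.sum_univ_four]
      ring
    obtain ⟨c, hc0, hc⟩ := gen ht p hpd (fun k => by rw [hpe]; linarith [hM k])
    have hev : ∀ s, p.eval s = ∑ a, c a * (hh t a).eval s := by
      intro s
      rw [hc]
      simp [eval_finset_sum]
    have h1 : 0 < ∑ a, c a * (hh t a).eval (t k0) := by
      rw [← hev, hpe]; linarith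
    obtain ⟨a, _, ha⟩ := Finset.exists_lt_of_sum_lt (s := Finset.univ) (f := fun _ : Fin 14 => (0:ℝ))
      (g := fun a => c a * (hh t a).eval (t k0)) (by simpa using h1)
    refine ⟨a, ?_, ?_⟩
    · intro hinc
      rw [(hh_zero ht a k0).2 hinc, mul_zero] at ha
      exact lt_irrefl _ ha
    · intro j hj
      have h2 : ∑ a, c a * (hh t a).eval (t j) = 0 := by
        rw [← hev, hpe, hj, sub_self]
      have h3 := (Finset.sum_eq_zero_iff_of_nonneg
        (fun b _ => mul_nonneg (hc0 b) (hh_nonneg ht b j))).1 h2 a (Finset.mem_univ _)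
      have hca : c a ≠ 0 := by
        intro h
        rw [h, zero_mul] at ha
        exact lt_irrefl _ ha
      rcases mul_eq_zero.1 h3 with h | h
      · exact absurd h hca
      · exact (hh_zero ht a j).1 h

/-! ### The rational inscribed polytope -/

/-- seven rational nodes -/
def tq : Fin 7 → ℚ := ![-5, -1, -1/2, 0, 2/3, 2, 4]

/-- homogeneous integer coordinates of the fourteen vertices -/
def PP : Fin 14 → Fin 5 → ℤ := ![
  ![-1224, 544, 136, -1799, 2247],
  ![-1530, 680, 170, -1673, 2373],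
  ![-612, 272, 68, 103, 681],
  ![0, 0, 0, 1, 1],
  ![-1632, 374, 170, -1673, 2373],
  ![-1068, -104, 100, -757, 1317],
  ![-714, -2142, 0, -2111, 3091],
  ![0, 0, 0, -1, 1],
  ![-108, -8, 40, -91, 147],
  ![-2924, -680, 2312, -3507, 5163],
  ![-272, 136, 272, -819, 915],
  ![-748, 136, 680, -567, 1167],
  ![-680, 340, 680, -567, 1167],
  ![-952, 476, 952, -279, 1455]]

/-- the vertices -/
def wq (a : Fin 14) (i : Fin 4) : ℚ := (PP a i.castSucc : ℚ) / (PP a 4 : ℚ)

/-- the seven facet functionals (linear part, constant term) -/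
def lq : Fin 7 → Fin 5 → ℤ := ![
  ![-7, -16, 1, 0, 0],
  ![3, -1, 31, 0, 0],
  ![278, 164, -2, 561, 561],
  ![2142, -714, -1428, 2739, 3619],
  ![4692, -1564, -1258, 1639, 4719],
  ![255, 289, -170, -154, 154],
  ![-6, 2, -7, 0, 0]]

/-- the images of the Lagrange basis at nodes `1,2,3,5,6` -/
def yq : Fin 7 → Fin 5 → ℤ := ![
  ![0, 0, 0, 0, 0],
  ![-368424, -85680, 291312, -441882, 650538],
  ![182784, 548352, 0, 758016, -573696],
  ![-115668, -347004, 0, -341982, 500742],
  ![0, 0, 0, 0, 0],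
  ![11016, 33048, 0, -62181, 47061],
  ![-11832, 340, 1156, -7231, 12999]]

/-- value of the edge polynomial `i` at node `k` -/
def eeq (i k : Fin 7) : ℚ :=
  if i = 6 then (tq 6 - tq k) * (tq k - tq 0) else (tq k - tq i) * (tq k - tq (i + 1))

/-- value of the facet quartic `a` at node `k` -/
def hq (a : Fin 14) (k : Fin 7) : ℚ := eeq (fi a) k * eeq (fj a) k

/-- the scale factors -/
def lam (a : Fin 14) : ℚ := ∑ k, hq a k * (yq k 4 : ℚ)

theorem F1 : ∀ a, 0 < lam a := by decide +kernel
theorem F2 : ∀ a, ∀ i : Fin 4, ∑ k, hq a k * (yq k i.castSucc : ℚ) = lam a * wq a i := by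
  decide +kernel
theorem F3 : ∀ a k, 0 ≤ ∑ i : Fin 4, (lq k i.castSucc : ℚ) * wq a i + (lq k 4 : ℚ) := by
  decide +kernel
theorem F3' : ∀ a k, ∑ i : Fin 4, (lq k i.castSucc : ℚ) * wq a i + (lq k 4 : ℚ) = 0 ↔
    inc a k = true := by
  decide +kernel
theorem F4 : ∀ a, ∑ i : Fin 4, wq a i ^ 2 = 1 := by decide +kernel
theorem F5 : ∀ a b, (∀ i, wq a i = wq b i) → a = b := by decide +kernel
theorem F6 : ∀ i : Fin 6, tq i.castSucc < tq i.succ := by decide +kernel

end CY
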