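import Pool.Agent.X165.CY4

namespace CY

open Polynomial Order Set

/-- the seven nodes as reals -/
def tr (k : Fin 7) : ℝ := ((tq k : ℚ) : ℝ)

theorem tr_mono : StrictMono tr := by
  rw [Fin.strictMono_iff_lt_succ]
  intro i
  unfold tr
  exact_mod_cast F6 i

theorem ee_q (i k : Fin 7) : (ee tr i).eval (tr k) = ((eeq i k : ℚ) : ℝ) := by
  unfold ee eeq tr
  split_ifs <;> simp

theorem hh_q (a : Fin 14) (k : Fin 7) : (hh tr a).eval (tr k) = ((hq a k : ℚ) : ℝ) := by
  unfold hh hq
  rw [eval_mul, ee_q, ee_q]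
  push_cast
  rfl

/-- the fourteen vertices as points of `ℝ⁴` -/
noncomputable def W (a : Fin 14) : E4 := WithLp.toLp 2 (fun i => ((wq a i : ℚ) : ℝ))

theorem W_apply (a : Fin 14) (i : Fin 4) : W a i = ((wq a i : ℚ) : ℝ) := rfl

/-- facet functionals -/
noncomputable def mk (k : Fin 7) : StrongDual ℝ E4 :=
  ∑ i : Fin 4, ((lq k i.castSucc : ℤ) : ℝ) • (EuclideanSpace.proj i : StrongDual ℝ E4)

theorem mk_val (k : Fin 7) (a : Fin 14) : mk k (W a) + ((lq k 4 : ℤ) : ℝ) =
    ((∑ i : Fin 4, (lq k i.castSucc : ℚ) * wq a i + (lq k 4 : ℚ) : ℚ) : ℝ) := by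
  simp [mk, W_apply, ContinuousLinearMap.sum_apply]

theorem q_iso :
    Nonempty (Faces (convexHull ℝ (range W)) ≃o
      Concept (Fin 14) (Fin 7) (fun a k => inc a k = true)) := by
  apply faces_iso W _ mk (fun k => ((lq k 4 : ℤ) : ℝ))
  · intro a k
    rw [mk_val]
    exact_mod_cast F3 a k
  · intro a k
    rw [mk_val]
    rw [← F3' a k]
    norm_cast
  · intro l M hM i0 hi0
    by_contra hcon
    push Not at hcon
    classical
    let g : Fin 7 → ℝ := fun k => M * ((yq k 4 : ℤ) : ℝ) -
      ∑ i : Fin 4, ((yq k i.castSucc : ℤ) : ℝ) * l (EuclideanSpace.single i 1)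
    have hG : ∀ a, ∑ k, (hh tr a).eval (tr k) * g k = (lam a : ℝ) * (M - l (W a)) := by
      intro a
      have e1 : (lam a : ℝ) = ∑ k, ((hq a k : ℚ) : ℝ) * ((yq k 4 : ℤ) : ℝ) := by
        unfold lam; push_cast; rfl
      have e2 : ∀ i : Fin 4, (lam a : ℝ) * ((wq a i : ℚ) : ℝ) =
          ∑ k, ((hq a k : ℚ) : ℝ) * ((yq k i.castSucc : ℤ) : ℝ) := by
        intro i
        have := F2 a i
        rw [← Rat.cast_mul, ← this]
        push_cast
        rfl
      have e3 : (lam a : ℝ) * l (W a) = ∑ i : Fin 4,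
          (∑ k, ((hq a k : ℚ) : ℝ) * ((yq k i.castSucc : ℤ) : ℝ)) *
            l (EuclideanSpace.single i 1) := by
        rw [dual_eq l (W a), Finset.mul_sum]
        refine Finset.sum_congr rfl fun i _ => ?_
        rw [W_apply, ← mul_assoc, e2]
      rw [mul_sub, e3]
      simp only [g, hh_q, mul_sub, Finset.sum_sub_distrib]
      congr 1
      · rw [e1, Finset.sum_mul]
        refine Finset.sum_congr rfl fun k _ => ?_
        ring
      · simp only [Finset.mul_sum, Finset.sum_mul]
        rw [Finset.sum_comm]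
        refine Finset.sum_congr rfl fun i _ => Finset.sum_congr rfl fun k _ => ?_
        ring
    have hlam : ∀ a, (0 : ℝ) < (lam a : ℝ) := fun a => by exact_mod_cast F1 a
    let A : Finset (Fin 14) := Finset.univ.filter (fun j => l (W j) = M)
    let S : Fin 7 → ℝ := fun k => ∑ j ∈ A, (hh tr j).eval (tr k)
    have hS0 : ∀ k, 0 ≤ S k := fun k => Finset.sum_nonneg fun j _ => hh_nonneg tr_mono j k
    let n : ℝ := ∑ k, (hh tr i0).eval (tr k) / S k
    have hn : ∀ k, (hh tr i0).eval (tr k) ≤ n * S k := by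
      intro k
      by_cases hk : inc i0 k = true
      · rw [(hh_zero tr_mono i0 k).2 hk]
        exact mul_nonneg (Finset.sum_nonneg fun k _ =>
          div_nonneg (hh_nonneg tr_mono i0 k) (hS0 k)) (hS0 k)
      · obtain ⟨j, hj1, hj2⟩ := hcon k hk
        have hSk : 0 < S k := by
          refine Finset.sum_pos' (fun j _ => hh_nonneg tr_mono j k) ⟨j, ?_, ?_⟩
          · exact Finset.mem_filter.2 ⟨Finset.mem_univ _, hj1⟩
          · refine lt_of_le_of_ne (hh_nonneg tr_mono j k) (fun h => hj2 ?_)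
            exact (hh_zero tr_mono j k).1 h.symm
        rw [← div_le_iff₀ hSk]
        exact Finset.single_le_sum (f := fun k => (hh tr i0).eval (tr k) / S k)
          (fun k _ => div_nonneg (hh_nonneg tr_mono i0 k) (hS0 k)) (Finset.mem_univ k)
    let p : ℝ[X] := C n * (∑ j ∈ A, hh tr j) - hh tr i0
    have hpe : ∀ s, p.eval s = n * (∑ j ∈ A, (hh tr j).eval s) - (hh tr i0).eval s := by
      intro s
      simp [p, eval_finset_sum]
    have hpd : p.natDegree ≤ 4 := by
      refine (natDegree_sub_le_of_le (m := 4) (n := 4) ?_ (hh_deg i0)).trans (by simp)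
      refine (natDegree_C_mul_le _ _).trans ?_
      exact natDegree_sum_le_of_forall_le _ _ (fun j _ => hh_deg j)
    obtain ⟨c, hc0, hc⟩ := gen tr_mono p hpd (fun k => by
      rw [hpe]
      linarith [hn k])
    have hev : ∀ s, p.eval s = ∑ a, c a * (hh tr a).eval s := by
      intro s
      rw [hc]
      simp [eval_finset_sum]
    have hp1 : ∑ k, p.eval (tr k) * g k = ∑ a, c a * ((lam a : ℝ) * (M - l (W a))) := by
      simp only [← hG, hev, Finset.sum_mul, Finset.mul_sum]
      rw [Finset.sum_comm]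
      refine Finset.sum_congr rfl fun i _ => Finset.sum_congr rfl fun k _ => ?_
      ring
    have hp2 : ∑ k, p.eval (tr k) * g k = n * (∑ j ∈ A, (lam j : ℝ) * (M - l (W j))) -
        (lam i0 : ℝ) * (M - l (W i0)) := by
      simp only [← hG, hpe, sub_mul, Finset.sum_sub_distrib]
      congr 1
      simp only [Finset.sum_mul, Finset.mul_sum]
      rw [Finset.sum_comm]
      refine Finset.sum_congr rfl fun i _ => Finset.sum_congr rfl fun k _ => ?_
      ring
    have hA : ∑ j ∈ A, (lam j : ℝ) * (M - l (W j)) = 0 := by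
      refine Finset.sum_eq_zero fun j hj => ?_
      rw [(Finset.mem_filter.1 hj).2, sub_self, mul_zero]
    have h1 : 0 ≤ ∑ k, p.eval (tr k) * g k := by
      rw [hp1]
      exact Finset.sum_nonneg fun a _ => mul_nonneg (hc0 a)
        (mul_nonneg (hlam a).le (by linarith [hM a]))
    rw [hp2, hA, mul_zero] at h1
    have h2 : 0 < (lam i0 : ℝ) * (M - l (W i0)) := mul_pos (hlam i0) (by linarith)
    linarith

theorem W_inj : Function.Injective W := by
  intro a b h
  apply F5
  intro i
  have : W a i = W b i := by rw [h]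
  rw [W_apply, W_apply] at this
  exact Rat.cast_injective this

theorem W_norm (a : Fin 14) : ‖W a‖ = 1 := by
  rw [EuclideanSpace.norm_eq]
  have : ∑ i : Fin 4, ‖W a i‖ ^ 2 = 1 := by
    have h := F4 a
    simp only [W_apply, Real.norm_eq_abs, sq_abs]
    exact_mod_cast h
  rw [this, Real.sqrt_one]

theorem W_ext : (convexHull ℝ (range W)).extremePoints ℝ = range W := by
  refine Subset.antisymm extremePoints_convexHull_subset ?_
  have hsub : convexHull ℝ (range W) ⊆ Metric.closedBall (0 : E4) 1 := by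
    refine convexHull_min ?_ (convex_closedBall _ _)
    rintro _ ⟨a, rfl⟩
    simp [W_norm]
  rintro _ ⟨a, rfl⟩
  refine inter_extremePoints_subset_extremePoints_of_subset hsub
    ⟨subset_convexHull ℝ _ ⟨a, rfl⟩, ?_⟩
  rw [StrictConvexSpace.extremePoints_closedBall_eq_sphere]
  simp [W_norm]

theorem main_iso {t : Fin 7 → ℝ} (ht : StrictMono t) :
    Nonempty (Faces (convexHull ℝ (range W)) ≃o
      (Faces (convexHull ℝ (range fun k => mc (t k))))ᵒᵈ) := by
  obtain ⟨e1⟩ := q_iso
  obtain ⟨e2⟩ := cyc_iso ht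
  exact ⟨e1.trans (Concept.swapEquiv.symm.trans e2.symm.dual)⟩

end CY
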