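import Pool.Agent.X165.LinSeq
import Pool.Agent.H818R2.Kiss4

/-! The logarithms of the sizes of spherical codes as a nondecreasing sequence of linear growth. -/

set_option autoImplicit false

open Filter Finset
open scoped Topology

namespace Pool.Agent.X165.LS

open Pool.Agent.H818R2 Pool.Agent.H160R3.Herm Pool.Agent.TH915.HC

lemma codeRate_eq (θ : ℝ) : codeRate θ = fun n : ℕ => ((n : ℝ) * codeRate θ n) / (n : ℝ) := by
  funext n
  rcases Nat.eq_zero_or_pos n with h | h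
  · subst h
    simp [codeRate]
  · have : (0 : ℝ) < n := by exact_mod_cast h
    field_simp

lemma mul_codeRate {θ : ℝ} {n : ℕ} (hn : 0 < n) :
    (n : ℝ) * codeRate θ n = Real.logb 2 (sphMax n θ) := by
  have : (0 : ℝ) < n := by exact_mod_cast hn
  unfold codeRate
  field_simp

lemma sphMax_mono' {θ : ℝ} (hs : 0 < Real.sin (θ / 2)) {n m : ℕ} (hn : 0 < n) (hnm : n ≤ m) :
    sphMax n θ ≤ sphMax m θ := by
  induction m, hnm using Nat.le_induction with
  | base => exact le_rfl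
  | succ k hk ih =>
    have : NeZero k := ⟨by omega⟩
    exact ih.trans (sphMax_mono_succ hs)

lemma codeLin {θ : ℝ} (hs : 0 < Real.sin (θ / 2)) :
    Lin (fun n : ℕ => (n : ℝ) * codeRate θ n)
      (Real.logb 2 ((1 + 2 * Real.sin (θ / 2)) / Real.sin (θ / 2))) where
  nonneg n := mul_nonneg n.cast_nonneg (codeRate_nonneg θ n)
  mono n m hn hnm := by
    show (n : ℝ) * codeRate θ n ≤ (m : ℝ) * codeRate θ m
    rw [mul_codeRate hn, mul_codeRate (lt_of_lt_of_le hn hnm)]
    have h1 := sphMax_mono' hs hn hnm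
    rcases Nat.eq_zero_or_pos (sphMax n θ) with h0 | h0
    · rw [h0]
      simp only [Nat.cast_zero, Real.logb_zero]
      rcases Nat.eq_zero_or_pos (sphMax m θ) with h2 | h2
      · rw [h2]; simp
      · exact Real.logb_nonneg (by norm_num) (by exact_mod_cast h2)
    · exact Real.logb_le_logb_of_le (by norm_num) (by exact_mod_cast h0) (by exact_mod_cast h1)
  le n := by
    show (n : ℝ) * codeRate θ n ≤ _
    rw [mul_comm]
    gcongr
    exact codeRate_le hs n

lemma sin_half_pos {θ : ℝ} (h0 : 0 < θ) (h1 : θ ≤ Real.pi) : 0 < Real.sin (θ / 2) :=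
  Real.sin_pos_of_pos_of_lt_pi (by linarith) (by linarith [Real.pi_pos])

lemma code_slow {θ : ℝ} (hs : 0 < Real.sin (θ / 2)) :
    SlowDec (codeRate θ)
      (fun x => Real.logb 2 ((1 + 2 * Real.sin (θ / 2)) / Real.sin (θ / 2)) * x) 0
      (Real.logb 2 ((1 + 2 * Real.sin (θ / 2)) / Real.sin (θ / 2))) := by
  have h := (codeLin hs).slow
  rw [← codeRate_eq] at h
  exact h

theorem code_osc {θ : ℝ} (hs : 0 < Real.sin (θ / 2)) :
    (limsup (codeRate θ) atTop - liminf (codeRate θ) atTop) ^ 2 ≤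
      16 * limsup (codeRate θ) atTop *
        (limsup (mean (codeRate θ)) atTop - liminf (mean (codeRate θ)) atTop) := by
  have h := (codeLin hs).osc
  rw [← codeRate_eq] at h
  exact h

theorem code_tendsto {θ : ℝ} (hs : 0 < Real.sin (θ / 2)) (L : ℝ) :
    Tendsto (codeRate θ) atTop (𝓝 L) ↔ Tendsto (mean (codeRate θ)) atTop (𝓝 L) :=
  tendsto_iff (code_slow hs)

theorem code_visits {θ : ℝ} (hs : 0 < Real.sin (θ / 2)) {c ε x : ℝ}
    (hc : limsup (codeRate θ) atTop < c) (hε : 0 < ε) (hε2 : ε ≤ 2 * c)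
    (hx1 : liminf (codeRate θ) atTop ≤ x) (hx2 : x ≤ limsup (codeRate θ) atTop) :
    ∃ᶠ N : ℕ in atTop, ε / (9 * c) * (N : ℝ) ≤
      ({n : ℕ | n ∈ Finset.Icc 1 N ∧ |codeRate θ n - x| < ε}.ncard : ℝ) := by
  have e : (fun n : ℕ => ((n : ℝ) * codeRate θ n) / (n : ℝ)) = codeRate θ := (codeRate_eq θ).symm
  have e' : ∀ n : ℕ, ((n : ℝ) * codeRate θ n) / (n : ℝ) = codeRate θ n := fun n => congrFun e n
  have h := (codeLin hs).visits (c := c) (ε := ε) (x := x)
  simp only [e, e'] at h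
  exact h hc hε hε2 hx1 hx2

theorem code_lacunary {θ : ℝ} (hs : 0 < Real.sin (θ / 2)) {φ : ℕ → ℕ} (hφ : StrictMono φ) {q : ℝ}
    (hq : 1 ≤ q) (hr : ∀ᶠ j in atTop, (φ (j + 1) : ℝ) ≤ q * φ j) :
    limsup (codeRate θ) atTop ≤ q * limsup (fun j : ℕ => codeRate θ (φ j)) atTop ∧
      liminf (fun j : ℕ => codeRate θ (φ j)) atTop ≤ q * liminf (codeRate θ) atTop := by
  have e : (fun n : ℕ => ((n : ℝ) * codeRate θ n) / (n : ℝ)) = codeRate θ := (codeRate_eq θ).symm
  have e' : ∀ n : ℕ, ((n : ℝ) * codeRate θ n) / (n : ℝ) = codeRate θ n := fun n => congrFun e n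
  have h := (codeLin hs).lacunary hφ hq hr
  simp only [e, e'] at h
  exact h

theorem code_seq {θ : ℝ} (hs : 0 < Real.sin (θ / 2)) {φ : ℕ → ℕ} (hφ : StrictMono φ)
    (hr : Tendsto (fun j => (φ (j + 1) : ℝ) / φ j) atTop (𝓝 1)) :
    {x : ℝ | MapClusterPt x atTop (fun j => codeRate θ (φ j))} =
      Set.Icc (liminf (codeRate θ) atTop) (limsup (codeRate θ) atTop) :=
  (code_slow hs).clusterPts_seq hφ hr

end Pool.Agent.X165.LS
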