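import Pool.Agent.X165.Tri

set_option autoImplicit false

open MeasureTheory Set

namespace Pool.Agent.X165.HX

/-- the truncated piece of the hexagon, in `ℝ × ℝ` -/
def piece (a b : ℝ) : Set (ℝ × ℝ) :=
  {p | p.1 ≤ 1 ∧ p.2 ≤ 1 ∧ p.2 - p.1 ≤ 1 ∧ a + b - 2 ≤ (a - b) * p.1 + b * p.2}

lemma Phi_image {a b : ℝ} (ha : 0 < a) (hb : 0 < b) :
    Phi (1, 2) (0, -a) (-b, -b) '' tri =
      {p : ℝ × ℝ | p.1 ≤ 1 ∧ p.2 - p.1 ≤ 1 ∧ b * (1 + p.1 - p.2) + a * (1 - p.1) ≤ a * b} := by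
  ext ⟨x, y⟩
  simp only [mem_image, tri, Phi, mem_setOf_eq, Prod.exists, Prod.mk.injEq]
  constructor
  · rintro ⟨u, v, ⟨hu, hv, huv⟩, rfl, rfl⟩
    refine ⟨by nlinarith [mul_nonneg hb.le hv], by nlinarith [mul_nonneg ha.le hu], ?_⟩
    nlinarith [mul_nonneg (mul_pos ha hb).le (sub_nonneg.2 huv)]
  · rintro ⟨h1, h2, h3⟩
    refine ⟨(1 + x - y) / a, (1 - x) / b, ⟨by apply div_nonneg <;> linarith,
      by apply div_nonneg <;> linarith, ?_⟩, ?_, ?_⟩
    · rw [div_add_div _ _ ha.ne' hb.ne', div_le_one (mul_pos ha hb)]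
      linarith
    · field_simp
      ring
    · field_simp
      ring

lemma null_line : volume {p : ℝ × ℝ | p.2 = 1} = 0 := by
  have : {p : ℝ × ℝ | p.2 = 1} = (univ : Set ℝ) ×ˢ ({1} : Set ℝ) := by
    ext ⟨x, y⟩; simp
  rw [this, Measure.volume_eq_prod, Measure.prod_prod]
  simp

lemma piece_closed (a b : ℝ) : IsClosed (piece a b) := by
  unfold piece
  simp only [setOf_and]
  refine IsClosed.inter ?_ (IsClosed.inter ?_ (IsClosed.inter ?_ ?_))
  · exact isClosed_le (by fun_prop) (by fun_prop)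
  · exact isClosed_le (by fun_prop) (by fun_prop)
  · exact isClosed_le (by fun_prop) (by fun_prop)
  · exact isClosed_le (by fun_prop) (by fun_prop)

lemma piece_union {a b : ℝ} (ha : 1 ≤ a) (hb : 1 ≤ b) (hab : a * b = 2) :
    Phi (1, 2) (0, -a) (-b, -b) '' tri = piece a b ∪ Phi (1, 2) (0, -1) (-1, -1) '' tri := by
  rw [Phi_image (by linarith) (by linarith), Phi_image one_pos one_pos]
  ext ⟨x, y⟩
  simp only [piece, mem_setOf_eq, mem_union]
  constructor
  · rintro ⟨h1, h2, h3⟩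
    rcases le_total y 1 with h | h
    · left
      exact ⟨h1, h, h2, by nlinarith⟩
    · right
      exact ⟨h1, h2, by linarith⟩
  · rintro (⟨h1, h2, h3, h4⟩ | ⟨h1, h2, h3⟩)
    · exact ⟨h1, h3, by nlinarith⟩
    · refine ⟨h1, h2, ?_⟩
      nlinarith [mul_nonneg (sub_nonneg.2 ha) (sub_nonneg.2 h1),
        mul_nonneg (sub_nonneg.2 hb) (sub_nonneg.2 h2), mul_nonneg (sub_nonneg.2 ha) (sub_nonneg.2 hb)]

lemma piece_integral {a b : ℝ} (ha : 1 ≤ a) (hb : 1 ≤ b) (hab : a * b = 2) (f : ℝ × ℝ → ℝ)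
    (hf : Continuous f) :
    ∫ p in piece a b, f p = (∫ p in Phi (1, 2) (0, -a) (-b, -b) '' tri, f p) -
      ∫ p in Phi (1, 2) (0, -1) (-1, -1) '' tri, f p := by
  have hc : ∀ c w z : ℝ × ℝ, Continuous (Phi c w z) := fun c w z => by
    unfold Phi; fun_prop
  have hcomp : IsCompact (Phi (1, 2) (0, -a) (-b, -b) '' tri) := tri_compact.image (hc _ _ _)
  have hcomp' : IsCompact (Phi (1, 2) (0, -1) (-1, -1) '' tri) := tri_compact.image (hc _ _ _)
  have hint : IntegrableOn f (Phi (1, 2) (0, -a) (-b, -b) '' tri) :=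
    hf.continuousOn.integrableOn_compact hcomp
  have hu := piece_union ha hb hab
  have hd : AEDisjoint volume (piece a b) (Phi (1, 2) (0, -1) (-1, -1) '' tri) := by
    refine measure_mono_null ?_ null_line
    rw [Phi_image one_pos one_pos]
    rintro ⟨x, y⟩ ⟨⟨h1, h2, h3, h4⟩, ⟨h5, h6, h7⟩⟩
    simp only [mem_setOf_eq] at *
    linarith
  have := integral_union_ae (f := f) hd hcomp'.measurableSet.nullMeasurableSet
    (hint.mono_set (by rw [hu]; exact subset_union_left))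
    (hint.mono_set (by rw [hu]; exact subset_union_right))
  rw [hu, this]
  ring

lemma piece_volume {a b : ℝ} (ha : 1 ≤ a) (hb : 1 ≤ b) (hab : a * b = 2) :
    volume.real (piece a b) = 1 / 2 := by
  have h := piece_integral ha hb hab (fun _ => 1) continuous_const
  have e : ∀ s : Set (ℝ × ℝ), ∫ _p in s, (1:ℝ) = volume.real s := fun s => by simp
  rw [e, e, e, Phi_one, Phi_one] at h
  · rw [h]
    have h1 : |(0, -a).1 * (-b, -b).2 - (-b, -b).1 * (0, -a).2| = 2 := by
      simp only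
      rw [show (0 * -b - -b * -a : ℝ) = -(a * b) by ring, hab]
      norm_num
    rw [h1]
    norm_num
  · norm_num
  · simp only
    rw [show (0 * -b - -b * -a : ℝ) = -(a * b) by ring, hab]
    norm_num

lemma piece_fst {a b : ℝ} (ha : 1 ≤ a) (hb : 1 ≤ b) (hab : a * b = 2) :
    ∫ p in piece a b, p.1 = 2 / 3 * (1 - b / 2) := by
  rw [piece_integral ha hb hab _ continuous_fst, Phi_fst, Phi_fst]
  · have h1 : |(0, -a).1 * (-b, -b).2 - (-b, -b).1 * (0, -a).2| = 2 := by
      simp only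
      rw [show (0 * -b - -b * -a : ℝ) = -(a * b) by ring, hab]
      norm_num
    rw [h1]
    norm_num
    ring
  · norm_num
  · simp only
    rw [show (0 * -b - -b * -a : ℝ) = -(a * b) by ring, hab]
    norm_num

lemma piece_snd {a b : ℝ} (ha : 1 ≤ a) (hb : 1 ≤ b) (hab : a * b = 2) :
    ∫ p in piece a b, p.2 = 2 / 3 * (2 - (a + b) / 2) := by
  rw [piece_integral ha hb hab _ continuous_snd, Phi_snd, Phi_snd]
  · have h1 : |(0, -a).1 * (-b, -b).2 - (-b, -b).1 * (0, -a).2| = 2 := by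
      simp only
      rw [show (0 * -b - -b * -a : ℝ) = -(a * b) by ring, hab]
      norm_num
    rw [h1]
    norm_num
    ring
  · norm_num
  · simp only
    rw [show (0 * -b - -b * -a : ℝ) = -(a * b) by ring, hab]
    norm_num

end Pool.Agent.X165.HX
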