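import Pool.Agent.X165.Hex
import Pool.Agent.TH276.Torsion.Hull

set_option autoImplicit false

open MeasureTheory Set

namespace Pool.Agent.X165.HX

abbrev E2 := EuclideanSpace ℝ (Fin 2)

/-- the hexagon -/
def hex : Set E2 := {x | |x 0| ≤ 1 ∧ |x 1| ≤ 1 ∧ |x 0 - x 1| ≤ 1}

/-- half-planes -/
def hp (α β t : ℝ) : Set E2 := {x | t ≤ α * x 0 + β * x 1}

/-- coordinates -/
def co (x : E2) : ℝ × ℝ := (x 0, x 1)

lemma co_mp : MeasurePreserving co volume volume :=
  (volume_preserving_finTwoArrow ℝ).comp (PiLp.volume_preserving_ofLp (Fin 2))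

lemma co_emb : MeasurableEmbedding co := by
  have h : co = (MeasurableEquiv.finTwoArrow : (Fin 2 → ℝ) ≃ᵐ ℝ × ℝ) ∘
      (MeasurableEquiv.toLp 2 (Fin 2 → ℝ)).symm := rfl
  rw [h]
  exact (MeasurableEquiv.measurableEmbedding _).comp (MeasurableEquiv.measurableEmbedding _)

structure Good (α β t : ℝ) (m : E2) : Prop where
  on : α * m 0 + β * m 1 = t
  vol : volume (hex ∩ hp α β t) = ENNReal.ofReal (1 / 2)
  int : ∫ x in hex ∩ hp α β t, x = (2 / 3 : ℝ) • m
  refl : ∀ x ∈ hex ∩ hp α β t, (2 : ℝ) • m - x ∈ hex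

lemma hex_closed : IsClosed hex := by
  unfold hex
  simp only [Set.ofPred_and]
  refine IsClosed.inter ?_ (IsClosed.inter ?_ ?_)
  · exact isClosed_le (by fun_prop) (by fun_prop)
  · exact isClosed_le (by fun_prop) (by fun_prop)
  · exact isClosed_le (by fun_prop) (by fun_prop)

lemma hex_bounded : Bornology.IsBounded hex := by
  rw [isBounded_iff_forall_norm_le]
  refine ⟨2, fun x hx => ?_⟩
  obtain ⟨h1, h2, h3⟩ := hx
  rw [EuclideanSpace.norm_eq, Real.sqrt_le_left (by norm_num), Fin.sum_univ_two]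
  simp only [Real.norm_eq_abs]
  have := abs_nonneg (x 0)
  have := abs_nonneg (x 1)
  nlinarith

lemma hex_compact : IsCompact hex := Metric.isCompact_of_isClosed_isBounded hex_closed hex_bounded

lemma hex_convex : Convex ℝ hex := by
  rintro x ⟨h1, h2, h3⟩ y ⟨h4, h5, h6⟩ a b ha hb hab
  have hb' : b = 1 - a := by linarith
  subst hb'
  simp only [abs_le] at *
  refine ⟨?_, ?_, ?_⟩ <;>
    simp only [PiLp.add_apply, PiLp.smul_apply, smul_eq_mul] <;> rw [abs_le] <;>
    constructor <;> nlinarith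

lemma hp_closed (α β t : ℝ) : IsClosed (hp α β t) := isClosed_le (by fun_prop) (by fun_prop)

lemma hp_convex (α β t : ℝ) : Convex ℝ (hp α β t) := by
  intro x hx y hy a b ha hb hab
  have hb' : b = 1 - a := by linarith
  subst hb'
  simp only [hp, mem_ofPred_eq, PiLp.add_apply, PiLp.smul_apply, smul_eq_mul] at *
  nlinarith

lemma piece_pre {a b : ℝ} (ha : 1 ≤ a) (hb : 1 ≤ b) (_hab : a * b = 2) :
    hex ∩ hp (a - b) b (a + b - 2) = co ⁻¹' piece a b := by
  ext x
  simp only [hex, hp, co, piece, mem_inter_iff, mem_ofPred_eq, mem_preimage, abs_le]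
  constructor
  · rintro ⟨⟨⟨h1, h2⟩, ⟨h3, h4⟩, ⟨h5, h6⟩⟩, h7⟩
    exact ⟨h2, h4, by linarith, h7⟩
  · rintro ⟨h1, h2, h3, h4⟩
    have e1 : a * (x 0 + 1) ≥ 0 := by nlinarith
    have e1' : -1 ≤ x 0 := by nlinarith
    have e2 : 0 ≤ x 1 := by
      rcases le_total a b with h | h
      · have : a * x 1 ≥ 2 * a - 2 := by nlinarith
        nlinarith
      · have : b * x 1 ≥ 2 * b - 2 := by nlinarith
        nlinarith
    exact ⟨⟨⟨e1', h1⟩, ⟨by linarith, h2⟩, ⟨by linarith, by linarith⟩⟩, h4⟩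

lemma piece_refl {a b : ℝ} (ha : 1 ≤ a) (hb : 1 ≤ b) (hab : a * b = 2) {x y : ℝ}
    (h1 : x ≤ 1) (h2 : y ≤ 1) (h3 : y - x ≤ 1) (h4 : a + b - 2 ≤ (a - b) * x + b * y) :
    |2 - b - x| ≤ 1 ∧ |4 - (a + b) - y| ≤ 1 ∧ |2 - b - x - (4 - (a + b) - y)| ≤ 1 := by
  have hs : a + b ≤ 3 := by nlinarith [mul_nonneg (sub_nonneg.2 ha) (sub_nonneg.2 hb)]
  have e1 : a * (x - (1 - b)) ≥ 0 := by nlinarith
  have e1' : 1 - b ≤ x := by nlinarith
  have e2 : 3 - a - b ≤ y := by
    rcases le_total a b with h | h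
    · have : a * (y - (2 - b)) ≥ 0 := by nlinarith
      have : 2 - b ≤ y := by nlinarith
      linarith
    · have : b * (y - (2 - a)) ≥ 0 := by nlinarith
      have : 2 - a ≤ y := by nlinarith
      linarith
  have e3 : 1 - a ≤ y - x := by
    have : b * (y - x - (1 - a)) ≥ 0 := by nlinarith
    nlinarith
  refine ⟨?_, ?_, ?_⟩ <;> rw [abs_le] <;> constructor <;> nlinarith

lemma int_coord (A : Set (ℝ × ℝ)) (hA : IntegrableOn (fun x : E2 => x) (co ⁻¹' A)) :
    (∫ x in co ⁻¹' A, x) 0 = ∫ p in A, p.1 ∧ (∫ x in co ⁻¹' A, x) 1 = ∫ p in A, p.2 := by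
  constructor
  · have h1 := (EuclideanSpace.proj (𝕜 := ℝ) (0 : Fin 2)).integral_comp_comm hA
    have h2 := co_mp.setIntegral_preimage_emb co_emb (fun p : ℝ × ℝ => p.1) A
    have h3 : (∫ x in co ⁻¹' A, x) 0 = ∫ x in co ⁻¹' A, (EuclideanSpace.proj (𝕜 := ℝ) (0 : Fin 2)) x :=
      h1.symm
    rw [h3, ← h2]
    rfl
  · have h1 := (EuclideanSpace.proj (𝕜 := ℝ) (1 : Fin 2)).integral_comp_comm hA
    have h2 := co_mp.setIntegral_preimage_emb co_emb (fun p : ℝ × ℝ => p.2) A
    have h3 : (∫ x in co ⁻¹' A, x) 1 = ∫ x in co ⁻¹' A, (EuclideanSpace.proj (𝕜 := ℝ) (1 : Fin 2)) x :=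
      h1.symm
    rw [h3, ← h2]
    rfl

lemma integrable_id_inter (α β t : ℝ) :
    IntegrableOn (fun x : E2 => x) (hex ∩ hp α β t) :=
  continuous_id.continuousOn.integrableOn_compact (hex_compact.inter_right (hp_closed α β t))

/-- the midpoint of the chord of type `0` -/
noncomputable def mid (a b : ℝ) : E2 := !₂[1 - b / 2, 2 - (a + b) / 2]

lemma good_zero {a b : ℝ} (ha : 1 ≤ a) (hb : 1 ≤ b) (hab : a * b = 2) :
    Good (a - b) b (a + b - 2) (mid a b) := by
  have hpre := piece_pre ha hb hab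
  refine ⟨?_, ?_, ?_, ?_⟩
  · simp [mid]
    linear_combination (-1 : ℝ) * hab
  · rw [hpre, co_mp.measure_preimage_emb co_emb, ← piece_volume ha hb hab]
    have hc : IsCompact (piece a b) := by
      have : piece a b ⊆ Phi (1, 2) (0, -a) (-b, -b) '' tri := by
        rw [piece_union ha hb hab]; exact subset_union_left
      refine (tri_compact.image ?_).of_isClosed_subset (piece_closed a b) this
      unfold Phi; fun_prop
    rw [ofReal_measureReal hc.measure_lt_top.ne]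
  · have hi := integrable_id_inter (a - b) b (a + b - 2)
    rw [hpre] at hi ⊢
    have h := int_coord _ hi
    ext i
    fin_cases i
    · simp only [Fin.zero_eta, PiLp.smul_apply, smul_eq_mul]
      rw [h.1, piece_fst ha hb hab]
      simp [mid]
    · simp only [Fin.mk_one, PiLp.smul_apply, smul_eq_mul]
      rw [h.2, piece_snd ha hb hab]
      simp [mid]
  · intro x hx
    rw [hpre] at hx
    obtain ⟨h1, h2, h3, h4⟩ := hx
    have := piece_refl ha hb hab h1 h2 h3 h4
    simp only [hex, mem_ofPred_eq, PiLp.sub_apply, PiLp.smul_apply, smul_eq_mul, mid]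
    simp only [co] at this
    simp
    have e1 : 2 * (1 - b / 2) - x 0 = 2 - b - x 0 := by ring
    have e2 : 2 * (2 - (a + b) / 2) - x 1 = 4 - (a + b) - x 1 := by ring
    rw [e1, e2]
    exact this

end Pool.Agent.X165.HX
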