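import Pool.Agent.X165.HexR

set_option autoImplicit false

open MeasureTheory Set
open scoped Pointwise

namespace Pool.Agent.X165.HX

lemma co_surj : Function.Surjective co := fun p => ⟨!₂[p.1, p.2], by simp [co]⟩

/-- the value of the functional -/
def ev (α β : ℝ) (x : E2) : ℝ := α * x 0 + β * x 1

lemma ev_cont (α β : ℝ) : Continuous (ev α β) := by unfold ev; fun_prop

lemma ev_comb (α β a b : ℝ) (x y : E2) : ev α β (a • x + b • y) = a * ev α β x + b * ev α β y := by
  simp [ev]; ring

/-- some good half-plane is proper, so the hexagon has more than the area `1/2` -/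
lemma good_ne {α β t : ℝ} {m : E2} (h : Good α β t m) : ∃ x ∈ hex, t ≤ ev α β x := by
  by_contra hc
  push Not at hc
  have : hex ∩ hp α β t = ∅ := by
    ext x
    simp only [mem_inter_iff, mem_empty_iff_false, iff_false, not_and]
    intro hx hh
    exact absurd hh (not_le.2 (hc x hx))
  have h2 := h.vol
  rw [this, measure_empty] at h2
  have : (0 : ℝ) < 1 / 2 := by norm_num
  exact absurd h2.symm (by simp)

lemma good_mem {α β t : ℝ} {m : E2} (h : Good α β t m) : m ∈ hex := by
  obtain ⟨x, hx, hxt⟩ := good_ne h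
  have h1 := h.refl x ⟨hx, hxt⟩
  have h2 := hex_convex h1 hx (a := 1 / 2) (b := 1 / 2) (by norm_num) (by norm_num) (by norm_num)
  convert h2 using 1
  module

/-- the volume of the hexagon is at least one -/
lemma hex_vol : 1 ≤ volume hex := by
  have h : Set.Icc (0 : ℝ) 1 ×ˢ Set.Icc (0 : ℝ) 1 ⊆ co '' hex := by
    rintro ⟨x, y⟩ ⟨⟨h1, h2⟩, ⟨h3, h4⟩⟩
    refine ⟨!₂[x, y], ⟨?_, ?_, ?_⟩, by simp [co]⟩ <;> simp [abs_le] <;>
      constructor <;> linarith
  have h2 : co ⁻¹' (Set.Icc (0 : ℝ) 1 ×ˢ Set.Icc (0 : ℝ) 1) ⊆ hex := by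
    intro x hx
    obtain ⟨y, hy, hxy⟩ := h hx
    have : Function.Injective co := co_emb.injective
    rwa [← this hxy]
  refine le_trans ?_ (measure_mono h2)
  rw [co_mp.measure_preimage_emb co_emb, Measure.volume_eq_prod, Measure.prod_prod]
  simp

lemma interior_ne : (interior hex).Nonempty := by
  by_contra hc
  rw [not_nonempty_iff_eq_empty] at hc
  have h := hex_convex.addHaar_frontier (volume : Measure E2)
  rw [hex_closed.frontier_eq, hc, sdiff_empty] at h
  have := hex_vol
  rw [h] at this
  simp at this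

lemma hex_closure : closure (interior hex) = hex := by
  rw [hex_convex.closure_interior_eq_closure_of_nonempty_interior interior_ne, hex_closed.closure_eq]

/-- points of the hexagon below any admissible level -/
lemma exists_below {α β t : ℝ} (h : volume (hex ∩ hp α β t) = ENNReal.ofReal (1 / 2)) :
    ∃ x ∈ hex, ev α β x < t := by
  by_contra hc
  push Not at hc
  have : hex ∩ hp α β t = hex := inter_eq_left.2 fun x hx => hc x hx
  rw [this] at h
  have h1 := hex_vol
  rw [h] at h1
  have : ENNReal.ofReal (1 / 2) < 1 := by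
    rw [← ENNReal.ofReal_one, ENNReal.ofReal_lt_ofReal_iff one_pos]; norm_num
  exact absurd h1 (not_le.2 this)

lemma exists_above {α β t : ℝ} (h : volume (hex ∩ hp α β t) = ENNReal.ofReal (1 / 2)) :
    ∃ x ∈ hex, t ≤ ev α β x := by
  by_contra hc
  push Not at hc
  have : hex ∩ hp α β t = ∅ := by
    ext x
    simp only [mem_inter_iff, mem_empty_iff_false, iff_false, not_and]
    intro hx hh
    exact absurd hh (not_le.2 (hc x hx))
  rw [this, measure_empty] at h
  exact absurd h.symm (by simp)

/-- uniqueness of the level -/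
lemma level_unique {α β s t : ℝ} (hs : volume (hex ∩ hp α β s) = ENNReal.ofReal (1 / 2))
    (ht : volume (hex ∩ hp α β t) = ENNReal.ofReal (1 / 2)) : s = t := by
  wlog hst : s ≤ t generalizing s t
  · exact (this ht hs (le_of_lt (not_le.1 hst))).symm
  by_contra hne
  have hlt : s < t := lt_of_le_of_ne hst hne
  obtain ⟨x, hx, hxs⟩ := exists_below hs
  obtain ⟨y, hy, hyt⟩ := exists_above ht
  -- a point of the hexagon strictly between
  have hcont : ContinuousOn (ev α β) (segment ℝ x y) := (ev_cont α β).continuousOn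
  have hmid : ∃ z ∈ segment ℝ x y, ev α β z = (s + t) / 2 := by
    have hpre : IsPreconnected (segment ℝ x y) := (convex_segment x y).isPreconnected
    have := hpre.intermediate_value (left_mem_segment ℝ x y) (right_mem_segment ℝ x y) hcont
    have hm : (s + t) / 2 ∈ Icc (ev α β x) (ev α β y) := ⟨by linarith, by linarith⟩
    obtain ⟨z, hz, hz'⟩ := this hm
    exact ⟨z, hz, hz'⟩
  obtain ⟨z, hz, hzv⟩ := hmid
  have hzh : z ∈ hex := hex_convex.segment_subset hx hy hz
  set U : Set E2 := {x | s < ev α β x ∧ ev α β x < t} with hU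
  have hUo : IsOpen U := (isOpen_lt continuous_const (ev_cont α β)).inter
    (isOpen_lt (ev_cont α β) continuous_const)
  have hzU : z ∈ U := by
    constructor <;> simp only [hzv] <;> linarith
  have hne' : (U ∩ interior hex).Nonempty := by
    rw [← hex_closure] at hzh
    exact mem_closure_iff.1 hzh U hUo hzU
  have hpos : 0 < volume (U ∩ interior hex) := (hUo.inter isOpen_interior).measure_pos _ hne'
  have hsub : (hex ∩ hp α β t) ∪ (U ∩ interior hex) ⊆ hex ∩ hp α β s := by
    rintro w (⟨hw1, hw2⟩ | ⟨⟨hw1, -⟩, hw2⟩)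
    · exact ⟨hw1, hlt.le.trans hw2⟩
    · exact ⟨interior_subset hw2, hw1.le⟩
  have hdis : Disjoint (hex ∩ hp α β t) (U ∩ interior hex) := by
    rw [Set.disjoint_left]
    rintro w ⟨-, hw2⟩ ⟨⟨-, hw3⟩, -⟩
    exact absurd hw2 (not_le.2 hw3)
  have h1 := measure_mono (μ := (volume : Measure E2)) hsub
  rw [measure_union hdis (hUo.inter isOpen_interior).measurableSet, hs, ht] at h1
  have hfin : ENNReal.ofReal (1 / 2) ≠ ⊤ := ENNReal.ofReal_ne_top
  have h2 : volume (U ∩ interior hex) ≤ 0 := by
    refine (ENNReal.add_le_add_iff_left hfin).1 ?_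
    rwa [add_zero]
  exact absurd h2 (not_le.2 hpos)

lemma line_null {α β t : ℝ} (h : α ≠ 0 ∨ β ≠ 0) : volume {x : E2 | ev α β x = t} = 0 := by
  set ℓ : E2 →ₗ[ℝ] ℝ :=
    { toFun := ev α β
      map_add' := fun x y => by simp [ev]; ring
      map_smul' := fun c x => by simp [ev]; ring } with hℓ
  have hne : ∃ x, ℓ x ≠ 0 := by
    rcases h with h | h
    · exact ⟨!₂[1, 0], by simpa [hℓ, ev] using h⟩
    · exact ⟨!₂[0, 1], by simpa [hℓ, ev] using h⟩
  obtain ⟨x, hx⟩ := hne
  -- translate a proper subspace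
  have hker : (LinearMap.ker ℓ) ≠ ⊤ := by
    intro hc
    exact hx (LinearMap.mem_ker.1 (hc ▸ Submodule.mem_top))
  have h0 := Measure.addHaar_submodule (volume : Measure E2) _ hker
  have : {y : E2 | ev α β y = t} = (fun y => y - (t / ℓ x) • x) ⁻¹' (LinearMap.ker ℓ : Set E2) := by
    ext y
    simp only [mem_ofPred_eq, mem_preimage, SetLike.mem_coe, LinearMap.mem_ker, map_sub, map_smul,
      smul_eq_mul, div_mul_cancel₀ _ hx]
    rw [sub_eq_zero]
    rfl
  rw [this]
  simp_rw [sub_eq_add_neg]
  rw [measure_preimage_add_right]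
  exact h0

/-- the midpoint of a chord of flotation is not inside another admissible half-plane -/
lemma mid_le {α β t : ℝ} {m : E2} (hab : α ≠ 0 ∨ β ≠ 0) (h : Good α β t m) {α' β' t' : ℝ}
    (h' : volume (hex ∩ hp α' β' t') = ENNReal.ofReal (1 / 2)) : ev α' β' m ≤ t' := by
  by_contra hc
  push Not at hc
  set s := ev α' β' m with hs
  set A := hex ∩ hp α β t with hA
  have hAm : MeasurableSet A := (hex_closed.inter (hp_closed _ _ _)).measurableSet
  have hpm : MeasurableSet (hp α' β' s) := (hp_closed _ _ _).measurableSet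
  -- the reflection in `m`
  have hmp : MeasurePreserving (fun x : E2 => (2 : ℝ) • m - x) volume volume :=
    Measure.measurePreserving_sub_left volume _
  have hemb : MeasurableEmbedding (fun x : E2 => (2 : ℝ) • m - x) :=
    (Homeomorph.subLeft ((2 : ℝ) • m)).measurableEmbedding
  set S := A \ hp α' β' s with hS
  set T := (hex ∩ hp α' β' s) \ A with hT
  have hsub : (fun x : E2 => (2 : ℝ) • m - x) '' S ⊆ T ∪ {x | ev α β x = t} := by
    rintro _ ⟨x, ⟨hxA, hxs⟩, rfl⟩
    have h1 : (2 : ℝ) • m - x ∈ hex := h.refl x hxA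
    have hxs' : ev α' β' x < s := not_le.1 hxs
    have hxt : t ≤ ev α β x := hxA.2
    have e1 : ev α' β' ((2 : ℝ) • m - x) = 2 * s - ev α' β' x := by
      simp only [ev, hs, PiLp.sub_apply, PiLp.smul_apply, smul_eq_mul]; ring
    have e2 : ev α β ((2 : ℝ) • m - x) = 2 * t - ev α β x := by
      simp only [ev, ← h.on, PiLp.sub_apply, PiLp.smul_apply, smul_eq_mul]; ring
    by_cases hEq : ev α β ((2 : ℝ) • m - x) = t
    · exact Or.inr hEq
    · left
      refine ⟨⟨h1, ?_⟩, ?_⟩
      · change s ≤ ev α' β' _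
        rw [e1]; linarith
      · rintro ⟨-, h2⟩
        change t ≤ ev α β _ at h2
        rw [e2] at h2 hEq
        apply hEq
        linarith
  have hST : volume S ≤ volume T := by
    have h1 : volume ((fun x : E2 => (2 : ℝ) • m - x) '' S) = volume S := by
      have := hmp.measure_preimage_emb hemb ((fun x : E2 => (2 : ℝ) • m - x) '' S)
      rw [preimage_image_eq _ hemb.injective] at this
      exact this.symm
    rw [← h1]
    refine (measure_mono hsub).trans ((measure_union_le _ _).trans ?_)
    rw [line_null hab, add_zero]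
  have hge : ENNReal.ofReal (1 / 2) ≤ volume (hex ∩ hp α' β' s) := by
    rw [← h.vol, ← measure_inter_add_sdiff A hpm,
      ← measure_inter_add_sdiff (hex ∩ hp α' β' s) hAm]
    have e : A ∩ hp α' β' s = hex ∩ hp α' β' s ∩ A := by
      ext x; simp only [hA, mem_inter_iff]; tauto
    rw [e]
    gcongr
  have hle : volume (hex ∩ hp α' β' s) ≤ ENNReal.ofReal (1 / 2) := by
    rw [← h']
    refine measure_mono (inter_subset_inter_right _ ?_)
    intro x hx
    exact hc.le.trans hx
  have := level_unique h' (le_antisymm hle hge)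
  linarith

end Pool.Agent.X165.HX
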