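import Pool.Agent.X165.HexE

set_option autoImplicit false

open MeasureTheory Set

namespace Pool.Agent.X165.HX

/-- the symmetry of order six of the hexagon -/
noncomputable def rot : E2 ≃L[ℝ] E2 :=
  LinearEquiv.toContinuousLinearEquiv
    { toFun := fun x => !₂[x 0 - x 1, x 0]
      invFun := fun x => !₂[x 1, x 1 - x 0]
      map_add' := fun x y => by ext i; fin_cases i <;> simp <;> ring
      map_smul' := fun c x => by ext i; fin_cases i <;> simp <;> ring
      left_inv := fun x => by ext i; fin_cases i <;> simp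
      right_inv := fun x => by ext i; fin_cases i <;> simp }

@[simp] lemma rot_zero (x : E2) : rot x 0 = x 0 - x 1 := by simp [rot]
@[simp] lemma rot_one (x : E2) : rot x 1 = x 0 := by simp [rot]
@[simp] lemma rots_zero (x : E2) : rot.symm x 0 = x 1 := by
  have h := rot_one (rot.symm x); rw [rot.apply_symm_apply] at h; exact h.symm
@[simp] lemma rots_one (x : E2) : rot.symm x 1 = x 1 - x 0 := by
  have h := rot_zero (rot.symm x); rw [rot.apply_symm_apply, rots_zero] at h; linarith

lemma rot_det : LinearMap.det (rot : E2 →ₗ[ℝ] E2) = 1 := by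
  rw [← LinearMap.det_toMatrix (EuclideanSpace.basisFun (Fin 2) ℝ).toBasis]
  have : LinearMap.toMatrix (EuclideanSpace.basisFun (Fin 2) ℝ).toBasis
      (EuclideanSpace.basisFun (Fin 2) ℝ).toBasis (rot : E2 →ₗ[ℝ] E2) = !![1, -1; 1, 0] := by
    ext i j
    rw [LinearMap.toMatrix_apply]
    fin_cases i <;> fin_cases j <;> simp
  rw [this, Matrix.det_fin_two_of]
  norm_num

lemma rot_mp : MeasurePreserving rot volume volume := by
  refine ⟨rot.continuous.measurable, ?_⟩
  have h := Measure.map_linearMap_addHaar_eq_smul_addHaar (μ := (volume : Measure E2))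
    (f := (rot : E2 →ₗ[ℝ] E2)) (by rw [rot_det]; norm_num)
  rw [rot_det] at h
  simpa using h

lemma rot_emb : MeasurableEmbedding rot := rot.toHomeomorph.measurableEmbedding

lemma rot_pre (α β t : ℝ) : hex ∩ hp (α + β) (-α) t = rot ⁻¹' (hex ∩ hp α β t) := by
  ext x
  simp only [hex, hp, mem_inter_iff, mem_ofPred_eq, mem_preimage, rot_zero, rot_one]
  have e1 : |x 0 - x 1 - x 0| = |x 1| := by
    rw [show x 0 - x 1 - x 0 = -(x 1) by ring, abs_neg]
  have e2 : (α + β) * x 0 + -α * x 1 = α * (x 0 - x 1) + β * x 0 := by ring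
  rw [e1, e2]
  tauto

lemma good_rot {α β t : ℝ} {m : E2} (h : Good α β t m) :
    Good (α + β) (-α) t (rot.symm m) := by
  refine ⟨?_, ?_, ?_, ?_⟩
  · rw [rots_zero, rots_one, ← h.on]; ring
  · rw [rot_pre, rot_mp.measure_preimage_emb rot_emb, h.vol]
  · rw [rot_pre]
    have h1 := rot_mp.setIntegral_preimage_emb rot_emb (fun y => rot.symm y) (hex ∩ hp α β t)
    simp only [rot.symm_apply_apply] at h1
    rw [h1]
    have h2 := (rot.symm : E2 →L[ℝ] E2).integral_comp_comm (integrable_id_inter α β t)
    have h3 : ∫ x in hex ∩ hp α β t, rot.symm x = rot.symm (∫ x in hex ∩ hp α β t, x) := h2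
    rw [h3, h.int, map_smul]
  · intro x hx
    rw [rot_pre] at hx
    have h1 := h.refl _ hx
    have h2 : (2 : ℝ) • m - rot x = rot ((2 : ℝ) • rot.symm m - x) := by
      rw [map_sub, map_smul, rot.apply_symm_apply]
    rw [h2] at h1
    obtain ⟨a, b, c⟩ := h1
    rw [rot_zero, rot_one] at *
    refine ⟨b, ?_, a⟩
    rw [show ((2 : ℝ) • rot.symm m - x) 0 - ((2 : ℝ) • rot.symm m - x) 1 -
      ((2 : ℝ) • rot.symm m - x) 0 = -(((2 : ℝ) • rot.symm m - x) 1) by ring, abs_neg] at c
    exact c

lemma good_smul {α β t : ℝ} {m : E2} (h : Good α β t m) {k : ℝ} (hk : 0 < k) :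
    Good (k * α) (k * β) (k * t) m := by
  have e : hp (k * α) (k * β) (k * t) = hp α β t := by
    ext x
    simp only [hp, mem_ofPred_eq]
    rw [show k * α * x 0 + k * β * x 1 = k * (α * x 0 + β * x 1) by ring, mul_le_mul_iff_right₀ hk]
  refine ⟨?_, ?_, ?_, ?_⟩
  · rw [← h.on]; ring
  · rw [e]; exact h.vol
  · rw [e]; exact h.int
  · rw [e]; exact h.refl

/-- the curve of the midpoints of type `0` -/
noncomputable def curve : Set E2 := (fun a : ℝ => mid a (2 / a)) '' Icc 1 2

/-- the set of all midpoints -/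
noncomputable def mids : Set E2 := ⋃ k : Fin 6, (rot.symm)^[(k : ℕ)] '' curve

lemma curve_compact : IsCompact curve := by
  refine isCompact_Icc.image_of_continuousOn ?_
  have h : ContinuousOn (fun a : ℝ => 2 / a) (Icc 1 2) :=
    continuousOn_const.div continuousOn_id fun a ha =>
      ne_of_gt (lt_of_lt_of_le one_pos ha.1)
  refine ((PiLp.continuous_toLp 2 (fun _ : Fin 2 => ℝ)).comp_continuousOn ?_)
  refine continuousOn_pi.2 fun i => ?_
  fin_cases i
  · simp only [Fin.zero_eta, Matrix.cons_val_zero]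
    exact continuousOn_const.sub (h.div_const 2)
  · simp only [Fin.mk_one, Matrix.cons_val_one, Matrix.cons_val_fin_one]
    exact continuousOn_const.sub ((continuousOn_id.add h).div_const 2)

lemma mids_compact : IsCompact mids := by
  refine isCompact_iUnion fun k => ?_
  exact curve_compact.image (rot.symm.continuous.iterate _)

/-- `P v`: the direction `v` has a good half-plane -/
def P (α β : ℝ) : Prop := ∃ t : ℝ, ∃ m ∈ mids, Good α β t m

lemma rots6 (x : E2) : (rot.symm)^[6] x = x := by
  simp only [Function.iterate_succ, Function.iterate_zero, Function.comp_apply, id]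
  ext i
  fin_cases i <;> simp

lemma mids_rot {m : E2} (hm : m ∈ mids) : rot.symm m ∈ mids := by
  obtain ⟨k, ⟨c, hc, rfl⟩⟩ := mem_iUnion.1 hm
  rw [← Function.iterate_succ_apply' (rot.symm) k c]
  rcases Nat.lt_or_ge (k + 1) 6 with h | h
  · exact mem_iUnion.2 ⟨⟨k + 1, h⟩, ⟨c, hc, rfl⟩⟩
  · have : (k : ℕ) + 1 = 6 := by omega
    rw [Nat.succ_eq_add_one, this, rots6]
    exact mem_iUnion.2 ⟨0, ⟨c, hc, rfl⟩⟩

lemma P_rot {α β : ℝ} (h : P α β) : P (α + β) (-α) := by
  obtain ⟨t, m, hm, h⟩ := h
  exact ⟨t, _, mids_rot hm, good_rot h⟩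

lemma P_sector {α β : ℝ} (h1 : 0 ≤ 2 * α + β) (h2 : α ≤ β) (h3 : 0 < β) : P α β := by
  set a := Real.sqrt (2 + 2 * (α / β)) with ha
  have hs1 : α / β ≤ 1 := by rw [div_le_one h3]; exact h2
  have hs2 : -1 ≤ 2 * (α / β) := by
    rw [mul_div_assoc', le_div_iff₀ h3]; linarith
  have hsq : a ^ 2 = 2 + 2 * (α / β) := Real.sq_sqrt (by linarith)
  have ha0 : 0 ≤ a := Real.sqrt_nonneg _
  have ha1 : 1 ≤ a := by nlinarith
  have ha2 : a ≤ 2 := by nlinarith
  have hb1 : 1 ≤ 2 / a := by rw [le_div_iff₀ (by linarith)]; linarith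
  have hab : a * (2 / a) = 2 := by field_simp
  have hg := good_zero ha1 hb1 hab
  have hk : 0 < β / (2 / a) := by positivity
  have hg' := good_smul hg hk
  have e1 : β / (2 / a) * (2 / a) = β := by field_simp
  have e2 : β / (2 / a) * (a - 2 / a) = α := by
    have : β / (2 / a) * (a - 2 / a) = β * (a ^ 2 - 2) / 2 := by field_simp
    rw [this, hsq]
    field_simp
    ring
  rw [e1, e2] at hg'
  exact ⟨_, _, mem_iUnion.2 ⟨0, ⟨mid a (2 / a), ⟨a, ⟨ha1, ha2⟩, rfl⟩, rfl⟩⟩, hg'⟩

lemma P_sector' {α β : ℝ} (h : α ≠ 0 ∨ β ≠ 0) (h1 : 0 ≤ 2 * α + β) (h2 : α ≤ β) : P α β := by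
  refine P_sector h1 h2 ?_
  by_contra hb
  push Not at hb
  have : β = 0 := by linarith
  have : α = 0 := by linarith
  simp_all

lemma P_all {α β : ℝ} (h : α ≠ 0 ∨ β ≠ 0) : P α β := by
  -- the orbit of the direction
  have r : ∀ {p q : ℝ}, P p q → P (p + q) (-p) := fun h => P_rot h
  have hne : ∀ {p q : ℝ}, (p = 0 → q = 0 → (α = 0 ∧ β = 0)) → (p ≠ 0 ∨ q ≠ 0) := by
    intro p q hpq
    by_contra hc
    push Not at hc
    have := hpq hc.1 hc.2
    simp_all
  rcases le_total 0 (2 * α + β) with hA | hA
  · rcases le_total α β with hC | hC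
    · exact P_sector' h hA hC
    · rcases le_total 0 (α + 2 * β) with hB | hB
      · -- k = 5
        have := P_sector' (α := -β) (β := α + β) (hne fun h1 h2 => ⟨by linarith, by linarith⟩)
          (by linarith) (by linarith)
        have := r this
        convert this using 1 <;> ring
      · -- k = 4
        have := P_sector' (α := -α - β) (β := α) (hne fun h1 h2 => ⟨by linarith, by linarith⟩)
          (by linarith) (by linarith)
        have := r (r this)
        convert this using 1 <;> ring
  · rcases le_total 0 (α + 2 * β) with hB | hB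
    · -- k = 1
      have := P_sector' (α := α + β) (β := -α) (hne fun h1 h2 => ⟨by linarith, by linarith⟩)
          (by linarith) (by linarith)
      have := r (r (r (r (r this))))
      convert this using 1 <;> ring
    · rcases le_total α β with hC | hC
      · -- k = 2
        have := P_sector' (α := β) (β := -α - β) (hne fun h1 h2 => ⟨by linarith, by linarith⟩)
          (by linarith) (by linarith)
        have := r (r (r (r this)))
        convert this using 1 <;> ring
      · -- k = 3
        have := P_sector' (α := -α) (β := -β) (hne fun h1 h2 => ⟨by linarith, by linarith⟩)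
          (by linarith) (by linarith)
        have := r (r (r this))
        convert this using 1 <;> ring

end Pool.Agent.X165.HX
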