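import Mathlib

/-!
# `t`-class `k`-component tilings: definitions, hexagonal coordinates, the group of order 12
-/

set_option autoImplicit false

namespace Pool.Agent.X165.KC

/-- The Euclidean plane. -/
abbrev Plane : Type := EuclideanSpace ℝ (Fin 2)

/-- A countable family of closed sets covering the plane with pairwise disjoint interiors. -/
structure IsTiling (F : Set (Set Plane)) : Prop where
  countable : F.Countable
  closed : ∀ T ∈ F, IsClosed T
  cover : ⋃₀ F = Set.univ
  disjoint : ∀ T ∈ F, ∀ T' ∈ F, T ≠ T' → Disjoint (interior T) (interior T')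

/-- The isometry `g` maps the tiling onto itself. -/
def IsSymmetry (F : Set (Set Plane)) (g : Plane ≃ᵢ Plane) : Prop :=
  (fun T => g '' T) '' F = F

/-- The symmetry group acts transitively on the tiles. -/
def Isohedral (F : Set (Set Plane)) : Prop :=
  ∀ T ∈ F, ∀ T' ∈ F, ∃ g, IsSymmetry F g ∧ g '' T = T'

/-- Closed topological disk. -/
def IsDisk (C : Set Plane) : Prop := Nonempty (C ≃ₜ Metric.closedBall (0 : Plane) 1)

/-- `F` is an isohedral tiling, each tile is the union of `k` pairwise disjoint closed topological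
disks (its components), and the equivalence of components of a tile `T` under the symmetries of `F`
that map `T` onto itself has exactly `t` classes (`cl` gives the class of a component). -/
def IsClassTiling (F : Set (Set Plane)) (k t : ℕ) : Prop :=
  IsTiling F ∧ Isohedral F ∧
  ∀ T ∈ F, ∃ C : Fin k → Set Plane, (∀ i, IsDisk (C i)) ∧
    (∀ i j, i ≠ j → Disjoint (C i) (C j)) ∧ T = ⋃ i, C i ∧
    ∃ cl : Fin k → Fin t, Function.Surjective cl ∧
      ∀ i j, cl i = cl j ↔ ∃ g, IsSymmetry F g ∧ g '' T = T ∧ g '' C i = C j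

/-! ### Coordinates -/

/-- hexagonal coordinates of a point; their sum is zero -/
noncomputable def cu (z : Plane) : Fin 3 → ℝ :=
  ![z 0 - z 1 / √3, 2 * z 1 / √3, -z 0 - z 1 / √3]

/-- the point with given hexagonal coordinates -/
noncomputable def mkp (v : Fin 3 → ℝ) : Plane := !₂[(v 0 - v 2) / 2, √3 / 2 * v 1]

theorem s3 : √3 ≠ 0 := by positivity

theorem s3sq : √3 * √3 = 3 := Real.mul_self_sqrt (by norm_num)

theorem cu_sum (z : Plane) : cu z 0 + cu z 1 + cu z 2 = 0 := by
  simp [cu]; ring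

theorem cu_mkp {v : Fin 3 → ℝ} (h : v 0 + v 1 + v 2 = 0) : cu (mkp v) = v := by
  have h3 := s3
  funext i
  fin_cases i
  · simp [cu, mkp]
    field_simp
    linarith
  · simp [cu, mkp]
    field_simp
  · simp [cu, mkp]
    field_simp
    linarith

theorem mkp_cu (z : Plane) : mkp (cu z) = z := by
  have h3 := s3
  ext i
  fin_cases i
  · simp [cu, mkp]
  · simp [cu, mkp]

theorem cu_inj {z w : Plane} (h : cu z = cu w) : z = w := by
  rw [← mkp_cu z, ← mkp_cu w, h]

theorem cu_add (z w : Plane) : cu (z + w) = cu z + cu w := by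
  funext i
  fin_cases i <;> simp [cu] <;> ring

theorem cu_sub (z w : Plane) : cu (z - w) = cu z - cu w := by
  funext i
  fin_cases i <;> simp [cu] <;> ring

theorem cu_smul (a : ℝ) (z : Plane) : cu (a • z) = a • cu z := by
  funext i
  fin_cases i <;> simp [cu] <;> ring

theorem dist_sq (z w : Plane) : dist z w ^ 2 = (∑ i, (cu z i - cu w i) ^ 2) / 2 := by
  have h3 := s3
  have h4 : (√3) ^ 2 = 3 := by rw [sq]; exact s3sq
  rw [EuclideanSpace.dist_eq, Real.sq_sqrt (by positivity)]
  simp only [Fin.sum_univ_two, Fin.sum_univ_three, Real.dist_eq, sq_abs, cu, Matrix.cons_val_zero,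
    Matrix.cons_val_one, Matrix.cons_val_two, Matrix.head_cons, Matrix.tail_cons, Matrix.cons_val]
  field_simp
  linear_combination (2 * (z 1 - w 1) ^ 2) * h4

theorem continuous_cu (i : Fin 3) : Continuous fun z : Plane => cu z i := by
  fin_cases i
  · simp only [cu]
    change Continuous fun z : Plane => z 0 - z 1 / √3
    fun_prop
  · change Continuous fun z : Plane => 2 * z 1 / √3
    fun_prop
  · change Continuous fun z : Plane => -z 0 - z 1 / √3
    fun_prop

/-! ### The group of order 12 -/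

/-- permutations of the three coordinates together with signs -/
abbrev Gp : Type := Equiv.Perm (Fin 3) × ℤˣ

/-- the action of the group on coordinate vectors -/
def act (γ : Gp) (v : Fin 3 → ℝ) : Fin 3 → ℝ := fun i => ((γ.2 : ℤ) : ℝ) * v (γ.1⁻¹ i)

theorem act_one (v : Fin 3 → ℝ) : act 1 v = v := by
  funext i
  simp [act]

theorem act_mul (γ δ : Gp) (v : Fin 3 → ℝ) : act (γ * δ) v = act γ (act δ v) := by
  funext i
  simp [act, mul_assoc]

theorem act_add (γ : Gp) (v w : Fin 3 → ℝ) : act γ (v + w) = act γ v + act γ w := by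
  funext i
  simp [act, mul_add]

theorem act_sub (γ : Gp) (v w : Fin 3 → ℝ) : act γ (v - w) = act γ v - act γ w := by
  funext i
  simp [act, mul_sub]

theorem act_smul (γ : Gp) (a : ℝ) (v : Fin 3 → ℝ) : act γ (a • v) = a • act γ v := by
  funext i
  simp [act]; ring

theorem act_inv_act (γ : Gp) (v : Fin 3 → ℝ) : act γ⁻¹ (act γ v) = v := by
  rw [← act_mul, inv_mul_cancel, act_one]

theorem act_act_inv (γ : Gp) (v : Fin 3 → ℝ) : act γ (act γ⁻¹ v) = v := by
  rw [← act_mul, mul_inv_cancel, act_one]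

theorem sum3 (v : Fin 3 → ℝ) : v 0 + v 1 + v 2 = ∑ i, v i := by
  rw [Fin.sum_univ_three]

theorem act_sum (γ : Gp) {v : Fin 3 → ℝ} (h : v 0 + v 1 + v 2 = 0) :
    act γ v 0 + act γ v 1 + act γ v 2 = 0 := by
  rw [sum3] at h ⊢
  simp only [act]
  rw [← Finset.mul_sum, Equiv.sum_comp γ.1⁻¹ v, h, mul_zero]

theorem eps_sq (γ : Gp) : (((γ.2 : ℤ) : ℝ)) ^ 2 = 1 := by
  rcases Int.units_eq_one_or γ.2 with h | h <;> rw [h] <;> norm_num

theorem act_sq (γ : Gp) (v : Fin 3 → ℝ) : ∑ i, act γ v i ^ 2 = ∑ i, v i ^ 2 := by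
  simp only [act, mul_pow, eps_sq, one_mul]
  exact Equiv.sum_comp γ.1⁻¹ fun i => v i ^ 2

/-- the isometry of the plane given by an element of the group -/
noncomputable def rot (γ : Gp) : Plane ≃ᵢ Plane where
  toFun z := mkp (act γ (cu z))
  invFun z := mkp (act γ⁻¹ (cu z))
  left_inv z := by
    apply cu_inj
    rw [cu_mkp (act_sum _ (cu_sum _)), cu_mkp (act_sum _ (cu_sum _)), act_inv_act]
  right_inv z := by
    apply cu_inj
    rw [cu_mkp (act_sum _ (cu_sum _)), cu_mkp (act_sum _ (cu_sum _)), act_act_inv]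
  isometry_toFun := by
    apply Isometry.of_dist_eq
    intro z w
    have h : dist (mkp (act γ (cu z))) (mkp (act γ (cu w))) ^ 2 = dist z w ^ 2 := by
      rw [dist_sq, dist_sq, cu_mkp (act_sum _ (cu_sum _)), cu_mkp (act_sum _ (cu_sum _))]
      congr 1
      have := act_sq γ (cu z - cu w)
      rw [act_sub] at this
      exact this
    exact (pow_left_inj₀ dist_nonneg dist_nonneg two_ne_zero).1 h

theorem cu_rot (γ : Gp) (z : Plane) : cu (rot γ z) = act γ (cu z) :=
  cu_mkp (act_sum _ (cu_sum _))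

theorem cu_rot_symm (γ : Gp) (z : Plane) : cu ((rot γ).symm z) = act γ⁻¹ (cu z) :=
  cu_mkp (act_sum _ (cu_sum _))

/-! ### The lattice -/

/-- coordinates of the lattice points -/
def lat (m : ℤ × ℤ) : Fin 3 → ℝ := ![m.1, m.2, -m.1 - m.2]

theorem lat_sum (m : ℤ × ℤ) : lat m 0 + lat m 1 + lat m 2 = 0 := by
  simp [lat]

theorem lat_add (m n : ℤ × ℤ) : lat (m + n) = lat m + lat n := by
  funext i
  fin_cases i <;> simp [lat] <;> ring

theorem lat_sub (m n : ℤ × ℤ) : lat (m - n) = lat m - lat n := by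
  funext i
  fin_cases i <;> simp [lat] <;> ring

theorem lat_neg (m : ℤ × ℤ) : lat (-m) = -lat m := by
  funext i
  fin_cases i <;> simp [lat] <;> ring

theorem lat_zero : lat 0 = 0 := by
  funext i
  fin_cases i <;> simp [lat]

theorem lat_inj {m n : ℤ × ℤ} (h : lat m = lat n) : m = n := by
  have h0 := congrFun h 0
  have h1 := congrFun h 1
  simp only [lat, Matrix.cons_val_zero, Matrix.cons_val_one] at h0 h1
  ext
  · exact_mod_cast h0
  · exact_mod_cast h1

/-- all coordinates are integers -/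
def IsInt (v : Fin 3 → ℝ) : Prop := ∃ n : Fin 3 → ℤ, ∀ i, v i = n i

theorem isInt_lat (m : ℤ × ℤ) : IsInt (lat m) := by
  refine ⟨![m.1, m.2, -m.1 - m.2], fun i => ?_⟩
  fin_cases i <;> simp [lat]

theorem IsInt.add {v w : Fin 3 → ℝ} (hv : IsInt v) (hw : IsInt w) : IsInt (v + w) := by
  obtain ⟨n, hn⟩ := hv
  obtain ⟨m, hm⟩ := hw
  exact ⟨n + m, fun i => by simp [hn, hm]⟩

theorem IsInt.sub {v w : Fin 3 → ℝ} (hv : IsInt v) (hw : IsInt w) : IsInt (v - w) := by
  obtain ⟨n, hn⟩ := hv
  obtain ⟨m, hm⟩ := hw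
  exact ⟨n - m, fun i => by simp [hn, hm]⟩

theorem IsInt.act {v : Fin 3 → ℝ} (hv : IsInt v) (γ : Gp) : IsInt (act γ v) := by
  obtain ⟨n, hn⟩ := hv
  exact ⟨fun i => (γ.2 : ℤ) * n (γ.1⁻¹ i), fun i => by simp [KC.act, hn]⟩

theorem exists_lat {v : Fin 3 → ℝ} (hv : IsInt v) (h : v 0 + v 1 + v 2 = 0) :
    ∃ m, lat m = v := by
  obtain ⟨n, hn⟩ := hv
  refine ⟨(n 0, n 1), ?_⟩
  funext i
  fin_cases i
  · simp [lat, hn]
  · simp [lat, hn]
  · simp only [lat]
    change -((n 0 : ℤ) : ℝ) - (n 1 : ℤ) = v 2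
    rw [← hn 0, ← hn 1]
    linarith

theorem exists_act_lat (γ : Gp) (m : ℤ × ℤ) : ∃ n, lat n = act γ (lat m) :=
  exists_lat ((isInt_lat m).act γ) (act_sum γ (lat_sum m))

end Pool.Agent.X165.KC
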