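import Pool.Agent.X165.KC1

/-!
# The chambers of the group `p6m`
-/

set_option autoImplicit false

namespace Pool.Agent.X165.KC

/-- the closed chamber -/
def Ch (v : Fin 3 → ℝ) : Prop := 0 ≤ v 1 ∧ v 1 ≤ v 0 ∧ v 0 - v 2 ≤ 1

/-- the open chamber -/
def ChO (v : Fin 3 → ℝ) : Prop := 0 < v 1 ∧ v 1 < v 0 ∧ v 0 - v 2 < 1

theorem no_int (k : ℤ) (h0 : (0 : ℝ) < k) (h1 : (k : ℝ) < 1) : False := by
  have a : 0 < k := by exact_mod_cast h0
  have b : k < 1 := by exact_mod_cast h1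
  omega

theorem int_zero (k : ℤ) (h0 : (-1 : ℝ) < k) (h1 : (k : ℝ) < 1) : (k : ℝ) = 0 := by
  have a : -1 < k := by exact_mod_cast h0
  have b : k < 1 := by exact_mod_cast h1
  have : k = 0 := by omega
  rw [this]; simp

theorem perm_one {σ : Equiv.Perm (Fin 3)} (h0 : σ⁻¹ 0 = 0) (h1 : σ⁻¹ 1 = 1) (h2 : σ⁻¹ 2 = 2) :
    σ = 1 := by
  rw [← inv_eq_one]
  ext i
  fin_cases i
  · simpa using congrArg Fin.val h0
  · simpa using congrArg Fin.val h1
  · simpa using congrArg Fin.val h2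

theorem uniq {v v' : Fin 3 → ℝ} (hv : v 0 + v 1 + v 2 = 0) (hv' : v' 0 + v' 1 + v' 2 = 0)
    (c : Ch v) (o : ChO v') {δ : Gp} {N : Fin 3 → ℝ} (hN : IsInt N) (h : v' = act δ v + N) :
    δ = 1 ∧ N = 0 := by
  obtain ⟨n, hn⟩ := hN
  obtain ⟨c1, c2, c3⟩ := c
  obtain ⟨o1, o2, o3⟩ := o
  obtain ⟨σ, ε⟩ := δ
  have e : ∀ i, v' i = ((ε : ℤ) : ℝ) * v (σ⁻¹ i) + n i := by
    intro i
    rw [h, Pi.add_apply, hn]
    rfl
  have e0 := e 0
  have e1 := e 1
  have e2 := e 2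
  have d01 : σ⁻¹ 0 ≠ σ⁻¹ 1 := fun h => absurd (σ⁻¹.injective h) (by decide)
  have d02 : σ⁻¹ 0 ≠ σ⁻¹ 2 := fun h => absurd (σ⁻¹.injective h) (by decide)
  have d12 : σ⁻¹ 1 ≠ σ⁻¹ 2 := fun h => absurd (σ⁻¹.injective h) (by decide)
  have key : (σ⁻¹ 0 = 0 ∧ σ⁻¹ 1 = 1 ∧ σ⁻¹ 2 = 2) ∧ ε = 1 := by
    generalize σ⁻¹ 0 = j0 at *
    generalize σ⁻¹ 1 = j1 at *
    generalize σ⁻¹ 2 = j2 at *
    rcases Int.units_eq_one_or ε with rfl | rfl
    · simp only [Units.val_one, Int.cast_one, one_mul] at e0 e1 e2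
      refine ⟨?_, rfl⟩
      fin_cases j0 <;> fin_cases j1 <;> fin_cases j2 <;>
        simp only [Fin.zero_eta, Fin.mk_one, Fin.reduceFinMk, ne_eq, not_true_eq_false,
          Fin.isValue] at d01 d02 d12 e0 e1 e2
      · exact ⟨rfl, rfl, rfl⟩
      · exact (no_int (n 1) (by linarith) (by linarith)).elim
      · have z0 := int_zero (n 0) (by linarith) (by linarith)
        have z1 := int_zero (n 1) (by linarith) (by linarith)
        linarith
      · exact (no_int (n 1) (by linarith) (by linarith)).elim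
      · exact (no_int (-n 2) (by push_cast; linarith) (by push_cast; linarith)).elim
      · have z0 := int_zero (n 0 - 1) (by push_cast; linarith) (by push_cast; linarith)
        have z2 := int_zero (n 2 + 1) (by push_cast; linarith) (by push_cast; linarith)
        push_cast at z0 z2
        linarith
    · simp only [Units.val_neg, Units.val_one, Int.cast_neg, Int.cast_one, neg_mul, one_mul]
        at e0 e1 e2
      exfalso
      fin_cases j0 <;> fin_cases j1 <;> fin_cases j2 <;>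
        simp only [Fin.zero_eta, Fin.mk_one, Fin.reduceFinMk, ne_eq, not_true_eq_false,
          Fin.isValue] at d01 d02 d12 e0 e1 e2
      · exact no_int (n 0) (by linarith) (by linarith)
      · exact no_int (n 0) (by linarith) (by linarith)
      · exact no_int (n 0) (by linarith) (by linarith)
      · exact no_int (n 0) (by linarith) (by linarith)
      · exact no_int (n 1) (by linarith) (by linarith)
      · exact no_int (n 1) (by linarith) (by linarith)
  obtain ⟨⟨k0, k1, k2⟩, kε⟩ := key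
  have hσ := perm_one k0 k1 k2
  subst kε
  subst hσ
  refine ⟨rfl, ?_⟩
  simp only [Units.val_one, Int.cast_one, one_mul, inv_one, Equiv.Perm.coe_one, id_eq] at e0 e1 e2
  have z0 := int_zero (n 0) (by linarith) (by linarith)
  have z1 := int_zero (n 1) (by linarith) (by linarith)
  have z2 := int_zero (n 2) (by linarith) (by linarith)
  funext i
  fin_cases i
  · exact (hn 0).trans z0
  · exact (hn 1).trans z1
  · exact (hn 2).trans z2

/-! ### Every point lies in some chamber -/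

theorem sort_lemma {w : Fin 3 → ℝ} (hw : w 0 + w 1 + w 2 = 0) (h : ∀ i j, w i - w j ≤ 1) :
    ∃ γ : Gp, Ch (act γ⁻¹ w) := by
  have hm := Tuple.monotone_sort w
  set τ := Tuple.sort w with hτ
  have m01 : w (τ 0) ≤ w (τ 1) := hm (by decide)
  have m12 : w (τ 1) ≤ w (τ 2) := hm (by decide)
  by_cases hp : 0 ≤ w (τ 1)
  · refine ⟨(τ * Equiv.swap 0 2, 1), ?_⟩
    have e : ∀ i, act (τ * Equiv.swap 0 2, 1)⁻¹ w i = w (τ (Equiv.swap 0 2 i)) := by
      intro i
      simp [act]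
    refine ⟨?_, ?_, ?_⟩
    · rw [e]; simpa [Equiv.swap_apply_of_ne_of_ne] using hp
    · rw [e, e]; simpa [Equiv.swap_apply_of_ne_of_ne] using m12
    · rw [e, e]; simpa using h (τ 2) (τ 0)
  · refine ⟨(τ, -1), ?_⟩
    have e : ∀ i, act (τ, -1)⁻¹ w i = -w (τ i) := by
      intro i
      simp [act]
    refine ⟨?_, ?_, ?_⟩
    · rw [e]; linarith
    · rw [e, e]; linarith
    · rw [e, e]; have := h (τ 2) (τ 0); linarith

theorem round_lemma (v : Fin 3 → ℝ) (hv : v 0 + v 1 + v 2 = 0) :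
    ∃ m : ℤ × ℤ, ∀ i j, (v - lat m) i - (v - lat m) j ≤ 1 := by
  have key : ∃ a b : ℤ, (v 0 - a) - (v 1 - b) ≤ 1 ∧ (v 1 - b) - (v 0 - a) ≤ 1 ∧
      (v 0 - a) - (v 2 + a + b) ≤ 1 ∧ (v 2 + a + b) - (v 0 - a) ≤ 1 ∧
      (v 1 - b) - (v 2 + a + b) ≤ 1 ∧ (v 2 + a + b) - (v 1 - b) ≤ 1 := by
    have hα := Int.fract_nonneg (v 0)
    have hα1 := Int.fract_lt_one (v 0)
    have hβ := Int.fract_nonneg (v 1)
    have hβ1 := Int.fract_lt_one (v 1)
    have eα := Int.floor_add_fract (v 0)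
    have eβ := Int.floor_add_fract (v 1)
    set α := Int.fract (v 0)
    set β := Int.fract (v 1)
    set A := ⌊v 0⌋
    set B := ⌊v 1⌋
    have e2 : v 2 = -(A + α) - (B + β) := by linarith
    have e0 : v 0 = A + α := by linarith
    have e1 : v 1 = B + β := by linarith
    rw [e0, e1, e2]
    by_cases h1 : α + β ≤ 1
    · by_cases h2 : 2 * α + β ≤ 1
      · by_cases h3 : α + 2 * β ≤ 1
        · refine ⟨A, B, ?_, ?_, ?_, ?_, ?_, ?_⟩ <;> linarith
        · refine ⟨A, B + 1, ?_, ?_, ?_, ?_, ?_, ?_⟩ <;> push_cast <;> linarith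
      · by_cases h3 : β ≤ α
        · refine ⟨A + 1, B, ?_, ?_, ?_, ?_, ?_, ?_⟩ <;> push_cast <;> linarith
        · refine ⟨A, B + 1, ?_, ?_, ?_, ?_, ?_, ?_⟩ <;> push_cast <;> linarith
    · by_cases h2 : 2 * α + β ≤ 2
      · by_cases h3 : β ≤ α
        · refine ⟨A + 1, B, ?_, ?_, ?_, ?_, ?_, ?_⟩ <;> push_cast <;> linarith
        · refine ⟨A, B + 1, ?_, ?_, ?_, ?_, ?_, ?_⟩ <;> push_cast <;> linarith
      · by_cases h3 : α + 2 * β ≤ 2
        · refine ⟨A + 1, B, ?_, ?_, ?_, ?_, ?_, ?_⟩ <;> push_cast <;> linarith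
        · refine ⟨A + 1, B + 1, ?_, ?_, ?_, ?_, ?_, ?_⟩ <;> push_cast <;> linarith
  obtain ⟨a, b, h1, h2, h3, h4, h5, h6⟩ := key
  refine ⟨(a, b), fun i j => ?_⟩
  fin_cases i <;> fin_cases j <;> simp [lat] <;> linarith

theorem cover_lemma (z : Plane) : ∃ (γ : Gp) (m : ℤ × ℤ), Ch (act γ⁻¹ (cu z - lat m)) := by
  obtain ⟨m, hm⟩ := round_lemma (cu z) (cu_sum z)
  have hs : (cu z - lat m) 0 + (cu z - lat m) 1 + (cu z - lat m) 2 = 0 := by
    have h1 := cu_sum z
    have h2 := lat_sum m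
    simp only [Pi.sub_apply]
    linarith
  obtain ⟨γ, hγ⟩ := sort_lemma hs hm
  exact ⟨γ, m, hγ⟩

end Pool.Agent.X165.KC
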