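import Pool.Agent.X165.KC2

/-!
# Slices of the chamber, the components and the tiles
-/

set_option autoImplicit false

namespace Pool.Agent.X165.KC

/-- the `i`-th slice of the chamber (closed), in coordinates -/
def Sl (t i : ℕ) (v : Fin 3 → ℝ) : Prop :=
  0 ≤ v 1 ∧ v 1 ≤ v 0 ∧ (i : ℝ) ≤ t * (v 0 - v 2) ∧ t * (v 0 - v 2) ≤ i + 1

/-- the `i`-th slice of the chamber (open), in coordinates -/
def SlO (t i : ℕ) (v : Fin 3 → ℝ) : Prop :=
  0 < v 1 ∧ v 1 < v 0 ∧ (i : ℝ) < t * (v 0 - v 2) ∧ t * (v 0 - v 2) < i + 1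

theorem SlO.sl {t i : ℕ} {v : Fin 3 → ℝ} (h : SlO t i v) : Sl t i v :=
  ⟨h.1.le, h.2.1.le, h.2.2.1.le, h.2.2.2.le⟩

theorem Sl.ch {t i : ℕ} (hi : i < t) {v : Fin 3 → ℝ} (h : Sl t i v) : Ch v := by
  obtain ⟨h1, h2, h3, h4⟩ := h
  refine ⟨h1, h2, ?_⟩
  have ht : (0 : ℝ) < t := by exact_mod_cast (by omega : 0 < t)
  have hit : (i : ℝ) + 1 ≤ t := by exact_mod_cast hi
  by_contra hc
  have : (t : ℝ) * 1 < t * (v 0 - v 2) := mul_lt_mul_of_pos_left (not_le.1 hc) ht
  linarith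

theorem SlO.chO {t i : ℕ} (hi : i < t) {v : Fin 3 → ℝ} (h : SlO t i v) : ChO v := by
  obtain ⟨h1, h2, h3, h4⟩ := h
  refine ⟨h1, h2, ?_⟩
  have ht : (0 : ℝ) < t := by exact_mod_cast (by omega : 0 < t)
  have hit : (i : ℝ) + 1 ≤ t := by exact_mod_cast hi
  by_contra hc
  have : (t : ℝ) * 1 ≤ t * (v 0 - v 2) := mul_le_mul_of_nonneg_left (not_lt.1 hc) ht.le
  linarith

/-- the `i`-th slice of the chamber at the origin -/
def base (t i : ℕ) : Set Plane := {z | Sl t i (cu z)}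

theorem base_closed (t i : ℕ) : IsClosed (base t i) := by
  have c0 := continuous_cu 0
  have c1 := continuous_cu 1
  have c2 := continuous_cu 2
  exact (isClosed_le continuous_const c1).inter ((isClosed_le c1 c0).inter
    ((isClosed_le continuous_const (continuous_const.mul (c0.sub c2))).inter
      (isClosed_le (continuous_const.mul (c0.sub c2)) continuous_const)))

theorem base_convex (t i : ℕ) : Convex ℝ (base t i) := by
  intro z hz w hw a b ha hb hab
  obtain ⟨z1, z2, z3, z4⟩ := hz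
  obtain ⟨w1, w2, w3, w4⟩ := hw
  have e : ∀ k, cu (a • z + b • w) k = a * cu z k + b * cu w k := by
    intro k
    rw [cu_add, cu_smul, cu_smul]; rfl
  have hb' : b = 1 - a := by linarith
  have m : (t : ℝ) * (a * cu z 0 + b * cu w 0 - (a * cu z 2 + b * cu w 2)) =
      a * (t * (cu z 0 - cu z 2)) + b * (t * (cu w 0 - cu w 2)) := by ring
  refine ⟨?_, ?_, ?_, ?_⟩
  · rw [e]; positivity
  · rw [e, e]
    exact add_le_add (mul_le_mul_of_nonneg_left z2 ha) (mul_le_mul_of_nonneg_left w2 hb)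
  · rw [e, e, m]
    calc (i : ℝ) = a * i + b * i := by rw [← add_mul, hab, one_mul]
      _ ≤ _ := add_le_add (mul_le_mul_of_nonneg_left z3 ha) (mul_le_mul_of_nonneg_left w3 hb)
  · rw [e, e, m]
    calc _ ≤ a * ((i : ℝ) + 1) + b * (i + 1) :=
          add_le_add (mul_le_mul_of_nonneg_left z4 ha) (mul_le_mul_of_nonneg_left w4 hb)
      _ = i + 1 := by rw [← add_mul, hab, one_mul]

theorem dist_cu (z w : Plane) : dist z w ^ 2 =
    ((cu z 0 - cu z 2) - (cu w 0 - cu w 2)) ^ 2 / 4 + 3 * (cu z 1 - cu w 1) ^ 2 / 4 := by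
  rw [dist_sq, Fin.sum_univ_three]
  have h1 : cu z 1 = -cu z 0 - cu z 2 := by linarith [cu_sum z]
  have h2 : cu w 1 = -cu w 0 - cu w 2 := by linarith [cu_sum w]
  rw [h1, h2]
  ring

theorem base_dist {t i : ℕ} (ht : 0 < t) {z w : Plane} (hz : z ∈ base t i) (hw : w ∈ base t i) :
    dist z w ^ 2 ≤ (1 / 4 + ((i : ℝ) + 1) ^ 2 / 12) / t ^ 2 := by
  obtain ⟨z1, z2, z3, z4⟩ := hz
  obtain ⟨w1, w2, w3, w4⟩ := hw
  have ht' : (0 : ℝ) < t := by exact_mod_cast ht
  rw [dist_cu, le_div_iff₀ (by positivity)]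
  have sz := cu_sum z
  have sw := cu_sum w
  set X := cu z 0 - cu z 2 with hX
  set Y := cu w 0 - cu w 2 with hY
  set y := cu z 1 with hy
  set x := cu w 1 with hx
  have b1 : 3 * y ≤ X := by linarith
  have b2 : 3 * x ≤ Y := by linarith
  have b3 : (t : ℝ) * (3 * y) ≤ t * X := mul_le_mul_of_nonneg_left b1 ht'.le
  have b4 : (t : ℝ) * (3 * x) ≤ t * Y := mul_le_mul_of_nonneg_left b2 ht'.le
  have b5 : 0 ≤ (t : ℝ) * y := by positivity
  have b6 : 0 ≤ (t : ℝ) * x := by positivity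
  have q1 : (t * X - t * Y) ^ 2 ≤ 1 ^ 2 := sq_le_sq' (by linarith) (by linarith)
  have q2 : (t * y - t * x) ^ 2 ≤ (((i : ℝ) + 1) / 3) ^ 2 := sq_le_sq' (by linarith) (by linarith)
  have e : ((X - Y) ^ 2 / 4 + 3 * (y - x) ^ 2 / 4) * (t : ℝ) ^ 2 =
      (t * X - t * Y) ^ 2 / 4 + 3 * (t * y - t * x) ^ 2 / 4 := by ring
  rw [e]
  nlinarith

theorem base_far {t : ℕ} (ht : 0 < t) (i : ℕ) : ∃ z ∈ base t i, ∃ w ∈ base t i,
    dist z w ^ 2 = (1 / 4 + ((i : ℝ) + 1) ^ 2 / 12) / t ^ 2 := by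
  have ht' : (0 : ℝ) < t := by exact_mod_cast ht
  have c1 : cu (mkp ![(i : ℝ) / t / 2, 0, -((i : ℝ) / t / 2)]) =
      ![(i : ℝ) / t / 2, 0, -((i : ℝ) / t / 2)] := cu_mkp (by simp)
  have c2 : cu (mkp ![((i : ℝ) + 1) / t / 3, ((i : ℝ) + 1) / t / 3, -(2 * (((i : ℝ) + 1) / t / 3))])
      = ![((i : ℝ) + 1) / t / 3, ((i : ℝ) + 1) / t / 3, -(2 * (((i : ℝ) + 1) / t / 3))] :=
    cu_mkp (by simp; ring)
  refine ⟨mkp ![(i : ℝ) / t / 2, 0, -((i : ℝ) / t / 2)], ?_,
    mkp ![((i : ℝ) + 1) / t / 3, ((i : ℝ) + 1) / t / 3, -(2 * (((i : ℝ) + 1) / t / 3))], ?_, ?_⟩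
  · change Sl t i (cu _)
    rw [c1]
    refine ⟨?_, ?_, ?_, ?_⟩
    · simp
    · simp; positivity
    · simp only [Matrix.cons_val_zero, Matrix.cons_val]
      apply le_of_eq; field_simp; ring
    · simp only [Matrix.cons_val_zero, Matrix.cons_val]
      have : (t : ℝ) * ((i : ℝ) / t / 2 - -((i : ℝ) / t / 2)) = i := by field_simp; ring
      linarith
  · change Sl t i (cu _)
    rw [c2]
    refine ⟨?_, ?_, ?_, ?_⟩
    · simp; positivity
    · simp
    · simp only [Matrix.cons_val_zero, Matrix.cons_val]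
      have : (t : ℝ) * (((i : ℝ) + 1) / t / 3 - -(2 * (((i : ℝ) + 1) / t / 3))) = i + 1 := by
        field_simp; ring
      linarith
    · simp only [Matrix.cons_val_zero, Matrix.cons_val]
      have : (t : ℝ) * (((i : ℝ) + 1) / t / 3 - -(2 * (((i : ℝ) + 1) / t / 3))) = i + 1 := by
        field_simp; ring
      linarith
  · rw [dist_cu, c1, c2]
    simp only [Matrix.cons_val_zero, Matrix.cons_val_one, Matrix.cons_val]
    field_simp
    ring

theorem base_le {t i j : ℕ} (ht : 0 < t) (g : Plane ≃ᵢ Plane) (h : g '' base t i = base t j) :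
    j ≤ i := by
  have ht' : (0 : ℝ) < t := by exact_mod_cast ht
  obtain ⟨z, hz, w, hw, hd⟩ := base_far ht j
  rw [← h] at hz hw
  obtain ⟨z', hz', rfl⟩ := hz
  obtain ⟨w', hw', rfl⟩ := hw
  rw [g.dist_eq] at hd
  have := base_dist ht hz' hw'
  rw [hd, div_le_div_iff_of_pos_right (by positivity)] at this
  by_contra hc
  have hc' : (i : ℝ) + 1 ≤ j := by exact_mod_cast not_le.1 hc
  nlinarith [(Nat.cast_nonneg i : (0 : ℝ) ≤ i)]

theorem base_congr {t i j : ℕ} (ht : 0 < t) (g : Plane ≃ᵢ Plane) (h : g '' base t i = base t j) :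
    i = j := by
  refine le_antisymm (base_le ht g.symm (i := j) (j := i) ?_) (base_le ht g h)
  rw [← h, ← Set.image_comp]
  simp

/-- an inner point of the slice, in coordinates -/
noncomputable def mid (t i : ℕ) : Fin 3 → ℝ :=
  ![5 * (((i : ℝ) + 1 / 2) / t) / 12, (((i : ℝ) + 1 / 2) / t) / 6,
    -(7 * (((i : ℝ) + 1 / 2) / t) / 12)]

theorem mid_sum (t i : ℕ) : mid t i 0 + mid t i 1 + mid t i 2 = 0 := by
  simp [mid]; ring

theorem mid_slO {t : ℕ} (ht : 0 < t) (i : ℕ) : SlO t i (mid t i) := by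
  have ht' : (0 : ℝ) < t := by exact_mod_cast ht
  have hX : 0 < ((i : ℝ) + 1 / 2) / t := by positivity
  have e : (t : ℝ) * (((i : ℝ) + 1 / 2) / t) = i + 1 / 2 := by field_simp
  refine ⟨?_, ?_, ?_, ?_⟩ <;> simp only [mid, Matrix.cons_val_zero, Matrix.cons_val_one,
    Matrix.cons_val]
  · linarith
  · linarith
  · have : (t : ℝ) * (5 * (((i : ℝ) + 1 / 2) / t) / 12 - -(7 * (((i : ℝ) + 1 / 2) / t) / 12)) =
        i + 1 / 2 := by linear_combination e
    linarith
  · have : (t : ℝ) * (5 * (((i : ℝ) + 1 / 2) / t) / 12 - -(7 * (((i : ℝ) + 1 / 2) / t) / 12)) =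
        i + 1 / 2 := by linear_combination e
    linarith

theorem base_disk {t : ℕ} (ht : 0 < t) (i : ℕ) : IsDisk (base t i) := by
  have hint : (interior (base t i)).Nonempty := by
    refine ⟨mkp (mid t i), ?_⟩
    rw [mem_interior]
    refine ⟨{z | SlO t i (cu z)}, fun z hz => SlO.sl hz, ?_, ?_⟩
    · have c0 := continuous_cu 0
      have c1 := continuous_cu 1
      have c2 := continuous_cu 2
      exact (isOpen_lt continuous_const c1).inter ((isOpen_lt c1 c0).inter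
        ((isOpen_lt continuous_const (continuous_const.mul (c0.sub c2))).inter
          (isOpen_lt (continuous_const.mul (c0.sub c2)) continuous_const)))
    · change SlO t i (cu _)
      rw [cu_mkp (mid_sum t i)]
      exact mid_slO ht i
  have hbd : Bornology.IsBounded (base t i) := by
    rw [Metric.isBounded_iff]
    refine ⟨(1 / 4 + ((i : ℝ) + 1) ^ 2 / 12) / t ^ 2 + 1, fun z hz w hw => ?_⟩
    have := base_dist ht hz hw
    nlinarith [sq_nonneg (dist z w - 1), dist_nonneg (x := z) (y := w)]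
  obtain ⟨h, -, h2, -⟩ := exists_homeomorph_image_interior_closure_frontier_eq_unitBall
    (base_convex t i) hint hbd
  rw [(base_closed t i).closure_eq] at h2
  exact ⟨(h.image (base t i)).trans (Homeomorph.setCongr h2)⟩

/-! ### The components -/

/-- the translation in the `i`-th slice -/
def sh (i : ℕ) : ℤ × ℤ := (2 * (i + 1), 1)

/-- local coordinates of a point with respect to a component -/
noncomputable def co (n : ℤ × ℤ) (γ : Gp) (i : ℕ) (z : Plane) : Fin 3 → ℝ :=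
  act γ⁻¹ (cu z - lat n) - lat (sh i)

/-- the components of the tiles -/
def comp (t : ℕ) (n : ℤ × ℤ) (γ : Gp) (i : ℕ) : Set Plane := {z | Sl t i (co n γ i z)}

/-- the isometry that maps the slice at the origin onto the component -/
noncomputable def loc (n : ℤ × ℤ) (γ : Gp) (i : ℕ) : Plane ≃ᵢ Plane :=
  ((IsometryEquiv.addRight (mkp (lat (sh i)))).trans (rot γ)).trans
    (IsometryEquiv.addRight (mkp (lat n)))

theorem cu_loc (n : ℤ × ℤ) (γ : Gp) (i : ℕ) (z : Plane) :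
    cu (loc n γ i z) = act γ (cu z + lat (sh i)) + lat n := by
  change cu (rot γ (z + mkp (lat (sh i))) + mkp (lat n)) = _
  rw [cu_add, cu_rot, cu_add, cu_mkp (lat_sum _), cu_mkp (lat_sum _)]

theorem co_loc (n : ℤ × ℤ) (γ : Gp) (i : ℕ) (z : Plane) : co n γ i (loc n γ i z) = cu z := by
  rw [co, cu_loc, add_sub_cancel_right, act_inv_act, add_sub_cancel_right]

theorem comp_eq (t : ℕ) (n : ℤ × ℤ) (γ : Gp) (i : ℕ) : comp t n γ i = loc n γ i '' base t i := by
  ext z
  constructor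
  · intro hz
    change Sl t i (co n γ i z) at hz
    refine ⟨(loc n γ i).symm z, ?_, by simp⟩
    change Sl t i (cu _)
    rw [← co_loc n γ i, IsometryEquiv.apply_symm_apply]
    exact hz
  · rintro ⟨w, hw, rfl⟩
    change Sl t i (co _ _ _ _)
    rw [co_loc]
    exact hw

theorem comp_disk {t : ℕ} (ht : 0 < t) (n : ℤ × ℤ) (γ : Gp) (i : ℕ) : IsDisk (comp t n γ i) := by
  obtain ⟨h⟩ := base_disk ht i
  rw [comp_eq]
  exact ⟨((loc n γ i).toHomeomorph.image (base t i)).symm.trans h⟩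

theorem comp_closed (t : ℕ) (n : ℤ × ℤ) (γ : Gp) (i : ℕ) : IsClosed (comp t n γ i) := by
  rw [comp_eq]
  exact (loc n γ i).toHomeomorph.isClosed_image.2 (base_closed t i)

theorem comp_congr {t : ℕ} (ht : 0 < t) {n n' : ℤ × ℤ} {γ γ' : Gp} {i j : ℕ} (g : Plane ≃ᵢ Plane)
    (h : g '' comp t n γ i = comp t n' γ' j) : i = j := by
  rw [comp_eq, comp_eq] at h
  apply base_congr ht (((loc n γ i).trans g).trans (loc n' γ' j).symm)
  have : (((loc n γ i).trans g).trans (loc n' γ' j).symm) '' base t i =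
      (loc n' γ' j).symm '' (g '' (loc n γ i '' base t i)) := by
    rw [← Set.image_comp, ← Set.image_comp]
    rfl
  rw [this, h, ← Set.image_comp]
  simp

theorem cu_eq_of_co (n : ℤ × ℤ) (γ : Gp) (i : ℕ) (z : Plane) :
    cu z = act γ (co n γ i z + lat (sh i)) + lat n := by
  rw [co, sub_add_cancel, act_act_inv, sub_add_cancel]

theorem co_sum (n : ℤ × ℤ) (γ : Gp) (i : ℕ) (z : Plane) :
    co n γ i z 0 + co n γ i z 1 + co n γ i z 2 = 0 := by
  have h : (cu z - lat n) 0 + (cu z - lat n) 1 + (cu z - lat n) 2 = 0 := by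
    have h1 := cu_sum z
    have h2 := lat_sum n
    simp only [Pi.sub_apply]
    linarith
  have h1 := act_sum γ⁻¹ h
  have h2 := lat_sum (sh i)
  simp only [co, Pi.sub_apply] at h1 ⊢
  linarith

/-- a component that contains an inner point of another component is equal to it -/
theorem comp_unique {t : ℕ} {n n' : ℤ × ℤ} {γ γ' : Gp} {i i' : ℕ} (hi : i < t) (hi' : i' < t)
    {z : Plane} (h : Sl t i (co n γ i z)) (h' : SlO t i' (co n' γ' i' z)) :
    n = n' ∧ γ = γ' ∧ i = i' := by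
  set v := co n γ i z with hv
  set v' := co n' γ' i' z with hv'
  have hc := cu_eq_of_co n γ i z
  rw [← hv] at hc
  have e : v' = act (γ'⁻¹ * γ) v +
      (act (γ'⁻¹ * γ) (lat (sh i)) + act γ'⁻¹ (lat n - lat n') - lat (sh i')) := by
    rw [hv', co, hc, add_sub_assoc, act_add, ← act_mul, act_add]
    abel
  have hI : IsInt (act (γ'⁻¹ * γ) (lat (sh i)) + act γ'⁻¹ (lat n - lat n') - lat (sh i')) :=
    (((isInt_lat _).act _).add (((isInt_lat _).sub (isInt_lat _)).act _)).sub (isInt_lat _)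
  obtain ⟨h1, h2⟩ := uniq (co_sum n γ i z) (co_sum n' γ' i' z) (h.ch hi) (h'.chO hi') hI e
  have hγ : γ = γ' := by
    have := congrArg (fun x => γ' * x) h1
    simpa using this
  rw [h2, h1, act_one, add_zero] at e
  have hii : i = i' := by
    rw [e] at h'
    obtain ⟨-, -, a3, a4⟩ := h
    obtain ⟨-, -, b3, b4⟩ := h'
    have c1 : (i : ℝ) < i' + 1 := by linarith
    have c2 : (i' : ℝ) < i + 1 := by linarith
    have d1 : i < i' + 1 := by exact_mod_cast c1
    have d2 : i' < i + 1 := by exact_mod_cast c2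
    omega
  refine ⟨?_, hγ, hii⟩
  rw [h1, act_one, hii, add_sub_cancel_left] at h2
  have h3 : act γ' (act γ'⁻¹ (lat n - lat n')) = act γ' 0 := by rw [h2]
  rw [act_act_inv] at h3
  have h4 : act γ' 0 = 0 := by funext i; simp [act]
  rw [h4, sub_eq_zero] at h3
  exact lat_inj h3

/-- components of one tile are disjoint -/
theorem comp_disjoint {t : ℕ} (n : ℤ × ℤ) {γ γ' : Gp} {i i' : ℕ} (hi : i < t) (hi' : i' < t)
    (hne : (γ, i) ≠ (γ', i')) : Disjoint (comp t n γ i) (comp t n γ' i') := by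
  rw [Set.disjoint_left]
  intro z hz hz'
  apply hne
  change Sl t i (co n γ i z) at hz
  change Sl t i' (co n γ' i' z) at hz'
  have c := hz.ch hi
  have c' := hz'.ch hi'
  have s := co_sum n γ i z
  have s' := co_sum n γ' i' z
  set v := co n γ i z with hv
  set v' := co n γ' i' z with hv'
  obtain ⟨a1, a2, a3⟩ := c
  obtain ⟨b1, b2, b3⟩ := c'
  have hu : ∀ k : ℕ, lat (sh k) 0 = 2 * ((k : ℝ) + 1) ∧ lat (sh k) 1 = 1 ∧
      lat (sh k) 2 = -(2 * ((k : ℝ) + 1)) - 1 := by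
    intro k
    simp [lat, sh]
  obtain ⟨p0, p1, p2⟩ := hu i
  obtain ⟨q0, q1, q2⟩ := hu i'
  have hi0 : (0 : ℝ) ≤ i := Nat.cast_nonneg i
  have hi0' : (0 : ℝ) ≤ i' := Nat.cast_nonneg i'
  set u := v + lat (sh i) with hu
  set u' := v' + lat (sh i') with hu'
  have u0 : u 0 = v 0 + 2 * ((i : ℝ) + 1) := by rw [hu, Pi.add_apply, p0]
  have u1 : u 1 = v 1 + 1 := by rw [hu, Pi.add_apply, p1]
  have u2 : u 2 = v 2 - 2 * ((i : ℝ) + 1) - 1 := by rw [hu, Pi.add_apply, p2]; ring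
  have w0 : u' 0 = v' 0 + 2 * ((i' : ℝ) + 1) := by rw [hu', Pi.add_apply, q0]
  have w1 : u' 1 = v' 1 + 1 := by rw [hu', Pi.add_apply, q1]
  have w2 : u' 2 = v' 2 - 2 * ((i' : ℝ) + 1) - 1 := by rw [hu', Pi.add_apply, q2]; ring
  have e : u' = act (γ'⁻¹ * γ) u := by
    have h1 := cu_eq_of_co n γ i z
    have h2 := cu_eq_of_co n γ' i' z
    rw [← hv, ← hu] at h1
    rw [← hv', ← hu', h1, add_left_inj] at h2
    rw [act_mul, h2, act_inv_act]
  have k1 : 0 < u 0 - u 2 := by rw [u0, u2]; linarith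
  have k2 : 0 < u' 0 - u' 2 := by rw [w0, w2]; linarith
  set r : ℝ := 1 / ((u 0 - u 2) + (u' 0 - u' 2) + 1) with hr
  have hr0 : 0 < r := by positivity
  have hr1 : r * (u 0 - u 2) ≤ 1 := by
    rw [hr, one_div_mul_eq_div, div_le_one (by positivity)]
    linarith
  have hr2 : r * (u' 0 - u' 2) < 1 := by
    rw [hr, one_div_mul_eq_div, div_lt_one (by positivity)]
    linarith
  have C1 : Ch (r • u) := by
    refine ⟨?_, ?_, ?_⟩
    · change 0 ≤ r * u 1
      apply mul_nonneg hr0.le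
      rw [u1]; linarith
    · change r * u 1 ≤ r * u 0
      apply mul_le_mul_of_nonneg_left _ hr0.le
      rw [u0, u1]; linarith
    · change r * u 0 - r * u 2 ≤ 1
      linarith
  have C2 : ChO (r • u') := by
    refine ⟨?_, ?_, ?_⟩
    · change 0 < r * u' 1
      apply mul_pos hr0
      rw [w1]; linarith
    · change r * u' 1 < r * u' 0
      apply mul_lt_mul_of_pos_left _ hr0
      rw [w0, w1]; linarith
    · change r * u' 0 - r * u' 2 < 1
      linarith
  have z0 : IsInt 0 := ⟨0, fun i => by simp⟩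
  have S1 : (r • u) 0 + (r • u) 1 + (r • u) 2 = 0 := by
    change r * u 0 + r * u 1 + r * u 2 = 0
    rw [← mul_add, ← mul_add, u0, u1, u2]
    have : v 0 + 2 * ((i : ℝ) + 1) + (v 1 + 1) + (v 2 - 2 * ((i : ℝ) + 1) - 1) = 0 := by linarith
    rw [this, mul_zero]
  have S2 : (r • u') 0 + (r • u') 1 + (r • u') 2 = 0 := by
    change r * u' 0 + r * u' 1 + r * u' 2 = 0
    rw [← mul_add, ← mul_add, w0, w1, w2]
    have : v' 0 + 2 * ((i' : ℝ) + 1) + (v' 1 + 1) + (v' 2 - 2 * ((i' : ℝ) + 1) - 1) = 0 := by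
      linarith
    rw [this, mul_zero]
  obtain ⟨h1, -⟩ := uniq S1 S2 C1 C2 z0 (by rw [e, act_smul, add_zero])
  have hγ : γ = γ' := by
    have := congrArg (fun x => γ' * x) h1
    simpa using this
  rw [h1, act_one] at e
  have e0 := congrFun e 0
  rw [u0, w0] at e0
  have hii : i = i' := by
    have c1 : (i : ℝ) < i' + 1 := by linarith
    have c2 : (i' : ℝ) < i + 1 := by linarith
    have d1 : i < i' + 1 := by exact_mod_cast c1
    have d2 : i' < i + 1 := by exact_mod_cast c2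
    omega
  rw [hγ, hii]

end Pool.Agent.X165.KC
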