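import Pool.Agent.X165.KC3

/-!
# The tiling
-/

set_option autoImplicit false

namespace Pool.Agent.X165.KC

open Topology Filter

/-- the tiles -/
def tile (t : ℕ) (n : ℤ × ℤ) : Set Plane := ⋃ p : Gp × Fin t, comp t n p.1 p.2

/-- the tiling -/
def fam (t : ℕ) : Set (Set Plane) := Set.range (tile t)

theorem tile_closed (t : ℕ) (n : ℤ × ℤ) : IsClosed (tile t n) :=
  isClosed_iUnion_of_finite fun p => comp_closed t n p.1 p.2

theorem cover {t : ℕ} (ht : 0 < t) (z : Plane) : ∃ n, z ∈ tile t n := by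
  have ht' : (0 : ℝ) < t := by exact_mod_cast ht
  obtain ⟨γ, m, h1, h2, h3⟩ := cover_lemma z
  have hs : (cu z - lat m) 0 + (cu z - lat m) 1 + (cu z - lat m) 2 = 0 := by
    have h1 := cu_sum z
    have h2 := lat_sum m
    simp only [Pi.sub_apply]
    linarith
  have hv := act_sum γ⁻¹ hs
  set v := act γ⁻¹ (cu z - lat m) with hvd
  have hX : 0 ≤ v 0 - v 2 := by linarith
  have hX' : 0 ≤ (t : ℝ) * (v 0 - v 2) := by positivity
  have hX1 : (t : ℝ) * (v 0 - v 2) ≤ t := by nlinarith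
  obtain ⟨i, hi, hi1, hi2⟩ : ∃ i : ℕ, i < t ∧ (i : ℝ) ≤ t * (v 0 - v 2) ∧
      t * (v 0 - v 2) ≤ i + 1 := by
    by_cases hc : ⌊(t : ℝ) * (v 0 - v 2)⌋₊ < t
    · exact ⟨_, hc, Nat.floor_le hX', (Nat.lt_floor_add_one _).le⟩
    · have h4 : (t : ℝ) ≤ t * (v 0 - v 2) := by
        have := Nat.floor_le hX'
        have h5 : (t : ℝ) ≤ (⌊(t : ℝ) * (v 0 - v 2)⌋₊ : ℝ) := by exact_mod_cast not_lt.1 hc
        linarith
      refine ⟨t - 1, by omega, ?_, ?_⟩
      · rw [Nat.cast_sub ht]; push_cast; linarith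
      · rw [Nat.cast_sub ht]; push_cast; linarith
  obtain ⟨n', hn'⟩ := exists_act_lat γ (sh i)
  refine ⟨m - n', Set.mem_iUnion.2 ⟨(γ, ⟨i, hi⟩), ?_⟩⟩
  change Sl t i (co (m - n') γ i z)
  have : co (m - n') γ i z = v := by
    rw [co, lat_sub, hn', ← sub_add, act_add, act_inv_act, add_sub_cancel_right]
  rw [this]
  exact ⟨h1, h2, hi1, hi2⟩

theorem dense_open {t : ℕ} (ht : 0 < t) {n : ℤ × ℤ} {γ : Gp} {i : ℕ} {z : Plane}
    (hz : Sl t i (co n γ i z)) {U : Set Plane} (hU : IsOpen U) (hzU : z ∈ U) :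
    ∃ w ∈ U, SlO t i (co n γ i w) := by
  set c := loc n γ i (mkp (mid t i)) with hc
  have hcc : co n γ i c = mid t i := by rw [hc, co_loc, cu_mkp (mid_sum t i)]
  have hcont : Continuous fun s : ℝ => z + s • (c - z) := by fun_prop
  have h0 : (fun s : ℝ => z + s • (c - z)) 0 ∈ U := by simpa using hzU
  have hev : ∀ᶠ s in 𝓝[>] (0 : ℝ), z + s • (c - z) ∈ U :=
    nhdsWithin_le_nhds ((hU.preimage hcont).mem_nhds h0)
  have hev2 : ∀ᶠ s in 𝓝[>] (0 : ℝ), s ∈ Set.Ioo (0 : ℝ) 1 := Ioo_mem_nhdsGT one_pos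
  obtain ⟨s, hs1, hs2, hs3⟩ := (hev.and hev2).exists
  refine ⟨_, hs1, ?_⟩
  have e : co n γ i (z + s • (c - z)) = (1 - s) • co n γ i z + s • mid t i := by
    rw [← hcc]
    simp only [co, cu_add, cu_smul, cu_sub]
    have : cu z + s • (cu c - cu z) - lat n = (1 - s) • (cu z - lat n) + s • (cu c - lat n) := by
      funext k
      simp only [Pi.add_apply, Pi.sub_apply, Pi.smul_apply, smul_eq_mul]
      ring
    rw [this, act_add, act_smul, act_smul]
    funext k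
    simp only [Pi.add_apply, Pi.sub_apply, Pi.smul_apply, smul_eq_mul]
    ring
  rw [e]
  obtain ⟨a1, a2, a3, a4⟩ := hz
  obtain ⟨b1, b2, b3, b4⟩ := mid_slO ht i
  set v := co n γ i z
  set w := mid t i
  have hs4 : 0 ≤ 1 - s := by linarith
  have m : (t : ℝ) * ((1 - s) * v 0 + s * w 0 - ((1 - s) * v 2 + s * w 2)) =
      (1 - s) * (t * (v 0 - v 2)) + s * (t * (w 0 - w 2)) := by ring
  refine ⟨?_, ?_, ?_, ?_⟩
  · change 0 < (1 - s) * v 1 + s * w 1
    exact add_pos_of_nonneg_of_pos (mul_nonneg hs4 a1) (mul_pos hs2 b1)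
  · change (1 - s) * v 1 + s * w 1 < (1 - s) * v 0 + s * w 0
    exact add_lt_add_of_le_of_lt (mul_le_mul_of_nonneg_left a2 hs4) (mul_lt_mul_of_pos_left b2 hs2)
  · change (i : ℝ) < t * ((1 - s) * v 0 + s * w 0 - ((1 - s) * v 2 + s * w 2))
    rw [m]
    have := add_lt_add_of_le_of_lt (mul_le_mul_of_nonneg_left a3 hs4)
      (mul_lt_mul_of_pos_left b3 hs2)
    linarith
  · change t * ((1 - s) * v 0 + s * w 0 - ((1 - s) * v 2 + s * w 2)) < (i : ℝ) + 1
    rw [m]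
    have := add_lt_add_of_le_of_lt (mul_le_mul_of_nonneg_left a4 hs4)
      (mul_lt_mul_of_pos_left b4 hs2)
    linarith

theorem isTiling_fam {t : ℕ} (ht : 0 < t) : IsTiling (fam t) where
  countable := Set.countable_range _
  closed := by
    rintro _ ⟨n, rfl⟩
    exact tile_closed t n
  cover := by
    rw [Set.eq_univ_iff_forall]
    intro z
    obtain ⟨n, hn⟩ := cover ht z
    exact ⟨tile t n, ⟨n, rfl⟩, hn⟩
  disjoint := by
    rintro _ ⟨n, rfl⟩ _ ⟨n', rfl⟩ hne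
    rw [Set.disjoint_left]
    intro z hz hz'
    apply hne
    obtain ⟨⟨γ, i⟩, hp⟩ := Set.mem_iUnion.1 (interior_subset hz)
    obtain ⟨w, ⟨hw1, hw2⟩, hw⟩ := dense_open ht (show Sl t i (co n γ i z) from hp)
      (isOpen_interior.inter isOpen_interior) ⟨hz, hz'⟩
    obtain ⟨⟨γ', i'⟩, hp'⟩ := Set.mem_iUnion.1 (interior_subset hw2)
    have := comp_unique i'.2 i.2 (show Sl t i' (co n' γ' i' w) from hp') hw
    rw [this.1]

/-! ### Symmetries -/

/-- the action of the group on the lattice -/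
noncomputable def mv (γ : Gp) (n : ℤ × ℤ) : ℤ × ℤ := (exists_act_lat γ n).choose

theorem lat_mv (γ : Gp) (n : ℤ × ℤ) : lat (mv γ n) = act γ (lat n) :=
  (exists_act_lat γ n).choose_spec

/-- the symmetries of the tiling -/
noncomputable def sy (γ : Gp) (m : ℤ × ℤ) : Plane ≃ᵢ Plane :=
  (rot γ).trans (IsometryEquiv.addRight (mkp (lat m)))

theorem cu_sy_symm (γ : Gp) (m : ℤ × ℤ) (z : Plane) :
    cu ((sy γ m).symm z) = act γ⁻¹ (cu z - lat m) := by
  change cu ((rot γ).symm (z - mkp (lat m))) = _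
  rw [cu_rot_symm, cu_sub, cu_mkp (lat_sum _)]

theorem image_comp (t : ℕ) (γ₀ : Gp) (m n : ℤ × ℤ) (γ : Gp) (i : ℕ) :
    sy γ₀ m '' comp t n γ i = comp t (mv γ₀ n + m) (γ₀ * γ) i := by
  rw [← IsometryEquiv.preimage_symm]
  ext z
  change Sl t i (co n γ i ((sy γ₀ m).symm z)) ↔ Sl t i (co (mv γ₀ n + m) (γ₀ * γ) i z)
  have : co n γ i ((sy γ₀ m).symm z) = co (mv γ₀ n + m) (γ₀ * γ) i z := by
    rw [co, co, cu_sy_symm, lat_add, lat_mv]
    congr 1
    have : lat n = act γ₀⁻¹ (act γ₀ (lat n)) := (act_inv_act _ _).symm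
    rw [this, ← act_sub, ← act_mul, ← mul_inv_rev, act_inv_act]
    congr 1
    abel
  rw [this]

theorem image_tile (t : ℕ) (γ₀ : Gp) (m n : ℤ × ℤ) :
    sy γ₀ m '' tile t n = tile t (mv γ₀ n + m) := by
  rw [tile, Set.image_iUnion, tile]
  apply le_antisymm
  · apply Set.iUnion_subset
    rintro ⟨γ, i⟩
    rw [image_comp]
    exact Set.subset_iUnion_of_subset (γ₀ * γ, i) subset_rfl
  · apply Set.iUnion_subset
    rintro ⟨γ, i⟩
    refine Set.subset_iUnion_of_subset (γ₀⁻¹ * γ, i) ?_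
    rw [image_comp, mul_inv_cancel_left]

theorem isSymmetry_sy (t : ℕ) (γ₀ : Gp) (m : ℤ × ℤ) : IsSymmetry (fam t) (sy γ₀ m) := by
  ext T
  constructor
  · rintro ⟨_, ⟨n, rfl⟩, rfl⟩
    exact ⟨_, (image_tile t γ₀ m n).symm⟩
  · rintro ⟨n, rfl⟩
    refine ⟨tile t (mv γ₀⁻¹ (n - m)), ⟨_, rfl⟩, ?_⟩
    change sy γ₀ m '' _ = _
    rw [image_tile]
    congr 1
    apply lat_inj
    rw [lat_add, lat_mv, lat_mv, act_act_inv, lat_sub, sub_add_cancel]

theorem mv_one (n : ℤ × ℤ) : mv 1 n = n := by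
  apply lat_inj
  rw [lat_mv, act_one]

theorem isohedral_fam (t : ℕ) : Isohedral (fam t) := by
  rintro _ ⟨n, rfl⟩ _ ⟨n', rfl⟩
  refine ⟨sy 1 (n' - n), isSymmetry_sy t _ _, ?_⟩
  rw [image_tile, mv_one]
  congr 1
  abel

theorem card_gp (t : ℕ) : Fintype.card (Gp × Fin t) = 12 * t := by
  rw [Fintype.card_prod, Fintype.card_prod, Fintype.card_perm, Fintype.card_fin, Fintype.card_fin,
    Fintype.card_units_int]
  norm_num [Nat.factorial]

theorem isClassTiling_fam {t : ℕ} (ht : 0 < t) : IsClassTiling (fam t) (12 * t) t := by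
  refine ⟨isTiling_fam ht, isohedral_fam t, ?_⟩
  rintro _ ⟨n, rfl⟩
  let e : Fin (12 * t) ≃ Gp × Fin t := (Fintype.equivFinOfCardEq (card_gp t)).symm
  refine ⟨fun j => comp t n (e j).1 (e j).2, fun j => comp_disk ht _ _ _, ?_, ?_,
    fun j => (e j).2, ?_, ?_⟩
  · intro j j' hj
    apply comp_disjoint n (e j).2.2 (e j').2.2
    intro h
    apply hj
    apply e.injective
    rw [Prod.mk.injEq] at h
    exact Prod.ext h.1 (Fin.ext h.2)
  · rw [tile]
    exact (e.surjective.iUnion_comp fun p : Gp × Fin t => comp t n p.1 p.2).symm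
  · intro i
    exact ⟨e.symm (1, i), by simp⟩
  · intro j j'
    constructor
    · intro h
      refine ⟨sy ((e j').1 * (e j).1⁻¹) (n - mv ((e j').1 * (e j).1⁻¹) n), isSymmetry_sy t _ _,
        ?_, ?_⟩
      · rw [image_tile]
        congr 1
        abel
      · have h' : (e j).2 = (e j').2 := h
        have h2 : mv ((e j').1 * (e j).1⁻¹) n + (n - mv ((e j').1 * (e j).1⁻¹) n) = n := by abel
        rw [image_comp, inv_mul_cancel_right, h', h2]
    · rintro ⟨g, -, -, hg⟩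
      exact Fin.ext (comp_congr ht g hg)

end Pool.Agent.X165.KC
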