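import Pool.Agent.TH915.HC.Fin

/-! Sequences `G n / n` with `G` nonnegative, nondecreasing and of linear growth: averages, visits,
subsequences. -/

set_option autoImplicit false

open Filter Finset
open scoped Topology

namespace Pool.Agent.X165.LS

open Pool.Agent.H160R3.Herm Pool.Agent.TH915.HC

/-- `G` is nonnegative and nondecreasing, and `G n ≤ b n` -/
structure Lin (G : ℕ → ℝ) (b : ℝ) : Prop where
  nonneg : ∀ n, 0 ≤ G n
  mono : ∀ n m, 0 < n → n ≤ m → G n ≤ G m
  le : ∀ n, G n ≤ b * n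

variable {G : ℕ → ℝ} {b : ℝ}

lemma Lin.b_nonneg (h : Lin G b) : 0 ≤ b := by
  have h1 := h.nonneg 1
  have h2 := h.le 1
  simp only [Nat.cast_one, mul_one] at h2
  linarith

lemma Lin.slow (h : Lin G b) : SlowDec (fun n => G n / n) (fun θ => b * θ) 0 b where
  lower n := div_nonneg (h.nonneg n) (Nat.cast_nonneg n)
  upper n := by
    rcases Nat.eq_zero_or_pos n with h0 | h0
    · subst h0
      simpa using h.b_nonneg
    · rw [div_le_iff₀ (by exact_mod_cast h0)]
      exact h.le n
  small ε hε := by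
    have hb := h.b_nonneg
    refine ⟨ε / (b + 1), by positivity, fun θ h0 h1 => ?_⟩
    rw [lt_div_iff₀ (by linarith)] at h1
    nlinarith
  step n m hn hnm := by
    have hn' : (0 : ℝ) < n := by exact_mod_cast hn
    have hm' : (0 : ℝ) < m := by exact_mod_cast lt_of_lt_of_le hn hnm
    have hnm' : (n : ℝ) ≤ m := by exact_mod_cast hnm
    have h1 := h.mono n m hn hnm
    have h2 : G n / n ≤ b := by
      rw [div_le_iff₀ hn']
      exact h.le n
    have h3 : G n / m ≤ G m / m := by gcongr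
    have h4 : G n / n - G n / m = G n / n * (1 - n / m) := by
      field_simp
    have h5 : 0 ≤ 1 - (n : ℝ) / m := by
      rw [sub_nonneg, div_le_one hm']
      exact hnm'
    have h6 := mul_le_mul_of_nonneg_right h2 h5
    show G n / n - G m / m ≤ b * (1 - n / m)
    linarith

/-- truncation at a larger slope -/
lemma Lin.trunc (h : Lin G b) {c : ℝ} (hc : 0 ≤ c) : Lin (fun n => min (G n) (c * n)) c where
  nonneg n := le_min (h.nonneg n) (by positivity)
  mono n m hn hnm := by
    refine min_le_min (h.mono n m hn hnm) ?_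
    have : (n : ℝ) ≤ m := by exact_mod_cast hnm
    gcongr
  le n := min_le_right _ _

lemma Lin.trunc_ev (h : Lin G b) {c : ℝ}
    (hc : limsup (fun n : ℕ => G n / (n : ℝ)) atTop < c) :
    (fun n : ℕ => G n / (n : ℝ)) =ᶠ[atTop] fun n : ℕ => min (G n) (c * n) / (n : ℝ) := by
  have h1 := eventually_lt_of_limsup_lt hc (h.slow.bddU _)
  filter_upwards [h1, eventually_gt_atTop 0] with n hn hn0
  have hn' : (0 : ℝ) < n := by exact_mod_cast hn0
  rw [div_lt_iff₀ hn'] at hn
  rw [min_eq_left hn.le]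

/-- the means of two bounded sequences which agree eventually have the same limits -/
lemma mean_sub_tendsto {u v : ℕ → ℝ} (h : u =ᶠ[atTop] v) :
    Tendsto (fun N => mean u N - mean v N) atTop (𝓝 0) := by
  obtain ⟨K, hK⟩ := eventually_atTop.1 h
  obtain ⟨C, hC⟩ : ∃ C : ℝ, C = ∑ n ∈ Icc 1 K, |u n - v n| := ⟨_, rfl⟩
  have hC0 : 0 ≤ C := by rw [hC]; positivity
  have h1 : Tendsto (fun N : ℕ => C / (N : ℝ)) atTop (𝓝 0) :=
    tendsto_const_div_atTop_nhds_zero_nat C
  rw [tendsto_zero_iff_abs_tendsto_zero]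
  refine squeeze_zero (fun N => abs_nonneg _) (fun N => ?_) h1
  show |mean u N - mean v N| ≤ C / N
  unfold mean
  rw [← sub_div, ← sum_sub_distrib, abs_div, Nat.abs_cast]
  gcongr
  refine (abs_sum_le_sum_abs _ _).trans ?_
  rw [hC]
  calc ∑ n ∈ Icc 1 N, |u n - v n| = ∑ n ∈ (Icc 1 N).filter (· ≤ K), |u n - v n| := by
        symm
        apply sum_filter_of_ne
        intro n _ hn
        by_contra hcon
        push Not at hcon
        rw [hK n hcon.le, sub_self, abs_zero] at hn
        exact hn rfl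
    _ ≤ ∑ n ∈ Icc 1 K, |u n - v n| := by
        refine sum_le_sum_of_subset_of_nonneg (fun n hn => ?_) fun _ _ _ => abs_nonneg _
        rw [mem_filter, mem_Icc] at hn
        rw [mem_Icc]
        exact ⟨hn.1.1, hn.2⟩

lemma limsup_eq_of_sub {u v : ℕ → ℝ} (h : Tendsto (fun n => u n - v n) atTop (𝓝 0))
    (hu : IsBoundedUnder (· ≤ ·) atTop u) (hu' : IsBoundedUnder (· ≥ ·) atTop u)
    (hv : IsBoundedUnder (· ≤ ·) atTop v) (hv' : IsBoundedUnder (· ≥ ·) atTop v) :
    limsup u atTop = limsup v atTop ∧ liminf u atTop = liminf v atTop := by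
  have key : ∀ ε : ℝ, 0 < ε → ∀ᶠ n in atTop, |u n - v n| < ε := by
    intro ε hε
    have := (Metric.tendsto_nhds.1 h) ε hε
    simpa [Real.dist_eq] using this
  have a1 : ∀ {f g : ℕ → ℝ}, (∀ ε : ℝ, 0 < ε → ∀ᶠ n in atTop, |f n - g n| < ε) →
      IsBoundedUnder (· ≥ ·) atTop f → IsBoundedUnder (· ≤ ·) atTop g →
      limsup f atTop ≤ limsup g atTop := by
    intro f g hfg hf hg
    refine le_of_forall_pos_le_add fun ε hε => ?_
    refine limsup_le_of_le hf.isCoboundedUnder_le ?_
    have := eventually_lt_of_limsup_lt (lt_add_of_pos_right (limsup g atTop) (half_pos hε)) hg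
    filter_upwards [this, hfg (ε / 2) (half_pos hε)] with n h1 h2
    have := (abs_lt.1 h2).2
    linarith
  have a2 : ∀ {f g : ℕ → ℝ}, (∀ ε : ℝ, 0 < ε → ∀ᶠ n in atTop, |f n - g n| < ε) →
      IsBoundedUnder (· ≥ ·) atTop f → IsBoundedUnder (· ≤ ·) atTop g →
      liminf f atTop ≤ liminf g atTop := by
    intro f g hfg hf hg
    refine le_of_forall_pos_le_add fun ε hε => ?_
    have h3 : liminf f atTop - ε ≤ liminf g atTop := by
      refine le_liminf_of_le hg.isCoboundedUnder_ge ?_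
      have := eventually_lt_of_lt_liminf (sub_lt_self (liminf f atTop) (half_pos hε)) hf
      filter_upwards [this, hfg (ε / 2) (half_pos hε)] with n h1 h2
      have := (abs_lt.1 h2).2
      linarith
    linarith
  have key' : ∀ ε : ℝ, 0 < ε → ∀ᶠ n in atTop, |v n - u n| < ε := fun ε hε =>
    (key ε hε).mono fun n hn => by rwa [abs_sub_comm]
  exact ⟨le_antisymm (a1 key hu' hv) (a1 key' hv' hu), le_antisymm (a2 key hu' hv) (a2 key' hv' hu)⟩

/-- **the oscillation of the means** -/
theorem Lin.osc (h : Lin G b) :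
    (limsup (fun n : ℕ => G n / (n : ℝ)) atTop - liminf (fun n : ℕ => G n / (n : ℝ)) atTop) ^ 2 ≤
      16 * limsup (fun n : ℕ => G n / (n : ℝ)) atTop *
        (limsup (mean fun n : ℕ => G n / (n : ℝ)) atTop -
          liminf (mean fun n : ℕ => G n / (n : ℝ)) atTop) := by
  set u : ℕ → ℝ := fun n : ℕ => G n / (n : ℝ) with hu
  set p := limsup u atTop with hp
  set q := liminf u atTop with hq
  set P := limsup (mean u) atTop with hP
  set Q := liminf (mean u) atTop with hQ
  have hq0 : 0 ≤ q := by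
    refine le_liminf_of_le (h.slow.bddU _).isCoboundedUnder_ge ?_
    exact Eventually.of_forall fun n => h.slow.lower n
  have hqp : q ≤ p := liminf_le_limsup (h.slow.bddU _) (h.slow.bddL _)
  have key : ∀ c : ℝ, p < c → (p - q) ^ 2 ≤ 16 * c * (P - Q) := by
    intro c hc
    have hc0 : 0 < c := by linarith
    have hT := h.trunc hc0.le
    have hev := h.trunc_ev hc
    obtain ⟨v, hv⟩ : ∃ v : ℕ → ℝ, v = fun n : ℕ => min (G n) (c * n) / (n : ℝ) := ⟨_, rfl⟩
    have hSv : SlowDec v (fun θ => c * θ) 0 c := by rw [hv]; exact hT.slow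
    have huv : u =ᶠ[atTop] v := by rw [hv]; exact hev
    have e1 : p = limsup v atTop := limsup_congr huv
    have e2 : q = liminf v atTop := liminf_congr huv
    obtain ⟨e3, e4⟩ := limsup_eq_of_sub (mean_sub_tendsto huv) (TH915.HC.bddU h.slow)
      (TH915.HC.bddL h.slow) (TH915.HC.bddU hSv) (TH915.HC.bddL hSv)
    rcases hqp.eq_or_lt with h0 | h0
    · rw [h0]
      have hPQ : Q ≤ P := liminf_le_limsup (TH915.HC.bddU h.slow) (TH915.HC.bddL h.slow)
      have : 0 ≤ 16 * c * (P - Q) := by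
        apply mul_nonneg (by positivity)
        linarith
      simpa using this
    · have hδ0 : 0 < (p - q) / (4 * c) := div_pos (by linarith) (by positivity)
      have hδ1 : (p - q) / (4 * c) < 1 := by
        rw [div_lt_one (by positivity)]
        linarith
      have h1 := osc_mean hSv hδ0 hδ1 (E := (p - q) / 4) (fun θ h0 h1 => by
        show c * θ ≤ _
        calc c * θ ≤ c * ((p - q) / (4 * c)) := by gcongr
          _ = (p - q) / 4 := by field_simp)
      rw [← e1, ← e2, ← e3, ← e4] at h1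
      have hPQ : Q ≤ P := liminf_le_limsup (TH915.HC.bddU h.slow) (TH915.HC.bddL h.slow)
      have h2 : (p - q) / (4 * c) * (p - q - 2 * ((p - q) / 4)) ≤ 2 * (P - Q) := by
        refine h1.trans ?_
        have : 0 ≤ (p - q) / (4 * c) * (P - Q) := mul_nonneg hδ0.le (by linarith)
        nlinarith
      have h3 : (p - q) / (4 * c) * (p - q - 2 * ((p - q) / 4)) = (p - q) ^ 2 / (8 * c) := by
        field_simp
        ring
      rw [h3, div_le_iff₀ (by positivity)] at h2
      linarith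
  have hlim : Tendsto (fun c : ℝ => 16 * c * (P - Q)) (𝓝[>] p) (𝓝 (16 * p * (P - Q))) := by
    have : Continuous fun c : ℝ => 16 * c * (P - Q) := by fun_prop
    exact (this.tendsto p).mono_left nhdsWithin_le_nhds
  exact ge_of_tendsto hlim (by
    filter_upwards [self_mem_nhdsWithin] with c hc
    exact key c hc)

/-- **visits to neighbourhoods** -/
theorem Lin.visits (h : Lin G b) {c ε x : ℝ}
    (hc : limsup (fun n : ℕ => G n / (n : ℝ)) atTop < c) (hε : 0 < ε) (hε2 : ε ≤ 2 * c)
    (hx1 : liminf (fun n : ℕ => G n / (n : ℝ)) atTop ≤ x)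
    (hx2 : x ≤ limsup (fun n : ℕ => G n / (n : ℝ)) atTop) :
    ∃ᶠ N : ℕ in atTop, ε / (9 * c) * (N : ℝ) ≤
      ({n : ℕ | n ∈ Finset.Icc 1 N ∧ |G n / (n : ℝ) - x| < ε}.ncard : ℝ) := by
  have hc0 : 0 < c := by linarith
  have hT := h.trunc hc0.le
  have huv := h.trunc_ev hc
  have e1 := limsup_congr huv
  have e2 := liminf_congr huv
  have hd := density hT.slow (δ := ε / (4 * c)) (ε := ε) (x := x) (by positivity) (by
    rw [div_le_iff₀ (by positivity)]
    linarith) hε (fun θ h0 h1 => by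
      show c * θ ≤ _
      calc c * θ ≤ c * (ε / (4 * c)) := by gcongr
        _ = ε / 4 := by field_simp) (by rw [← e2]; exact hx1) (by rw [← e1]; exact hx2)
  obtain ⟨K, hK⟩ := eventually_atTop.1 huv
  obtain ⟨M, hM⟩ := exists_nat_gt (K / (ε / (72 * c)))
  refine (hd.and_eventually (eventually_ge_atTop M)).mono fun N hN => ?_
  obtain ⟨h1, h2⟩ := hN
  have hsub : {n : ℕ | n ∈ Finset.Icc 1 N ∧ |min (G n) (c * n) / (n : ℝ) - x| < ε} ⊆
      {n : ℕ | n ∈ Finset.Icc 1 N ∧ |G n / (n : ℝ) - x| < ε} ∪ (Finset.Icc 1 K : Finset ℕ) := by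
    rintro n ⟨hn1, hn2⟩
    by_cases hnK : n ≤ K
    · right
      rw [Finset.mem_coe, Finset.mem_Icc]
      exact ⟨(Finset.mem_Icc.1 hn1).1, hnK⟩
    · left
      refine ⟨hn1, ?_⟩
      have := hK n (by omega)
      simp only at this
      rw [this]
      exact hn2
  have hfin : ({n : ℕ | n ∈ Finset.Icc 1 N ∧ |G n / (n : ℝ) - x| < ε} ∪
      (Finset.Icc 1 K : Finset ℕ)).Finite :=
    ((Finset.Icc 1 N).finite_toSet.subset fun n hn => hn.1).union (Finset.Icc 1 K).finite_toSet
  have h3 := Set.ncard_le_ncard hsub hfin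
  have h4 := Set.ncard_union_le {n : ℕ | n ∈ Finset.Icc 1 N ∧ |G n / (n : ℝ) - x| < ε}
    ((Finset.Icc 1 K : Finset ℕ) : Set ℕ)
  rw [Set.ncard_coe_finset (Finset.Icc 1 K), Nat.card_Icc, Nat.add_sub_cancel] at h4
  have h5 : (TH915.HC.visits (fun n => min (G n) (c * n) / (n : ℝ)) x ε N : ℝ) ≤
      ({n : ℕ | n ∈ Finset.Icc 1 N ∧ |G n / (n : ℝ) - x| < ε}.ncard : ℝ) + K := by
    have : TH915.HC.visits (fun n => min (G n) (c * n) / (n : ℝ)) x ε N ≤
      {n : ℕ | n ∈ Finset.Icc 1 N ∧ |G n / (n : ℝ) - x| < ε}.ncard + K := h3.trans h4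
    exact_mod_cast this
  have h6 : (K : ℝ) ≤ ε / (72 * c) * N := by
    have h7 : (M : ℝ) ≤ N := by exact_mod_cast h2
    rw [div_lt_iff₀ (by positivity)] at hM
    have h8 : 0 < ε / (72 * c) := by positivity
    nlinarith
  have h9 : ε / (4 * c) / 2 * (N : ℝ) = ε / (9 * c) * N + ε / (72 * c) * N := by
    field_simp
    ring
  linarith

/-- lacunary sequences -/
theorem Lin.lacunary (h : Lin G b) {φ : ℕ → ℕ} (hφ : StrictMono φ) {q : ℝ} (hq : 1 ≤ q)
    (hr : ∀ᶠ j in atTop, (φ (j + 1) : ℝ) ≤ q * φ j) :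
    limsup (fun n : ℕ => G n / (n : ℝ)) atTop ≤
        q * limsup (fun j : ℕ => G (φ j) / (φ j : ℝ)) atTop ∧
      liminf (fun j : ℕ => G (φ j) / (φ j : ℝ)) atTop ≤
        q * liminf (fun n : ℕ => G n / (n : ℝ)) atTop := by
  have hφt : Tendsto φ atTop atTop := hφ.tendsto_atTop
  have hb := h.b_nonneg
  set u : ℕ → ℝ := fun n : ℕ => G n / (n : ℝ) with hu
  have hu0 : ∀ n, 0 ≤ u n := h.slow.lower
  have hub : ∀ n, u n ≤ b := h.slow.upper
  have hU : IsBoundedUnder (· ≤ ·) atTop (fun j => u (φ j)) :=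
    isBoundedUnder_of ⟨b, fun j => hub _⟩
  have hL : IsBoundedUnder (· ≥ ·) atTop (fun j => u (φ j)) :=
    isBoundedUnder_of ⟨0, fun j => hu0 _⟩
  -- comparison
  obtain ⟨J, hJ⟩ := eventually_atTop.1 hr
  -- we may assume 0 < φ J
  obtain ⟨J', hJ'⟩ : ∃ J' : ℕ, J ≤ J' ∧ 0 < φ J' :=
    ⟨max J 1, le_max_left _ _, lt_of_lt_of_le (lt_of_lt_of_le one_pos (le_max_right J 1))
      (hφ.id_le (max J 1))⟩
  have hcmp' : ∀ n : ℕ, φ J' ≤ n → ∃ j, J' ≤ j ∧ φ j ≤ n ∧ n < φ (j + 1) ∧
      u n ≤ q * u (φ (j + 1)) ∧ u (φ j) ≤ q * u n := by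
    intro n hn
    have hn0 : 0 < n := lt_of_lt_of_le hJ'.2 hn
    obtain ⟨j, hj1, hj2, hj3⟩ := exists_index hφ hn
    have hpj : 0 < φ j := lt_of_lt_of_le hJ'.2 (hφ.monotone hj1)
    have a1 : (0 : ℝ) < φ j := by exact_mod_cast hpj
    have a2 : (φ j : ℝ) ≤ n := by exact_mod_cast hj2
    have a3 : (n : ℝ) ≤ φ (j + 1) := by exact_mod_cast hj3.le
    have a4 : (0 : ℝ) < n := by linarith
    have a5 : (0 : ℝ) < φ (j + 1) := by linarith
    have a6 := hJ j (hJ'.1.trans hj1)
    have g1 := h.mono n (φ (j + 1)) hn0 hj3.le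
    have g2 := h.mono (φ j) n hpj hj2
    refine ⟨j, hj1, hj2, hj3, ?_, ?_⟩
    · show G n / n ≤ q * (G (φ (j + 1)) / φ (j + 1))
      rw [div_le_iff₀ a4, mul_assoc, div_mul_eq_mul_div, mul_div_assoc', le_div_iff₀ a5]
      have g3 : (φ (j + 1) : ℝ) ≤ q * n := a6.trans (by gcongr)
      calc G n * φ (j + 1) ≤ G (φ (j + 1)) * (q * n) :=
            mul_le_mul g1 g3 a5.le (h.nonneg _)
        _ = q * (G (φ (j + 1)) * n) := by ring
    · show G (φ j) / φ j ≤ q * (G n / n)
      rw [div_le_iff₀ a1, mul_assoc, div_mul_eq_mul_div, mul_div_assoc', le_div_iff₀ a4]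
      have g3 : (n : ℝ) ≤ q * φ j := a3.trans a6
      calc G (φ j) * n ≤ G n * (q * φ j) := mul_le_mul g2 g3 a4.le (h.nonneg _)
        _ = q * (G n * φ j) := by ring
  have hq0 : 0 < q := by linarith
  constructor
  · refine le_of_forall_pos_le_add fun ε hε => ?_
    refine limsup_le_of_le (h.slow.bddL _).isCoboundedUnder_le ?_
    have h1 := eventually_lt_of_limsup_lt
      (lt_add_of_pos_right (limsup (fun j => u (φ j)) atTop) (show 0 < ε / q by positivity)) hU
    obtain ⟨K, hK⟩ := eventually_atTop.1 h1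
    filter_upwards [eventually_ge_atTop (φ (max J' K))] with n hn
    obtain ⟨j, hj1, hj2, hj3, hj4, -⟩ := hcmp' n ((hφ.monotone (le_max_left _ _)).trans hn)
    have hjK : K ≤ j + 1 := by
      by_contra hcon
      have h2 : j + 1 ≤ max J' K := by
        have := le_max_right J' K
        omega
      have h3 := hφ.monotone h2
      omega
    have h2 := hK (j + 1) hjK
    refine hj4.trans ?_
    have h3 := mul_le_mul_of_nonneg_left h2.le hq0.le
    rw [mul_add, mul_div_cancel₀ _ hq0.ne'] at h3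
    exact h3
  · have h0 : liminf (fun j => u (φ j)) atTop / q ≤ liminf u atTop := by
      refine le_of_forall_pos_le_add fun ε hε => ?_
      have h4 : liminf (fun j => u (φ j)) atTop / q - ε ≤ liminf u atTop := by
        refine le_liminf_of_le (h.slow.bddU _).isCoboundedUnder_ge ?_
        have h1 := eventually_lt_of_lt_liminf
          (sub_lt_self (liminf (fun j => u (φ j)) atTop) (show 0 < ε * q by positivity)) hL
        obtain ⟨K, hK⟩ := eventually_atTop.1 h1
        filter_upwards [eventually_ge_atTop (φ (max J' (K + 1)))] with n hn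
        obtain ⟨j, hj1, hj2, hj3, -, hj5⟩ := hcmp' n ((hφ.monotone (le_max_left _ _)).trans hn)
        have hjK : K ≤ j := by
          by_contra hcon
          have h2 : j + 1 ≤ max J' (K + 1) := by
            have := le_max_right J' (K + 1)
            omega
          have h3 := hφ.monotone h2
          omega
        have h2 := hK j hjK
        rw [sub_le_iff_le_add, div_le_iff₀ hq0]
        nlinarith
      linarith
    rw [div_le_iff₀ hq0] at h0
    linarith

end Pool.Agent.X165.LS
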