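import Mathlib

/-!
Cards of a graph and orbits of its automorphism group (for MP_73128c_co).
-/

namespace Pool.Agent.X165.PSV

open SimpleGraph

variable {V : Type*}

/-- The cards `G - u` and `G - v` are isomorphic. -/
def SameCard (G : SimpleGraph V) (u v : V) : Prop :=
  Nonempty (G.induce {x | x ≠ u} ≃g G.induce {x | x ≠ v})

/-- `u` and `v` are in the same orbit of `Aut(G)`. -/
def SameOrbit (G : SimpleGraph V) (u v : V) : Prop :=
  ∃ φ : G ≃g G, φ u = v

/-- The number of isomorphism types of cards of `G`. -/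
noncomputable def cardTypes (G : SimpleGraph V) : ℕ := Nat.card (Quot (SameCard G))

/-- The number of orbits of `Aut(G)` on the vertices. -/
noncomputable def autOrbits (G : SimpleGraph V) : ℕ := Nat.card (Quot (SameOrbit G))

theorem SameCard.refl (G : SimpleGraph V) (u : V) : SameCard G u u := ⟨Iso.refl⟩

theorem SameCard.symm {G : SimpleGraph V} {u v : V} (h : SameCard G u v) : SameCard G v u :=
  h.elim fun φ => ⟨φ.symm⟩

theorem SameCard.trans {G : SimpleGraph V} {u v w : V} (h : SameCard G u v)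
    (h' : SameCard G v w) : SameCard G u w :=
  h.elim fun φ => h'.elim fun ψ => ⟨φ.trans ψ⟩

/-- A bijection of the vertices taking `u` to `v` and preserving adjacency away from `u`
gives an isomorphism of cards. -/
theorem sameCard_of_perm (G : SimpleGraph V) (u v : V) (σ : V ≃ V) (hu : σ u = v)
    (h : ∀ x y, x ≠ u → y ≠ u → (G.Adj (σ x) (σ y) ↔ G.Adj x y)) : SameCard G u v := by
  have hiff : ∀ a, a ∈ {x | x ≠ u} ↔ σ a ∈ {x | x ≠ v} := by
    intro a
    simp only [Set.mem_setOf_eq, ne_eq]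
    rw [← hu, σ.apply_eq_iff_eq]
  refine ⟨⟨σ.subtypeEquiv hiff, ?_⟩⟩
  rintro ⟨x, hx⟩ ⟨y, hy⟩
  simp only [Equiv.subtypeEquiv_apply, comap_adj, Function.Embedding.subtype_apply]
  exact h x y hx hy

/-- An automorphism induces an isomorphism of cards. -/
theorem SameOrbit.sameCard {G : SimpleGraph V} {u v : V} (h : SameOrbit G u v) :
    SameCard G u v := by
  obtain ⟨φ, hφ⟩ := h
  exact sameCard_of_perm G u v φ.toEquiv hφ (fun x y _ _ => φ.map_adj_iff)

/-- Counting classes by a complete invariant. -/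
theorem card_quot_eq {r : V → V → Prop} {k : ℕ} (c : V → Fin k) (hc : Function.Surjective c)
    (h : ∀ u v, r u v ↔ c u = c v) : Nat.card (Quot r) = k := by
  let f : Quot r → Fin k := Quot.lift c (fun a b hab => (h a b).mp hab)
  have hf : Function.Bijective f := by
    constructor
    · intro a b
      induction a using Quot.ind
      induction b using Quot.ind
      intro hab
      exact Quot.sound ((h _ _).mpr hab)
    · intro i
      obtain ⟨v, hv⟩ := hc i
      exact ⟨Quot.mk r v, hv⟩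
  rw [Nat.card_congr (Equiv.ofBijective f hf), Nat.card_eq_fintype_card, Fintype.card_fin]

section Count

variable [Fintype V] [DecidableEq V]

/-- Degree of `x` in the card `G - u`. -/
def cdeg (G : SimpleGraph V) [DecidableRel G.Adj] (u : V) (x : {x : V | x ≠ u}) : ℕ :=
  Fintype.card {y : {x : V | x ≠ u} // G.Adj x.1 y.1}

/-- Number of vertices of degree `d` in the card `G - u`. -/
def cnt (G : SimpleGraph V) [DecidableRel G.Adj] (u : V) (d : ℕ) : ℕ :=
  Fintype.card {x : {x : V | x ≠ u} // cdeg G u x = d}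

theorem SameCard.cnt_eq {G : SimpleGraph V} [DecidableRel G.Adj] {u v : V}
    (h : SameCard G u v) (d : ℕ) : cnt G u d = cnt G v d := by
  obtain ⟨φ⟩ := h
  have hdeg : ∀ x, cdeg G u x = cdeg G v (φ x) := by
    intro x
    refine Fintype.card_congr (φ.toEquiv.subtypeEquiv ?_)
    intro y
    have := φ.map_adj_iff (v := x) (w := y)
    simp only [comap_adj, Function.Embedding.subtype_apply] at this
    exact this.symm
  refine Fintype.card_congr (φ.toEquiv.subtypeEquiv ?_)
  intro x
  have := hdeg x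
  change cdeg G u x = d ↔ cdeg G v (φ x) = d
  rw [this]

end Count

/-! ### The graph on 9 vertices -/

/-- The upper adjacency lists. -/
def nb9 : Fin 9 → List (Fin 9)
  | 0 => [1, 2, 3, 4]
  | 1 => [0, 2, 3, 5]
  | 2 => [0, 1, 6, 8]
  | 3 => [0, 1, 7, 8]
  | 4 => [0, 5, 6]
  | 5 => [1, 4, 7]
  | 6 => [2, 4, 8]
  | 7 => [3, 5, 8]
  | 8 => [2, 3, 6, 7]

/-- The graph. -/
def G9 : SimpleGraph (Fin 9) where
  Adj a b := (nb9 a).contains b = true
  symm := ⟨by decide⟩
  loopless := ⟨by decide⟩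

instance : DecidableRel G9.Adj := fun a b => inferInstanceAs (Decidable ((nb9 a).contains b = true))

/-- Types of cards. -/
def c9 : Fin 9 → Fin 4 := ![0, 0, 0, 0, 1, 1, 2, 2, 3]

/-- Orbits. -/
def o9 : Fin 9 → Fin 5 := ![0, 0, 1, 1, 2, 2, 3, 3, 4]

/-- Representatives of card types. -/
def rep9 : Fin 9 → Fin 9 := ![0, 0, 0, 0, 4, 4, 6, 6, 8]

/-- The involution. -/
def inv9 : Fin 9 → Fin 9 := ![1, 0, 3, 2, 5, 4, 7, 6, 8]

/-- The permutations giving the card isomorphisms. -/
def prm9 : Fin 9 → Fin 9 → Fin 9 :=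
  ![![0, 1, 2, 3, 4, 5, 6, 7, 8], inv9, ![2, 5, 7, 1, 6, 4, 8, 0, 3],
    ![3, 4, 6, 0, 7, 5, 8, 1, 2], ![0, 1, 2, 3, 4, 5, 6, 7, 8], inv9,
    ![0, 1, 2, 3, 4, 5, 6, 7, 8], inv9, ![0, 1, 2, 3, 4, 5, 6, 7, 8]]

theorem prm9_bij : ∀ u, Function.Bijective (prm9 u) := by decide +kernel

theorem inv9_bij : Function.Bijective inv9 := by decide +kernel

theorem rep_sameCard (u : Fin 9) : SameCard G9 (rep9 u) u := by
  refine sameCard_of_perm G9 _ _ (Equiv.ofBijective _ (prm9_bij u)) ?_ ?_
  · revert u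
    decide +kernel
  · intro x y
    simp only [Equiv.ofBijective_apply]
    revert u x y
    decide +kernel

theorem rep9_eq : ∀ u v, c9 u = c9 v → rep9 u = rep9 v := by decide +kernel

theorem cnt9_two : ∀ u, cnt G9 u 2 = (![1, 1, 1, 1, 2, 2, 1, 1, 2] : Fin 9 → ℕ) u := by
  decide +kernel

theorem cnt9_four : ∀ u, cnt G9 u 4 = (![1, 1, 1, 1, 4, 4, 3, 3, 2] : Fin 9 → ℕ) u := by
  decide +kernel

theorem c9_of_cnt : ∀ u v : Fin 9,
    (![1, 1, 1, 1, 4, 4, 3, 3, 2] : Fin 9 → ℕ) u = (![1, 1, 1, 1, 4, 4, 3, 3, 2] : Fin 9 → ℕ) v →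
    c9 u = c9 v := by decide +kernel

theorem sameCard_iff (u v : Fin 9) : SameCard G9 u v ↔ c9 u = c9 v := by
  constructor
  · intro h
    apply c9_of_cnt
    rw [← cnt9_four, ← cnt9_four]
    exact h.cnt_eq 4
  · intro h
    have h1 := rep_sameCard u
    rw [rep9_eq u v h] at h1
    exact h1.symm.trans (rep_sameCard v)

theorem o9_of : ∀ u v : Fin 9, c9 u = c9 v → (G9.Adj 8 u ↔ G9.Adj 8 v) → o9 u = o9 v := by
  decide +kernel

theorem c9_eq_eight : ∀ u, c9 8 = c9 u → u = 8 := by decide +kernel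

theorem sameOrbit_iff (u v : Fin 9) : SameOrbit G9 u v ↔ o9 u = o9 v := by
  constructor
  · rintro ⟨φ, hφ⟩
    have h8 : φ 8 = 8 := by
      apply c9_eq_eight
      exact (sameCard_iff _ _).mp (SameOrbit.sameCard ⟨φ, rfl⟩)
    apply o9_of
    · exact (sameCard_iff _ _).mp (SameOrbit.sameCard ⟨φ, hφ⟩)
    · have := φ.map_adj_iff (v := 8) (w := u)
      rw [h8, hφ] at this
      exact this.symm
  · intro h
    have key : v = u ∨ v = inv9 u := by
      revert u v
      decide +kernel
    rcases key with rfl | rfl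
    · exact ⟨Iso.refl, rfl⟩
    · refine ⟨⟨Equiv.ofBijective _ inv9_bij, ?_⟩, rfl⟩
      intro x y
      simp only [Equiv.ofBijective_apply]
      revert x y
      decide +kernel

theorem connected9 : G9.Connected := by
  have h1 : ∀ v : Fin 9, v = 0 ∨ G9.Adj v 0 ∨ ∃ w, G9.Adj v w ∧ G9.Adj w 0 := by
    decide +kernel
  have h2 : ∀ v : Fin 9, G9.Reachable v 0 := by
    intro v
    rcases h1 v with rfl | h | ⟨w, hw, hw0⟩
    · exact Reachable.refl _
    · exact h.reachable
    · exact hw.reachable.trans hw0.reachable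
  haveI : Nonempty (Fin 9) := ⟨0⟩
  exact Connected.mk (fun u v => (h2 u).trans (h2 v).symm)

theorem cardTypes9 : cardTypes G9 = 4 :=
  card_quot_eq c9 (by decide +kernel) sameCard_iff

theorem autOrbits9 : autOrbits G9 = 5 :=
  card_quot_eq o9 (by decide +kernel) sameOrbit_iff

end Pool.Agent.X165.PSV
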