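import Pool.Agent.X165.PSV1

/-!
Degrees and cards: pseudosimilar vertices force two degrees differing by exactly one.
-/

namespace Pool.Agent.X165.PSV

open SimpleGraph Finset

variable {V : Type*} [Fintype V] [DecidableEq V] {G : SimpleGraph V} [DecidableRel G.Adj]

theorem cdeg_eq (u : V) (x : {x : V | x ≠ u}) :
    cdeg G u x = ((G.neighborFinset x.1).erase u).card := by
  unfold cdeg
  rw [Fintype.card_subtype]
  refine Finset.card_bij (fun y _ => y.1) ?_ ?_ ?_
  · intro y hy
    simp only [mem_filter, mem_univ, true_and] at hy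
    simp only [mem_erase, mem_neighborFinset]
    exact ⟨y.2, hy⟩
  · intro a _ b _ h
    exact Subtype.ext h
  · intro y hy
    simp only [mem_erase, mem_neighborFinset] at hy
    exact ⟨⟨y, hy.1⟩, by simpa using hy.2, rfl⟩

theorem cdeg_add (u : V) (x : {x : V | x ≠ u}) :
    cdeg G u x + (if G.Adj x.1 u then 1 else 0) = G.degree x.1 := by
  rw [cdeg_eq]
  split_ifs with h
  · have : u ∈ G.neighborFinset x.1 := by simpa using h
    rw [Finset.card_erase_add_one this, card_neighborFinset_eq_degree]
  · have : u ∉ G.neighborFinset x.1 := by simpa using h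
    rw [Finset.erase_eq_of_notMem this, card_neighborFinset_eq_degree, add_zero]

theorem sum_cdeg (u : V) :
    (∑ x : {x : V | x ≠ u}, cdeg G u x) + 2 * G.degree u = ∑ x, G.degree x := by
  have h1 : (∑ x : {x : V | x ≠ u}, cdeg G u x)
      + (∑ x : {x : V | x ≠ u}, (if G.Adj x.1 u then 1 else 0))
      = ∑ x : {x : V | x ≠ u}, G.degree x.1 := by
    rw [← Finset.sum_add_distrib]
    exact Finset.sum_congr rfl fun x _ => cdeg_add u x
  have h2 : (∑ x : {x : V | x ≠ u}, (if G.Adj x.1 u then 1 else 0)) = G.degree u := by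
    rw [← card_neighborFinset_eq_degree, Finset.sum_boole]
    simp only [Nat.cast_id]
    refine Finset.card_bij (fun y _ => y.1) ?_ ?_ ?_
    · intro y hy
      simp only [mem_filter, mem_univ, true_and] at hy
      simp only [mem_neighborFinset]
      exact hy.symm
    · intro a _ b _ h
      exact Subtype.ext h
    · intro y hy
      simp only [mem_neighborFinset] at hy
      exact ⟨⟨y, hy.ne'⟩, by simpa using hy.symm, rfl⟩
  have h3 : (∑ x : {x : V | x ≠ u}, G.degree x.1) + G.degree u = ∑ x, G.degree x := by
    have h5 : ∑ x ∈ univ.erase u, G.degree x = ∑ x : {x : V | x ≠ u}, G.degree x.1 :=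
      Finset.sum_subtype _ (by intro x; simp) _
    have h4 := Finset.sum_erase_add (univ : Finset V) (fun x => G.degree x) (mem_univ u)
    rw [← h4, h5]
  omega

theorem iso_cdeg {u v : V} (φ : G.induce {x | x ≠ u} ≃g G.induce {x | x ≠ v})
    (x : {x : V | x ≠ u}) : cdeg G u x = cdeg G v (φ x) := by
  refine Fintype.card_congr (φ.toEquiv.subtypeEquiv ?_)
  intro y
  have := φ.map_adj_iff (v := x) (w := y)
  simp only [comap_adj, Function.Embedding.subtype_apply] at this
  exact this.symm

/-- Isomorphic cards come from vertices of equal degree. -/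
theorem degree_eq {u v : V} (h : SameCard G u v) : G.degree u = G.degree v := by
  obtain ⟨φ⟩ := h
  have h1 := sum_cdeg (G := G) u
  have h2 := sum_cdeg (G := G) v
  have h3 : (∑ x : {x : V | x ≠ u}, cdeg G u x) = ∑ x : {x : V | x ≠ v}, cdeg G v x :=
    Fintype.sum_equiv φ.toEquiv _ _ (iso_cdeg φ)
  omega

/-- An isomorphism of cards respecting the neighbourhoods of the deleted vertices extends. -/
theorem sameOrbit_of_nbhd {u v : V} (φ : G.induce {x | x ≠ u} ≃g G.induce {x | x ≠ v})
    (h : ∀ x, G.Adj x.1 u ↔ G.Adj (φ x).1 v) : SameOrbit G u v := by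
  classical
  let e : V ≃ V := (Equiv.extendSubtype (p := fun x => x ∈ {x : V | x ≠ u})
    (q := fun x => x ∈ {x : V | x ≠ v}) φ.toEquiv)
  have he : ∀ (x : V) (hx : x ≠ u), e x = (φ ⟨x, hx⟩).1 := by
    intro x hx
    exact Equiv.extendSubtype_apply_of_mem _ x hx
  have heu : e u = v := by
    by_contra hne
    have := Equiv.extendSubtype_not_mem (p := fun x => x ∈ {x : V | x ≠ u})
      (q := fun x => x ∈ {x : V | x ≠ v}) φ.toEquiv u (by simp)
    exact this hne
  refine ⟨⟨e, ?_⟩, heu⟩
  intro a b
  by_cases ha : a = u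
  · subst ha
    by_cases hb : b = a
    · subst hb
      simp
    · rw [heu, he b hb, G.adj_comm v, G.adj_comm a]
      exact (h ⟨b, hb⟩).symm
  · by_cases hb : b = u
    · subst hb
      rw [heu, he a ha]
      exact (h ⟨a, ha⟩).symm
    · rw [he a ha, he b hb]
      have := φ.map_adj_iff (v := ⟨a, ha⟩) (w := ⟨b, hb⟩)
      simpa only [comap_adj, Function.Embedding.subtype_apply] using this

/-- If no two degrees differ by exactly one, vertices with isomorphic cards are similar. -/
theorem sameOrbit_of_sameCard (hd : ∀ x y, G.degree x ≠ G.degree y + 1) {u v : V}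
    (h : SameCard G u v) : SameOrbit G u v := by
  obtain ⟨φ⟩ := h
  apply sameOrbit_of_nbhd φ
  intro x
  have h1 := cdeg_add (G := G) u x
  have h2 := cdeg_add (G := G) v (φ x)
  have h3 := iso_cdeg φ x
  have h4 := hd x.1 (φ x).1
  have h5 := hd (φ x).1 x.1
  by_cases a : G.Adj x.1 u <;> by_cases b : G.Adj (φ x).1 v
  · simp [a, b]
  · rw [if_pos a] at h1; rw [if_neg b] at h2; omega
  · rw [if_neg a] at h1; rw [if_pos b] at h2; omega
  · simp [a, b]

theorem cardTypes_eq_autOrbits (hd : ∀ x y, G.degree x ≠ G.degree y + 1) :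
    cardTypes G = autOrbits G := by
  have : SameCard G = SameOrbit G := by
    funext u v
    exact propext ⟨sameOrbit_of_sameCard hd, SameOrbit.sameCard⟩
  unfold cardTypes autOrbits
  rw [this]

/-- The number of neighbours of `x` of degree `e`. -/
def nd (G : SimpleGraph V) [DecidableRel G.Adj] (x : V) (e : ℕ) : ℕ :=
  #{z | G.Adj z x ∧ G.degree z = e}

theorem cnt_eq' (x : V) (e : ℕ) :
    cnt G x e = #{z | z ≠ x ∧ ((G.neighborFinset z).erase x).card = e} := by
  unfold cnt
  rw [Fintype.card_subtype]
  refine Finset.card_bij (fun y _ => y.1) ?_ ?_ ?_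
  · intro y hy
    simp only [mem_filter, mem_univ, true_and] at hy ⊢
    exact ⟨y.2, by rw [← cdeg_eq]; exact hy⟩
  · intro a _ b _ h
    exact Subtype.ext h
  · intro y hy
    simp only [mem_filter, mem_univ, true_and] at hy
    refine ⟨⟨y, hy.1⟩, ?_, rfl⟩
    simp only [mem_filter, mem_univ, true_and]
    rw [cdeg_eq]
    exact hy.2

theorem cnt_add (x : V) (e : ℕ) :
    cnt G x e + #{z | z = x ∧ G.degree z = e} + nd G x e
      = #{z : V | G.degree z = e} + nd G x (e + 1) := by
  rw [cnt_eq']
  unfold nd
  simp only [Finset.card_filter]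
  rw [← Finset.sum_add_distrib, ← Finset.sum_add_distrib, ← Finset.sum_add_distrib]
  refine Finset.sum_congr rfl fun z _ => ?_
  by_cases hz : z = x
  · subst hz
    simp
  · have h := cdeg_add (G := G) x ⟨z, hz⟩
    rw [cdeg_eq] at h
    change ((G.neighborFinset z).erase x).card + (if G.Adj z x then 1 else 0) = G.degree z at h
    by_cases ha : G.Adj z x
    · rw [if_pos ha] at h
      simp only [hz, ha, ne_eq, not_false_eq_true, true_and, false_and, if_false]
      split_ifs <;> omega
    · rw [if_neg ha] at h
      simp only [hz, ha, ne_eq, not_false_eq_true, true_and, false_and, if_false]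
      split_ifs <;> omega

/-- Vertices with isomorphic cards have the same number of neighbours of each degree. -/
theorem nd_eq {x y : V} (h : SameCard G x y) (e : ℕ) : nd G x e = nd G y e := by
  induction e with
  | zero =>
    have : ∀ x : V, nd G x 0 = 0 := by
      intro x
      unfold nd
      rw [Finset.card_eq_zero, Finset.filter_eq_empty_iff]
      rintro z _ ⟨hz, hd⟩
      have : 0 < G.degree z := (G.degree_pos_iff_exists_adj z).mpr ⟨x, hz⟩
      omega
    rw [this, this]
  | succ e ih =>
    have h1 := cnt_add (G := G) x e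
    have h2 := cnt_add (G := G) y e
    have h3 := h.cnt_eq e
    have h4 : ∀ w : V, #{z | z = w ∧ G.degree z = e} = if G.degree w = e then 1 else 0 := by
      intro w
      split_ifs with hw
      · rw [Finset.card_eq_one]
        refine ⟨w, ?_⟩
        ext z
        simp only [mem_filter, mem_univ, true_and, mem_singleton]
        constructor
        · exact fun h => h.1
        · rintro rfl; exact ⟨rfl, hw⟩
      · rw [Finset.card_eq_zero, Finset.filter_eq_empty_iff]
        rintro z _ ⟨rfl, hd⟩
        exact hw hd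
    rw [h4, degree_eq h] at h1
    rw [h4] at h2
    omega

/-- A graph with exactly two types of cards and a different number of orbits. -/
theorem two_types (h2 : cardTypes G = 2) (hne : autOrbits G ≠ 2) :
    ∃ d : ℕ, (∀ x, G.degree x = d ∨ G.degree x = d + 1) ∧
      (∀ x y, SameCard G x y ↔ G.degree x = G.degree y) ∧
      (∃ x, G.degree x = d) ∧ (∃ x, G.degree x = d + 1) ∧
      ∀ x y, G.degree x = G.degree y → ∀ e, nd G x e = nd G y e := by
  have hex : ∃ a b, G.degree a = G.degree b + 1 := by
    by_contra hcon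
    push Not at hcon
    exact hne ((cardTypes_eq_autOrbits hcon) ▸ h2)
  obtain ⟨a, b, hab⟩ := hex
  let s : Setoid V := ⟨SameCard G, ⟨SameCard.refl G, SameCard.symm, SameCard.trans⟩⟩
  have hex2 : ∀ x y, Quot.mk (SameCard G) x = Quot.mk (SameCard G) y → SameCard G x y :=
    fun x y h => Quotient.exact (s := s) h
  have hab' : ¬ SameCard G a b := fun h => by have := degree_eq h; omega
  obtain ⟨p, q, hpq, huniv⟩ := Nat.card_eq_two_iff.mp h2
  have hmem : ∀ z : Quot (SameCard G), z = p ∨ z = q := by
    intro z
    have : z ∈ ({p, q} : Set (Quot (SameCard G))) := by rw [huniv]; trivial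
    simpa using this
  have hcl : ∀ x, SameCard G x a ∨ SameCard G x b := by
    intro x
    have ha := hmem (Quot.mk _ a)
    have hb := hmem (Quot.mk _ b)
    have hx := hmem (Quot.mk _ x)
    have hn : Quot.mk (SameCard G) a ≠ Quot.mk (SameCard G) b := fun h => hab' (hex2 _ _ h)
    rcases ha with ha | ha <;> rcases hb with hb | hb <;> rcases hx with hx | hx
    · exact absurd (ha.trans hb.symm) hn
    · exact absurd (ha.trans hb.symm) hn
    · exact Or.inl (hex2 _ _ (hx.trans ha.symm))
    · exact Or.inr (hex2 _ _ (hx.trans hb.symm))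
    · exact Or.inr (hex2 _ _ (hx.trans hb.symm))
    · exact Or.inl (hex2 _ _ (hx.trans ha.symm))
    · exact absurd (ha.trans hb.symm) hn
    · exact absurd (ha.trans hb.symm) hn
  have hiff : ∀ x y, SameCard G x y ↔ G.degree x = G.degree y := by
    intro x y
    refine ⟨degree_eq, fun h => ?_⟩
    rcases hcl x with hx | hx <;> rcases hcl y with hy | hy
    · exact hx.trans hy.symm
    · have := degree_eq hx; have := degree_eq hy; omega
    · have := degree_eq hx; have := degree_eq hy; omega
    · exact hx.trans hy.symm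
  refine ⟨G.degree b, ?_, hiff, ⟨b, rfl⟩, ⟨a, hab⟩, fun x y h e => nd_eq ((hiff x y).mpr h) e⟩
  intro x
  rcases hcl x with hx | hx
  · right; rw [degree_eq hx, hab]
  · left; exact degree_eq hx

end Pool.Agent.X165.PSV
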