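import Mathlib

/-!
# Combinatorial maps on closed surfaces (generalized maps) and an Euler-type inequality

A `SMap` is a generalized map: a set of flags with three fixed-point free involutions. It encodes a
cellular embedding of a connected (multi)graph in a closed surface, orientable or not.
-/

namespace SM

open Module

/-- A generalized map (flag system): it encodes a cellular embedding of a connected graph in a
closed surface.  `a0 x`, `a1 x`, `a2 x` is the flag that differs from the flag `x` only in the
vertex, only in the edge, only in the face, respectively. -/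
structure SMap (Φ : Type) where
  a0 : Φ → Φ
  a1 : Φ → Φ
  a2 : Φ → Φ
  inv0 : ∀ x, a0 (a0 x) = x
  inv1 : ∀ x, a1 (a1 x) = x
  inv2 : ∀ x, a2 (a2 x) = x
  ne0 : ∀ x, a0 x ≠ x
  ne1 : ∀ x, a1 x ≠ x
  ne2 : ∀ x, a2 x ≠ x
  comm : ∀ x, a0 (a2 x) = a2 (a0 x)
  ne02 : ∀ x, a0 (a2 x) ≠ x
  conn : ∀ x y, Relation.EqvGen (fun u v => v = a0 u ∨ v = a1 u ∨ v = a2 u) x y

variable {Φ : Type} (M : SMap Φ)

/-- two flags differ by `a1` or `a2` -/
def SMap.rV (x y : Φ) : Prop := y = M.a1 x ∨ y = M.a2 x
/-- two flags differ by `a0` or `a2` -/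
def SMap.rE (x y : Φ) : Prop := y = M.a0 x ∨ y = M.a2 x
/-- two flags differ by `a0` or `a1` -/
def SMap.rF (x y : Φ) : Prop := y = M.a0 x ∨ y = M.a1 x
/-- two flags differ by `a1` -/
def SMap.rC (x y : Φ) : Prop := y = M.a1 x

/-- the vertices of the embedded graph: orbits of `a1, a2` -/
def SMap.Vertex : Type := Quot M.rV
/-- the edges of the embedded graph: orbits of `a0, a2` -/
def SMap.Edge : Type := Quot M.rE
/-- the faces of the embedded graph: orbits of `a0, a1` -/
def SMap.Face : Type := Quot M.rF
/-- the corners: orbits of `a1` -/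
def SMap.Corner : Type := Quot M.rC

/-- The Euler genus `2 - (V - E + F)` of the surface. -/
noncomputable def SMap.eulerGenus : ℤ :=
  2 - ((Nat.card M.Vertex : ℤ) - (Nat.card M.Edge : ℤ) + (Nat.card M.Face : ℤ))

/-- the vertex of a flag -/
def SMap.vtx (x : Φ) : M.Vertex := Quot.mk _ x
/-- the edge of a flag -/
def SMap.edg (x : Φ) : M.Edge := Quot.mk _ x
/-- the face of a flag -/
def SMap.fac (x : Φ) : M.Face := Quot.mk _ x
/-- the corner of a flag -/
def SMap.cor (x : Φ) : M.Corner := Quot.mk _ x

theorem SMap.vtx1 (x : Φ) : M.vtx (M.a1 x) = M.vtx x := (Quot.sound (r := M.rV) (a := x) (b := M.a1 x) (Or.inl rfl)).symm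
theorem SMap.vtx2 (x : Φ) : M.vtx (M.a2 x) = M.vtx x := (Quot.sound (r := M.rV) (a := x) (b := M.a2 x) (Or.inr rfl)).symm
theorem SMap.edg0 (x : Φ) : M.edg (M.a0 x) = M.edg x := (Quot.sound (r := M.rE) (a := x) (b := M.a0 x) (Or.inl rfl)).symm
theorem SMap.edg2 (x : Φ) : M.edg (M.a2 x) = M.edg x := (Quot.sound (r := M.rE) (a := x) (b := M.a2 x) (Or.inr rfl)).symm
theorem SMap.fac0 (x : Φ) : M.fac (M.a0 x) = M.fac x := (Quot.sound (r := M.rF) (a := x) (b := M.a0 x) (Or.inl rfl)).symm
theorem SMap.fac1 (x : Φ) : M.fac (M.a1 x) = M.fac x := (Quot.sound (r := M.rF) (a := x) (b := M.a1 x) (Or.inr rfl)).symm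
theorem SMap.cor1 (x : Φ) : M.cor (M.a1 x) = M.cor x :=
  (Quot.sound (r := M.rC) (a := x) (b := M.a1 x) rfl).symm

/-- the vertex of a corner -/
def SMap.cv : M.Corner → M.Vertex :=
  Quot.lift M.vtx (fun x y (h : y = M.a1 x) => by rw [h]; exact (M.vtx1 x).symm)
/-- the face of a corner -/
def SMap.cf : M.Corner → M.Face :=
  Quot.lift M.fac (fun x y (h : y = M.a1 x) => by rw [h]; exact (M.fac1 x).symm)

theorem SMap.cor_eq {x y : Φ} : M.cor x = M.cor y ↔ y = x ∨ y = M.a1 x := by
  constructor
  · intro h
    have h' := Quot.eqvGen_exact h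
    clear h
    induction h' with
    | rel x y h => exact Or.inr h
    | refl x => exact Or.inl rfl
    | symm x y _ ih =>
      rcases ih with h | h
      · exact Or.inl h.symm
      · right; rw [h, M.inv1]
    | trans x y z _ _ ih1 ih2 =>
      rcases ih1 with h1 | h1 <;> rcases ih2 with h2 | h2
      · left; rw [h2, h1]
      · right; rw [h2, h1]
      · right; rw [h2, h1]
      · left; rw [h2, h1, M.inv1]
  · rintro (h | h)
    · rw [h]
    · rw [h, M.cor1]

theorem SMap.edg_eq {x y : Φ} : M.edg x = M.edg y ↔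
    y = x ∨ y = M.a0 x ∨ y = M.a2 x ∨ y = M.a0 (M.a2 x) := by
  have c := M.comm
  have i0 := M.inv0
  have i2 := M.inv2
  constructor
  · intro h
    have h' := Quot.eqvGen_exact h
    clear h
    induction h' with
    | rel x y h =>
      rcases h with h | h
      · exact Or.inr (Or.inl h)
      · exact Or.inr (Or.inr (Or.inl h))
    | refl x => exact Or.inl rfl
    | symm x y _ ih =>
      rcases ih with h | h | h | h
      · exact Or.inl h.symm
      · right; left; rw [h, i0]
      · right; right; left; rw [h, i2]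
      · right; right; right; rw [h, ← c, i0, i2]
    | trans x y z _ _ ih1 ih2 =>
      rcases ih1 with h1 | h1 | h1 | h1 <;> rcases ih2 with h2 | h2 | h2 | h2 <;>
        subst h1 <;> subst h2 <;> simp only [c, i0, i2, true_or, or_true]
  · rintro (h | h | h | h)
    · rw [h]
    · rw [h, M.edg0]
    · rw [h, M.edg2]
    · rw [h, M.edg0, M.edg2]

/-- a function on flags invariant under the three involutions is constant -/
theorem SMap.const_of_inv {α : Type*} (u : Φ → α) (h0 : ∀ x, u (M.a0 x) = u x)
    (h1 : ∀ x, u (M.a1 x) = u x) (h2 : ∀ x, u (M.a2 x) = u x) (x y : Φ) : u x = u y := by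
  have := M.conn x y
  induction this with
  | rel x y h =>
    rcases h with h | h | h <;> rw [h]
    · exact (h0 x).symm
    · exact (h1 x).symm
    · exact (h2 x).symm
  | refl x => rfl
  | symm x y _ ih => exact ih.symm
  | trans x y z _ _ ih1 ih2 => exact ih1.trans ih2

variable [Fintype Φ]

noncomputable instance : Fintype M.Vertex := by
  classical exact Fintype.ofSurjective M.vtx Quot.exists_rep
noncomputable instance : Fintype M.Edge := by
  classical exact Fintype.ofSurjective M.edg Quot.exists_rep
noncomputable instance : Fintype M.Face := by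
  classical exact Fintype.ofSurjective M.fac Quot.exists_rep
noncomputable instance : Fintype M.Corner := by
  classical exact Fintype.ofSurjective M.cor Quot.exists_rep

theorem SMap.card_corner : Fintype.card Φ = 2 * Fintype.card M.Corner := by
  classical
  have h := Finset.card_eq_sum_card_fiberwise (s := (Finset.univ : Finset Φ))
    (t := (Finset.univ : Finset M.Corner)) (f := M.cor) (fun x _ => Finset.mem_coe.2 (Finset.mem_univ _))
  rw [Finset.card_univ] at h
  rw [h, Finset.sum_const_nat (m := 2), Finset.card_univ, mul_comm]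
  intro c _
  obtain ⟨x, rfl⟩ := Quot.exists_rep c
  have : Finset.univ.filter (fun y => M.cor y = Quot.mk _ x) = {x, M.a1 x} := by
    ext y
    simp only [Finset.mem_filter, Finset.mem_univ, true_and, Finset.mem_insert,
      Finset.mem_singleton]
    constructor
    · intro h
      exact M.cor_eq.1 (h.symm : M.cor x = M.cor y)
    · intro h
      exact (M.cor_eq.2 h).symm
  rw [this, Finset.card_pair (M.ne1 x).symm]

theorem SMap.card_edge : Fintype.card Φ = 4 * Fintype.card M.Edge := by
  classical
  have h := Finset.card_eq_sum_card_fiberwise (s := (Finset.univ : Finset Φ))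
    (t := (Finset.univ : Finset M.Edge)) (f := M.edg) (fun x _ => Finset.mem_coe.2 (Finset.mem_univ _))
  rw [Finset.card_univ] at h
  rw [h, Finset.sum_const_nat (m := 4), Finset.card_univ, mul_comm]
  intro c _
  obtain ⟨x, rfl⟩ := Quot.exists_rep c
  have : Finset.univ.filter (fun y => M.edg y = Quot.mk _ x) =
      {x, M.a0 x, M.a2 x, M.a0 (M.a2 x)} := by
    ext y
    simp only [Finset.mem_filter, Finset.mem_univ, true_and, Finset.mem_insert,
      Finset.mem_singleton]
    constructor
    · intro h
      exact M.edg_eq.1 (h.symm : M.edg x = M.edg y)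
    · intro h
      exact (M.edg_eq.2 h).symm
  rw [this]
  have e1 : x ≠ M.a0 x := (M.ne0 x).symm
  have e2 : x ≠ M.a2 x := (M.ne2 x).symm
  have e3 : x ≠ M.a0 (M.a2 x) := (M.ne02 x).symm
  have e4 : M.a0 x ≠ M.a2 x := by
    intro h
    apply M.ne02 x
    rw [← h, M.inv0]
  have e5 : M.a0 x ≠ M.a0 (M.a2 x) := by
    intro h
    apply e2
    have := congrArg M.a0 h
    rwa [M.inv0, M.inv0] at this
  have e6 : M.a2 x ≠ M.a0 (M.a2 x) := (M.ne0 (M.a2 x)).symm
  rw [Finset.card_insert_of_notMem, Finset.card_insert_of_notMem, Finset.card_pair e6]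
  · simp [e4, e5]
  · simp [e1, e2, e3]

end SM
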