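import Pool.Agent.X165.SM1

/-!
# Homology over `ZMod 2` and the Euler-type inequality
-/

namespace SM

open Module

variable {Φ : Type} [Fintype Φ] (M : SMap Φ)

open Classical in
/-- sum of a flag function over the flags of a corner -/
noncomputable def SMap.bd2 : (M.Edge → ZMod 2) →ₗ[ZMod 2] (M.Corner → ZMod 2) where
  toFun χ := fun c => ∑ x ∈ Finset.univ.filter (fun x => M.cor x = c), χ (M.edg x)
  map_add' χ ψ := by
    funext c
    simp [Finset.sum_add_distrib]
  map_smul' r χ := by
    funext c
    simp [Finset.mul_sum]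

open Classical in
theorem SMap.fiber_sum (f : Φ → ZMod 2) (x : Φ) :
    ∑ y ∈ Finset.univ.filter (fun y => M.cor y = M.cor x), f y = f x + f (M.a1 x) := by
  have : Finset.univ.filter (fun y => M.cor y = M.cor x) = {x, M.a1 x} := by
    ext y
    simp only [Finset.mem_filter, Finset.mem_univ, true_and, Finset.mem_insert,
      Finset.mem_singleton]
    constructor
    · intro h
      exact M.cor_eq.1 h.symm
    · intro h
      exact (M.cor_eq.2 h).symm
  rw [this, Finset.sum_pair (M.ne1 x).symm]

theorem SMap.bd2_cor (χ : M.Edge → ZMod 2) (x : Φ) :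
    M.bd2 χ (M.cor x) = χ (M.edg x) + χ (M.edg (M.a1 x)) := by
  classical
  exact M.fiber_sum (fun y => χ (M.edg y)) x

open Classical in
/-- incidence matrix between nodes (vertices and faces) and corners -/
noncomputable def SMap.A : Matrix (M.Vertex ⊕ M.Face) M.Corner (ZMod 2) :=
  fun d c => (if d = Sum.inl (M.cv c) then 1 else 0) + (if d = Sum.inr (M.cf c) then 1 else 0)

open Classical in
theorem SMap.A_inl (z : M.Corner → ZMod 2) (v : M.Vertex) :
    M.A.mulVecLin z (Sum.inl v) = ∑ c ∈ Finset.univ.filter (fun c => M.cv c = v), z c := by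
  simp only [Matrix.mulVecLin_apply, Matrix.mulVec, dotProduct, SMap.A]
  rw [Finset.sum_filter]
  refine Finset.sum_congr rfl fun c _ => ?_
  by_cases h : M.cv c = v
  · simp [h]
  · have h' : ¬ v = M.cv c := fun e => h e.symm
    simp [h, h']

open Classical in
theorem SMap.A_inr (z : M.Corner → ZMod 2) (f : M.Face) :
    M.A.mulVecLin z (Sum.inr f) = ∑ c ∈ Finset.univ.filter (fun c => M.cf c = f), z c := by
  simp only [Matrix.mulVecLin_apply, Matrix.mulVec, dotProduct, SMap.A]
  rw [Finset.sum_filter]
  refine Finset.sum_congr rfl fun c _ => ?_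
  by_cases h : M.cf c = f
  · simp [h]
  · have h' : ¬ f = M.cf c := fun e => h e.symm
    simp [h, h']

theorem zmod2_add_self (a : ZMod 2) : a + a = 0 := by
  revert a; decide

theorem zmod2_eq_of_add {a b : ZMod 2} (h : a + b = 0) : a = b := by
  revert a b; decide

theorem SMap.A_bd2 (χ : M.Edge → ZMod 2) : M.A.mulVecLin (M.bd2 χ) = 0 := by
  classical
  funext d
  rcases d with v | f
  · rw [M.A_inl]
    have h := Finset.sum_fiberwise_of_maps_to (s := Finset.univ.filter (fun x => M.vtx x = v))
      (t := Finset.univ.filter (fun c => M.cv c = v)) (g := M.cor)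
      (fun x hx => by
        simp only [Finset.mem_filter, Finset.mem_univ, true_and] at hx ⊢
        exact hx) (fun x => χ (M.edg x))
    have h2 : ∑ c ∈ Finset.univ.filter (fun c => M.cv c = v), M.bd2 χ c =
        ∑ x ∈ Finset.univ.filter (fun x => M.vtx x = v), χ (M.edg x) := by
      rw [← h]
      refine Finset.sum_congr rfl fun c hc => ?_
      simp only [Finset.mem_filter, Finset.mem_univ, true_and] at hc
      change ∑ x ∈ Finset.univ.filter (fun x => M.cor x = c), χ (M.edg x) = _
      refine Finset.sum_congr ?_ fun _ _ => rfl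
      ext x
      simp only [Finset.mem_filter, Finset.mem_univ, true_and]
      constructor
      · intro hx
        refine ⟨?_, hx⟩
        rw [← hc, ← hx]
        rfl
      · exact fun hx => hx.2
    rw [h2]
    refine Finset.sum_involution (fun x _ => M.a2 x) ?_ ?_ ?_ ?_
    · intro x _
      rw [M.edg2]
      exact zmod2_add_self _
    · intro x _ _
      exact M.ne2 x
    · intro x hx
      simp only [Finset.mem_filter, Finset.mem_univ, true_and] at hx ⊢
      rw [M.vtx2, hx]
    · intro x _
      exact M.inv2 x
  · rw [M.A_inr]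
    have h := Finset.sum_fiberwise_of_maps_to (s := Finset.univ.filter (fun x => M.fac x = f))
      (t := Finset.univ.filter (fun c => M.cf c = f)) (g := M.cor)
      (fun x hx => by
        simp only [Finset.mem_filter, Finset.mem_univ, true_and] at hx ⊢
        exact hx) (fun x => χ (M.edg x))
    have h2 : ∑ c ∈ Finset.univ.filter (fun c => M.cf c = f), M.bd2 χ c =
        ∑ x ∈ Finset.univ.filter (fun x => M.fac x = f), χ (M.edg x) := by
      rw [← h]
      refine Finset.sum_congr rfl fun c hc => ?_
      simp only [Finset.mem_filter, Finset.mem_univ, true_and] at hc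
      change ∑ x ∈ Finset.univ.filter (fun x => M.cor x = c), χ (M.edg x) = _
      refine Finset.sum_congr ?_ fun _ _ => rfl
      ext x
      simp only [Finset.mem_filter, Finset.mem_univ, true_and]
      constructor
      · intro hx
        refine ⟨?_, hx⟩
        rw [← hc, ← hx]
        rfl
      · exact fun hx => hx.2
    rw [h2]
    refine Finset.sum_involution (fun x _ => M.a0 x) ?_ ?_ ?_ ?_
    · intro x _
      rw [M.edg0]
      exact zmod2_add_self _
    · intro x _ _
      exact M.ne0 x
    · intro x hx
      simp only [Finset.mem_filter, Finset.mem_univ, true_and] at hx ⊢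
      rw [M.fac0, hx]
    · intro x _
      exact M.inv0 x

/-- a space of constant functions has dimension at most one -/
theorem finrank_const {X : Type} [Fintype X] (N : Submodule (ZMod 2) (X → ZMod 2))
    (h : ∀ u ∈ N, ∀ x y, u x = u y) : finrank (ZMod 2) N ≤ 1 := by
  have : N ≤ Submodule.span (ZMod 2) {(fun _ => 1 : X → ZMod 2)} := by
    intro u hu
    rw [Submodule.mem_span_singleton]
    rcases isEmpty_or_nonempty X with hX | ⟨⟨x0⟩⟩
    · exact ⟨0, funext fun x => (hX.false x).elim⟩
    · refine ⟨u x0, funext fun x => ?_⟩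
      simp [h u hu x0 x]
  refine (Submodule.finrank_mono this).trans ?_
  exact finrank_span_le_card _ |>.trans (by simp)

theorem SMap.ker_bd2 (χ : M.Edge → ZMod 2) (h : M.bd2 χ = 0) (e e' : M.Edge) : χ e = χ e' := by
  obtain ⟨x, rfl⟩ := Quot.exists_rep e
  obtain ⟨y, rfl⟩ := Quot.exists_rep e'
  refine M.const_of_inv (fun x => χ (M.edg x)) ?_ ?_ ?_ x y
  · intro x; rw [M.edg0]
  · intro x
    have := congrFun h (M.cor x)
    rw [M.bd2_cor] at this
    exact (zmod2_eq_of_add this).symm
  · intro x; rw [M.edg2]

theorem SMap.finrank_bd2 :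
    Fintype.card M.Edge ≤ finrank (ZMod 2) (LinearMap.range M.bd2) + 1 := by
  have h := LinearMap.finrank_range_add_finrank_ker M.bd2
  rw [Module.finrank_fintype_fun_eq_card] at h
  have h2 := finrank_const (LinearMap.ker M.bd2)
    (fun u hu => M.ker_bd2 u (LinearMap.mem_ker.1 hu))
  omega

theorem SMap.finrank_kerA :
    finrank (ZMod 2) (LinearMap.ker M.A.mulVecLin) +
      (Fintype.card M.Vertex + Fintype.card M.Face) ≤ Fintype.card M.Corner + 1 := by
  classical
  have h := LinearMap.finrank_range_add_finrank_ker M.A.mulVecLin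
  rw [Module.finrank_fintype_fun_eq_card] at h
  have h' := LinearMap.finrank_range_add_finrank_ker M.A.transpose.mulVecLin
  rw [Module.finrank_fintype_fun_eq_card, Fintype.card_sum] at h'
  have h2 : finrank (ZMod 2) (LinearMap.ker M.A.transpose.mulVecLin) ≤ 1 := by
    refine finrank_const _ ?_
    intro u hu
    have hu' : ∀ c, u (Sum.inl (M.cv c)) + u (Sum.inr (M.cf c)) = 0 := by
      intro c
      have := congrFun (LinearMap.mem_ker.1 hu) c
      simp only [Matrix.mulVecLin_apply, Matrix.mulVec, dotProduct, SMap.A,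
        Matrix.transpose_apply, Pi.zero_apply, add_mul, Finset.sum_add_distrib, ite_mul, one_mul,
        zero_mul, Finset.sum_ite_eq', Finset.mem_univ, if_true] at this
      exact this
    have hx : ∀ x, u (Sum.inl (M.vtx x)) = u (Sum.inr (M.fac x)) := fun x =>
      zmod2_eq_of_add (hu' (M.cor x))
    have hc : ∀ x y, u (Sum.inl (M.vtx x)) = u (Sum.inl (M.vtx y)) := by
      refine M.const_of_inv (fun x => u (Sum.inl (M.vtx x))) ?_ ?_ ?_
      · intro x; rw [hx, hx, M.fac0]
      · intro x; rw [M.vtx1]
      · intro x; rw [M.vtx2]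
    intro d d'
    have hd : ∀ d, ∃ x, u d = u (Sum.inl (M.vtx x)) := by
      intro d
      rcases d with v | f
      · obtain ⟨x, rfl⟩ := Quot.exists_rep v
        exact ⟨x, rfl⟩
      · obtain ⟨x, rfl⟩ := Quot.exists_rep f
        exact ⟨x, (hx x).symm⟩
    obtain ⟨x, hx1⟩ := hd d
    obtain ⟨y, hy1⟩ := hd d'
    rw [hx1, hy1, hc x y]
  have h3 : finrank (ZMod 2) (LinearMap.range M.A.transpose.mulVecLin) =
      finrank (ZMod 2) (LinearMap.range M.A.mulVecLin) := by
    have := Matrix.rank_transpose M.A
    simpa only [Matrix.rank] using this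
  omega

end SM
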