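import Pool.Agent.X165.SM2

/-!
# The Euler-type inequality for sets of corners
-/

namespace SM

open Module

variable {Φ : Type} [Fintype Φ] (M : SMap Φ)

section
variable (S : Finset M.Corner)

/-- two edges are joined if they meet in a corner outside `S` -/
def SMap.rR (e e' : M.Edge) : Prop := ∃ x, M.cor x ∉ S ∧ e = M.edg x ∧ e' = M.edg (M.a1 x)

/-- the regions of the surface cut along the corners in `S` -/
def SMap.Reg : Type := Quot (M.rR S)

/-- the region of an edge -/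
def SMap.reg (e : M.Edge) : M.Reg S := Quot.mk _ e

noncomputable instance : Fintype (M.Reg S) := by
  classical exact Fintype.ofSurjective (Quot.mk (M.rR S)) Quot.exists_rep

/-- pull back functions on regions to functions on edges -/
noncomputable def SMap.pull : (M.Reg S → ZMod 2) →ₗ[ZMod 2] (M.Edge → ZMod 2) :=
  LinearMap.funLeft (ZMod 2) (ZMod 2) (M.reg S)

theorem SMap.desc (χ : M.Edge → ZMod 2) (h : ∀ c, c ∉ S → M.bd2 χ c = 0) :
    ∃ ψ, M.pull S ψ = χ := by
  refine ⟨Quot.lift χ ?_, ?_⟩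
  · rintro e e' ⟨x, hx, rfl, rfl⟩
    have := h _ hx
    rw [M.bd2_cor] at this
    exact zmod2_eq_of_add this
  · funext e
    rfl

/-- the cycles supported in `S` -/
noncomputable def SMap.Z : Submodule (ZMod 2) (M.Corner → ZMod 2) where
  carrier := {z | (∀ c, c ∉ S → z c = 0) ∧ M.A.mulVecLin z = 0}
  add_mem' := by
    rintro a b ⟨ha1, ha2⟩ ⟨hb1, hb2⟩
    refine ⟨fun c hc => ?_, ?_⟩
    · simp [ha1 c hc, hb1 c hc]
    · rw [map_add, ha2, hb2, add_zero]
  zero_mem' := ⟨fun _ _ => rfl, map_zero _⟩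
  smul_mem' := by
    rintro r a ⟨ha1, ha2⟩
    refine ⟨fun c hc => ?_, ?_⟩
    · simp [ha1 c hc]
    · rw [map_smul, ha2, smul_zero]

open Classical in
/-- extension by zero -/
noncomputable def SMap.J : (S → ZMod 2) →ₗ[ZMod 2] (M.Corner → ZMod 2) where
  toFun w := fun c => if h : c ∈ S then w ⟨c, h⟩ else 0
  map_add' a b := by
    funext c
    by_cases h : c ∈ S <;> simp [h]
  map_smul' r a := by
    funext c
    by_cases h : c ∈ S <;> simp [h]

theorem SMap.J_inj : Function.Injective (M.J S) := by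
  classical
  intro a b h
  funext ⟨c, hc⟩
  have := congrFun h c
  simpa [SMap.J, hc] using this

/-- restriction of node functions -/
noncomputable def SMap.R (P : Finset M.Vertex) (N : Finset M.Face) :
    (M.Vertex ⊕ M.Face → ZMod 2) →ₗ[ZMod 2] (P ⊕ N → ZMod 2) :=
  LinearMap.funLeft (ZMod 2) (ZMod 2) (Sum.map Subtype.val Subtype.val)

theorem SMap.finrank_Z (P : Finset M.Vertex) (N : Finset M.Face)
    (hS : ∀ c ∈ S, M.cv c ∈ P ∧ M.cf c ∈ N) :
    S.card ≤ finrank (ZMod 2) (M.Z S) + (P.card + N.card) := by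
  classical
  let T : (S → ZMod 2) →ₗ[ZMod 2] (P ⊕ N → ZMod 2) := M.R P N ∘ₗ M.A.mulVecLin ∘ₗ M.J S
  have h := LinearMap.finrank_range_add_finrank_ker T
  rw [Module.finrank_fintype_fun_eq_card, Fintype.card_coe] at h
  have h1 : finrank (ZMod 2) (LinearMap.range T) ≤ P.card + N.card := by
    refine (Submodule.finrank_le _).trans ?_
    rw [Module.finrank_fintype_fun_eq_card, Fintype.card_sum, Fintype.card_coe, Fintype.card_coe]
  have h2 : finrank (ZMod 2) (LinearMap.ker T) ≤ finrank (ZMod 2) (M.Z S) := by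
    have e : finrank (ZMod 2) ((LinearMap.ker T).map (M.J S)) =
        finrank (ZMod 2) (LinearMap.ker T) :=
      (LinearEquiv.finrank_eq (Submodule.equivMapOfInjective _ (M.J_inj S) _)).symm
    rw [← e]
    refine Submodule.finrank_mono ?_
    rintro z ⟨w, hw, rfl⟩
    refine ⟨fun c hc => by simp [SMap.J, hc], ?_⟩
    have hw' : T w = 0 := LinearMap.mem_ker.1 hw
    funext d
    rcases d with v | f
    · by_cases hv : v ∈ P
      · exact congrFun hw' (Sum.inl ⟨v, hv⟩)
      · rw [M.A_inl]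
        refine Finset.sum_eq_zero fun c hc => ?_
        simp only [Finset.mem_filter, Finset.mem_univ, true_and] at hc
        have : c ∉ S := fun hcS => hv (hc ▸ (hS c hcS).1)
        simp [SMap.J, this]
    · by_cases hf : f ∈ N
      · exact congrFun hw' (Sum.inr ⟨f, hf⟩)
      · rw [M.A_inr]
        refine Finset.sum_eq_zero fun c hc => ?_
        simp only [Finset.mem_filter, Finset.mem_univ, true_and] at hc
        have : c ∉ S := fun hcS => hf (hc ▸ (hS c hcS).2)
        simp [SMap.J, this]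
  omega

theorem SMap.finrank_inf :
    finrank (ZMod 2) (M.Z S ⊓ LinearMap.range M.bd2 : Submodule (ZMod 2) (M.Corner → ZMod 2)) ≤
      Fintype.card (M.Reg S) := by
  have h : (M.Z S ⊓ LinearMap.range M.bd2 : Submodule (ZMod 2) (M.Corner → ZMod 2)) ≤
      LinearMap.range (M.bd2 ∘ₗ M.pull S) := by
    rintro z ⟨hz, ⟨χ, rfl⟩⟩
    obtain ⟨ψ, hψ⟩ := M.desc S χ hz.1
    exact ⟨ψ, by rw [LinearMap.comp_apply, hψ]⟩
  refine (Submodule.finrank_mono h).trans ?_
  refine (LinearMap.finrank_range_le _).trans ?_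
  rw [Module.finrank_fintype_fun_eq_card]

/-- dimension count: `|S| ≤ |P| + |N| + genus + #regions` -/
theorem SMap.count1 (P : Finset M.Vertex) (N : Finset M.Face)
    (hS : ∀ c ∈ S, M.cv c ∈ P ∧ M.cf c ∈ N) :
    (S.card : ℤ) ≤ P.card + N.card + M.eulerGenus + Fintype.card (M.Reg S) := by
  have h1 := M.finrank_Z S P N hS
  have h2 := M.finrank_inf S
  have h3 := M.finrank_bd2
  have h4 := M.finrank_kerA
  have h5 := M.card_corner
  have h6 := M.card_edge
  have h7 := Submodule.finrank_sup_add_finrank_inf_eq (M.Z S) (LinearMap.range M.bd2)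
  have h8 : finrank (ZMod 2) (M.Z S ⊔ LinearMap.range M.bd2 :
      Submodule (ZMod 2) (M.Corner → ZMod 2)) ≤
      finrank (ZMod 2) (LinearMap.ker M.A.mulVecLin) := by
    refine Submodule.finrank_mono (sup_le ?_ ?_)
    · intro z hz
      exact LinearMap.mem_ker.2 hz.2
    · rintro _ ⟨χ, rfl⟩
      exact LinearMap.mem_ker.2 (M.A_bd2 χ)
  unfold SMap.eulerGenus
  rw [Nat.card_eq_fintype_card, Nat.card_eq_fintype_card, Nat.card_eq_fintype_card]
  omega

open Classical in
/-- indicator of a region, as a function on edges -/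
noncomputable def SMap.ind (ρ : M.Reg S) : M.Edge → ZMod 2 :=
  fun e => if M.reg S e = ρ then 1 else 0

theorem SMap.region_count (L : ℕ)
    (hL : ∀ z ∈ M.Z S, z ≠ 0 → ∃ T : Finset M.Corner, L ≤ T.card ∧ ∀ c ∈ T, z c ≠ 0)
    (h2 : 2 ≤ Fintype.card (M.Reg S)) : L * Fintype.card (M.Reg S) ≤ 2 * S.card := by
  classical
  have hz : ∀ ρ : M.Reg S, M.bd2 (M.ind S ρ) ∈ M.Z S := by
    intro ρ
    refine ⟨?_, M.A_bd2 _⟩
    intro c hc
    obtain ⟨x, rfl⟩ := Quot.exists_rep c
    have e := M.bd2_cor (M.ind S ρ) x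
    rw [show (Quot.mk _ x : M.Corner) = M.cor x from rfl, e]
    have : M.reg S (M.edg x) = M.reg S (M.edg (M.a1 x)) :=
      Quot.sound ⟨x, hc, rfl, rfl⟩
    simp only [SMap.ind, this]
    exact zmod2_add_self _
  have hne : ∀ ρ : M.Reg S, M.bd2 (M.ind S ρ) ≠ 0 := by
    intro ρ h
    have hc := M.ker_bd2 _ h
    obtain ⟨ρ', hρ'⟩ := Fintype.exists_ne_of_one_lt_card (by omega) ρ
    obtain ⟨e, rfl⟩ := Quot.exists_rep ρ
    obtain ⟨e', rfl⟩ := Quot.exists_rep ρ'
    have h3 := hc e e'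
    have h4 : M.ind S (M.reg S e) e = 1 := if_pos rfl
    have h5 : M.ind S (M.reg S e) e' = 0 := if_neg hρ'
    change M.ind S (M.reg S e) e = M.ind S (M.reg S e) e' at h3
    rw [h4, h5] at h3
    exact absurd h3 (by decide)
  have h1 : ∀ ρ : M.Reg S, L ≤ (S.filter (fun c => M.bd2 (M.ind S ρ) c ≠ 0)).card := by
    intro ρ
    obtain ⟨T, hT, hT'⟩ := hL _ (hz ρ) (hne ρ)
    refine hT.trans (Finset.card_le_card ?_)
    intro c hc
    rw [Finset.mem_filter]
    refine ⟨?_, hT' c hc⟩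
    by_contra hcS
    exact hT' c hc ((hz ρ).1 c hcS)
  have h3 : ∀ c ∈ S, (Finset.univ.filter (fun ρ : M.Reg S => M.bd2 (M.ind S ρ) c ≠ 0)).card ≤ 2 := by
    intro c _
    obtain ⟨x, rfl⟩ := Quot.exists_rep c
    have hsub : (Finset.univ.filter (fun ρ : M.Reg S =>
        M.bd2 (M.ind S ρ) (Quot.mk M.rC x) ≠ 0)) ⊆
        ({M.reg S (M.edg x), M.reg S (M.edg (M.a1 x))} : Finset (M.Reg S)) := by
      intro ρ hρ
      rw [Finset.mem_filter] at hρ
      have hρ := hρ.2
      rw [show (Quot.mk M.rC x : M.Corner) = M.cor x from rfl, M.bd2_cor] at hρ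
      by_contra hn
      rw [Finset.mem_insert, Finset.mem_singleton, not_or] at hn
      apply hρ
      unfold SMap.ind
      rw [if_neg (fun h => hn.1 h.symm), if_neg (fun h => hn.2 h.symm), add_zero]
    exact (Finset.card_le_card hsub).trans Finset.card_le_two
  calc L * Fintype.card (M.Reg S) = ∑ _ρ : M.Reg S, L := by
        rw [Finset.sum_const, Finset.card_univ, smul_eq_mul, mul_comm]
    _ ≤ ∑ ρ : M.Reg S, (S.filter (fun c => M.bd2 (M.ind S ρ) c ≠ 0)).card :=
        Finset.sum_le_sum fun ρ _ => h1 ρ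
    _ = ∑ ρ : M.Reg S, ∑ c ∈ S, (if M.bd2 (M.ind S ρ) c ≠ 0 then 1 else 0) := by
        refine Finset.sum_congr rfl fun ρ _ => ?_
        rw [Finset.card_filter]
    _ = ∑ c ∈ S, ∑ ρ : M.Reg S, (if M.bd2 (M.ind S ρ) c ≠ 0 then 1 else 0) := Finset.sum_comm
    _ = ∑ c ∈ S, (Finset.univ.filter (fun ρ : M.Reg S => M.bd2 (M.ind S ρ) c ≠ 0)).card := by
        refine Finset.sum_congr rfl fun c _ => ?_
        rw [Finset.card_filter]
    _ ≤ ∑ _c ∈ S, 2 := Finset.sum_le_sum h3
    _ = 2 * S.card := by rw [Finset.sum_const, smul_eq_mul, mul_comm]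

/-- The Euler-type inequality. -/
theorem SMap.euler_ineq (P : Finset M.Vertex) (N : Finset M.Face)
    (hS : ∀ c ∈ S, M.cv c ∈ P ∧ M.cf c ∈ N) (L : ℕ)
    (hL : ∀ z ∈ M.Z S, z ≠ 0 → ∃ T : Finset M.Corner, L ≤ T.card ∧ ∀ c ∈ T, z c ≠ 0) :
    (S.card : ℤ) ≤ P.card + N.card + M.eulerGenus + 1 ∨
    (L : ℤ) * (S.card - P.card - N.card - M.eulerGenus) ≤ 2 * S.card := by
  have h := M.count1 S P N hS
  by_cases h2 : 2 ≤ Fintype.card (M.Reg S)
  · right
    have h3 := M.region_count S L hL h2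
    have h4 : (L : ℤ) * (S.card - P.card - N.card - M.eulerGenus) ≤
        L * Fintype.card (M.Reg S) :=
      mul_le_mul_of_nonneg_left (by linarith) (by positivity)
    have h5 : (L : ℤ) * (Fintype.card (M.Reg S) : ℤ) ≤ 2 * (S.card : ℤ) := by exact_mod_cast h3
    linarith
  · left
    have : (Fintype.card (M.Reg S) : ℤ) ≤ 1 := by
      have : Fintype.card (M.Reg S) ≤ 1 := by omega
      exact_mod_cast this
    linarith

end

end SM
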