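import Pool.Agent.X165.SM3

/-!
# Map graphs on surfaces have bounded clique cover degeneracy
-/

namespace SM

open Module

/-- two faces have a common vertex -/
def SMap.touch {Φ : Type} (M : SMap Φ) (f f' : M.Face) : Prop :=
  ∃ x y, M.fac x = f ∧ M.fac y = f' ∧ M.vtx x = M.vtx y

/-- `G` is a `g`-map graph: its vertices are nations, i.e. distinct faces of a graph cellularly
embedded in a closed surface of Euler genus at most `g`, and two nations are adjacent if and only
if they have a common vertex. -/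
def IsMapGraph (g : ℕ) {W : Type} (G : SimpleGraph W) : Prop :=
  ∃ (Φ : Type) (_ : Fintype Φ) (M : SMap Φ) (ν : W → M.Face), Function.Injective ν ∧
    M.eulerGenus ≤ g ∧ ∀ u w, G.Adj u w ↔ u ≠ w ∧ M.touch (ν u) (ν w)

/-- The clique cover degeneracy of `G` is at most `k`: every nonnull induced subgraph `G[U]` has a
vertex `v` whose neighbourhood in `G[U]` is a union of at most `k` cliques. -/
def CliqueCoverDegeneracyLE {W : Type} (G : SimpleGraph W) (k : ℕ) : Prop :=
  ∀ U : Set W, U.Nonempty → ∃ v ∈ U, ∃ 𝒞 : Finset (Set W), 𝒞.card ≤ k ∧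
    (∀ C ∈ 𝒞, G.IsClique C) ∧ {w | w ∈ U ∧ G.Adj v w} = ⋃ C ∈ 𝒞, C

theorem parity {X : Type} {F : Finset X} {z : X → ZMod 2} (h : ∑ c ∈ F, z c = 0) {c1 : X}
    (h1 : c1 ∈ F) (h2 : z c1 ≠ 0) : ∃ c2 ∈ F, c2 ≠ c1 ∧ z c2 ≠ 0 := by
  by_contra hn
  push Not at hn
  rw [Finset.sum_eq_single c1 (fun c hc hne => hn c hc hne) (fun h => absurd h1 h)] at h
  exact h2 h

variable {Φ : Type} [Fintype Φ] (M : SMap Φ)

theorem SMap.par_v {S : Finset M.Corner} {z : M.Corner → ZMod 2} (hz : z ∈ M.Z S) {c1 : M.Corner}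
    (h1 : z c1 ≠ 0) : ∃ c2, M.cv c2 = M.cv c1 ∧ c2 ≠ c1 ∧ z c2 ≠ 0 := by
  classical
  have h := congrFun hz.2 (Sum.inl (M.cv c1))
  rw [M.A_inl] at h
  obtain ⟨c2, hc2, hne, hz2⟩ := parity h (c1 := c1) (by simp) h1
  exact ⟨c2, (Finset.mem_filter.1 hc2).2, hne, hz2⟩

theorem SMap.par_f {S : Finset M.Corner} {z : M.Corner → ZMod 2} (hz : z ∈ M.Z S) {c1 : M.Corner}
    (h1 : z c1 ≠ 0) : ∃ c2, M.cf c2 = M.cf c1 ∧ c2 ≠ c1 ∧ z c2 ≠ 0 := by
  classical
  have h := congrFun hz.2 (Sum.inr (M.cf c1))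
  rw [M.A_inr] at h
  obtain ⟨c2, hc2, hne, hz2⟩ := parity h (c1 := c1) (by simp) h1
  exact ⟨c2, (Finset.mem_filter.1 hc2).2, hne, hz2⟩

/-- incidence of a vertex and a face -/
def SMap.inc (p : M.Vertex) (f : M.Face) : Prop := ∃ c, M.cv c = p ∧ M.cf c = f

theorem SMap.touch_iff (f f' : M.Face) : M.touch f f' ↔ ∃ p, M.inc p f ∧ M.inc p f' := by
  constructor
  · rintro ⟨x, y, rfl, rfl, h⟩
    exact ⟨M.vtx x, ⟨M.cor x, rfl, rfl⟩, ⟨M.cor y, h.symm, rfl⟩⟩
  · rintro ⟨p, ⟨c, hc1, hc2⟩, ⟨c', hc1', hc2'⟩⟩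
    obtain ⟨x, rfl⟩ := Quot.exists_rep c
    obtain ⟨y, rfl⟩ := Quot.exists_rep c'
    exact ⟨x, y, hc2, hc2', hc1.trans hc1'.symm⟩

/-- simple bipartite incidence graphs: `L = 4` -/
theorem SMap.simple_bound (P : Finset M.Vertex) (N : Finset M.Face) (S : Finset M.Corner)
    (hS : ∀ c ∈ S, M.cv c ∈ P ∧ M.cf c ∈ N)
    (hsimp : ∀ c ∈ S, ∀ c' ∈ S, M.cv c = M.cv c' → M.cf c = M.cf c' → c = c') :
    (S.card : ℤ) ≤ P.card + N.card + M.eulerGenus + 1 ∨
    (4 : ℤ) * (S.card - P.card - N.card - M.eulerGenus) ≤ 2 * S.card := by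
  classical
  refine M.euler_ineq S P N hS 4 ?_
  intro z hz hz0
  have hin : ∀ c, z c ≠ 0 → c ∈ S := by
    intro c hc
    by_contra hcS
    exact hc (hz.1 c hcS)
  obtain ⟨c1, h1⟩ : ∃ c, z c ≠ 0 := by
    by_contra hn
    push Not at hn
    exact hz0 (funext hn)
  obtain ⟨c2, e2, n2, h2⟩ := M.par_v hz h1
  obtain ⟨c3, e3, n3, h3⟩ := M.par_f hz h1
  have f21 : M.cf c2 ≠ M.cf c1 := fun h => n2 (hsimp c2 (hin _ h2) c1 (hin _ h1) e2 h)
  obtain ⟨c4, e4, n4, h4⟩ := M.par_f hz h2
  have d41 : c4 ≠ c1 := by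
    rintro rfl
    exact f21 e4.symm
  have d43 : c4 ≠ c3 := by
    rintro rfl
    exact f21 (e4.symm.trans e3)
  have d32 : c3 ≠ c2 := by
    rintro rfl
    exact f21 e3
  refine ⟨{c1, c2, c3, c4}, ?_, ?_⟩
  · rw [Finset.card_insert_of_notMem, Finset.card_insert_of_notMem, Finset.card_pair d43.symm]
    · simp [d32.symm, n4.symm]
    · simp [n2.symm, n3.symm, d41.symm]
  · intro c hc
    simp only [Finset.mem_insert, Finset.mem_singleton] at hc
    rcases hc with rfl | rfl | rfl | rfl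
    · exact h1
    · exact h2
    · exact h3
    · exact h4

/-- private pairs: `L = 6` -/
theorem SMap.private_bound (P : Finset M.Vertex) (N : Finset M.Face)
    (ca cb : M.Vertex → M.Corner)
    (hca : ∀ p ∈ P, M.cv (ca p) = p ∧ M.cf (ca p) ∈ N)
    (hcb : ∀ p ∈ P, M.cv (cb p) = p ∧ M.cf (cb p) ∈ N)
    (hne : ∀ p ∈ P, M.cf (ca p) ≠ M.cf (cb p))
    (hpriv : ∀ p ∈ P, ∀ q ∈ P, M.inc q (M.cf (ca p)) → M.inc q (M.cf (cb p)) → q = p) :
    (2 * P.card : ℤ) ≤ P.card + N.card + M.eulerGenus + 1 ∨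
    (6 : ℤ) * (2 * P.card - P.card - N.card - M.eulerGenus) ≤ 2 * (2 * P.card) := by
  classical
  have hcab : ∀ p ∈ P, ∀ q ∈ P, ca p ≠ cb q := by
    intro p hp q hq h
    have e1 : p = q := by rw [← (hca p hp).1, ← (hcb q hq).1, h]
    subst e1
    exact hne p hp (by rw [h])
  have ia : Set.InjOn ca P := by
    intro p hp q hq h
    rw [← (hca p hp).1, ← (hca q hq).1, h]
  have ib : Set.InjOn cb P := by
    intro p hp q hq h
    rw [← (hcb p hp).1, ← (hcb q hq).1, h]
  have hcard : ∀ P' ⊆ P, (P'.image ca ∪ P'.image cb).card = 2 * P'.card := by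
    intro P' hP'
    rw [Finset.card_union_of_disjoint, Finset.card_image_of_injOn (ia.mono (by exact_mod_cast hP')),
      Finset.card_image_of_injOn (ib.mono (by exact_mod_cast hP'))]
    · ring
    · rw [Finset.disjoint_left]
      rintro c hc hc'
      obtain ⟨p, hp, rfl⟩ := Finset.mem_image.1 hc
      obtain ⟨q, hq, h⟩ := Finset.mem_image.1 hc'
      exact hcab p (hP' hp) q (hP' hq) h.symm
  have key := M.euler_ineq (P.image ca ∪ P.image cb) P N (by
    intro c hc
    rcases Finset.mem_union.1 hc with h | h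
    · obtain ⟨p, hp, rfl⟩ := Finset.mem_image.1 h
      exact ⟨by rw [(hca p hp).1]; exact hp, (hca p hp).2⟩
    · obtain ⟨p, hp, rfl⟩ := Finset.mem_image.1 h
      exact ⟨by rw [(hcb p hp).1]; exact hp, (hcb p hp).2⟩) 6 (by
    intro z hz hz0
    have hin : ∀ c, z c ≠ 0 → ∃ p ∈ P, c = ca p ∨ c = cb p := by
      intro c hc
      have hcS : c ∈ P.image ca ∪ P.image cb := by
        by_contra hcS
        exact hc (hz.1 c hcS)
      rcases Finset.mem_union.1 hcS with h | h
      · obtain ⟨p, hp, rfl⟩ := Finset.mem_image.1 h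
        exact ⟨p, hp, Or.inl rfl⟩
      · obtain ⟨p, hp, rfl⟩ := Finset.mem_image.1 h
        exact ⟨p, hp, Or.inr rfl⟩
    have hab : ∀ p ∈ P, (z (ca p) ≠ 0 ↔ z (cb p) ≠ 0) := by
      intro p hp
      constructor
      · intro h
        obtain ⟨c2, e2, n2, h2⟩ := M.par_v hz h
        obtain ⟨q, hq, hq'⟩ := hin c2 h2
        have e : q = p := by
          rw [(hca p hp).1] at e2
          rcases hq' with rfl | rfl
          · rw [(hca q hq).1] at e2; exact e2
          · rw [(hcb q hq).1] at e2; exact e2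
        subst e
        rcases hq' with rfl | rfl
        · exact absurd rfl n2
        · exact h2
      · intro h
        obtain ⟨c2, e2, n2, h2⟩ := M.par_v hz h
        obtain ⟨q, hq, hq'⟩ := hin c2 h2
        have e : q = p := by
          rw [(hcb p hp).1] at e2
          rcases hq' with rfl | rfl
          · rw [(hca q hq).1] at e2; exact e2
          · rw [(hcb q hq).1] at e2; exact e2
        subst e
        rcases hq' with rfl | rfl
        · exact h2
        · exact absurd rfl n2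
    obtain ⟨p1, hp1, hz1⟩ : ∃ p ∈ P, z (ca p) ≠ 0 := by
      obtain ⟨c, hc⟩ : ∃ c, z c ≠ 0 := by
        by_contra hn
        push Not at hn
        exact hz0 (funext hn)
      obtain ⟨p, hp, rfl | rfl⟩ := hin c hc
      · exact ⟨p, hp, hc⟩
      · exact ⟨p, hp, (hab p hp).2 hc⟩
    have hz1' := (hab p1 hp1).1 hz1
    obtain ⟨c2, e2, n2, h2⟩ := M.par_f hz hz1
    obtain ⟨p2, hp2, hp2'⟩ := hin c2 h2
    obtain ⟨c3, e3, n3, h3⟩ := M.par_f hz hz1'
    obtain ⟨p3, hp3, hp3'⟩ := hin c3 h3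
    have z2 : z (ca p2) ≠ 0 := by
      rcases hp2' with rfl | rfl
      · exact h2
      · exact (hab p2 hp2).2 h2
    have z3 : z (ca p3) ≠ 0 := by
      rcases hp3' with rfl | rfl
      · exact h3
      · exact (hab p3 hp3).2 h3
    have d21 : p2 ≠ p1 := by
      rintro rfl
      rcases hp2' with rfl | rfl
      · exact n2 rfl
      · exact hne _ hp2 e2.symm
    have d31 : p3 ≠ p1 := by
      rintro rfl
      rcases hp3' with rfl | rfl
      · exact hne _ hp3 e3
      · exact n3 rfl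
    have d32 : p3 ≠ p2 := by
      rintro rfl
      apply d21
      apply hpriv p1 hp1 p3 hp3
      · refine ⟨c2, ?_, e2⟩
        rcases hp2' with rfl | rfl
        · exact (hca p3 hp3).1
        · exact (hcb p3 hp3).1
      · refine ⟨c3, ?_, e3⟩
        rcases hp3' with rfl | rfl
        · exact (hca p3 hp3).1
        · exact (hcb p3 hp3).1
    have hP' : ({p1, p2, p3} : Finset M.Vertex) ⊆ P := by
      intro p hp
      simp only [Finset.mem_insert, Finset.mem_singleton] at hp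
      rcases hp with rfl | rfl | rfl
      · exact hp1
      · exact hp2
      · exact hp3
    refine ⟨_, (hcard _ hP').ge.trans' ?_, ?_⟩
    · rw [Finset.card_insert_of_notMem, Finset.card_pair d32.symm]
      simp [d21.symm, d31.symm]
    · have hz' : ∀ p ∈ ({p1, p2, p3} : Finset M.Vertex), z (ca p) ≠ 0 := by
        intro p hp
        simp only [Finset.mem_insert, Finset.mem_singleton] at hp
        rcases hp with rfl | rfl | rfl
        · exact hz1
        · exact z2
        · exact z3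
      intro c hc
      rcases Finset.mem_union.1 hc with h | h
      · obtain ⟨p, hp, rfl⟩ := Finset.mem_image.1 h
        exact hz' p hp
      · obtain ⟨p, hp, rfl⟩ := Finset.mem_image.1 h
        exact (hab p (hP' hp)).1 (hz' p hp))
  rw [hcard P (Finset.Subset.refl _)] at key
  push_cast at key
  exact key

end SM
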