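import Pool.Agent.X165.SM4

/-!
# Map graphs on surfaces have bounded clique cover degeneracy: the main theorem
-/

namespace SM

open Module

variable {Φ : Type} [Fintype Φ] (M : SMap Φ)

theorem SMap.good_face (g : ℕ) (hg : M.eulerGenus ≤ g) (N : Finset M.Face) (hN : N.Nonempty) :
    ∃ P : Finset M.Vertex,
      (∀ f ∈ N, ∀ f' ∈ N, f ≠ f' → M.touch f f' → ∃ p ∈ P, M.inc p f ∧ M.inc p f') ∧
      ∃ f ∈ N, ∃ Q : Finset M.Vertex, Q ⊆ P ∧ Q.card ≤ 8 * g + 8 ∧ ∀ p ∈ P, M.inc p f → p ∈ Q := by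
  classical
  let good : Finset M.Vertex → Prop := fun P =>
    ∀ f ∈ N, ∀ f' ∈ N, f ≠ f' → M.touch f f' → ∃ p ∈ P, M.inc p f ∧ M.inc p f'
  have huniv : good Finset.univ := by
    intro f _ f' _ _ ht
    obtain ⟨p, hp⟩ := (M.touch_iff f f').1 ht
    exact ⟨p, Finset.mem_univ _, hp⟩
  -- minimal good set
  obtain ⟨P, hP, hmin⟩ : ∃ P, good P ∧ ∀ P', good P' → P.card ≤ P'.card := by
    obtain ⟨P, hP, hmin⟩ := Finset.exists_min_image
      (Finset.univ.filter (fun P : Finset M.Vertex => good P)) Finset.card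
      ⟨Finset.univ, by simp [huniv]⟩
    exact ⟨P, (Finset.mem_filter.1 hP).2, fun P' hP' => hmin P' (by simp [hP'])⟩
  refine ⟨P, hP, ?_⟩
  have hNpos : 1 ≤ (N.card : ℤ) := by exact_mod_cast hN.card_pos
  -- private pairs
  have hpriv : ∀ p ∈ P, ∃ ca cb : M.Corner, M.cv ca = p ∧ M.cf ca ∈ N ∧ M.cv cb = p ∧
      M.cf cb ∈ N ∧ M.cf ca ≠ M.cf cb ∧
      ∀ q ∈ P, M.inc q (M.cf ca) → M.inc q (M.cf cb) → q = p := by
    intro p hp
    have hng : ¬ good (P.erase p) := by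
      intro h
      have h1 := hmin _ h
      have h2 := Finset.card_erase_lt_of_mem hp
      omega
    simp only [good] at hng
    push Not at hng
    obtain ⟨f, hf, f', hf', hne, ht, hno⟩ := hng
    obtain ⟨q, hq, ⟨c, hc1, hc2⟩, ⟨c', hc1', hc2'⟩⟩ := hP f hf f' hf' hne ht
    have hqp : q = p := by
      by_contra hqp
      exact hno q (Finset.mem_erase.2 ⟨hqp, hq⟩) ⟨c, hc1, hc2⟩ ⟨c', hc1', hc2'⟩
    subst hqp
    refine ⟨c, c', hc1, by rw [hc2]; exact hf, hc1', by rw [hc2']; exact hf', ?_, ?_⟩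
    · rw [hc2, hc2']; exact hne
    · intro r hr h1 h2
      rw [hc2] at h1
      rw [hc2'] at h2
      by_contra hrp
      exact hno r (Finset.mem_erase.2 ⟨hrp, hr⟩) h1 h2
  -- bound on `P`
  have hPbound : (P.card : ℤ) ≤ 3 * N.card + 3 * g := by
    rcases P.eq_empty_or_nonempty with rfl | ⟨p0, hp0⟩
    · simp
      positivity
    obtain ⟨c0, _, _⟩ := hpriv p0 hp0
    haveI : Nonempty M.Corner := ⟨c0⟩
    choose! ca cb h1 h2 h3 h4 h5 h6 using hpriv
    have key := M.private_bound P N ca cb (fun p hp => ⟨h1 p hp, h2 p hp⟩)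
      (fun p hp => ⟨h3 p hp, h4 p hp⟩) h5 h6
    have hg0 : (0 : ℤ) ≤ g := by positivity
    rcases key with h | h <;> linarith
  -- incident pairs
  let I : Finset (M.Vertex × M.Face) := (P ×ˢ N).filter (fun pf => M.inc pf.1 pf.2)
  have hI : ∀ pf ∈ I, ∃ c : M.Corner, M.cv c = pf.1 ∧ M.cf c = pf.2 := by
    intro pf hpf
    exact (Finset.mem_filter.1 hpf).2
  have hIbound : (I.card : ℤ) ≤ 8 * N.card + 8 * g := by
    have hg0 : (0 : ℤ) ≤ g := by positivity
    rcases I.eq_empty_or_nonempty with h0 | ⟨i0, hi0⟩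
    · rw [h0]
      simp
      positivity
    obtain ⟨c0, _⟩ := hI i0 hi0
    haveI : Nonempty M.Corner := ⟨c0⟩
    choose! κ hκ1 hκ2 using hI
    have hinj : Set.InjOn κ I := by
      intro a ha b hb h
      apply Prod.ext
      · rw [← hκ1 a ha, ← hκ1 b hb, h]
      · rw [← hκ2 a ha, ← hκ2 b hb, h]
    have hcard : (I.image κ).card = I.card := Finset.card_image_of_injOn hinj
    have key := M.simple_bound P N (I.image κ) (by
      intro c hc
      obtain ⟨a, ha, rfl⟩ := Finset.mem_image.1 hc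
      have := (Finset.mem_filter.1 ha).1
      rw [Finset.mem_product] at this
      rw [hκ1 a ha, hκ2 a ha]
      exact this) (by
      intro c hc c' hc' e1 e2
      obtain ⟨a, ha, rfl⟩ := Finset.mem_image.1 hc
      obtain ⟨b, hb, rfl⟩ := Finset.mem_image.1 hc'
      rw [hκ1 a ha, hκ1 b hb] at e1
      rw [hκ2 a ha, hκ2 b hb] at e2
      rw [Prod.ext e1 e2])
    rw [hcard] at key
    rcases key with h | h <;> linarith
  -- a nation of small degree
  by_contra hcon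
  push Not at hcon
  have hdeg : ∀ f ∈ N, 8 * g + 9 ≤ (P.filter (fun p => M.inc p f)).card := by
    intro f hf
    by_contra hlt
    obtain ⟨p, hp, hpf, hpn⟩ := hcon f hf (P.filter (fun p => M.inc p f))
      (Finset.filter_subset _ _) (by omega)
    exact hpn (Finset.mem_filter.2 ⟨hp, hpf⟩)
  have hsum : I.card = ∑ f ∈ N, (P.filter (fun p => M.inc p f)).card := by
    rw [Finset.card_eq_sum_card_fiberwise (s := I) (t := N) (f := Prod.snd) (by
      intro a ha
      have := (Finset.mem_filter.1 (Finset.mem_coe.1 ha)).1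
      rw [Finset.mem_product] at this
      exact Finset.mem_coe.2 this.2)]
    refine Finset.sum_congr rfl fun f hf => ?_
    refine Finset.card_bij (fun a _ => a.1) ?_ ?_ ?_
    · intro a ha
      obtain ⟨ha1, ha2⟩ := Finset.mem_filter.1 ha
      obtain ⟨ha3, ha4⟩ := Finset.mem_filter.1 ha1
      rw [Finset.mem_product] at ha3
      refine Finset.mem_filter.2 ⟨ha3.1, ?_⟩
      rw [← ha2]
      exact ha4
    · intro a ha b hb h
      exact Prod.ext h ((Finset.mem_filter.1 ha).2.trans (Finset.mem_filter.1 hb).2.symm)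
    · intro p hp
      obtain ⟨hp1, hp2⟩ := Finset.mem_filter.1 hp
      exact ⟨(p, f), Finset.mem_filter.2 ⟨Finset.mem_filter.2
        ⟨Finset.mem_product.2 ⟨hp1, hf⟩, hp2⟩, rfl⟩, rfl⟩
  have hlow : N.card * (8 * g + 9) ≤ I.card := by
    rw [hsum, ← smul_eq_mul]
    exact Finset.card_nsmul_le_sum _ _ _ hdeg
  have hlow' : (N.card : ℤ) * (8 * g + 9) ≤ I.card := by exact_mod_cast hlow
  have hg0 : (0 : ℤ) ≤ g := by positivity
  nlinarith

theorem main (g : ℕ) {W : Type} (G : SimpleGraph W) (hG : IsMapGraph g G) :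
    CliqueCoverDegeneracyLE G (8 * g + 8) := by
  classical
  obtain ⟨Φ, hΦ, M, ν, hν, hg, hadj⟩ := hG
  haveI : Finite W := Finite.of_injective ν hν
  haveI : Fintype W := Fintype.ofFinite W
  intro U hU
  obtain ⟨P, hP, f, hf, Q, hQP, hQ, hQ'⟩ := M.good_face g hg
    ((Finset.univ.filter (fun w => w ∈ U)).image ν) (by
      obtain ⟨u, hu⟩ := hU
      exact ⟨ν u, Finset.mem_image.2 ⟨u, by simp [hu], rfl⟩⟩)
  obtain ⟨v, hv, rfl⟩ := Finset.mem_image.1 hf
  have hvU : v ∈ U := (Finset.mem_filter.1 hv).2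
  have hmem : ∀ w ∈ U, ν w ∈ (Finset.univ.filter (fun w => w ∈ U)).image ν := fun w hw =>
    Finset.mem_image.2 ⟨w, by simp [hw], rfl⟩
  let Cl : M.Vertex → Set W := fun p => {w | w ∈ U ∧ w ≠ v ∧ M.inc p (ν w) ∧ M.inc p (ν v)}
  refine ⟨v, hvU, Q.image Cl, Finset.card_image_le.trans hQ, ?_, ?_⟩
  · intro C hC
    obtain ⟨p, _, rfl⟩ := Finset.mem_image.1 hC
    intro a ha b hb hab
    exact (hadj a b).2 ⟨hab, (M.touch_iff _ _).2 ⟨p, ha.2.2.1, hb.2.2.1⟩⟩
  · ext w
    simp only [Set.mem_setOf_eq, Finset.mem_image, Set.iUnion_exists, Set.biUnion_and',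
      Set.iUnion_iUnion_eq_right, Set.mem_iUnion, exists_prop]
    constructor
    · rintro ⟨hwU, hw⟩
      obtain ⟨hne, ht⟩ := (hadj v w).1 hw
      obtain ⟨p, hp, hp1, hp2⟩ := hP (ν v) (hmem v hvU) (ν w) (hmem w hwU)
        (fun h => hne (hν h)) ht
      exact ⟨p, hQ' p hp hp1, hwU, hne.symm, hp2, hp1⟩
    · rintro ⟨p, _, hwU, hne, hp2, hp1⟩
      exact ⟨hwU, (hadj v w).2 ⟨hne.symm, (M.touch_iff _ _).2 ⟨p, hp1, hp2⟩⟩⟩

end SM
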