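import Pool.Agent.X165.Tri
import Mathlib

set_option autoImplicit false

open MeasureTheory Set Measure

namespace Pool.Agent.X165.SF

open Pool.Agent.X165.HX

abbrev E2 := EuclideanSpace ℝ (Fin 2)
abbrev E3 := EuclideanSpace ℝ (Fin 3)

/-- cross product -/
noncomputable def cr (u v : E3) : E3 :=
  !₂[u 1 * v 2 - u 2 * v 1, u 2 * v 0 - u 0 * v 2, u 0 * v 1 - u 1 * v 0]

lemma cr0 (u v : E3) : cr u v 0 = u 1 * v 2 - u 2 * v 1 := by simp [cr]
lemma cr1 (u v : E3) : cr u v 1 = u 2 * v 0 - u 0 * v 2 := by simp [cr]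
lemma cr2 (u v : E3) : cr u v 2 = u 0 * v 1 - u 1 * v 0 := by simp [cr]

lemma norm_cr (u v : E3) : ‖cr u v‖ ^ 2 = ‖u‖ ^ 2 * ‖v‖ ^ 2 - inner ℝ u v ^ 2 := by
  simp only [EuclideanSpace.real_norm_sq_eq, Fin.sum_univ_three, cr0, cr1, cr2,
    PiLp.inner_apply, RCLike.inner_apply, conj_trivial]
  ring

/-- coordinates -/
def co (x : E2) : ℝ × ℝ := (x 0, x 1)

lemma co_mp : MeasurePreserving co volume volume :=
  (volume_preserving_finTwoArrow ℝ).comp (PiLp.volume_preserving_ofLp (Fin 2))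

lemma co_emb : MeasurableEmbedding co := by
  have h : co = (MeasurableEquiv.finTwoArrow : (Fin 2 → ℝ) ≃ᵐ ℝ × ℝ) ∘
      (MeasurableEquiv.toLp 2 (Fin 2 → ℝ)).symm := rfl
  rw [h]
  exact (MeasurableEquiv.measurableEmbedding _).comp (MeasurableEquiv.measurableEmbedding _)

/-- the linear map -/
noncomputable def lin (u v : E3) : E2 →ₗ[ℝ] E3 where
  toFun x := x 0 • u + x 1 • v
  map_add' x y := by simp only [PiLp.add_apply]; module
  map_smul' c x := by simp only [PiLp.smul_apply, smul_eq_mul, RingHom.id_apply]; module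

lemma lin_apply (u v : E3) (x : E2) : lin u v x = x 0 • u + x 1 • v := rfl

lemma lin_normDet (u v : E3) : (lin u v).normDet = ‖cr u v‖ := by
  have h := (lin u v).normDet_sq_eq_det_gram (EuclideanSpace.basisFun (Fin 2) ℝ)
  have h2 : (lin u v).normDet ^ 2 = ‖cr u v‖ ^ 2 := by
    rw [norm_cr]
    have h3 : ((lin u v).normDet ^ 2 : ℝ) = ((((lin u v).normDet ^ 2 : ℝ)) : ℝ) := rfl
    rw [show (lin u v).normDet ^ 2 = (Matrix.gram ℝ ((lin u v) <| (EuclideanSpace.basisFun (Fin 2) ℝ) ·)).det from h]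
    rw [Matrix.det_fin_two]
    simp only [Matrix.gram_apply, EuclideanSpace.basisFun_apply, lin_apply]
    simp only [PiLp.single_apply, Fin.isValue]
    simp
    rw [real_inner_comm u v]
    ring
  exact (pow_left_inj₀ (LinearMap.normDet_nonneg _) (norm_nonneg _) two_ne_zero).1 h2

/-- planar patch -/
noncomputable def patch (w u v : E3) (P : Set (ℝ × ℝ)) : Set E3 :=
  (fun p : ℝ × ℝ => w + (p.1 • u + p.2 • v)) '' P

lemma patch_area (w u v : E3) (P : Set (ℝ × ℝ)) :
    (μHE[2] : Measure E3) (patch w u v P) = ENNReal.ofReal ‖cr u v‖ * volume P := by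
  have h1 : patch w u v P = (fun z => w + z) '' (lin u v '' (co ⁻¹' P)) := by
    rw [image_image, patch]
    have h3 : P = co '' (co ⁻¹' P) := by
      rw [image_preimage_eq]
      exact fun p => ⟨!₂[p.1, p.2], by simp [co]⟩
    conv_lhs => rw [h3]
    rw [image_image]
    rfl
  have h2 : Isometry (fun z : E3 => w + z) := (IsometryEquiv.addLeft w).isometry
  rw [h1, h2.euclideanHausdorffMeasure_image]
  have h4 := (lin u v).euclideanHausdorffMeasure_image_eq_normDet_mul_volume (co ⁻¹' P)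
  rw [finrank_euclideanSpace_fin] at h4
  rw [h4, lin_normDet, co_mp.measure_preimage_emb co_emb]

/-- Hlawka's inequality -/
lemma hlawka {V : Type*} [NormedAddCommGroup V] [InnerProductSpace ℝ V] (a b c : V) :
    ‖a + b‖ + ‖b + c‖ + ‖a + c‖ ≤ ‖a‖ + ‖b‖ + ‖c‖ + ‖a + b + c‖ := by
  have e : ‖a‖ ^ 2 + ‖b‖ ^ 2 + ‖c‖ ^ 2 + ‖a + b + c‖ ^ 2 =
      ‖a + b‖ ^ 2 + ‖b + c‖ ^ 2 + ‖a + c‖ ^ 2 := by
    simp only [@norm_add_sq_real, inner_add_left]
    ring
  have h1 := norm_add_le a b
  have h2 := norm_add_le b c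
  have h3 := norm_add_le a c
  have h4 : ‖a + b‖ ≤ ‖c‖ + ‖a + b + c‖ := by
    have := norm_sub_le (a + b + c) c
    rw [add_sub_cancel_right] at this
    linarith
  have h5 : ‖b + c‖ ≤ ‖a‖ + ‖a + b + c‖ := by
    have := norm_sub_le (a + b + c) a
    rw [show a + b + c - a = b + c by abel] at this
    linarith
  have h6 : ‖a + c‖ ≤ ‖b‖ + ‖a + b + c‖ := by
    have := norm_sub_le (a + b + c) b
    rw [show a + b + c - b = a + c by abel] at this
    linarith
  set A := ‖a‖
  set B := ‖b‖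
  set C := ‖c‖
  set S := ‖a + b + c‖
  set x := ‖a + b‖
  set y := ‖b + c‖
  set z := ‖a + c‖
  have hA : 0 ≤ A := norm_nonneg _
  have hB : 0 ≤ B := norm_nonneg _
  have hC : 0 ≤ C := norm_nonneg _
  have hS : 0 ≤ S := norm_nonneg _
  by_contra hcon
  push Not at hcon
  have k1 : 0 ≤ (A + B - x) * (C + S - x) := mul_nonneg (by linarith) (by linarith)
  have k2 : 0 ≤ (B + C - y) * (A + S - y) := mul_nonneg (by linarith) (by linarith)
  have k3 : 0 ≤ (A + C - z) * (B + S - z) := mul_nonneg (by linarith) (by linarith)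
  have k4 : (A + B + C + S) * (A + B + C + S - x - y - z) =
      (A + B - x) * (C + S - x) + (B + C - y) * (A + S - y) + (A + C - z) * (B + S - z) := by
    linear_combination e
  have hx : 0 ≤ x := norm_nonneg _
  have hy : 0 ≤ y := norm_nonneg _
  have hz : 0 ≤ z := norm_nonneg _
  rcases eq_or_lt_of_le (show 0 ≤ A + B + C + S by positivity) with h0 | h0
  · linarith
  · have : (A + B + C + S) * (A + B + C + S - x - y - z) < 0 :=
      mul_neg_of_pos_of_neg h0 (by linarith)
    linarith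

lemma hlawka4 {V : Type*} [NormedAddCommGroup V] [InnerProductSpace ℝ V] (a b c : V) :
    2 * (‖a‖ + ‖b‖ + ‖c‖) ≤ ‖a + b + c‖ + ‖-a + b + c‖ + ‖a - b + c‖ + ‖a + b - c‖ := by
  have h := hlawka (-a + b + c) (a - b + c) (a + b - c)
  rw [show -a + b + c + (a - b + c) = (2:ℝ) • c by module,
    show (a - b + c) + (a + b - c) = (2:ℝ) • a by module,
    show -a + b + c + (a + b - c) = (2:ℝ) • b by module,
    show (2:ℝ) • c + (a + b - c) = a + b + c by module, norm_smul, norm_smul, norm_smul] at h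
  simp only [Real.norm_ofNat] at h
  linarith

end Pool.Agent.X165.SF
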