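import Pool.Agent.X165.Surf

set_option autoImplicit false

open MeasureTheory Set Measure

namespace Pool.Agent.X165.SF

open Pool.Agent.X165.HX

lemma Phi_vol (c w z : ℝ × ℝ) (hD : w.1 * z.2 - z.1 * w.2 ≠ 0) :
    volume (Phi c w z '' tri) = ENNReal.ofReal (|w.1 * z.2 - z.1 * w.2| / 2) := by
  rw [← Phi_one c w z hD, Measure.real, ENNReal.ofReal_toReal]
  have : IsCompact (Phi c w z '' tri) := by
    refine tri_compact.image ?_
    unfold Phi
    fun_prop
  exact this.measure_ne_top

/-- open triangle -/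
def otri (r : ℝ) : Set (ℝ × ℝ) := {p | 0 < p.1 ∧ 0 < p.2 ∧ p.1 + p.2 < r}

lemma otri_vol {r : ℝ} (hr : 0 ≤ r) : volume (otri r) = ENNReal.ofReal (r ^ 2 / 2) := by
  have h1 : otri r = regionBetween (fun _ => 0) (fun x => r - x) (Ioo 0 r) := by
    ext ⟨x, y⟩
    simp only [otri, regionBetween, mem_ofPred_eq, mem_Ioo]
    constructor
    · rintro ⟨h1, h2, h3⟩
      exact ⟨⟨h1, by linarith⟩, h2, by linarith⟩
    · rintro ⟨⟨h1, h2⟩, h3, h4⟩
      exact ⟨h1, h3, by linarith⟩
  rw [h1, Measure.volume_eq_prod, volume_regionBetween_eq_integral]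
  · congr 1
    simp only [Pi.sub_apply, sub_zero]
    rw [← integral_Ioc_eq_integral_Ioo, ← intervalIntegral.integral_of_le hr,
      intervalIntegral.integral_sub (Continuous.intervalIntegrable (by fun_prop) _ _)
      (Continuous.intervalIntegrable (by fun_prop) _ _)]
    simp [integral_id]
    ring
  · exact integrableOn_const (by simp)
  · exact ((continuous_const.sub continuous_id).integrableOn_Icc (a := 0) (b := r)).mono_set
      Ioo_subset_Icc_self
  · exact measurableSet_Ioo
  · intro x hx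
    linarith [hx.2]

/-- the hexagonal region -/
def hexR : Set (ℝ × ℝ) := {p | 0 ≤ p.1 ∧ 0 ≤ p.2 ∧ p.1 ≤ 32 ∧ p.2 ≤ 32 ∧ 9 ≤ p.1 + p.2 ∧ p.1 + p.2 ≤ 41}

lemma mem_Phi {c w z p : ℝ × ℝ} (a b : ℝ) (ha : 0 ≤ a) (hb : 0 ≤ b) (hab : a + b ≤ 1)
    (h1 : p.1 = c.1 + (w.1 * a + z.1 * b)) (h2 : p.2 = c.2 + (w.2 * a + z.2 * b)) :
    p ∈ Phi c w z '' tri := by
  refine ⟨(a, b), ⟨ha, hb, hab⟩, ?_⟩
  ext
  · simp only [Phi]; exact h1.symm
  · simp only [Phi]; exact h2.symm

lemma hexR_vol : volume hexR ≤ ENNReal.ofReal 719 := by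
  have hs : hexR ⊆ ((Phi (9, 0) (23, 0) (23, 9) '' tri ∪ Phi (9, 0) (23, 9) (0, 32) '' tri) ∪
      (Phi (9, 0) (0, 32) (-9, 32) '' tri ∪ Phi (9, 0) (-9, 32) (-9, 9) '' tri)) := by
    rintro ⟨x, y⟩ ⟨h1, h2, h3, h4, h5, h6⟩
    simp only at h1 h2 h3 h4 h5 h6
    rcases le_total (23 * y) (9 * (x - 9)) with k1 | k1
    · left; left
      -- x - 9 = 23 a + 23 b, y = 9 b
      refine mem_Phi ((x - 9) / 23 - y / 9) (y / 9) ?_ ?_ ?_ ?_ ?_
      · linarith
      · linarith
      · linarith
      · simp only; ring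
      · simp only; ring
    rcases le_total 9 x with k2 | k2
    · left; right
      -- x - 9 = 23 a, y = 9 a + 32 b
      refine mem_Phi ((x - 9) / 23) ((y - 9 * (x - 9) / 23) / 32) ?_ ?_ ?_ ?_ ?_
      · linarith
      · linarith
      · linarith
      · simp only; ring
      · simp only; ring
    rcases le_total (-32 * (x - 9)) (9 * y) with k3 | k3
    · right; left
      -- x - 9 = -9 b, y = 32 a + 32 b
      refine mem_Phi (y / 32 - (9 - x) / 9) ((9 - x) / 9) ?_ ?_ ?_ ?_ ?_
      · linarith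
      · linarith
      · linarith
      · simp only; ring
      · simp only; ring
    · right; right
      -- x - 9 = -9 a - 9 b, y = 32 a + 9 b ; a + b = (9-x)/9, 23 a = y - (9 - x)
      refine mem_Phi ((y - (9 - x)) / 23) ((9 - x) / 9 - (y - (9 - x)) / 23) ?_ ?_ ?_ ?_ ?_
      · linarith
      · linarith
      · linarith
      · simp only; ring
      · simp only; ring
  refine (measure_mono hs).trans ?_
  refine (measure_union_le _ _).trans ?_
  refine (add_le_add (measure_union_le _ _) (measure_union_le _ _)).trans ?_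
  rw [Phi_vol _ _ _ (by norm_num), Phi_vol _ _ _ (by norm_num), Phi_vol _ _ _ (by norm_num),
    Phi_vol _ _ _ (by norm_num), ← ENNReal.ofReal_add (by positivity) (by positivity),
    ← ENNReal.ofReal_add (by positivity) (by positivity),
    ← ENNReal.ofReal_add (by positivity) (by positivity)]
  refine ENNReal.ofReal_le_ofReal ?_
  norm_num [abs_of_pos]

/-- the square region -/
def sqR : Set (ℝ × ℝ) := {p | |p.1| + |p.2| ≤ 9}

lemma sqR_vol : volume sqR ≤ ENNReal.ofReal 162 := by
  have hs : sqR ⊆ ((Phi (0, 0) (9, 0) (0, 9) '' tri ∪ Phi (0, 0) (-9, 0) (0, 9) '' tri) ∪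
      (Phi (0, 0) (9, 0) (0, -9) '' tri ∪ Phi (0, 0) (-9, 0) (0, -9) '' tri)) := by
    rintro ⟨x, y⟩ h
    simp only [sqR, mem_ofPred_eq] at h
    rcases le_total 0 x with k1 | k1 <;> rcases le_total 0 y with k2 | k2
    · left; left
      rw [abs_of_nonneg k1, abs_of_nonneg k2] at h
      refine mem_Phi (x / 9) (y / 9) ?_ ?_ ?_ ?_ ?_
      · linarith
      · linarith
      · linarith
      · simp only; ring
      · simp only; ring
    · right; left
      rw [abs_of_nonneg k1, abs_of_nonpos k2] at h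
      refine mem_Phi (x / 9) (-y / 9) ?_ ?_ ?_ ?_ ?_
      · linarith
      · linarith
      · linarith
      · simp only; ring
      · simp only; ring
    · left; right
      rw [abs_of_nonpos k1, abs_of_nonneg k2] at h
      refine mem_Phi (-x / 9) (y / 9) ?_ ?_ ?_ ?_ ?_
      · linarith
      · linarith
      · linarith
      · simp only; ring
      · simp only; ring
    · right; right
      rw [abs_of_nonpos k1, abs_of_nonpos k2] at h
      refine mem_Phi (-x / 9) (-y / 9) ?_ ?_ ?_ ?_ ?_
      · linarith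
      · linarith
      · linarith
      · simp only; ring
      · simp only; ring
  refine (measure_mono hs).trans ?_
  refine (measure_union_le _ _).trans ?_
  refine (add_le_add (measure_union_le _ _) (measure_union_le _ _)).trans ?_
  rw [Phi_vol _ _ _ (by norm_num), Phi_vol _ _ _ (by norm_num), Phi_vol _ _ _ (by norm_num),
    Phi_vol _ _ _ (by norm_num), ← ENNReal.ofReal_add (by positivity) (by positivity),
    ← ENNReal.ofReal_add (by positivity) (by positivity),
    ← ENNReal.ofReal_add (by positivity) (by positivity)]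
  refine ENNReal.ofReal_le_ofReal ?_
  norm_num [abs_of_pos]

end Pool.Agent.X165.SF
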