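import Pool.Agent.X165.SurfA

set_option autoImplicit false

open MeasureTheory Set Measure
open scoped Pointwise

namespace Pool.Agent.X165.SF

/-- octahedra -/
def oct (r : ℝ) : Set E3 := {x | |x 0| + |x 1| + |x 2| ≤ r}

/-- truncated octahedron -/
def trun : Set E3 := {x | |x 0| + |x 1| + |x 2| ≤ 41 ∧ |x 0| ≤ 32 ∧ |x 1| ≤ 32 ∧ |x 2| ≤ 32}

lemma oct_closed (r : ℝ) : IsClosed (oct r) := isClosed_le (by fun_prop) (by fun_prop)

lemma trun_closed : IsClosed trun := by
  have h0 : IsClosed {x : E3 | |x 0| ≤ 32} := isClosed_le (by fun_prop) (by fun_prop)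
  have h1 : IsClosed {x : E3 | |x 1| ≤ 32} := isClosed_le (by fun_prop) (by fun_prop)
  have h2 : IsClosed {x : E3 | |x 2| ≤ 32} := isClosed_le (by fun_prop) (by fun_prop)
  exact (oct_closed 41).inter (h0.inter (h1.inter h2))

lemma oct_bounded (r : ℝ) : Bornology.IsBounded (oct r) := by
  rw [isBounded_iff_forall_norm_le]
  refine ⟨|r|, fun x hx => ?_⟩
  have hx : |x 0| + |x 1| + |x 2| ≤ r := hx
  rw [← abs_norm x, ← sq_le_sq, EuclideanSpace.real_norm_sq_eq, Fin.sum_univ_three]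
  have h0 := abs_nonneg (x 0)
  have h1 := abs_nonneg (x 1)
  have h2 := abs_nonneg (x 2)
  rw [← sq_abs (x 0), ← sq_abs (x 1), ← sq_abs (x 2)]
  nlinarith [mul_nonneg h0 h1, mul_nonneg h0 h2, mul_nonneg h1 h2]

lemma oct_compact (r : ℝ) : IsCompact (oct r) :=
  Metric.isCompact_of_isClosed_isBounded (oct_closed r) (oct_bounded r)

lemma trun_sub : trun ⊆ oct 41 := fun _ h => h.1

lemma trun_compact : IsCompact trun := (oct_compact 41).of_isClosed_subset trun_closed trun_sub

lemma abs_convex {a b : ℝ} (ha : 0 ≤ a) (hb : 0 ≤ b) (x y : ℝ) :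
    |a * x + b * y| ≤ a * |x| + b * |y| := by
  calc |a * x + b * y| ≤ |a * x| + |b * y| := abs_add_le _ _
    _ = a * |x| + b * |y| := by rw [abs_mul, abs_mul, abs_of_nonneg ha, abs_of_nonneg hb]

lemma oct_convex (r : ℝ) : Convex ℝ (oct r) := by
  intro x hx y hy a b ha hb hab
  have hx : |x 0| + |x 1| + |x 2| ≤ r := hx
  have hy : |y 0| + |y 1| + |y 2| ≤ r := hy
  change |(a • x + b • y) 0| + |(a • x + b • y) 1| + |(a • x + b • y) 2| ≤ r
  simp only [PiLp.add_apply, PiLp.smul_apply, smul_eq_mul]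
  have h0 := abs_convex ha hb (x 0) (y 0)
  have h1 := abs_convex ha hb (x 1) (y 1)
  have h2 := abs_convex ha hb (x 2) (y 2)
  have h3 := mul_le_mul_of_nonneg_left hx ha
  have h4 := mul_le_mul_of_nonneg_left hy hb
  have h5 : a * r + b * r = r := by rw [← add_mul, hab, one_mul]
  linarith

lemma trun_convex : Convex ℝ trun := by
  intro x hx y hy a b ha hb hab
  refine ⟨oct_convex 41 hx.1 hy.1 ha hb hab, ?_, ?_, ?_⟩
  all_goals
    simp only [PiLp.add_apply, PiLp.smul_apply, smul_eq_mul]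
    refine (abs_convex ha hb _ _).trans ?_
  · have h3 := mul_le_mul_of_nonneg_left hx.2.1 ha
    have h4 := mul_le_mul_of_nonneg_left hy.2.1 hb
    linarith
  · have h3 := mul_le_mul_of_nonneg_left hx.2.2.1 ha
    have h4 := mul_le_mul_of_nonneg_left hy.2.2.1 hb
    linarith
  · have h3 := mul_le_mul_of_nonneg_left hx.2.2.2 ha
    have h4 := mul_le_mul_of_nonneg_left hy.2.2.2 hb
    linarith

lemma oct_int {r : ℝ} : {x : E3 | |x 0| + |x 1| + |x 2| < r} ⊆ interior (oct r) := by
  refine interior_maximal (fun x (hx : |x 0| + |x 1| + |x 2| < r) =>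
    (hx.le : |x 0| + |x 1| + |x 2| ≤ r)) ?_
  exact isOpen_lt (by fun_prop) (by fun_prop)

lemma trun_int : {x : E3 | |x 0| + |x 1| + |x 2| < 41 ∧ |x 0| < 32 ∧ |x 1| < 32 ∧ |x 2| < 32} ⊆
    interior trun := by
  refine interior_maximal (fun x hx => ⟨hx.1.le, hx.2.1.le, hx.2.2.1.le, hx.2.2.2.le⟩) ?_
  have h0 : IsOpen {x : E3 | |x 0| < 32} := isOpen_lt (by fun_prop) (by fun_prop)
  have h1 : IsOpen {x : E3 | |x 1| < 32} := isOpen_lt (by fun_prop) (by fun_prop)
  have h2 : IsOpen {x : E3 | |x 2| < 32} := isOpen_lt (by fun_prop) (by fun_prop)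
  have h3 : IsOpen {x : E3 | |x 0| + |x 1| + |x 2| < 41} := isOpen_lt (by fun_prop) (by fun_prop)
  exact h3.inter (h0.inter (h1.inter h2))

lemma oct_int_ne {r : ℝ} (hr : 0 < r) : (interior (oct r)).Nonempty :=
  ⟨0, oct_int (by simpa using hr)⟩

lemma trun_int_ne : (interior trun).Nonempty := ⟨0, trun_int (by simp)⟩

lemma oct_smul {r : ℝ} (hr : 0 < r) : oct r = r • oct 1 := by
  ext x
  rw [mem_smul_set_iff_inv_smul_mem₀ hr.ne']
  change _ ↔ |(r⁻¹ • x) 0| + |(r⁻¹ • x) 1| + |(r⁻¹ • x) 2| ≤ 1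
  simp only [PiLp.smul_apply, smul_eq_mul, abs_mul, abs_inv, abs_of_pos hr]
  rw [← mul_add, ← mul_add, inv_mul_le_iff₀ hr, mul_one]
  rfl

lemma oct_vol {r : ℝ} (hr : 0 < r) :
    volume (oct r) = ENNReal.ofReal (r ^ 3) * volume (oct 1) := by
  rw [oct_smul hr, Measure.addHaar_smul, finrank_euclideanSpace_fin, abs_of_pos (by positivity)]

lemma shift_vol (v : E3) (r : ℝ) : volume ((fun x => v + x) '' oct r) = volume (oct r) := by
  rw [Set.image_add_left, measure_preimage_add]

lemma cover : oct 41 ⊆ trun ∪ ⋃ i : Fin 3, ⋃ b : Bool,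
    (fun x => EuclideanSpace.single i (cond b (32 : ℝ) (-32)) + x) '' oct 9 := by
  intro x hx
  have hx' : |x 0| + |x 1| + |x 2| ≤ 41 := hx
  by_cases h : x ∈ trun
  · exact Or.inl h
  right
  have h1 : ∃ i : Fin 3, 32 < |x i| := by
    by_contra hcon
    push Not at hcon
    exact h ⟨hx, hcon 0, hcon 1, hcon 2⟩
  obtain ⟨i, hi⟩ := h1
  simp only [mem_iUnion]
  have key : ∀ s : ℝ, |x i - s| ≤ |x i| - 32 →
      x ∈ (fun x => EuclideanSpace.single i s + x) '' oct 9 := by
    intro s hs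
    refine ⟨x - EuclideanSpace.single i s, ?_, by simp⟩
    change |(x - EuclideanSpace.single i s) 0| + |(x - EuclideanSpace.single i s) 1| +
      |(x - EuclideanSpace.single i s) 2| ≤ 9
    fin_cases i
    · simp at hs ⊢; linarith
    · simp at hs ⊢; linarith
    · simp at hs ⊢; linarith
  rcases le_total 0 (x i) with h0 | h0
  · refine ⟨i, true, key 32 ?_⟩
    rw [abs_of_nonneg h0] at hi ⊢
    rw [abs_of_nonneg (by linarith)]
  · refine ⟨i, false, key (-32) ?_⟩
    rw [abs_of_nonpos h0] at hi ⊢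
    rw [abs_of_nonpos (by linarith)]
    linarith

lemma vol_lt : volume (oct 40) < volume trun := by
  by_contra hcon
  push Not at hcon
  have h1 := (measure_mono (μ := volume) cover).trans (measure_union_le _ _)
  have h2 : volume (⋃ i : Fin 3, ⋃ b : Bool,
    (fun x => EuclideanSpace.single i (cond b (32 : ℝ) (-32)) + x) '' oct 9) ≤
      6 * volume (oct 9) := by
    refine (measure_iUnion_fintype_le _ _).trans ?_
    have h3 : ∀ i : Fin 3, volume (⋃ b : Bool,
        (fun x => EuclideanSpace.single i (cond b (32 : ℝ) (-32)) + x) '' oct 9) ≤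
        2 * volume (oct 9) := by
      intro i
      refine (measure_iUnion_fintype_le _ _).trans ?_
      simp only [Fintype.sum_bool, shift_vol]
      rw [two_mul]
    refine (Finset.sum_le_sum fun i _ => h3 i).trans ?_
    simp only [Finset.sum_const, Finset.card_univ, Fintype.card_fin, nsmul_eq_mul]
    rw [← mul_assoc]
    norm_num
  have h3 := h1.trans (add_le_add hcon h2)
  rw [oct_vol (show (0:ℝ) < 41 by norm_num), oct_vol (show (0:ℝ) < 40 by norm_num),
    oct_vol (show (0:ℝ) < 9 by norm_num)] at h3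
  have h4 : volume (oct 1) ≠ ⊤ := (oct_compact 1).measure_ne_top
  have h5 : volume (oct 1) ≠ 0 := by
    refine (measure_pos_of_nonempty_interior _ (oct_int_ne one_pos)).ne'
  rw [show (6 : ENNReal) = ENNReal.ofReal 6 by norm_num, ← mul_assoc, ← add_mul,
    ← ENNReal.ofReal_mul (by norm_num), ← ENNReal.ofReal_add (by norm_num) (by norm_num)] at h3
  rw [ENNReal.mul_le_mul_iff_left h5 h4] at h3
  rw [ENNReal.ofReal_le_ofReal_iff (by norm_num)] at h3
  norm_num at h3

end Pool.Agent.X165.SF
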