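import Pool.Agent.X165.SurfB

set_option autoImplicit false

open MeasureTheory Set Measure

namespace Pool.Agent.X165.SF

/-- signs -/
def sg (b : Bool) : ℝ := cond b 1 (-1)

lemma sg_sq (b : Bool) : sg b * sg b = 1 := by cases b <;> simp [sg]

lemma sg_abs (x : ℝ) : ∃ b, sg b * x = |x| := by
  rcases le_total 0 x with h | h
  · exact ⟨true, by rw [abs_of_nonneg h]; simp [sg]⟩
  · exact ⟨false, by rw [abs_of_nonpos h]; simp [sg]⟩

lemma sg_pos {b : Bool} {x : ℝ} (h : 0 < sg b * x) : sg b * x = |x| := by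
  cases b
  · simp only [sg, cond_false] at h ⊢
    rw [abs_of_neg (by linarith)]; ring
  · simp only [sg, cond_true, one_mul] at h ⊢
    rw [abs_of_pos h]

abbrev Sg := Bool × Bool × Bool

lemma aff (A : E3 ≃ᵃ[ℝ] E3) (x : E3) : A x = A 0 +
    (x 0 • A.linear (EuclideanSpace.single 0 1) + x 1 • A.linear (EuclideanSpace.single 1 1) +
      x 2 • A.linear (EuclideanSpace.single 2 1)) := by
  have h1 : A x = A 0 + A.linear x := by
    have := A.map_vadd 0 x
    simp only [vadd_eq_add, add_zero] at this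
    rw [this, add_comm]
  have h2 : x = x 0 • EuclideanSpace.single 0 (1:ℝ) + x 1 • EuclideanSpace.single 1 (1:ℝ) +
      x 2 • EuclideanSpace.single 2 (1:ℝ) := by
    ext i
    fin_cases i <;> simp
  conv_lhs => rw [h1, h2]
  simp only [map_add, map_smul]

/-- oct facet norms -/
noncomputable def oN (a0 a1 a2 : E3) (e : Sg) : ℝ :=
  ‖cr (sg e.1 • a0 - sg e.2.2 • a2) (sg e.2.1 • a1 - sg e.2.2 • a2)‖

lemma cr_exp (a0 a1 a2 : E3) (e : Sg) :
    cr (sg e.1 • a0 - sg e.2.2 • a2) (sg e.2.1 • a1 - sg e.2.2 • a2) =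
    (sg e.2.1 * sg e.2.2) • cr a1 a2 - (sg e.1 * sg e.2.2) • cr a0 a2 +
      (sg e.1 * sg e.2.1) • cr a0 a1 := by
  ext i
  fin_cases i
  · simp [cr]; ring
  · simp [cr]; ring
  · simp [cr]; ring

lemma key_ineq (a0 a1 a2 : E3) :
    4 * (‖cr a1 a2‖ + ‖cr a0 a2‖ + ‖cr a0 a1‖) ≤ ∑ e : Sg, oN a0 a1 a2 e := by
  simp only [oN, cr_exp]
  simp only [Fintype.sum_prod_type, Fintype.sum_bool, sg, cond_true, cond_false]
  set c0 := cr a1 a2
  set c1 := cr a0 a2
  set c2 := cr a0 a1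
  have h := hlawka4 c0 (-c1) c2
  rw [norm_neg] at h
  have e1 : ‖((1:ℝ) * 1) • c0 - ((1:ℝ) * 1) • c1 + ((1:ℝ) * 1) • c2‖ = ‖c0 + -c1 + c2‖ := by
    congr 1; module
  have e2 : ‖((1:ℝ) * -1) • c0 - ((1:ℝ) * -1) • c1 + ((1:ℝ) * 1) • c2‖ = ‖c0 + -c1 - c2‖ := by
    rw [← norm_neg]; congr 1; module
  have e3 : ‖(-1 * (1:ℝ)) • c0 - ((1:ℝ) * 1) • c1 + ((1:ℝ) * -1) • c2‖ = ‖c0 - -c1 + c2‖ := by
    rw [← norm_neg]; congr 1; module
  have e4 : ‖(-1 * (-1:ℝ)) • c0 - ((1:ℝ) * -1) • c1 + ((1:ℝ) * -1) • c2‖ = ‖-c0 + -c1 + c2‖ := by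
    rw [← norm_neg]; congr 1; module
  have e5 : ‖((1:ℝ) * 1) • c0 - (-1 * (1:ℝ)) • c1 + (-1 * (1:ℝ)) • c2‖ = ‖-c0 + -c1 + c2‖ := by
    rw [← norm_neg]; congr 1; module
  have e6 : ‖((1:ℝ) * -1) • c0 - (-1 * (-1:ℝ)) • c1 + (-1 * (1:ℝ)) • c2‖ = ‖c0 - -c1 + c2‖ := by
    rw [← norm_neg]; congr 1; module
  have e7 : ‖(-1 * (1:ℝ)) • c0 - (-1 * (1:ℝ)) • c1 + (-1 * (-1:ℝ)) • c2‖ = ‖c0 + -c1 - c2‖ := by
    rw [← norm_neg]; congr 1; module
  have e8 : ‖(-1 * (-1:ℝ)) • c0 - (-1 * (-1:ℝ)) • c1 + (-1 * (-1:ℝ)) • c2‖ = ‖c0 + -c1 + c2‖ := by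
    congr 1; module
  rw [e1, e2, e3, e4, e5, e6, e7, e8]
  linarith

/-- base points and patches of octahedral facets -/
noncomputable def opatch (A : E3 ≃ᵃ[ℝ] E3) (s : ℝ) (e : Sg) (P : Set (ℝ × ℝ)) : Set E3 :=
  patch (A 0 + (s * sg e.2.2) • A.linear (EuclideanSpace.single 2 1))
    (sg e.1 • A.linear (EuclideanSpace.single 0 1) - sg e.2.2 • A.linear (EuclideanSpace.single 2 1))
    (sg e.2.1 • A.linear (EuclideanSpace.single 1 1) - sg e.2.2 • A.linear (EuclideanSpace.single 2 1)) P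

/-- open facets -/
def fac (s : ℝ) (e : Sg) : Set E3 :=
  {x | 0 < sg e.1 * x 0 ∧ 0 < sg e.2.1 * x 1 ∧ 0 < sg e.2.2 * x 2 ∧
    sg e.1 * x 0 + sg e.2.1 * x 1 + sg e.2.2 * x 2 = s}

lemma opatch_sub (A : E3 ≃ᵃ[ℝ] E3) (s : ℝ) (e : Sg) : opatch A s e (otri s) ⊆ A '' fac s e := by
  rintro _ ⟨⟨p, q⟩, ⟨h1, h2, h3⟩, rfl⟩
  simp only at h1 h2 h3
  refine ⟨!₂[sg e.1 * p, sg e.2.1 * q, sg e.2.2 * (s - p - q)], ?_, ?_⟩
  · have k1 : sg e.1 * (sg e.1 * p) = p := by rw [← mul_assoc, sg_sq, one_mul]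
    have k2 : sg e.2.1 * (sg e.2.1 * q) = q := by rw [← mul_assoc, sg_sq, one_mul]
    have k3 : sg e.2.2 * (sg e.2.2 * (s - p - q)) = s - p - q := by rw [← mul_assoc, sg_sq, one_mul]
    simp only [fac, mem_ofPred_eq, Matrix.cons_val_zero, Matrix.cons_val_one,
      Matrix.cons_val, k1, k2, k3]
    exact ⟨h1, h2, by linarith, by ring⟩
  · rw [aff]
    simp only [Matrix.cons_val_zero, Matrix.cons_val_one, Matrix.cons_val]
    module

lemma fac_frontier {s : ℝ} (hs : 0 < s) (e : Sg) : fac s e ⊆ frontier (oct s) := by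
  rintro x ⟨h1, h2, h3, h4⟩
  have h5 : |x 0| + |x 1| + |x 2| = s := by
    rw [← sg_pos h1, ← sg_pos h2, ← sg_pos h3, h4]
  refine ⟨subset_closure (show |x 0| + |x 1| + |x 2| ≤ s from h5.le), fun hint => ?_⟩
  have hc : Continuous (fun t : ℝ => (1 + t) • x) := by fun_prop
  have h0 : (fun t : ℝ => (1 + t) • x) 0 ∈ interior (oct s) := by simpa using hint
  have hn : (fun t : ℝ => (1 + t) • x) ⁻¹' interior (oct s) ∈ nhds (0 : ℝ) :=
    hc.continuousAt (isOpen_interior.mem_nhds h0)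
  rw [Metric.mem_nhds_iff] at hn
  obtain ⟨δ, hδ, hb⟩ := hn
  have hm : δ / 2 ∈ Metric.ball (0:ℝ) δ := by
    rw [Metric.mem_ball, Real.dist_eq, sub_zero, abs_of_pos (by linarith)]
    linarith
  have h6 : (1 + δ / 2) • x ∈ oct s := interior_subset (hb hm)
  have h7 : |((1 + δ / 2) • x) 0| + |((1 + δ / 2) • x) 1| + |((1 + δ / 2) • x) 2| ≤ s := h6
  simp only [PiLp.smul_apply, smul_eq_mul, abs_mul, abs_of_pos (show 0 < 1 + δ / 2 by linarith)] at h7
  rw [← mul_add, ← mul_add, h5] at h7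
  nlinarith

lemma fac_meas (s : ℝ) (e : Sg) : MeasurableSet (fac s e) := by
  have h0 : IsOpen {x : E3 | 0 < sg e.1 * x 0} := isOpen_lt (by fun_prop) (by fun_prop)
  have h1 : IsOpen {x : E3 | 0 < sg e.2.1 * x 1} := isOpen_lt (by fun_prop) (by fun_prop)
  have h2 : IsOpen {x : E3 | 0 < sg e.2.2 * x 2} := isOpen_lt (by fun_prop) (by fun_prop)
  have h3 : IsClosed {x : E3 | sg e.1 * x 0 + sg e.2.1 * x 1 + sg e.2.2 * x 2 = s} :=
    isClosed_eq (by fun_prop) (by fun_prop)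
  exact h0.measurableSet.inter (h1.measurableSet.inter (h2.measurableSet.inter h3.measurableSet))

lemma sg_eq {b b' : Bool} {x : ℝ} (h : 0 < sg b * x) (h' : 0 < sg b' * x) : b = b' := by
  cases b <;> cases b' <;> simp_all [sg] <;> linarith

lemma fac_disj (s : ℝ) {e e' : Sg} (h : e ≠ e') : Disjoint (fac s e) (fac s e') := by
  rw [Set.disjoint_left]
  rintro x ⟨h1, h2, h3, -⟩ ⟨h1', h2', h3', -⟩
  apply h
  exact Prod.ext (sg_eq h1 h1') (Prod.ext (sg_eq h2 h2') (sg_eq h3 h3'))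

/-- the homeomorphism -/
noncomputable def hom (A : E3 ≃ᵃ[ℝ] E3) : E3 ≃ₜ E3 := (AffineEquiv.toContinuousAffineEquiv A).toHomeomorph

lemma hom_image (A : E3 ≃ᵃ[ℝ] E3) (S : Set E3) : hom A '' S = A '' S := rfl

lemma frontier_image (A : E3 ≃ᵃ[ℝ] E3) (S : Set E3) : frontier (A '' S) = A '' frontier S := by
  rw [← hom_image, ← hom_image, (hom A).image_frontier]

lemma lower (A : E3 ≃ᵃ[ℝ] E3) {s : ℝ} (hs : 0 < s) :
    ∑ e : Sg, ENNReal.ofReal (oN (A.linear (EuclideanSpace.single 0 1))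
      (A.linear (EuclideanSpace.single 1 1)) (A.linear (EuclideanSpace.single 2 1)) e) *
        ENNReal.ofReal (s ^ 2 / 2) ≤ (μHE[2] : Measure E3) (frontier (A '' oct s)) := by
  rw [frontier_image]
  have h1 : (⋃ e : Sg, A '' fac s e) ⊆ A '' frontier (oct s) :=
    iUnion_subset fun e => image_mono (fac_frontier hs e)
  refine le_trans ?_ (measure_mono h1)
  rw [measure_iUnion]
  · rw [tsum_fintype]
    refine Finset.sum_le_sum fun e _ => ?_
    refine le_trans ?_ (measure_mono (opatch_sub A s e))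
    rw [opatch, patch_area, otri_vol hs.le]
    rfl
  · intro e e' h
    exact (disjoint_image_iff A.injective).2 (fac_disj s h)
  · intro e
    rw [← hom_image]
    exact (hom A).measurableEmbedding.measurableSet_image.2 (fac_meas s e)

/-- square patches -/
noncomputable def spatch (A : E3 ≃ᵃ[ℝ] E3) (t : ℝ) (i j k : Fin 3) : Set E3 :=
  patch (A 0 + t • A.linear (EuclideanSpace.single i 1)) (A.linear (EuclideanSpace.single j 1))
    (A.linear (EuclideanSpace.single k 1)) sqR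

lemma upper_cover (A : E3 ≃ᵃ[ℝ] E3) : A '' frontier trun ⊆
    (⋃ e : Sg, opatch A 41 e hexR) ∪ (⋃ b : Bool, (spatch A (32 * sg b) 0 1 2 ∪
      (spatch A (32 * sg b) 1 0 2 ∪ spatch A (32 * sg b) 2 0 1))) := by
  rintro _ ⟨x, hx, rfl⟩
  have hx1 : x ∈ trun := trun_closed.frontier_subset hx
  obtain ⟨h1, h2, h3, h4⟩ := hx1
  have hx2 : x ∉ {x : E3 | |x 0| + |x 1| + |x 2| < 41 ∧ |x 0| < 32 ∧ |x 1| < 32 ∧ |x 2| < 32} :=
    fun h => hx.2 (trun_int h)
  by_cases k1 : |x 0| + |x 1| + |x 2| = 41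
  · left
    obtain ⟨p, hp⟩ := sg_abs (x 0)
    obtain ⟨q, hq⟩ := sg_abs (x 1)
    obtain ⟨r, hr⟩ := sg_abs (x 2)
    rw [mem_iUnion]
    refine ⟨(p, q, r), (|x 0|, |x 1|), ⟨abs_nonneg _, abs_nonneg _, h2, h3, ?_, ?_⟩, ?_⟩
    · simp only; linarith
    · simp only; linarith [abs_nonneg (x 2)]
    · simp only
      have e0 : x 0 = sg p * |x 0| := by rw [← hp, ← mul_assoc, sg_sq, one_mul]
      have e1 : x 1 = sg q * |x 1| := by rw [← hq, ← mul_assoc, sg_sq, one_mul]
      have e2 : x 2 = sg r * (41 - |x 0| - |x 1|) := by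
        rw [show 41 - |x 0| - |x 1| = |x 2| by linarith, ← hr, ← mul_assoc, sg_sq, one_mul]
      have e3 : A x = A 0 + ((sg p * |x 0|) • A.linear (EuclideanSpace.single 0 1) +
          (sg q * |x 1|) • A.linear (EuclideanSpace.single 1 1) +
          (sg r * (41 - |x 0| - |x 1|)) • A.linear (EuclideanSpace.single 2 1)) := by
        rw [← e0, ← e1, ← e2]
        exact aff A x
      rw [e3]
      module
  · right
    have k2 : |x 0| = 32 ∨ |x 1| = 32 ∨ |x 2| = 32 := by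
      by_contra hcon
      push Not at hcon
      exact hx2 ⟨lt_of_le_of_ne h1 k1, lt_of_le_of_ne h2 hcon.1, lt_of_le_of_ne h3 hcon.2.1,
        lt_of_le_of_ne h4 hcon.2.2⟩
    rw [mem_iUnion]
    rcases k2 with k2 | k2 | k2
    · obtain ⟨b, hb⟩ := sg_abs (x 0)
      have e0 : x 0 = 32 * sg b := by
        have : x 0 = sg b * |x 0| := by rw [← hb, ← mul_assoc, sg_sq, one_mul]
        rw [this, k2, mul_comm]
      refine ⟨b, Or.inl ⟨(x 1, x 2), ?_, ?_⟩⟩
      · change |x 1| + |x 2| ≤ 9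
        linarith
      · simp only
        rw [aff A x, e0]
        module
    · obtain ⟨b, hb⟩ := sg_abs (x 1)
      have e0 : x 1 = 32 * sg b := by
        have : x 1 = sg b * |x 1| := by rw [← hb, ← mul_assoc, sg_sq, one_mul]
        rw [this, k2, mul_comm]
      refine ⟨b, Or.inr (Or.inl ⟨(x 0, x 2), ?_, ?_⟩)⟩
      · change |x 0| + |x 2| ≤ 9
        linarith
      · simp only
        rw [aff A x, e0]
        module
    · obtain ⟨b, hb⟩ := sg_abs (x 2)
      have e0 : x 2 = 32 * sg b := by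
        have : x 2 = sg b * |x 2| := by rw [← hb, ← mul_assoc, sg_sq, one_mul]
        rw [this, k2, mul_comm]
      refine ⟨b, Or.inr (Or.inr ⟨(x 0, x 1), ?_, ?_⟩)⟩
      · change |x 0| + |x 1| ≤ 9
        linarith
      · simp only
        rw [aff A x, e0]
        module

lemma upper (A : E3 ≃ᵃ[ℝ] E3) : (μHE[2] : Measure E3) (frontier (A '' trun)) ≤
    ∑ e : Sg, ENNReal.ofReal (oN (A.linear (EuclideanSpace.single 0 1))
      (A.linear (EuclideanSpace.single 1 1)) (A.linear (EuclideanSpace.single 2 1)) e) *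
        ENNReal.ofReal 719 +
    ENNReal.ofReal (2 * (‖cr (A.linear (EuclideanSpace.single 1 1))
      (A.linear (EuclideanSpace.single 2 1))‖ +
      ‖cr (A.linear (EuclideanSpace.single 0 1)) (A.linear (EuclideanSpace.single 2 1))‖ +
      ‖cr (A.linear (EuclideanSpace.single 0 1)) (A.linear (EuclideanSpace.single 1 1))‖)) *
        ENNReal.ofReal 162 := by
  rw [frontier_image]
  refine (measure_mono (upper_cover A)).trans ((measure_union_le _ _).trans (add_le_add ?_ ?_))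
  · refine (measure_iUnion_fintype_le _ _).trans (Finset.sum_le_sum fun e _ => ?_)
    rw [opatch, patch_area]
    exact mul_le_mul_right hexR_vol _
  · refine (measure_iUnion_fintype_le _ _).trans ?_
    set N := ‖cr (A.linear (EuclideanSpace.single 1 1))
      (A.linear (EuclideanSpace.single 2 1))‖ +
      ‖cr (A.linear (EuclideanSpace.single 0 1)) (A.linear (EuclideanSpace.single 2 1))‖ +
      ‖cr (A.linear (EuclideanSpace.single 0 1)) (A.linear (EuclideanSpace.single 1 1))‖ with hN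
    have h : ∀ b : Bool, (μHE[2] : Measure E3) (spatch A (32 * sg b) 0 1 2 ∪
        (spatch A (32 * sg b) 1 0 2 ∪ spatch A (32 * sg b) 2 0 1)) ≤
        ENNReal.ofReal N * ENNReal.ofReal 162 := by
      intro b
      refine (measure_union_le _ _).trans ?_
      refine (add_le_add le_rfl (measure_union_le _ _)).trans ?_
      rw [spatch, spatch, spatch, patch_area, patch_area, patch_area]
      refine (add_le_add (mul_le_mul_right sqR_vol _) (add_le_add (mul_le_mul_right sqR_vol _)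
        (mul_le_mul_right sqR_vol _))).trans ?_
      rw [← add_mul, ← add_mul, hN, ENNReal.ofReal_add (by positivity) (by positivity),
        ENNReal.ofReal_add (by positivity) (by positivity), add_assoc]
    refine (Finset.sum_le_sum fun b _ => h b).trans ?_
    have h2 : ENNReal.ofReal (2 * N) = ENNReal.ofReal N + ENNReal.ofReal N := by
      rw [two_mul, ENNReal.ofReal_add (by positivity) (by positivity)]
    rw [Fintype.sum_bool, ← add_mul, h2]

lemma domination (A : E3 ≃ᵃ[ℝ] E3) : (μHE[2] : Measure E3) (frontier (A '' trun)) ≤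
    (μHE[2] : Measure E3) (frontier (A '' oct 40)) := by
  refine (upper A).trans (le_trans ?_ (lower A (by norm_num)))
  set a0 := A.linear (EuclideanSpace.single 0 1)
  set a1 := A.linear (EuclideanSpace.single 1 1)
  set a2 := A.linear (EuclideanSpace.single 2 1)
  have hk := key_ineq a0 a1 a2
  have h0 : ∀ e ∈ (Finset.univ : Finset Sg), 0 ≤ oN a0 a1 a2 e := fun e _ => norm_nonneg _
  rw [← Finset.sum_mul, ← Finset.sum_mul, ← ENNReal.ofReal_sum_of_nonneg h0,
    ← ENNReal.ofReal_mul (Finset.sum_nonneg h0), ← ENNReal.ofReal_mul (Finset.sum_nonneg h0),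
    ← ENNReal.ofReal_mul (by positivity), ← ENNReal.ofReal_add
      (mul_nonneg (Finset.sum_nonneg h0) (by norm_num)) (by positivity)]
  refine ENNReal.ofReal_le_ofReal ?_
  linarith

end Pool.Agent.X165.SF
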