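import Mathlib

set_option autoImplicit false

open MeasureTheory Set

namespace Pool.Agent.X165.HX

/-- the standard triangle -/
def tri : Set (ℝ × ℝ) := {p | 0 ≤ p.1 ∧ 0 ≤ p.2 ∧ p.1 + p.2 ≤ 1}

lemma tri_closed : IsClosed tri := by
  have h1 : IsClosed {p : ℝ × ℝ | 0 ≤ p.1} := isClosed_le continuous_const continuous_fst
  have h2 : IsClosed {p : ℝ × ℝ | 0 ≤ p.2} := isClosed_le continuous_const continuous_snd
  have h3 : IsClosed {p : ℝ × ℝ | p.1 + p.2 ≤ 1} :=
    isClosed_le (continuous_fst.add continuous_snd) continuous_const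
  exact h1.inter (h2.inter h3)

lemma tri_compact : IsCompact tri := by
  refine (isCompact_Icc (a := (0 : ℝ)) (b := 1)).prod (isCompact_Icc (a := (0 : ℝ)) (b := 1))
    |>.of_isClosed_subset tri_closed ?_
  rintro ⟨x, y⟩ ⟨h1, h2, h3⟩
  simp only at h1 h2 h3
  exact ⟨⟨h1, by simp only; linarith⟩, ⟨h2, by simp only; linarith⟩⟩

lemma integral_tri (f : ℝ × ℝ → ℝ) (hf : Continuous f) :
    ∫ p in tri, f p = ∫ u in (0:ℝ)..1, ∫ v in (0:ℝ)..(1 - u), f (u, v) := by
  have hi : IntegrableOn f tri := hf.continuousOn.integrableOn_compact tri_compact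
  rw [← integral_indicator tri_closed.measurableSet, Measure.volume_eq_prod,
    integral_prod _ (by rw [← Measure.volume_eq_prod]; exact hi.integrable_indicator tri_closed.measurableSet)]
  have h1 : ∀ u : ℝ, (∫ v, tri.indicator f (u, v)) =
      (Icc (0:ℝ) 1).indicator (fun u => ∫ v in (0:ℝ)..(1 - u), f (u, v)) u := by
    intro u
    by_cases hu : u ∈ Icc (0:ℝ) 1
    · rw [indicator_of_mem hu, intervalIntegral.integral_of_le (by linarith [hu.2]),
        ← integral_Icc_eq_integral_Ioc, ← integral_indicator measurableSet_Icc]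
      congr 1
      ext v
      by_cases hv : v ∈ Icc (0:ℝ) (1 - u)
      · rw [indicator_of_mem hv, indicator_of_mem]
        exact ⟨hu.1, hv.1, by have := hv.2; simp only; linarith⟩
      · rw [indicator_of_notMem hv, indicator_of_notMem]
        rintro ⟨h1, h2, h3⟩
        simp only at h1 h2 h3
        exact hv ⟨h2, by linarith⟩
    · rw [indicator_of_notMem hu]
      rw [integral_eq_zero_of_ae]
      refine Filter.Eventually.of_forall fun v => ?_
      refine indicator_of_notMem ?_ _
      rintro ⟨h1, h2, h3⟩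
      simp only at h1 h2 h3
      exact hu ⟨h1, by linarith⟩
  simp only [h1]
  rw [integral_indicator measurableSet_Icc, integral_Icc_eq_integral_Ioc,
    ← intervalIntegral.integral_of_le zero_le_one]

lemma tri_one : ∫ _p in tri, (1:ℝ) = 1 / 2 := by
  rw [integral_tri _ continuous_const]
  simp only [intervalIntegral.integral_const, smul_eq_mul, mul_one, sub_zero]
  rw [intervalIntegral.integral_sub (Continuous.intervalIntegrable (by fun_prop) _ _)
    (Continuous.intervalIntegrable (by fun_prop) _ _)]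
  norm_num [integral_id]

lemma tri_fst : ∫ p in tri, p.1 = 1 / 6 := by
  rw [integral_tri _ continuous_fst]
  simp only [intervalIntegral.integral_const, smul_eq_mul, sub_zero]
  have : ∀ u : ℝ, (1 - u) * u = u - u ^ 2 := fun u => by ring
  simp only [this]
  rw [intervalIntegral.integral_sub (Continuous.intervalIntegrable (by fun_prop) _ _)
    (Continuous.intervalIntegrable (by fun_prop) _ _)]
  norm_num [integral_id, integral_pow]

lemma tri_snd : ∫ p in tri, p.2 = 1 / 6 := by
  rw [integral_tri _ continuous_snd]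
  simp only [integral_id]
  have : ∀ u : ℝ, ((1 - u) ^ 2 - 0 ^ 2) / 2 = 1 / 2 - u + u ^ 2 / 2 := fun u => by ring
  simp only [this]
  rw [intervalIntegral.integral_add (Continuous.intervalIntegrable (by fun_prop) _ _)
    (Continuous.intervalIntegrable (by fun_prop) _ _),
    intervalIntegral.integral_sub (Continuous.intervalIntegrable (by fun_prop) _ _)
    (Continuous.intervalIntegrable (by fun_prop) _ _)]
  norm_num [integral_id, integral_pow]

lemma tri_volume : volume.real tri = 1 / 2 := by
  have := tri_one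
  simpa using this

/-- affine parametrisation of a triangle -/
def Phi (c w z : ℝ × ℝ) (p : ℝ × ℝ) : ℝ × ℝ :=
  (c.1 + (w.1 * p.1 + z.1 * p.2), c.2 + (w.2 * p.1 + z.2 * p.2))

lemma Phi_deriv (c w z p : ℝ × ℝ) : HasFDerivAt (Phi c w z)
    (LinearMap.toContinuousLinearMap (Matrix.toLin (Module.Basis.finTwoProd ℝ)
      (Module.Basis.finTwoProd ℝ) !![w.1, z.1; w.2, z.2])) p := by
  rw [Matrix.toLin_finTwoProd_toContinuousLinearMap]
  unfold Phi
  refine HasFDerivAt.prodMk ?_ ?_
  · refine HasFDerivAt.const_add _ ?_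
    refine HasFDerivAt.add ?_ ?_
    · exact hasFDerivAt_fst.const_mul _
    · exact hasFDerivAt_snd.const_mul _
  · refine HasFDerivAt.const_add _ ?_
    refine HasFDerivAt.add ?_ ?_
    · exact hasFDerivAt_fst.const_mul _
    · exact hasFDerivAt_snd.const_mul _

lemma Phi_inj (c w z : ℝ × ℝ) (hD : w.1 * z.2 - z.1 * w.2 ≠ 0) : Function.Injective (Phi c w z) := by
  rintro ⟨a, b⟩ ⟨a', b'⟩ h
  simp only [Phi, Prod.mk.injEq] at h
  obtain ⟨h1, h2⟩ := h
  have e1 : (w.1 * z.2 - z.1 * w.2) * (a - a') = 0 := by linear_combination z.2 * h1 - z.1 * h2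
  have e2 : (w.1 * z.2 - z.1 * w.2) * (b - b') = 0 := by linear_combination w.1 * h2 - w.2 * h1
  have e3 := (mul_eq_zero.1 e1).resolve_left hD
  have e4 := (mul_eq_zero.1 e2).resolve_left hD
  ext
  · simp only; linarith
  · simp only; linarith

lemma integral_Phi (c w z : ℝ × ℝ) (hD : w.1 * z.2 - z.1 * w.2 ≠ 0) (g : ℝ × ℝ → ℝ) :
    ∫ x in Phi c w z '' tri, g x = |w.1 * z.2 - z.1 * w.2| * ∫ p in tri, g (Phi c w z p) := by
  rw [integral_image_eq_integral_abs_det_fderiv_smul volume tri_closed.measurableSet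
    (fun p _ => (Phi_deriv c w z p).hasFDerivWithinAt) (Phi_inj c w z hD).injOn]
  rw [LinearMap.det_toContinuousLinearMap, LinearMap.det_toLin, Matrix.det_fin_two_of]
  simp only [smul_eq_mul]
  rw [integral_const_mul]

lemma Phi_one (c w z : ℝ × ℝ) (hD : w.1 * z.2 - z.1 * w.2 ≠ 0) :
    volume.real (Phi c w z '' tri) = |w.1 * z.2 - z.1 * w.2| / 2 := by
  have := integral_Phi c w z hD (fun _ => 1)
  rw [tri_one] at this
  simp only [integral_const, smul_eq_mul, mul_one, MeasurableSet.univ, measureReal_restrict_apply,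
    univ_inter] at this
  rw [this]
  ring

lemma tri_affine (a b c : ℝ) : ∫ p in tri, (a + (b * p.1 + c * p.2)) = a / 2 + (b + c) / 6 := by
  have h1 : IntegrableOn (fun _ : ℝ × ℝ => a) tri :=
    continuous_const.continuousOn.integrableOn_compact tri_compact
  have h2 : IntegrableOn (fun p : ℝ × ℝ => b * p.1) tri :=
    (continuous_const.mul continuous_fst).continuousOn.integrableOn_compact tri_compact
  have h3 : IntegrableOn (fun p : ℝ × ℝ => c * p.2) tri :=
    (continuous_const.mul continuous_snd).continuousOn.integrableOn_compact tri_compact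
  have h23 : IntegrableOn (fun p : ℝ × ℝ => b * p.1 + c * p.2) tri := h2.add h3
  rw [integral_add h1 h23, integral_add h2 h3, integral_const_mul, integral_const_mul, tri_fst,
    tri_snd]
  have : ∫ _p in tri, a = a * ∫ _p in tri, (1:ℝ) := by
    rw [← integral_const_mul]; simp
  rw [this, tri_one]
  ring

lemma Phi_fst (c w z : ℝ × ℝ) (hD : w.1 * z.2 - z.1 * w.2 ≠ 0) :
    ∫ x in Phi c w z '' tri, x.1 = |w.1 * z.2 - z.1 * w.2| * (c.1 / 2 + (w.1 + z.1) / 6) := by
  rw [integral_Phi c w z hD]
  congr 1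
  exact tri_affine _ _ _

lemma Phi_snd (c w z : ℝ × ℝ) (hD : w.1 * z.2 - z.1 * w.2 ≠ 0) :
    ∫ x in Phi c w z '' tri, x.2 = |w.1 * z.2 - z.1 * w.2| * (c.2 / 2 + (w.2 + z.2) / 6) := by
  rw [integral_Phi c w z hD]
  congr 1
  exact tri_affine _ _ _

end Pool.Agent.X165.HX
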