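import Mathlib

/-! Star-shaped sets given by a gauge are closed discs; loops around a star-shaped hole.
(The proof of `star_ball` is the one of `VT927.k_STAR` in the starting files, for Euclidean space.) -/

set_option autoImplicit false

namespace X165.VN

abbrev E2 := EuclideanSpace ℝ (Fin 2)

theorem gauge_zero {f : E2 → ℝ} (hhom : ∀ t : ℝ, 0 ≤ t → ∀ x : E2, f (t • x) = t * f x) :
    f 0 = 0 := by
  have := hhom 0 le_rfl 0
  simpa using this

theorem star_ball (f : E2 → ℝ) (hf : Continuous f)
    (hhom : ∀ t : ℝ, 0 ≤ t → ∀ x : E2, f (t • x) = t * f x) (hpos : ∀ x : E2, x ≠ 0 → 0 < f x) :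
    Nonempty ({x : E2 | f x ≤ 1} ≃ₜ Metric.closedBall (0 : E2) 1) := by
  have f0 : f 0 = 0 := gauge_zero hhom
  have hnn : ∀ x, 0 ≤ f x := by
    intro x
    by_cases hx : x = 0
    · rw [hx, f0]
    · exact (hpos x hx).le
  obtain ⟨x0, hx0, hmin⟩ := (isCompact_sphere (0 : E2) 1).exists_isMinOn
    (NormedSpace.sphere_nonempty.2 zero_le_one) hf.continuousOn
  have hx0ne : x0 ≠ 0 := by
    intro h
    rw [h] at hx0
    simp at hx0
  set m : ℝ := f x0 with hm
  have hmpos : 0 < m := hpos x0 hx0ne
  have hlow : ∀ x : E2, m * ‖x‖ ≤ f x := by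
    intro x
    by_cases hx : x = 0
    · rw [hx, f0]; simp
    · have hnx : 0 < ‖x‖ := norm_pos_iff.mpr hx
      have h1 : ‖x‖ • (‖x‖⁻¹ • x) = x := by
        rw [smul_smul, mul_inv_cancel₀ hnx.ne', one_smul]
      have h2 := hhom ‖x‖ hnx.le (‖x‖⁻¹ • x)
      rw [h1] at h2
      rw [h2, mul_comm]
      apply mul_le_mul_of_nonneg_left _ hnx.le
      apply hmin
      simp only [mem_sphere_iff_norm, sub_zero, norm_smul, norm_inv, norm_norm]
      exact inv_mul_cancel₀ hnx.ne'
  have hnorm1 : ∀ x : E2, ‖(f x / ‖x‖) • x‖ = f x := by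
    intro x
    by_cases hx : x = 0
    · rw [hx, f0]; simp
    · have hnx : 0 < ‖x‖ := norm_pos_iff.mpr hx
      rw [norm_smul, Real.norm_eq_abs,
        abs_of_nonneg (div_nonneg (hnn x) hnx.le), div_mul_cancel₀ _ hnx.ne']
  have hnorm2 : ∀ y : E2, ‖(‖y‖ / f y) • y‖ ≤ ‖y‖ / m := by
    intro y
    by_cases hy : y = 0
    · rw [hy]; simp
    · have hny : 0 < ‖y‖ := norm_pos_iff.mpr hy
      have hfy : 0 < f y := hpos y hy
      rw [norm_smul, Real.norm_eq_abs,
        abs_of_nonneg (div_nonneg hny.le hfy.le)]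
      rw [le_div_iff₀ hmpos, div_mul_eq_mul_div, div_mul_eq_mul_div, div_le_iff₀ hfy]
      have := hlow y
      nlinarith
  let e : E2 ≃ₜ E2 :=
    { toFun := fun x => (f x / ‖x‖) • x
      invFun := fun y => (‖y‖ / f y) • y
      left_inv := by
        intro x
        by_cases hx : x = 0
        · simp [hx]
        · have hnx : 0 < ‖x‖ := norm_pos_iff.mpr hx
          have hfx : 0 < f x := hpos x hx
          have h1 : f ((f x / ‖x‖) • x) = f x / ‖x‖ * f x :=
            hhom _ (div_nonneg hfx.le hnx.le) x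
          show (‖(f x / ‖x‖) • x‖ / f ((f x / ‖x‖) • x)) • ((f x / ‖x‖) • x) = x
          rw [hnorm1, h1, smul_smul]
          have : f x / (f x / ‖x‖ * f x) * (f x / ‖x‖) = 1 := by field_simp
          rw [this, one_smul]
      right_inv := by
        intro y
        by_cases hy : y = 0
        · simp [hy]
        · have hny : 0 < ‖y‖ := norm_pos_iff.mpr hy
          have hfy : 0 < f y := hpos y hy
          have h1 : f ((‖y‖ / f y) • y) = ‖y‖ / f y * f y :=
            hhom _ (div_nonneg hny.le hfy.le) y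
          have h2 : ‖(‖y‖ / f y) • y‖ = ‖y‖ / f y * ‖y‖ := by
            rw [norm_smul, Real.norm_eq_abs,
              abs_of_nonneg (div_nonneg hny.le hfy.le)]
          show (f ((‖y‖ / f y) • y) / ‖(‖y‖ / f y) • y‖) • ((‖y‖ / f y) • y) = y
          rw [h2, h1, smul_smul]
          have : ‖y‖ / f y * f y / (‖y‖ / f y * ‖y‖) * (‖y‖ / f y) = 1 := by field_simp
          rw [this, one_smul]
      continuous_toFun := by
        rw [continuous_iff_continuousAt]
        intro x
        by_cases hx : x = 0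
        · rw [hx]
          show Filter.Tendsto _ _ _
          simp only [smul_zero]
          rw [tendsto_zero_iff_norm_tendsto_zero]
          simp only [hnorm1]
          have := hf.tendsto 0
          rwa [f0] at this
        · have h1 : ContinuousAt (fun x : E2 => (f x / ‖x‖ : ℝ)) x :=
            hf.continuousAt.div continuous_norm.continuousAt (norm_ne_zero_iff.mpr hx)
          exact h1.smul continuousAt_id
      continuous_invFun := by
        rw [continuous_iff_continuousAt]
        intro y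
        by_cases hy : y = 0
        · rw [hy]
          show Filter.Tendsto _ _ _
          simp only [smul_zero]
          rw [tendsto_zero_iff_norm_tendsto_zero]
          apply squeeze_zero (fun y => norm_nonneg _) hnorm2
          have : Filter.Tendsto (fun y : E2 => ‖y‖ / m) (nhds 0) (nhds (‖(0 : E2)‖ / m)) :=
            (continuous_norm.div_const m).tendsto 0
          simpa using this
        · have h1 : ContinuousAt (fun y : E2 => (‖y‖ / f y : ℝ)) y :=
            continuous_norm.continuousAt.div hf.continuousAt (hpos y hy).ne'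
          exact h1.smul continuousAt_id }
  refine ⟨e.subtype (p := fun x => x ∈ {x : E2 | f x ≤ 1})
    (q := fun y => y ∈ Metric.closedBall (0 : E2) 1) ?_⟩
  intro x
  rw [mem_closedBall_zero_iff]
  show f x ≤ 1 ↔ ‖(f x / ‖x‖) • x‖ ≤ 1
  rw [hnorm1]

/-- the same with another centre -/
theorem star_ball_at (f : E2 → ℝ) (hf : Continuous f)
    (hhom : ∀ t : ℝ, 0 ≤ t → ∀ x : E2, f (t • x) = t * f x) (hpos : ∀ x : E2, x ≠ 0 → 0 < f x)
    (z0 : E2) (C : Set E2) (hC : ∀ z, z ∈ C ↔ f (z - z0) ≤ 1) :
    Nonempty (C ≃ₜ Metric.closedBall (0 : E2) 1) := by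
  obtain ⟨e⟩ := star_ball f hf hhom hpos
  let s : E2 ≃ₜ E2 := Homeomorph.subRight z0
  have h : ∀ x, x ∈ C ↔ s x ∈ {x : E2 | f x ≤ 1} := fun x => hC x
  exact ⟨(s.subtype (p := fun x => x ∈ C) (q := fun y => y ∈ {x : E2 | f x ≤ 1}) h).trans e⟩

/-- complex coordinate -/
noncomputable def cx (z : E2) : ℂ := ⟨z 0, z 1⟩

theorem cx_continuous : Continuous cx := by
  unfold cx
  have h0 : Continuous (fun z : E2 => z 0) := by fun_prop
  have h1 : Continuous (fun z : E2 => z 1) := by fun_prop
  have : (fun z : E2 => (⟨z 0, z 1⟩ : ℂ)) = fun z => ((z 0 : ℝ) : ℂ) + ((z 1 : ℝ) : ℂ) * Complex.I := by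
    funext z
    apply Complex.ext <;> simp
  rw [this]
  fun_prop

theorem cx_inj {z w : E2} (h : cx z = cx w) : z = w := by
  have h0 := congrArg Complex.re h
  have h1 := congrArg Complex.im h
  simp only [cx] at h0 h1
  ext i
  fin_cases i
  · exact h0
  · exact h1

theorem cx_add (z w : E2) : cx (z + w) = cx z + cx w := by
  apply Complex.ext <;> simp [cx]

theorem cx_smul (t : ℝ) (z : E2) : cx (t • z) = (t : ℂ) * cx z := by
  apply Complex.ext <;> simp [cx]

/-- unit vector with angle `2 π t` -/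
noncomputable def uv (t : ℝ) : E2 := !₂[Real.cos (2 * Real.pi * t), Real.sin (2 * Real.pi * t)]

theorem uv_continuous : Continuous uv := by
  unfold uv
  fun_prop

theorem cx_uv (t : ℝ) : cx (uv t) = Complex.exp ((2 * Real.pi * t : ℝ) * Complex.I) := by
  apply Complex.ext
  · rw [Complex.exp_ofReal_mul_I_re]; simp [cx, uv]
  · rw [Complex.exp_ofReal_mul_I_im]; simp [cx, uv]

theorem uv_ne (t : ℝ) : uv t ≠ 0 := by
  intro h
  have := cx_uv t
  rw [h] at this
  have h0 : cx 0 = 0 := by apply Complex.ext <;> simp [cx]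
  rw [h0] at this
  exact Complex.exp_ne_zero _ this.symm

theorem uv_one : uv 1 = uv 0 := by
  unfold uv
  simp

/-- A set that contains a star-shaped closed curve around a point which it misses is not simply connected. -/
theorem not_simply_connected (N : Set E2) (f : E2 → ℝ) (hf : Continuous f)
    (hpos : ∀ x : E2, x ≠ 0 → 0 < f x)
    (hhom : ∀ t : ℝ, 0 ≤ t → ∀ x : E2, f (t • x) = t * f x)
    (z0 : E2) (hz0 : z0 ∉ N) (hN : ∀ z, f (z - z0) = 1 → z ∈ N) :
    ¬ SimplyConnectedSpace N := by
  intro hsc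
  -- the loop
  have hfu : ∀ t, 0 < f (uv t) := fun t => hpos _ (uv_ne t)
  have hmem : ∀ t : ℝ, z0 + (f (uv t))⁻¹ • uv t ∈ N := by
    intro t
    apply hN
    rw [add_sub_cancel_left, hhom _ (inv_nonneg.2 (hfu t).le), inv_mul_cancel₀ (hfu t).ne']
  have hc1 : Continuous fun t : ℝ => z0 + (f (uv t))⁻¹ • uv t := by
    have h1 : Continuous fun t : ℝ => (f (uv t))⁻¹ :=
      (hf.comp uv_continuous).inv₀ fun t => (hfu t).ne'
    exact continuous_const.add (h1.smul uv_continuous)
  let g : ℝ → N := fun t => ⟨z0 + (f (uv t))⁻¹ • uv t, hmem t⟩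
  have hg : Continuous g := hc1.subtype_mk _
  have hg1 : g 1 = g 0 := by
    apply Subtype.ext
    show z0 + (f (uv 1))⁻¹ • uv 1 = z0 + (f (uv 0))⁻¹ • uv 0
    rw [uv_one]
  let γ : Path (g 0) (g 0) :=
    { toFun := fun t => g t
      continuous_toFun := hg.comp continuous_subtype_val
      source' := by simp
      target' := by simpa using hg1 }
  have hhomot : γ.Homotopic (Path.refl (g 0)) := SimplyConnectedSpace.paths_homotopic _ _
  -- the map to the punctured plane
  let X := {z : ℂ // z ≠ 0}
  have hG : ∀ z : N, cx (z : E2) - cx z0 ≠ 0 := by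
    intro z h
    have : (z : E2) = z0 := cx_inj (sub_eq_zero.1 h)
    exact hz0 (this ▸ z.2)
  let G : C(N, X) := ⟨fun z => ⟨cx (z : E2) - cx z0, hG z⟩,
    ((cx_continuous.comp continuous_subtype_val).sub continuous_const).subtype_mk _⟩
  have hmap : (γ.map G.continuous).Homotopic ((Path.refl (g 0)).map G.continuous) :=
    hhomot.map G
  have cov := Complex.isCoveringMap_exp
  -- explicit lift
  let lift : ℝ → ℂ := fun t => ((Real.log ((f (uv t))⁻¹) : ℝ) : ℂ) + ((2 * Real.pi * t : ℝ) : ℂ) * Complex.I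
  have hliftc : Continuous lift := by
    have h1 : Continuous fun t : ℝ => Real.log ((f (uv t))⁻¹) := by
      apply Continuous.log
      · exact (hf.comp uv_continuous).inv₀ fun t => (hfu t).ne'
      · intro t; exact (inv_pos.2 (hfu t)).ne'
    show Continuous fun t : ℝ => ((Real.log ((f (uv t))⁻¹) : ℝ) : ℂ) + ((2 * Real.pi * t : ℝ) : ℂ) * Complex.I
    exact (Complex.continuous_ofReal.comp h1).add
      ((Complex.continuous_ofReal.comp (by fun_prop)).mul continuous_const)
  have hexp : ∀ t : ℝ, Complex.exp (lift t) = cx (g t : E2) - cx z0 := by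
    intro t
    show Complex.exp (((Real.log ((f (uv t))⁻¹) : ℝ) : ℂ) + ((2 * Real.pi * t : ℝ) : ℂ) * Complex.I)
      = cx (z0 + (f (uv t))⁻¹ • uv t) - cx z0
    rw [Complex.exp_add, ← Complex.ofReal_exp, Real.exp_log (inv_pos.2 (hfu t)), ← cx_uv, cx_add,
      cx_smul]
    ring
  let Γ : C(unitInterval, ℂ) := ⟨fun t => lift t, hliftc.comp continuous_subtype_val⟩
  let c0 : C(unitInterval, X) := (γ.map G.continuous).toContinuousMap
  let c1 : C(unitInterval, X) := ((Path.refl (g 0)).map G.continuous).toContinuousMap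
  have h0 : c0 0 = (⟨Complex.exp (lift 0), Complex.exp_ne_zero _⟩ : X) := by
    apply Subtype.ext
    show cx (γ 0 : E2) - cx z0 = Complex.exp (lift 0)
    rw [hexp 0]
    simp [γ]
  have h1 : c1 0 = (⟨Complex.exp (lift 0), Complex.exp_ne_zero _⟩ : X) := by
    apply Subtype.ext
    show cx ((Path.refl (g 0)) 0 : E2) - cx z0 = Complex.exp (lift 0)
    rw [hexp 0]
    simp
  have hfin := cov.liftPath_apply_one_eq_of_homotopicRel (γ₀ := c0) (γ₁ := c1) hmap (lift 0) h0 h1
  have hL0 : Γ = cov.liftPath c0 (lift 0) h0 := by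
    rw [cov.eq_liftPath_iff']
    constructor
    · funext t
      apply Subtype.ext
      show Complex.exp (lift t) = cx (γ t : E2) - cx z0
      rw [hexp]
      rfl
    · show lift ((0 : unitInterval) : ℝ) = lift 0
      simp
  have hL1 : ContinuousMap.const _ (lift 0) = cov.liftPath c1 (lift 0) h1 := by
    rw [cov.eq_liftPath_iff']
    constructor
    · funext t
      apply Subtype.ext
      show Complex.exp (lift 0) = cx ((Path.refl (g 0)) t : E2) - cx z0
      rw [hexp]
      simp
    · rfl
  rw [← hL0, ← hL1] at hfin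
  have h2 : lift 1 = lift 0 := by
    have : Γ 1 = lift 1 := by show lift ((1 : unitInterval) : ℝ) = lift 1; simp
    rw [← this, hfin]
    rfl
  have h3 := congrArg Complex.im h2
  simp only [lift, Complex.add_im, Complex.ofReal_im, Complex.mul_im, Complex.ofReal_re, Complex.I_im,
    Complex.I_re, mul_one, mul_zero, add_zero, zero_add] at h3
  have := Real.pi_pos
  linarith

end X165.VN
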