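import Pool.Agent.X165.VN1

/-! Lattice coordinates of the plane and the triangular cells. -/

set_option autoImplicit false

namespace X165.VN

/-- lattice coordinates `(x, y)` of the point `x (1, 0) + y (1/2, √3/2)` -/
noncomputable def Ph (p : ℝ × ℝ) : E2 := !₂[p.1 + p.2 / 2, Real.sqrt 3 / 2 * p.2]

noncomputable def Ps (z : E2) : ℝ × ℝ := (z 0 - z 1 / Real.sqrt 3, 2 / Real.sqrt 3 * z 1)

theorem s3 : Real.sqrt 3 * Real.sqrt 3 = 3 := Real.mul_self_sqrt (by norm_num)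
theorem s3pos : 0 < Real.sqrt 3 := Real.sqrt_pos.2 (by norm_num)
theorem s3ne : Real.sqrt 3 ≠ 0 := s3pos.ne'

theorem Ps_Ph (p : ℝ × ℝ) : Ps (Ph p) = p := by
  have := s3ne
  have h3 := s3
  unfold Ps Ph
  apply Prod.ext
  · simp
    field_simp
    ring
  · simp
    field_simp

theorem Ph_Ps (z : E2) : Ph (Ps z) = z := by
  have := s3ne
  have h3 := s3
  unfold Ps Ph
  ext i
  fin_cases i
  · simp
    field_simp
    ring
  · simp
    field_simp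

theorem Ph_continuous : Continuous Ph := by
  unfold Ph
  fun_prop

theorem Ps_continuous : Continuous Ps := by
  unfold Ps
  fun_prop

theorem Ph_add (p q : ℝ × ℝ) : Ph (p + q) = Ph p + Ph q := by
  unfold Ph
  ext i
  fin_cases i
  · simp; ring
  · simp; ring

theorem Ps_sub (z w : E2) : Ps (z - w) = Ps z - Ps w := by
  unfold Ps
  apply Prod.ext
  · simp; ring
  · simp; ring

theorem Ps_smul (t : ℝ) (z : E2) : Ps (t • z) = (t * (Ps z).1, t * (Ps z).2) := by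
  unfold Ps
  apply Prod.ext
  · simp; ring
  · simp; ring

theorem dist_Ph (p q : ℝ × ℝ) : dist (Ph p) (Ph q) =
    Real.sqrt ((p.1 - q.1) ^ 2 + (p.1 - q.1) * (p.2 - q.2) + (p.2 - q.2) ^ 2) := by
  rw [EuclideanSpace.dist_eq]
  congr 1
  have h3 : Real.sqrt 3 ^ 2 = 3 := Real.sq_sqrt (by norm_num)
  simp only [Fin.sum_univ_two, Real.dist_eq, sq_abs, Ph]
  simp
  ring_nf
  rw [h3]
  ring

/-- rotation by 60 degrees in lattice coordinates -/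
def rR (p : ℝ × ℝ) : ℝ × ℝ := (-p.2, p.1 + p.2)
def rRi (p : ℝ × ℝ) : ℝ × ℝ := (p.1 + p.2, -p.1)

/-- rotation by 60 degrees of (three times) the centroid of a cell -/
def rZ (c : ℤ × ℤ) : ℤ × ℤ := (-c.2, c.1 + c.2)

theorem rR_rRi (p : ℝ × ℝ) : rR (rRi p) = p := by
  unfold rR rRi; apply Prod.ext <;> simp

theorem rRi_rR (p : ℝ × ℝ) : rRi (rR p) = p := by
  unfold rR rRi; apply Prod.ext <;> simp

noncomputable def rotE : E2 ≃ᵢ E2 :=
  IsometryEquiv.mk' (fun z => Ph (rR (Ps z))) (fun z => Ph (rRi (Ps z)))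
    (fun z => by simp only [Ps_Ph, rR_rRi, Ph_Ps])
    (by
      apply Isometry.of_dist_eq
      intro z w
      conv_rhs => rw [← Ph_Ps z, ← Ph_Ps w]
      rw [dist_Ph, dist_Ph]
      congr 1
      unfold rR
      ring)

theorem rotE_Ph (p : ℝ × ℝ) : rotE (Ph p) = Ph (rR p) := by
  show Ph (rR (Ps (Ph p))) = Ph (rR p)
  rw [Ps_Ph]

/-- the closed triangle of the triangular lattice with three times the centroid `c` -/
def tri (c : ℤ × ℤ) : Set (ℝ × ℝ) :=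
  {p | (c.1 % 3 = 1 → (c.1 : ℝ) - 1 ≤ 3 * p.1 ∧ (c.2 : ℝ) - 1 ≤ 3 * p.2 ∧
      3 * (p.1 + p.2) ≤ (c.1 : ℝ) + c.2 + 1) ∧
    (c.1 % 3 = 2 → 3 * p.1 ≤ (c.1 : ℝ) + 1 ∧ 3 * p.2 ≤ (c.2 : ℝ) + 1 ∧
      (c.1 : ℝ) + c.2 - 1 ≤ 3 * (p.1 + p.2))}

/-- centroids of cells -/
def IsCell (c : ℤ × ℤ) : Prop := (c.1 % 3 = 1 ∧ c.2 % 3 = 1) ∨ (c.1 % 3 = 2 ∧ c.2 % 3 = 2)

instance (c : ℤ × ℤ) : Decidable (IsCell c) := by unfold IsCell; infer_instance

theorem IsCell.rZ {c : ℤ × ℤ} (h : IsCell c) : IsCell (rZ c) := by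
  unfold IsCell VN.rZ at *
  simp only
  omega

theorem tri_rot {c : ℤ × ℤ} (h : IsCell c) (p : ℝ × ℝ) : rR p ∈ tri (rZ c) ↔ p ∈ tri c := by
  unfold tri rR rZ
  simp only [Set.mem_setOf_eq]
  push_cast
  rcases h with ⟨h1, h2⟩ | ⟨h1, h2⟩
  · constructor
    · rintro ⟨-, H⟩
      obtain ⟨a, b, d⟩ := H (by omega)
      refine ⟨fun _ => ⟨?_, ?_, ?_⟩, fun h' => by omega⟩ <;> linarith
    · rintro ⟨H, -⟩
      obtain ⟨a, b, d⟩ := H h1
      refine ⟨fun h' => by omega, fun _ => ⟨?_, ?_, ?_⟩⟩ <;> linarith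
  · constructor
    · rintro ⟨H, -⟩
      obtain ⟨a, b, d⟩ := H (by omega)
      refine ⟨fun h' => by omega, fun _ => ⟨?_, ?_, ?_⟩⟩ <;> linarith
    · rintro ⟨-, H⟩
      obtain ⟨a, b, d⟩ := H h1
      refine ⟨fun _ => ⟨?_, ?_, ?_⟩, fun h' => by omega⟩ <;> linarith

theorem tri_shift (c t : ℤ × ℤ) (p : ℝ × ℝ) :
    p + ((t.1 : ℝ), (t.2 : ℝ)) ∈ tri (c.1 + 3 * t.1, c.2 + 3 * t.2) ↔ p ∈ tri c := by
  unfold tri
  simp only [Set.mem_setOf_eq]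
  have e1 : (c.1 + 3 * t.1) % 3 = c.1 % 3 := by omega
  rw [e1]
  push_cast
  simp only [Prod.fst_add, Prod.snd_add]
  constructor
  · rintro ⟨h1, h2⟩
    refine ⟨fun h => ?_, fun h => ?_⟩
    · obtain ⟨a, b, d⟩ := h1 h
      refine ⟨?_, ?_, ?_⟩ <;> linarith
    · obtain ⟨a, b, d⟩ := h2 h
      refine ⟨?_, ?_, ?_⟩ <;> linarith
  · rintro ⟨h1, h2⟩
    refine ⟨fun h => ?_, fun h => ?_⟩
    · obtain ⟨a, b, d⟩ := h1 h
      refine ⟨?_, ?_, ?_⟩ <;> linarith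
    · obtain ⟨a, b, d⟩ := h2 h
      refine ⟨?_, ?_, ?_⟩ <;> linarith

theorem tri_rot_iter {c : ℤ × ℤ} (h : IsCell c) (r : ℕ) (p : ℝ × ℝ) :
    rR^[r] p ∈ tri (rZ^[r] c) ↔ p ∈ tri c := by
  induction r generalizing c p with
  | zero => simp
  | succ r ih =>
    rw [Function.iterate_succ_apply, Function.iterate_succ_apply, ih h.rZ, tri_rot h]

/-- every point lies in a cell -/
theorem exists_tri (p : ℝ × ℝ) : ∃ (X Y : ℤ) (s : ℤ), (s = 1 ∨ s = 2) ∧ p ∈ tri (3 * X + s, 3 * Y + s) := by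
  have hx1 := Int.floor_le p.1
  have hx2 := Int.lt_floor_add_one p.1
  have hy1 := Int.floor_le p.2
  have hy2 := Int.lt_floor_add_one p.2
  by_cases h : p.1 + p.2 ≤ ⌊p.1⌋ + ⌊p.2⌋ + 1
  · refine ⟨⌊p.1⌋, ⌊p.2⌋, 1, Or.inl rfl, ?_⟩
    unfold tri
    simp only [Set.mem_setOf_eq]
    refine ⟨fun _ => ?_, fun h' => by omega⟩
    push_cast
    refine ⟨?_, ?_, ?_⟩ <;> linarith
  · push Not at h
    refine ⟨⌊p.1⌋, ⌊p.2⌋, 2, Or.inr rfl, ?_⟩
    unfold tri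
    simp only [Set.mem_setOf_eq]
    refine ⟨fun h' => by omega, fun _ => ?_⟩
    push_cast
    refine ⟨?_, ?_, ?_⟩ <;> linarith

/-- a point off the lattice lines lies in one cell only -/
theorem tri_unique {p : ℝ × ℝ} (h1 : ∀ k : ℤ, p.1 ≠ k) (h2 : ∀ k : ℤ, p.2 ≠ k)
    (h3 : ∀ k : ℤ, p.1 + p.2 ≠ k) {c d : ℤ × ℤ} (hc : IsCell c) (hd : IsCell d)
    (pc : p ∈ tri c) (pd : p ∈ tri d) : c = d := by
  have key : ∀ {c : ℤ × ℤ}, IsCell c → p ∈ tri c →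
      (p.1 + p.2 < ⌊p.1⌋ + ⌊p.2⌋ + 1 ∧ c = (3 * ⌊p.1⌋ + 1, 3 * ⌊p.2⌋ + 1)) ∨
      (⌊p.1⌋ + ⌊p.2⌋ + 1 < p.1 + p.2 ∧ c = (3 * ⌊p.1⌋ + 2, 3 * ⌊p.2⌋ + 2)) := by
    intro c hc pc
    unfold tri at pc
    simp only [Set.mem_setOf_eq] at pc
    rcases hc with ⟨a1, a2⟩ | ⟨a1, a2⟩
    · left
      obtain ⟨b1, b2, b3⟩ := pc.1 a1
      obtain ⟨X, hX⟩ : ∃ X : ℤ, c.1 = 3 * X + 1 := ⟨c.1 / 3, by omega⟩
      obtain ⟨Y, hY⟩ : ∃ Y : ℤ, c.2 = 3 * Y + 1 := ⟨c.2 / 3, by omega⟩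
      rw [hX, hY] at b3
      rw [hX] at b1
      rw [hY] at b2
      push_cast at b1 b2 b3
      have l1 : (X : ℝ) < p.1 := lt_of_le_of_ne (by linarith) (h1 X).symm
      have l2 : (Y : ℝ) < p.2 := lt_of_le_of_ne (by linarith) (h2 Y).symm
      have l3 : p.1 + p.2 < ((X + Y + 1 : ℤ) : ℝ) :=
        lt_of_le_of_ne (by push_cast; linarith) (h3 _)
      push_cast at l3
      have f1 : ⌊p.1⌋ = X := by rw [Int.floor_eq_iff]; constructor <;> linarith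
      have f2 : ⌊p.2⌋ = Y := by rw [Int.floor_eq_iff]; constructor <;> linarith
      rw [f1, f2]
      exact ⟨by linarith, Prod.ext hX hY⟩
    · right
      obtain ⟨b1, b2, b3⟩ := pc.2 a1
      obtain ⟨X, hX⟩ : ∃ X : ℤ, c.1 = 3 * X + 2 := ⟨c.1 / 3, by omega⟩
      obtain ⟨Y, hY⟩ : ∃ Y : ℤ, c.2 = 3 * Y + 2 := ⟨c.2 / 3, by omega⟩
      rw [hX, hY] at b3
      rw [hX] at b1
      rw [hY] at b2
      push_cast at b1 b2 b3
      have l1 : p.1 < ((X + 1 : ℤ) : ℝ) := lt_of_le_of_ne (by push_cast; linarith) (h1 _)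
      have l2 : p.2 < ((Y + 1 : ℤ) : ℝ) := lt_of_le_of_ne (by push_cast; linarith) (h2 _)
      have l3 : ((X + Y + 1 : ℤ) : ℝ) < p.1 + p.2 :=
        lt_of_le_of_ne (by push_cast; linarith) (h3 _).symm
      push_cast at l1 l2 l3
      have f1 : ⌊p.1⌋ = X := by rw [Int.floor_eq_iff]; constructor <;> linarith
      have f2 : ⌊p.2⌋ = Y := by rw [Int.floor_eq_iff]; constructor <;> linarith
      rw [f1, f2]
      exact ⟨by linarith, Prod.ext hX hY⟩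
  rcases key hc pc with ⟨a, b⟩ | ⟨a, b⟩ <;> rcases key hd pd with ⟨a', b'⟩ | ⟨a', b'⟩
  · rw [b, b']
  · linarith
  · linarith
  · rw [b, b']

/-- every nonempty open set of the plane contains a point off the lattice lines -/
theorem exists_generic (U : Set (ℝ × ℝ)) (hU : IsOpen U) (hne : U.Nonempty) :
    ∃ p ∈ U, (∀ k : ℤ, p.1 ≠ k) ∧ (∀ k : ℤ, p.2 ≠ k) ∧ (∀ k : ℤ, p.1 + p.2 ≠ k) := by
  obtain ⟨p0, hp0⟩ := hne
  have hc : Continuous fun t : ℝ => ((p0.1 + t, p0.2 + 2 * t) : ℝ × ℝ) := by fun_prop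
  have hmem : (fun t : ℝ => ((p0.1 + t, p0.2 + 2 * t) : ℝ × ℝ)) ⁻¹' U ∈ nhds (0 : ℝ) := by
    apply (hU.preimage hc).mem_nhds
    simpa using hp0
  obtain ⟨ε, hε, hball⟩ := Metric.mem_nhds_iff.1 hmem
  have gap : ∀ a : ℝ, ∃ δ > 0, ∀ t : ℝ, 0 < t → t < δ → ∀ k : ℤ, a + t ≠ k := by
    intro a
    refine ⟨⌊a⌋ + 1 - a, by linarith [Int.lt_floor_add_one a], fun t h0 h1 k hk => ?_⟩
    have l1 : (⌊a⌋ : ℝ) < k := by rw [← hk]; linarith [Int.floor_le a]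
    have l2 : (k : ℝ) < ⌊a⌋ + 1 := by rw [← hk]; linarith
    have l3 : ⌊a⌋ < k := by exact_mod_cast l1
    have l4 : k < ⌊a⌋ + 1 := by exact_mod_cast l2
    omega
  obtain ⟨d1, hd1, g1⟩ := gap p0.1
  obtain ⟨d2, hd2, g2⟩ := gap p0.2
  obtain ⟨d3, hd3, g3⟩ := gap (p0.1 + p0.2)
  set t := min (min (ε / 2) (d1 / 2)) (min (d2 / 3) (d3 / 4)) with ht
  have t0 : 0 < t := by
    refine lt_min (lt_min (by linarith) (by linarith)) (lt_min (by linarith) (by linarith))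
  have tε : t ≤ ε / 2 := (min_le_left _ _).trans (min_le_left _ _)
  have t1 : t ≤ d1 / 2 := (min_le_left _ _).trans (min_le_right _ _)
  have t2 : t ≤ d2 / 3 := (min_le_right _ _).trans (min_le_left _ _)
  have t3 : t ≤ d3 / 4 := (min_le_right _ _).trans (min_le_right _ _)
  refine ⟨(p0.1 + t, p0.2 + 2 * t), ?_, g1 t t0 (by linarith), g2 (2 * t) (by linarith) (by linarith), ?_⟩
  · have : t ∈ Metric.ball (0 : ℝ) ε := by
      rw [Metric.mem_ball, dist_zero_right, Real.norm_eq_abs, abs_of_pos t0]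
      linarith
    exact hball this
  · intro k hk
    apply g3 (3 * t) (by linarith) (by linarith) k
    rw [← hk]
    show p0.1 + p0.2 + 3 * t = p0.1 + t + (p0.2 + 2 * t)
    ring

end X165.VN
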