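import Pool.Agent.X165.VN2

/-! The tiling by V-shaped octiamonds: table, covering, uniqueness of the tile of a cell, congruence. -/

set_option autoImplicit false

namespace X165.VN

/-- the eight cells (three times the centroids) of the ten tiles of a period -/
def cell : Fin 10 → Fin 8 → ℤ × ℤ :=
  ![![(1, 4), (1, 7), (2, 2), (2, 5), (2, 8), (4, 7), (5, 8), (7, 7)],
    ![(7, 25), (7, 28), (8, 23), (8, 26), (8, 29), (10, 28), (11, 29), (13, 28)],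
    ![(10, 22), (10, 25), (11, 20), (11, 23), (11, 26), (13, 25), (14, 26), (16, 25)],
    ![(13, 19), (13, 22), (14, 17), (14, 20), (14, 23), (16, 22), (17, 23), (19, 22)],
    ![(5, 23), (2, 26), (7, 22), (4, 25), (1, 28), (2, 29), (1, 31), (2, 32)],
    ![(10, 19), (13, 16), (8, 20), (11, 17), (14, 14), (13, 13), (14, 11), (13, 10)],
    ![(2, 11), (5, 11), (1, 10), (4, 10), (7, 10), (8, 8), (10, 7), (11, 5)],
    ![(2, 14), (5, 14), (1, 13), (4, 13), (7, 13), (8, 11), (10, 10), (11, 8)],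
    ![(2, 17), (5, 17), (1, 16), (4, 16), (7, 16), (8, 14), (10, 13), (11, 11)],
    ![(2, 20), (5, 20), (1, 19), (4, 19), (7, 19), (8, 17), (10, 16), (11, 14)]]

def rIdx : Fin 10 → ℕ := ![0, 0, 0, 0, 1, 4, 5, 5, 5, 5]

def tIdx : Fin 10 → ℤ × ℤ :=
  ![(0, 0), (2, 7), (3, 6), (4, 5), (3, 6), (2, 8), (-1, 4), (-1, 5), (-1, 6), (-1, 7)]

/-- the tile that contains the cell `(3 X + s + 1, 3 Y + s + 1)`, `X < 5`, `Y < 8`, `s < 2` -/
def own : Fin 5 → Fin 8 → Fin 2 → Fin 10 × Fin 8 × ℤ × ℤ :=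
  ![![![(4, 3, 0, -1), (0, 2, 0, 0)], ![(0, 0, 0, 0), (0, 3, 0, 0)], ![(0, 1, 0, 0), (0, 4, 0, 0)], ![(6, 2, 0, 0), (6, 0, 0, 0)], ![(7, 2, 0, 0), (7, 0, 0, 0)], ![(8, 2, 0, 0), (8, 0, 0, 0)], ![(9, 2, 0, 0), (9, 0, 0, 0)], ![(3, 5, -1, 0), (3, 6, -1, 0)]],
    ![![(1, 0, 0, -1), (1, 3, 0, -1)], ![(1, 1, 0, -1), (1, 4, 0, -1)], ![(0, 5, 0, 0), (0, 6, 0, 0)], ![(6, 3, 0, 0), (6, 1, 0, 0)], ![(7, 3, 0, 0), (7, 1, 0, 0)], ![(8, 3, 0, 0), (8, 1, 0, 0)], ![(9, 3, 0, 0), (9, 1, 0, 0)], ![(3, 7, -1, 0), (4, 0, 0, 0)]],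
    ![![(2, 1, 0, -1), (2, 4, 0, -1)], ![(1, 5, 0, -1), (1, 6, 0, -1)], ![(0, 7, 0, 0), (6, 5, 0, 0)], ![(6, 4, 0, 0), (7, 5, 0, 0)], ![(7, 4, 0, 0), (8, 5, 0, 0)], ![(8, 4, 0, 0), (9, 5, 0, 0)], ![(9, 4, 0, 0), (5, 2, 0, 0)], ![(4, 2, 0, 0), (1, 2, 0, 0)]],
    ![![(2, 5, 0, -1), (2, 6, 0, -1)], ![(1, 7, 0, -1), (6, 7, 0, 0)], ![(6, 6, 0, 0), (7, 7, 0, 0)], ![(7, 6, 0, 0), (8, 7, 0, 0)], ![(8, 6, 0, 0), (9, 7, 0, 0)], ![(9, 6, 0, 0), (5, 3, 0, 0)], ![(5, 0, 0, 0), (2, 2, 0, 0)], ![(2, 0, 0, 0), (2, 3, 0, 0)]],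
    ![![(2, 7, 0, -1), (4, 1, 1, -1)], ![(4, 4, 1, -1), (4, 5, 1, -1)], ![(4, 6, 1, -1), (4, 7, 1, -1)], ![(5, 7, 0, 0), (5, 6, 0, 0)], ![(5, 5, 0, 0), (5, 4, 0, 0)], ![(5, 1, 0, 0), (3, 2, 0, 0)], ![(3, 0, 0, 0), (3, 3, 0, 0)], ![(3, 1, 0, 0), (3, 4, 0, 0)]]]

theorem cell_valid : ∀ i k, IsCell (cell i k) := by decide +kernel

theorem cell_rot : ∀ i k, cell i k =
    ((rZ^[rIdx i] (cell 0 k)).1 + 3 * (tIdx i).1, (rZ^[rIdx i] (cell 0 k)).2 + 3 * (tIdx i).2) := by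
  decide +kernel

theorem own_spec : ∀ (X : Fin 5) (Y : Fin 8) (s : Fin 2),
    ((3 * (X.val : ℤ) + s.val + 1, 3 * (Y.val : ℤ) + s.val + 1) : ℤ × ℤ) =
      ((cell (own X Y s).1 (own X Y s).2.1).1 + 15 * (own X Y s).2.2.1 + 3 * (own X Y s).2.2.2,
        (cell (own X Y s).1 (own X Y s).2.1).2 + 24 * (own X Y s).2.2.2) := by
  decide +kernel

theorem cell_sep : ∀ (i : Fin 10) (k : Fin 8) (i' : Fin 10) (k' : Fin 8),
    ((cell i k).2 - (cell i' k').2) % 24 = 0 →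
    ((cell i k).1 - (cell i' k').1 - 3 * (((cell i k).2 - (cell i' k').2) / 24)) % 15 = 0 →
    i = i' ∧ (cell i k).2 - (cell i' k').2 = 0 ∧ (cell i k).1 - (cell i' k').1 = 0 := by
  decide +kernel

/-- the cell number `k` of the tile `(i, m, n)` -/
def cl (i : Fin 10) (m n : ℤ) (k : Fin 8) : ℤ × ℤ :=
  ((cell i k).1 + 15 * m + 3 * n, (cell i k).2 + 24 * n)

/-- the tile `(i, m, n)` in lattice coordinates -/
def TL (i : Fin 10) (m n : ℤ) : Set (ℝ × ℝ) := {p | ∃ k : Fin 8, p ∈ tri (cl i m n k)}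

theorem cl_valid (i : Fin 10) (m n : ℤ) (k : Fin 8) : IsCell (cl i m n k) := by
  have := cell_valid i k
  unfold IsCell cl at *
  simp only at *
  omega

theorem cl_unique {i i' : Fin 10} {m n m' n' : ℤ} {k k' : Fin 8} (h : cl i m n k = cl i' m' n' k') :
    i = i' ∧ m = m' ∧ n = n' := by
  unfold cl at h
  rw [Prod.mk.injEq] at h
  obtain ⟨h1, h2⟩ := h
  have a2 : (cell i k).2 - (cell i' k').2 = 24 * (n' - n) := by linarith
  have a1 : (cell i k).1 - (cell i' k').1 = 15 * (m' - m) + 3 * (n' - n) := by linarith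
  obtain ⟨b0, b2, b1⟩ := cell_sep i k i' k' (by omega) (by omega)
  refine ⟨b0, ?_, ?_⟩ <;> omega

theorem TL_cover (p : ℝ × ℝ) : ∃ i m n, p ∈ TL i m n := by
  obtain ⟨X, Y, s, hs, hp⟩ := exists_tri p
  have hY0 : 0 ≤ Y % 8 := Int.emod_nonneg _ (by norm_num)
  have hY1 : Y % 8 < 8 := Int.emod_lt_of_pos _ (by norm_num)
  have hX0 : 0 ≤ (X - Y / 8) % 5 := Int.emod_nonneg _ (by norm_num)
  have hX1 : (X - Y / 8) % 5 < 5 := Int.emod_lt_of_pos _ (by norm_num)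
  let X0 : Fin 5 := ⟨((X - Y / 8) % 5).toNat, by omega⟩
  let Y0 : Fin 8 := ⟨(Y % 8).toNat, by omega⟩
  let s0 : Fin 2 := ⟨(s - 1).toNat, by omega⟩
  have e := own_spec X0 Y0 s0
  have eX : (X0.val : ℤ) = (X - Y / 8) % 5 := by show (((X - Y / 8) % 5).toNat : ℤ) = _; omega
  have eY : (Y0.val : ℤ) = Y % 8 := by show ((Y % 8).toNat : ℤ) = _; omega
  have es : (s0.val : ℤ) = s - 1 := by show ((s - 1).toNat : ℤ) = _; omega
  rw [eX, eY, es, Prod.mk.injEq] at e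
  obtain ⟨e1, e2⟩ := e
  refine ⟨(own X0 Y0 s0).1, (own X0 Y0 s0).2.2.1 + (X - Y / 8) / 5, (own X0 Y0 s0).2.2.2 + Y / 8,
    (own X0 Y0 s0).2.1, ?_⟩
  convert hp using 2
  unfold cl
  apply Prod.ext
  · simp only
    have := Int.emod_add_mul_ediv (X - Y / 8) 5
    linarith
  · simp only
    have := Int.emod_add_mul_ediv Y 8
    linarith

/-! congruence -/

theorem rotE_pow_Ph (r : ℕ) (p : ℝ × ℝ) : (rotE ^ r) (Ph p) = Ph (rR^[r] p) := by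
  induction r generalizing p with
  | zero => simp
  | succ r ih =>
    rw [pow_succ, Function.iterate_succ_apply]
    show (rotE ^ r) (rotE (Ph p)) = _
    rw [rotE_Ph, ih]

/-- translation vector of the tile `(i, m, n)` -/
noncomputable def tv (i : Fin 10) (m n : ℤ) : ℝ × ℝ :=
  ((((tIdx i).1 + 5 * m + n : ℤ) : ℝ), (((tIdx i).2 + 8 * n : ℤ) : ℝ))

/-- the isometry that moves the tile `(0, 0, 0)` to the tile `(i, m, n)` -/
noncomputable def mv (i : Fin 10) (m n : ℤ) : E2 ≃ᵢ E2 :=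
  (rotE ^ rIdx i).trans
    (IsometryEquiv.addRight (Ph (tv i m n)))

theorem mv_Ph (i : Fin 10) (m n : ℤ) (p : ℝ × ℝ) : mv i m n (Ph p) =
    Ph (rR^[rIdx i] p + tv i m n) := by
  unfold mv
  rw [Ph_add, ← rotE_pow_Ph]
  rfl

theorem TL_mv (i : Fin 10) (m n : ℤ) (p : ℝ × ℝ) :
    rR^[rIdx i] p + tv i m n ∈ TL i m n ↔
      p ∈ TL 0 0 0 := by
  have key : ∀ k, rR^[rIdx i] p + tv i m n ∈
      tri (cl i m n k) ↔ p ∈ tri (cl 0 0 0 k) := by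
    intro k
    have e : cl i m n k = ((rZ^[rIdx i] (cell 0 k)).1 + 3 * ((tIdx i).1 + 5 * m + n, (tIdx i).2 + 8 * n).1,
        (rZ^[rIdx i] (cell 0 k)).2 + 3 * ((tIdx i).1 + 5 * m + n, (tIdx i).2 + 8 * n).2) := by
      unfold cl
      rw [cell_rot i k]
      apply Prod.ext
      · simp only; ring
      · simp only; ring
    have e0 : cl 0 0 0 k = cell 0 k := by
      unfold cl
      apply Prod.ext <;> simp
    rw [e, e0]
    unfold tv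
    have h1 := tri_shift (rZ^[rIdx i] (cell 0 k)) ((tIdx i).1 + 5 * m + n, (tIdx i).2 + 8 * n) (rR^[rIdx i] p)
    exact h1.trans (tri_rot_iter (cell_valid 0 k) _ p)
  unfold TL
  simp only [Set.mem_setOf_eq, key]

theorem rR_surj (r : ℕ) : Function.Surjective (rR^[r]) :=
  Function.Surjective.iterate (fun p => ⟨rRi p, rR_rRi p⟩) r

/-- the tiles are congruent -/
theorem tile_congr (i : Fin 10) (m n : ℤ) : Ph '' TL i m n = mv i m n '' (Ph '' TL 0 0 0) := by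
  ext z
  constructor
  · rintro ⟨q, hq, rfl⟩
    obtain ⟨p, hp⟩ := rR_surj (rIdx i) (q - tv i m n)
    have hq' : q = rR^[rIdx i] p + tv i m n := by
      rw [hp]; abel
    refine ⟨Ph p, ⟨p, ?_, rfl⟩, ?_⟩
    · rw [← TL_mv i m n, ← hq']; exact hq
    · rw [mv_Ph, ← hq']
  · rintro ⟨_, ⟨p, hp, rfl⟩, rfl⟩
    rw [mv_Ph]
    exact ⟨_, (TL_mv i m n p).2 hp, rfl⟩

end X165.VN
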